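import Pool.Agent.helper19.L9.CN

/-!
# Alon-Tarsi coefficients by blocks

`pi : V → ℕ` numbers the blocks.  `E` is split into inner edges (both ends in the same block) and
cross edges.  If the coefficient of `X ^ s` in the polynomial of the inner edges is non-zero, then
the coefficient of `X ^ (s + r)` in the polynomial of `E` is non-zero, where `r v` is the number of
cross edges at `v` whose other end lies in a lower block.
-/

namespace Helper19.L9

open MvPolynomial Finset

variable {V ι : Type*}

/-- weight of a monomial: `∑ m v * pi v` -/
noncomputable def wgt (pi : V → ℕ) (m : V →₀ ℕ) : ℕ := m.sum fun v a => a * pi v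

theorem wgt_add (pi : V → ℕ) (m n : V →₀ ℕ) : wgt pi (m + n) = wgt pi m + wgt pi n := by
  unfold wgt
  rw [Finsupp.sum_add_index']
  · intro v; simp
  · intro v a b; ring

theorem wgt_single (pi : V → ℕ) (v : V) (a : ℕ) : wgt pi (Finsupp.single v a) = a * pi v := by
  unfold wgt
  rw [Finsupp.sum_single_index]; simp

theorem wgt_le (pi : V → ℕ) (u w : ι → V) (E : Finset ι) :
    ∀ m : V →₀ ℕ, coeff m (linPoly u w E) ≠ 0 →
      wgt pi m ≤ ∑ e ∈ E, max (pi (u e)) (pi (w e)) := by
  classical
  induction E using Finset.induction_on with
  | empty =>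
    intro m hm
    have : m = 0 := by
      by_contra h
      apply hm
      simp only [linPoly, Finset.prod_empty]
      rw [coeff_one, if_neg (Ne.symm h)]
    subst this
    simp [wgt]
  | insert e E he ih =>
    intro m hm
    rw [Finset.sum_insert he]
    have e2 : linPoly u w (insert e E) =
        X (u e) * linPoly u w E - X (w e) * linPoly u w E := by
      unfold linPoly
      rw [Finset.prod_insert he]; ring
    rw [e2, coeff_sub] at hm
    have key : ∀ x : V, coeff m (X x * linPoly u w E) ≠ 0 →
        wgt pi m ≤ pi x + ∑ e ∈ E, max (pi (u e)) (pi (w e)) := by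
      intro x hx
      rw [coeff_X_mul'] at hx
      split_ifs at hx with hxs
      · have hx' : 1 ≤ m x := Nat.one_le_iff_ne_zero.mpr (Finsupp.mem_support_iff.mp hxs)
        have hle : Finsupp.single x 1 ≤ m := by
          rw [Finsupp.single_le_iff]; exact hx'
        have h := tsub_add_cancel_of_le hle
        have h2 := ih _ hx
        have h3 := congrArg (wgt pi) h
        rw [wgt_add, wgt_single] at h3
        omega
      · exact absurd rfl hx
    by_cases h1 : coeff m (X (u e) * linPoly u w E) = 0
    · have h2 : coeff m (X (w e) * linPoly u w E) ≠ 0 := by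
        intro h2; rw [h1, h2] at hm; simp at hm
      have := key _ h2
      have := le_max_right (pi (u e)) (pi (w e))
      omega
    · have := key _ h1
      have := le_max_left (pi (u e)) (pi (w e))
      omega

/-- the end of `e` in the higher block -/
noncomputable def top (pi : V → ℕ) (u w : ι → V) (e : ι) : V :=
  if pi (u e) < pi (w e) then w e else u e

/-- the multiset of payers of the cross edges, as an exponent -/
noncomputable def pay (pi : V → ℕ) (u w : ι → V) (E : Finset ι) : V →₀ ℕ :=
  ∑ e ∈ E.filter (fun e => pi (u e) ≠ pi (w e)), Finsupp.single (top pi u w e) 1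

/-- leading form of a conflict with respect to the block weight -/
noncomputable def lead (pi : V → ℕ) (u w : ι → V) (e : ι) : MvPolynomial V ℤ :=
  if pi (u e) = pi (w e) then X (u e) - X (w e)
  else if pi (u e) < pi (w e) then - X (w e) else X (u e)

theorem coeff_lead (pi : V → ℕ) (u w : ι → V) (E : Finset ι) :
    ∀ t : V →₀ ℕ, wgt pi t = ∑ e ∈ E, max (pi (u e)) (pi (w e)) →
      coeff t (linPoly u w E) = coeff t (∏ e ∈ E, lead pi u w e) := by
  classical
  induction E using Finset.induction_on with
  | empty => intro t _; simp [linPoly]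
  | insert e E he ih =>
    intro t ht
    rw [Finset.sum_insert he] at ht
    have e2 : linPoly u w (insert e E) =
        X (u e) * linPoly u w E - X (w e) * linPoly u w E := by
      unfold linPoly
      rw [Finset.prod_insert he]; ring
    rw [e2, coeff_sub, Finset.prod_insert he]
    -- the term with `x` of maximal block
    have key : ∀ x : V, pi x = max (pi (u e)) (pi (w e)) →
        coeff t (X x * linPoly u w E) = coeff t (X x * ∏ e ∈ E, lead pi u w e) := by
      intro x hx
      rw [coeff_X_mul', coeff_X_mul']
      split_ifs with hxs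
      · apply ih
        have hx' : 1 ≤ t x := Nat.one_le_iff_ne_zero.mpr (Finsupp.mem_support_iff.mp hxs)
        have hle : Finsupp.single x 1 ≤ t := by
          rw [Finsupp.single_le_iff]; exact hx'
        have h3 := congrArg (wgt pi) (tsub_add_cancel_of_le hle)
        rw [wgt_add, wgt_single] at h3
        omega
      · rfl
    have key0 : ∀ x : V, pi x < max (pi (u e)) (pi (w e)) →
        coeff t (X x * linPoly u w E) = 0 := by
      intro x hx
      rw [coeff_X_mul']
      split_ifs with hxs
      · by_contra hne
        have h1 := wgt_le pi u w E _ hne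
        have hx' : 1 ≤ t x := Nat.one_le_iff_ne_zero.mpr (Finsupp.mem_support_iff.mp hxs)
        have hle : Finsupp.single x 1 ≤ t := by
          rw [Finsupp.single_le_iff]; exact hx'
        have h3 := congrArg (wgt pi) (tsub_add_cancel_of_le hle)
        rw [wgt_add, wgt_single] at h3
        omega
      · rfl
    unfold lead
    rcases lt_trichotomy (pi (u e)) (pi (w e)) with h | h | h
    · rw [if_neg h.ne, if_pos h, key0 (u e) (by rw [max_eq_right h.le]; exact h),
        key (w e) (by rw [max_eq_right h.le]), neg_mul, coeff_neg]
      unfold lead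
      simp
    · rw [if_pos h, key (u e) (by rw [h, max_self]), key (w e) (by rw [h, max_self]), sub_mul,
        coeff_sub]
      unfold lead
      simp
    · rw [if_neg h.ne', if_neg (not_lt.mpr h.le), key0 (w e) (by rw [max_eq_left h.le]; exact h),
        key (u e) (by rw [max_eq_left h.le]), sub_zero]
      unfold lead
      simp

theorem prod_lead (pi : V → ℕ) (u w : ι → V) (E : Finset ι) :
    ∃ σ : ℤ, (σ = 1 ∨ σ = -1) ∧ ∏ e ∈ E, lead pi u w e =
      C σ * (linPoly u w (E.filter fun e => pi (u e) = pi (w e)) *
        monomial (pay pi u w E) 1) := by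
  classical
  induction E using Finset.induction_on with
  | empty => exact ⟨1, Or.inl rfl, by simp [linPoly, pay]⟩
  | insert e E he ih =>
    obtain ⟨σ, hσ, hprod⟩ := ih
    rw [Finset.prod_insert he, hprod]
    by_cases h : pi (u e) = pi (w e)
    · refine ⟨σ, hσ, ?_⟩
      have h1 : pay pi u w (insert e E) = pay pi u w E := by
        unfold pay
        rw [Finset.filter_insert, if_neg (not_not.mpr h)]
      have h2 : linPoly u w ((insert e E).filter fun e => pi (u e) = pi (w e)) =
          (X (u e) - X (w e)) * linPoly u w (E.filter fun e => pi (u e) = pi (w e)) := by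
        rw [Finset.filter_insert, if_pos h]
        unfold linPoly
        rw [Finset.prod_insert (fun hh => he (Finset.mem_filter.mp hh).1)]
      rw [h1, h2]
      unfold lead
      rw [if_pos h]
      ring
    · have h1 : pay pi u w (insert e E) = Finsupp.single (top pi u w e) 1 + pay pi u w E := by
        unfold pay
        rw [Finset.filter_insert, if_pos h,
          Finset.sum_insert (fun hh => he (Finset.mem_filter.mp hh).1)]
      have h2 : linPoly u w ((insert e E).filter fun e => pi (u e) = pi (w e)) =
          linPoly u w (E.filter fun e => pi (u e) = pi (w e)) := by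
        rw [Finset.filter_insert, if_neg h]
      have h3 : (monomial (pay pi u w (insert e E)) 1 : MvPolynomial V ℤ) =
          X (top pi u w e) * monomial (pay pi u w E) 1 := by
        rw [h1, X, monomial_mul, one_mul]
      rw [h2, h3]
      unfold lead top
      rw [if_neg h]
      by_cases hlt : pi (u e) < pi (w e)
      · refine ⟨-σ, ?_, ?_⟩
        · rcases hσ with h | h <;> simp [h]
        · rw [if_pos hlt, if_pos hlt, map_neg]; ring
      · refine ⟨σ, hσ, ?_⟩
        rw [if_neg hlt, if_neg hlt]; ring

theorem wgt_pay (pi : V → ℕ) (u w : ι → V) (E : Finset ι) :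
    wgt pi (pay pi u w E) = ∑ e ∈ E.filter (fun e => pi (u e) ≠ pi (w e)),
      max (pi (u e)) (pi (w e)) := by
  classical
  unfold pay
  generalize E.filter (fun e => pi (u e) ≠ pi (w e)) = F
  induction F using Finset.induction_on with
  | empty => simp [wgt]
  | insert e F he ih =>
    rw [Finset.sum_insert he, Finset.sum_insert he, wgt_add, wgt_single, ih, one_mul]
    congr 1
    unfold top
    split_ifs with h
    · rw [max_eq_right h.le]
    · rw [max_eq_left (not_lt.mp h)]

/-- all monomials of the inner polynomial have the same weight -/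
theorem wgt_inner (pi : V → ℕ) (u w : ι → V) (E : Finset ι)
    (hE : ∀ e ∈ E, pi (u e) = pi (w e)) :
    ∀ m : V →₀ ℕ, coeff m (linPoly u w E) ≠ 0 →
      wgt pi m = ∑ e ∈ E, max (pi (u e)) (pi (w e)) := by
  classical
  induction E using Finset.induction_on with
  | empty =>
    intro m hm
    have : m = 0 := by
      by_contra h
      apply hm
      simp only [linPoly, Finset.prod_empty]
      rw [coeff_one, if_neg (Ne.symm h)]
    subst this
    simp [wgt]
  | insert e E he ih =>
    intro m hm
    rw [Finset.sum_insert he]
    have hpe := hE e (Finset.mem_insert_self _ _)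
    have ih' := ih (fun e' he' => hE e' (Finset.mem_insert_of_mem he'))
    have e2 : linPoly u w (insert e E) =
        X (u e) * linPoly u w E - X (w e) * linPoly u w E := by
      unfold linPoly
      rw [Finset.prod_insert he]; ring
    rw [e2, coeff_sub] at hm
    have key : ∀ x : V, coeff m (X x * linPoly u w E) ≠ 0 →
        wgt pi m = pi x + ∑ e ∈ E, max (pi (u e)) (pi (w e)) := by
      intro x hx
      rw [coeff_X_mul'] at hx
      split_ifs at hx with hxs
      · have hx' : 1 ≤ m x := Nat.one_le_iff_ne_zero.mpr (Finsupp.mem_support_iff.mp hxs)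
        have hle : Finsupp.single x 1 ≤ m := by
          rw [Finsupp.single_le_iff]; exact hx'
        have h2 := ih' _ hx
        have h3 := congrArg (wgt pi) (tsub_add_cancel_of_le hle)
        rw [wgt_add, wgt_single] at h3
        omega
      · exact absurd rfl hx
    by_cases h1 : coeff m (X (u e) * linPoly u w E) = 0
    · have h2 : coeff m (X (w e) * linPoly u w E) ≠ 0 := by
        intro h2; rw [h1, h2] at hm; simp at hm
      rw [key _ h2, hpe, max_self]
    · rw [key _ h1, ← hpe, max_self]

/-- **Blocks.** -/
theorem coeff_blocks (pi : V → ℕ) (u w : ι → V) (E : Finset ι) (s : V →₀ ℕ)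
    (hs : coeff s (linPoly u w (E.filter fun e => pi (u e) = pi (w e))) ≠ 0) :
    coeff (s + pay pi u w E) (linPoly u w E) ≠ 0 := by
  classical
  have hw : wgt pi (s + pay pi u w E) = ∑ e ∈ E, max (pi (u e)) (pi (w e)) := by
    rw [wgt_add, wgt_pay, wgt_inner pi u w _ (fun e he => (Finset.mem_filter.mp he).2) s hs,
      ← Finset.sum_filter_add_sum_filter_not E (fun e => pi (u e) = pi (w e))]
  rw [coeff_lead pi u w E _ hw]
  obtain ⟨σ, hσ, hprod⟩ := prod_lead pi u w E
  rw [hprod, coeff_C_mul, coeff_mul_monomial, mul_one]
  rcases hσ with h | h <;> rw [h] <;> simpa using hs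

theorem pay_apply_le [DecidableEq V] (pi : V → ℕ) (u w : ι → V) (E : Finset ι) (v : V) :
    pay pi u w E v ≤
      (E.filter fun e => pi (u e) ≠ pi (w e) ∧ (u e = v ∨ w e = v)).card := by
  unfold pay
  rw [Finsupp.finset_sum_apply]
  rw [← Finset.filter_filter, Finset.card_filter]
  apply Finset.sum_le_sum
  intro e _
  rw [Finsupp.single_apply]
  unfold top
  split_ifs with h1 h2 h3 h4 h5 <;> first | omega | (exfalso; tauto)

end Helper19.L9
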