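import Mathlib.Combinatorics.Nullstellensatz

/-!
# Orientation form of the Combinatorial Nullstellensatz for labellings

`E : Finset ι` indexes the conflicts: conflict `e` says `f (u e) - f (w e) ≠ c e`.
`linPoly` is the product of the leading forms `X (u e) - X (w e)`.  If the coefficient of
`X ^ t` in it is non-zero, `t` of degree `E.card`, and `t v < (L v).card` for all `v`, then there
is a labelling from the lists `L v` avoiding all conflicts.
-/

namespace Helper19.L9

open MvPolynomial Finset

variable {V ι : Type*}

/-- Product of the leading forms of the conflicts. -/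
noncomputable def linPoly (u w : ι → V) (E : Finset ι) : MvPolynomial V ℤ :=
  ∏ e ∈ E, (X (u e) - X (w e))

/-- Product of the conflicts themselves. -/
noncomputable def confPoly (u w : ι → V) (c : ι → ℤ) (E : Finset ι) : MvPolynomial V ℤ :=
  ∏ e ∈ E, (X (u e) - X (w e) - C (c e))

theorem totalDegree_factor_le (a b : V) (k : ℤ) :
    (X a - X b - C k : MvPolynomial V ℤ).totalDegree ≤ 1 := by
  refine (totalDegree_sub_C_le _ _).trans ((totalDegree_sub _ _).trans ?_)
  simp

theorem totalDegree_confPoly_le (u w : ι → V) (c : ι → ℤ) (E : Finset ι) :
    (confPoly u w c E).totalDegree ≤ E.card := by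
  refine (totalDegree_finsetProd _ _).trans ?_
  refine (Finset.sum_le_sum fun e _ => totalDegree_factor_le (u e) (w e) (c e)).trans ?_
  simp

theorem coeff_confPoly (u w : ι → V) (c : ι → ℤ) (E : Finset ι) :
    ∀ t : V →₀ ℕ, t.degree = E.card →
      coeff t (confPoly u w c E) = coeff t (linPoly u w E) := by
  classical
  induction E using Finset.induction_on with
  | empty => intro t _; simp [confPoly, linPoly]
  | insert e E he ih =>
    intro t ht
    have hdeg := totalDegree_confPoly_le u w c E
    have h0 : coeff t (confPoly u w c E) = 0 := by
      apply coeff_eq_zero_of_totalDegree_lt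
      rw [← Finsupp.degree_apply, ht, Finset.card_insert_of_notMem he]
      omega
    have key : ∀ x : V, coeff t (X x * confPoly u w c E) = coeff t (X x * linPoly u w E) := by
      intro x
      rw [coeff_X_mul', coeff_X_mul']
      split_ifs with hx
      · apply ih
        have hx' : 1 ≤ t x := Nat.one_le_iff_ne_zero.mpr (Finsupp.mem_support_iff.mp hx)
        have hle : Finsupp.single x 1 ≤ t := by
          rw [Finsupp.single_le_iff]; exact hx'
        have h := congrArg Finsupp.degree (tsub_add_cancel_of_le hle)
        rw [map_add, Finsupp.degree_single, ht, Finset.card_insert_of_notMem he] at h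
        omega
      · rfl
    have e1 : confPoly u w c (insert e E) =
        X (u e) * confPoly u w c E - X (w e) * confPoly u w c E
          - C (c e) * confPoly u w c E := by
      unfold confPoly
      rw [Finset.prod_insert he]; ring
    have e2 : linPoly u w (insert e E) =
        X (u e) * linPoly u w E - X (w e) * linPoly u w E := by
      unfold linPoly
      rw [Finset.prod_insert he]; ring
    rw [e1, e2, coeff_sub, coeff_sub, coeff_sub, coeff_C_mul, h0, key, key]
    ring

/-- **Labelling from an Alon-Tarsi coefficient.** -/
theorem exists_labelling [Finite V] (u w : ι → V) (c : ι → ℤ) (E : Finset ι) (L : V → Finset ℤ)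
    (t : V →₀ ℕ) (hdeg : t.degree = E.card) (hL : ∀ v, t v < (L v).card)
    (hcoeff : coeff t (linPoly u w E) ≠ 0) :
    ∃ f : V → ℤ, (∀ v, f v ∈ L v) ∧ ∀ e ∈ E, f (u e) - f (w e) ≠ c e := by
  have h1 : coeff t (confPoly u w c E) ≠ 0 := by
    rwa [coeff_confPoly u w c E t hdeg]
  have h2 : (confPoly u w c E).totalDegree = t.degree := by
    apply le_antisymm
    · rw [hdeg]; exact totalDegree_confPoly_le u w c E
    · have := le_totalDegree (mem_support_iff.mpr h1)
      rw [Finsupp.degree_apply]
      exact this
  obtain ⟨f, hf, hne⟩ := combinatorial_nullstellensatz_exists_eval_nonzero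
    (confPoly u w c E) t h1 h2 L hL
  refine ⟨f, hf, fun e he h => hne ?_⟩
  unfold confPoly
  rw [map_prod]
  apply Finset.prod_eq_zero he
  simp [h]

end Helper19.L9
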