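import Mathlib.Data.List.Basic
import Mathlib.Tactic.Ring
import Mathlib.Tactic.IntervalCases

/-!
# Splitting kernel checks over the parts of a list
-/

namespace Helper19.Chunk

variable {α β : Type*}

/-- the `i`-th part of length `k` -/
def chunk (k i : ℕ) (L : List α) : List α := (L.drop (Nat.mul k i)).take k

theorem flatMap_chunks (k : ℕ) (L : List α) : ∀ n : ℕ,
    (List.range n).flatMap (fun i => chunk k i L) = L.take (k * n) := by
  intro n
  induction n with
  | zero => simp
  | succ n ih =>
    rw [List.range_succ, List.flatMap_append, ih, Nat.mul_succ, List.take_add]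
    simp [chunk]

/-- `all` from its parts -/
theorem all_of_chunks (k n : ℕ) {f : α → Bool} {L : List α} (hL : L.length ≤ k * n)
    (h : ∀ i < n, (chunk k i L).all f = true) : L.all f = true := by
  have h1 := flatMap_chunks k L n
  rw [List.take_of_length_le hL] at h1
  rw [List.all_eq_true]
  intro x hx
  rw [← h1, List.mem_flatMap] at hx
  obtain ⟨i, hi, hx⟩ := hx
  exact List.all_eq_true.1 (h i (List.mem_range.1 hi)) x hx

/-- `filterMap` from its parts -/
theorem filterMap_of_chunks (k n : ℕ) {f : α → Option β} {L : List α} (hL : L.length ≤ k * n)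
    (t : ℕ → List β) (h : ∀ i < n, (chunk k i L).filterMap f = t i) :
    L.filterMap f = (List.range n).flatMap t := by
  have h1 := flatMap_chunks k L n
  rw [List.take_of_length_le hL] at h1
  conv_lhs => rw [← h1]
  rw [List.filterMap_flatMap]
  rw [List.flatMap_def, List.flatMap_def]
  congr 1
  apply List.map_congr_left
  intro i hi
  exact h i (List.mem_range.1 hi)

end Helper19.Chunk
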