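import Pool.Agent.helper19.L9.FN3

/-!
# Networks of blocks `D` and cells `F`, triple condition
-/

set_option linter.unusedSimpArgs false
set_option linter.unusedVariables false

namespace Helper19.TN

open Finset Helper42.L9 Helper33.L9 Helper19.Kill Helper19.Gadget Helper19.DN

variable {V : Type*} {c : V → ℕ} {M N R W : Multiset (Sym2 V)} {m n k : ℕ}

/-- a network of blocks `D` and cells `F`, other edges `R` -/
structure DFN (b : Fin m → Fin 8 → V) (z : Fin k → Fin 4 → V) (c : V → ℕ)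
    (R : Multiset (Sym2 V)) : Prop where
  injb : ∀ j i j' i', b j i = b j' i' → j = j' ∧ i = i'
  inj : ∀ j i j' i', z j i = z j' i' → j = j' ∧ i = i'
  disj : ∀ j i j' i', b j i ≠ z j' i'
  capb : ∀ j, 3 ≤ c (b j 1) ∧ 3 ≤ c (b j 2) ∧ 3 ≤ c (b j 5) ∧ 3 ≤ c (b j 6)
  cap : ∀ j, 3 ≤ c (z j 1) ∧ 3 ≤ c (z j 2)
  two : ∀ v, 2 ≤ c v
  loopless : ∀ e ∈ R, ¬ e.IsDiag
  slotsb : ∀ j i, dg R (b j i) ≤ slD i
  slots : ∀ j i, dg R (z j i) ≤ slZ i
  deg : ∀ v, dg R v ≤ 3
  noK4 : NoK4 R
  noTri : ∀ j v, ¬ Tri (z j) R v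

variable {z : Fin k → Fin 4 → V}

theorem DFN.sub {b : Fin m → Fin 8 → V} (h : DFN b z c R) {R' : Multiset (Sym2 V)}
    (hR : R' ≤ R) : DFN b z c R' :=
  ⟨h.injb, h.inj, h.disj, h.capb, h.cap, h.two,
    fun e he => h.loopless e (Multiset.mem_of_le hR he),
    fun j i => (dg_le_of_le hR _).trans (h.slotsb j i),
    fun j i => (dg_le_of_le hR _).trans (h.slots j i),
    fun v => (dg_le_of_le hR _).trans (h.deg v), h.noK4.of_le hR,
    fun j v hv => h.noTri j v (hv.mono hR)⟩

theorem four_le_dg {v x y w t : V} (hxy : x ≠ y) (hxw : x ≠ w) (hyw : y ≠ w) (hxt : x ≠ t)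
    (hyt : y ≠ t) (hwt : w ≠ t) (h1 : s(v, x) ∈ M) (h2 : s(v, y) ∈ M) (h3 : s(v, w) ∈ M)
    (h4 : s(v, t) ∈ M) : 4 ≤ dg M v := by
  obtain ⟨M', rfl⟩ := Multiset.exists_cons_of_mem h1
  have := three_le_dg hyw hyt hwt (mem_second hxy h2) (mem_second hxw h3) (mem_second hxt h4)
  rw [dg_cons_pos (Sym2.mem_mk_left _ _)]
  omega

theorem rr_emb {ρ : Fin 8 → Fin 8} (hρ : ρ = id ∨ ρ = rv) (f : Fin 8 → V) :
    emb (f ∘ ρ) ED = emb f ED := by
  rcases hρ with rfl | rfl
  · rfl
  · exact emb_rv f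

theorem rr_inj {ρ : Fin 8 → Fin 8} (hρ : ρ = id ∨ ρ = rv) : Function.Injective ρ := by
  rcases hρ with rfl | rfl
  · exact Function.injective_id
  · decide

theorem rr_sl {ρ : Fin 8 → Fin 8} (hρ : ρ = id ∨ ρ = rv) (i : Fin 8) : slD (ρ i) = slD i := by
  rcases hρ with rfl | rfl
  · rfl
  · revert i; decide

theorem rr_c {ρ : Fin 8 → Fin 8} (hρ : ρ = id ∨ ρ = rv) (i : Fin 8) : cD (ρ i) = cD i := by
  rcases hρ with rfl | rfl
  · rfl
  · revert i; decide

theorem DFN.capD {b : Fin m → Fin 8 → V} (h : DFN b z c R) (j : Fin m) (i : Fin 8) :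
    cD i ≤ c (b j i) := by
  obtain ⟨a1, a2, a3, a4⟩ := h.capb j
  have a5 := h.two
  fin_cases i
  · exact a5 _
  · exact a1
  · exact a2
  · exact a5 _
  · exact a5 _
  · exact a3
  · exact a4
  · exact a5 _

theorem DFN.rest {b : Fin (m + 1) → Fin 8 → V} (h : DFN b z c R) :
    DFN (b ∘ (0 : Fin (m + 1)).succAbove) z c R :=
  ⟨fun j i j' i' hh => by
      obtain ⟨h1, h2⟩ := h.injb _ _ _ _ hh
      exact ⟨Fin.succAbove_right_injective h1, h2⟩,
    h.inj, fun j i j' i' => h.disj _ _ _ _, fun j => h.capb _, h.cap, h.two, h.loopless,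
    fun j i => h.slotsb _ i, h.slots, h.deg, h.noK4, h.noTri⟩

/-- **The step for a block `D`.** -/
theorem DFN.step {b : Fin (m + 1) → Fin 8 → V} (h : DFN b z c R)
    (IH : ∀ (k : ℕ) (z : Fin k → Fin 4 → V) R, DFN (b ∘ (0 : Fin (m + 1)).succAbove) z c R →
      AT (TE ED (b ∘ (0 : Fin (m + 1)).succAbove) + (TE EZ z + R)) c)
    (ρ : Fin 8 → Fin 8) (hρ : ρ = id ∨ ρ = rv) {a : V} (ha : s(b 0 (ρ 1), a) ∈ R)
    (ht : ¬ (s(a, b 0 (ρ 6)) ∈ R ∧ (s(a, b 0 (ρ 4)) ∈ R ∨ s(a, b 0 (ρ 7)) ∈ R))) :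
    AT (TE ED b + (TE EZ z + R)) c := by
  classical
  rw [TE_split ED b 0, add_assoc, ← rr_emb hρ]
  set f := b 0 ∘ ρ with hf0
  set b' := b ∘ (0 : Fin (m + 1)).succAbove with hb'
  have hf : Function.Injective f := fun _ _ hh => rr_inj hρ (h.injb _ _ _ _ hh).2
  have hbf : ∀ j i i', b' j i ≠ f i' := by
    intro j i i' hh
    exact Fin.succAbove_ne 0 j (h.injb _ _ _ _ hh).1
  have hfz : ∀ j i i', z j i ≠ f i' := fun j i i' hh => h.disj 0 _ j i hh.symm
  have ne : ∀ {i i' : Fin 8}, i ≠ i' → f i ≠ f i' := fun hij hh => hij (hf hh)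
  have hcf : ∀ i, cD i ≤ c (f i) := fun i => by
    have := h.capD 0 (ρ i)
    rw [rr_c hρ] at this
    exact this
  have hsf : ∀ i, dg R (f i) ≤ slD i := fun i => by
    have := h.slotsb 0 (ρ i)
    rw [rr_sl hρ] at this
    exact this
  have ha' : s(f 1, a) ∈ R := ha
  have ht' : ¬ (s(a, f 6) ∈ R ∧ (s(a, f 4) ∈ R ∨ s(a, f 7) ∈ R)) := ht
  have hlR : ∀ e ∈ R, ¬ e.IsDiag := h.loopless
  have hlb : ∀ e ∈ TE ED b', ¬ e.IsDiag := by
    intro e he
    obtain ⟨j, hj⟩ := mem_TE.mp he
    exact emb_loopless (fun _ _ hh => (h.injb _ _ _ _ hh).2) (by decide) e hj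
  have hlz : ∀ e ∈ TE EZ z, ¬ e.IsDiag := by
    intro e he
    obtain ⟨j, hj⟩ := mem_TE.mp he
    exact emb_loopless (fun _ _ hh => (h.inj _ _ _ _ hh).2) (by decide) e hj
  have dTb : ∀ i, dg (TE ED b') (f i) = 0 := fun i => dg_TE_out fun j i' => hbf j i' i
  have dTz : ∀ i, dg (TE EZ z) (f i) = 0 := fun i => dg_TE_out fun j i' => hfz j i' i
  obtain ⟨R₁, hR₁⟩ := Multiset.exists_cons_of_mem ha'
  have hs1 := hsf 1
  have s1 : slD 1 = 1 := rfl
  have dR : ∀ v, dg R v = (if v = f 1 ∨ v = a then 1 else 0) + dg R₁ v := by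
    intro v
    rw [hR₁, dg_cons_add']
    congr
  have hle1 : R₁ ≤ R := by rw [hR₁]; exact Multiset.le_cons_self _ _
  have haf : ∀ i, slD i = 0 → f i ≠ a := by
    rintro i hi rfl
    have h1 := hsf i
    have h2 := dR (f i)
    rw [if_pos (Or.inr rfl)] at h2
    omega
  have haf1 : f 1 ≠ a := by
    rintro rfl; exact hlR _ ha' (Sym2.mk_isDiag_iff.mpr rfl)
  have r1 : dg R₁ (f 1) = 0 := by
    have h1 := dR (f 1)
    rw [if_pos (Or.inl rfl)] at h1
    omega
  have r2 : dg R₁ (f 2) = 0 := by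
    have h1 := (dg_le_of_le hle1 (f 2)).trans (hsf 2)
    have s2 : slD 2 = 0 := rfl
    omega
  have r5 : dg R₁ (f 5) = 0 := by
    have h1 := (dg_le_of_le hle1 (f 5)).trans (hsf 5)
    have s2 : slD 5 = 0 := rfl
    omega
  have e1 : emb f ED + (TE ED b' + (TE EZ z + R)) =
      emb f ED + (s(f 1, a) ::ₘ (TE ED b' + (TE EZ z + R₁))) := by
    rw [hR₁]
    simp only [← Multiset.singleton_add]
    abel
  rw [e1]
  have hN1 : ∀ i, dg R₁ (f i) = 0 → ∀ e ∈ TE ED b' + (TE EZ z + R₁), f i ∉ e := by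
    intro i hi
    refine notMem_of_dg ?_
    rw [dg_add, dg_add, dTb, dTz, hi]
  refine lemD hf haf1.symm (haf 2 rfl).symm (hN1 1 r1) (hN1 2 r2) (hcf 1) (hcf 2) ?_
  -- peel `f 3`
  set R' := outt {f 3} (s(a, f 5) ::ₘ R₁) with hR'
  have e2 : s(a, f 5) ::ₘ (emb f ED' + (TE ED b' + (TE EZ z + R₁))) =
      s(f 3, f 4) ::ₘ (TE ED b' + ((emb (f ∘ z4) EZ + TE EZ z) + (s(a, f 5) ::ₘ R₁))) := by
    rw [emb_ED']
    simp only [← Multiset.singleton_add]
    abel
  rw [e2]
  have la : ¬ (s(a, f 5) : Sym2 V).IsDiag := by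
    rw [Sym2.mk_isDiag_iff]; exact (haf 5 rfl).symm
  have lR1 : ∀ e ∈ s(a, f 5) ::ₘ R₁, ¬ e.IsDiag := by
    intro e he
    rcases Multiset.mem_cons.mp he with rfl | h1
    · exact la
    · exact hlR e (Multiset.mem_of_le hle1 h1)
  have hdle : ∀ v, v ≠ f 5 → dg (s(a, f 5) ::ₘ R₁) v ≤ dg R v := by
    intro v hv
    rw [dg_cons_add', dR]
    by_cases h1 : v = a
    · rw [if_pos (Or.inl h1), if_pos (c := v = f 1 ∨ v = a) (Or.inr h1)]
    · rw [if_neg]
      · omega
      · rintro (h' | h')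
        · exact h1 h'
        · exact hv h'
  have hd5 : dg (s(a, f 5) ::ₘ R₁) (f 5) = 1 := by
    rw [dg_cons_add', if_pos (Or.inr rfl), r5]
  have hz4 : ∀ i, (f ∘ z4) i ≠ f 3 := fun i hh => z4_ne3 i (hf hh)
  refine AT.peel (f 3) _ c ?_ ?_ ?_
  · intro e he
    rcases Multiset.mem_cons.mp he with rfl | h1
    · rw [Sym2.mk_isDiag_iff]; exact ne (by decide)
    · rcases Multiset.mem_add.mp h1 with h1 | h1
      · exact hlb e h1
      · rcases Multiset.mem_add.mp h1 with h1 | h1
        · rcases Multiset.mem_add.mp h1 with h1 | h1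
          · exact emb_loopless (hf.comp z4_inj) (by decide) e h1
          · exact hlz e h1
        · exact lR1 e h1
  · rw [dg_cons_add', if_pos (Or.inl rfl), dg_add, dg_add, dg_add, dTb, dTz, dg_emb_out hz4]
    have h1 := (hdle (f 3) (ne (by decide))).trans (hsf 3)
    have h2 : slD 3 = 1 := rfl
    have h3 := h.two (f 3)
    omega
  · have hns : ∀ v, v ≠ f 3 → v ∉ ({f 3} : Finset V) := fun v hv hh =>
      hv (Finset.mem_singleton.mp hh)
    have e3 : outt {f 3} (s(f 3, f 4) ::ₘ (TE ED b' + ((emb (f ∘ z4) EZ + TE EZ z) +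
        (s(a, f 5) ::ₘ R₁)))) =
        TE ED b' + (TE EZ (Fin.cons (f ∘ z4) z : Fin (k + 1) → Fin 4 → V) + R') := by
      rw [outt_cons_touch ⟨f 3, Sym2.mem_mk_left _ _, Finset.mem_singleton_self _⟩, outt_add,
        outt_add, outt_add, outt_TE fun j i => hns _ (hbf j i 3),
        outt_TE fun j i => hns _ (hfz j i 3), outt_emb_keep fun i => hns _ (hz4 i)]
      congr 2
      unfold TE
      rw [Fin.sum_univ_succ]
      simp only [Fin.cons_zero, Fin.cons_succ]
    rw [e3]
    have hR'le : R' ≤ s(a, f 5) ::ₘ R₁ := Helper19.Kill.outt_le' _ _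
    refine IH (k + 1) _ R' ⟨?_, ?_, ?_, fun j => h.capb _, ?_, h.two, ?_, ?_, ?_, ?_, ?_, ?_⟩
    · intro j i j' i' hh
      obtain ⟨h1, h2⟩ := h.injb _ _ _ _ hh
      exact ⟨Fin.succAbove_right_injective h1, h2⟩
    · intro j i j' i'
      refine Fin.cases ?_ (fun j => ?_) j
      · refine Fin.cases ?_ (fun j' => ?_) j'
        · intro hh
          simp only [Fin.cons_zero] at hh
          exact ⟨rfl, (hf.comp z4_inj) hh⟩
        · intro hh
          simp only [Fin.cons_zero, Fin.cons_succ] at hh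
          exact absurd hh.symm (hfz _ _ _)
      · refine Fin.cases ?_ (fun j' => ?_) j'
        · intro hh
          simp only [Fin.cons_zero, Fin.cons_succ] at hh
          exact absurd hh (hfz _ _ _)
        · intro hh
          simp only [Fin.cons_succ] at hh
          obtain ⟨h1, h2⟩ := h.inj _ _ _ _ hh
          exact ⟨by rw [h1], h2⟩
    · intro j i j' i'
      refine Fin.cases ?_ (fun j' => ?_) j'
      · simp only [Fin.cons_zero]
        exact hbf _ _ _
      · simp only [Fin.cons_succ]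
        exact h.disj _ _ _ _
    · intro j
      refine Fin.cases ?_ (fun j => ?_) j
      · simp only [Fin.cons_zero]
        exact ⟨hcf 5, hcf 6⟩
      · simp only [Fin.cons_succ]
        exact h.cap j
    · intro e he
      exact lR1 e (Multiset.mem_of_le hR'le he)
    · intro j i
      exact (dg_le_of_le hR'le _).trans ((hdle _ (hbf _ _ _)).trans (h.slotsb _ i))
    · intro j i
      refine Fin.cases ?_ (fun j => ?_) j
      · simp only [Fin.cons_zero]
        have h1 := dg_le_of_le hR'le ((f ∘ z4) i)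
        fin_cases i
        · exact h1.trans ((hdle _ (ne (by decide))).trans (hsf 4))
        · exact h1.trans hd5.le
        · exact h1.trans ((hdle _ (ne (by decide))).trans (hsf 6))
        · exact h1.trans ((hdle _ (ne (by decide))).trans (hsf 7))
      · simp only [Fin.cons_succ]
        exact (dg_le_of_le hR'le _).trans ((hdle _ (hfz _ _ _)).trans (h.slots _ i))
    · intro v
      by_cases hv : v = f 5
      · rw [hv]
        have := dg_le_of_le hR'le (f 5)
        omega
      · exact (dg_le_of_le hR'le _).trans ((hdle _ hv).trans (h.deg v))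
    · have h1 : NoK4 (s(a, f 5) ::ₘ R₁) := by
        refine noK4_cons (h.noK4.of_le hle1) ?_
        rw [hd5]; omega
      exact h1.of_le hR'le
    · -- no triple
      intro j v
      refine Fin.cases ?_ (fun j => ?_) j
      · simp only [Fin.cons_zero]
        intro hT
        obtain ⟨t1, t2, t3⟩ := hT.mono hR'le
        have t1' : s(v, f 5) ∈ s(a, f 5) ::ₘ R₁ := t1
        have hva : v = a := by
          rcases Multiset.mem_cons.mp t1' with t | t
          · rw [Sym2.eq_iff] at t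
            rcases t with ⟨t, _⟩ | ⟨_, t⟩
            · exact t
            · exact absurd t (haf 5 rfl)
          · exact absurd (Sym2.mem_mk_right _ _) (notMem_of_dg r5 _ t)
        subst hva
        have key : ∀ i, i ≠ 5 → s(v, f i) ∈ s(v, f 5) ::ₘ R₁ → s(v, f i) ∈ R := by
          intro i hi ht
          exact Multiset.mem_of_le hle1 (mem_second (ne hi.symm) ht)
        exact ht' ⟨key 6 (by decide) t2, t3.imp (key 4 (by decide)) (key 7 (by decide))⟩
      · simp only [Fin.cons_succ]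
        intro hT
        obtain ⟨t1, t2, t3⟩ := hT.mono hR'le
        have zne : ∀ {i i' : Fin 4}, i ≠ i' → z j i ≠ z j i' := fun hij hh =>
          hij (h.inj _ _ _ _ hh).2
        have hv5 : v ≠ f 5 := by
          rintro rfl
          have h3 : 3 ≤ dg (s(a, f 5) ::ₘ R₁) (f 5) := by
            rcases t3 with t | t
            · exact three_le_dg (zne (by decide)) (zne (by decide)) (zne (by decide)) t1 t2 t
            · exact three_le_dg (zne (by decide)) (zne (by decide)) (zne (by decide)) t1 t2 t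
          omega
        have key : ∀ i, s(v, z j i) ∈ s(a, f 5) ::ₘ R₁ → s(v, z j i) ∈ R := by
          intro i ht
          rcases Multiset.mem_cons.mp ht with t | t
          · rw [Sym2.eq_iff] at t
            rcases t with ⟨_, t⟩ | ⟨t, _⟩
            · exact absurd t (hfz _ _ _)
            · exact absurd t hv5
          · exact Multiset.mem_of_le hle1 t
        exact h.noTri j v ⟨key 1 t1, key 2 t2, t3.imp (key 0) (key 3)⟩

/-- **Networks of blocks `D` and cells `F` have the Alon-Tarsi property.** -/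
theorem DFN.at : ∀ (m k : ℕ) (b : Fin m → Fin 8 → V) (z : Fin k → Fin 4 → V)
    (R : Multiset (Sym2 V)), DFN b z c R → AT (TE ED b + (TE EZ z + R)) c := by
  classical
  intro m
  induction m with
  | zero =>
    intro k b z R h
    have e0 : TE ED b = 0 := by
      unfold TE; simp
    rw [e0, zero_add]
    exact FN.at k z R ⟨h.inj, h.cap, h.two, h.loopless, h.slots, h.deg, h.noK4, h.noTri⟩
  | succ m ih =>
    intro k b z R h
    have IH : ∀ (k : ℕ) (z : Fin k → Fin 4 → V) R, DFN (b ∘ (0 : Fin (m + 1)).succAbove) z c R →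
      AT (TE ED (b ∘ (0 : Fin (m + 1)).succAbove) + (TE EZ z + R)) c :=
      fun k z R hh => ih k _ z R hh
    have hf : Function.Injective (b 0) := fun _ _ hh => (h.injb _ _ _ _ hh).2
    have hbf : ∀ j i i', (b ∘ (0 : Fin (m + 1)).succAbove) j i ≠ b 0 i' := by
      intro j i i' hh
      exact Fin.succAbove_ne 0 j (h.injb _ _ _ _ hh).1
    have hfz : ∀ j i i', z j i ≠ b 0 i' := fun j i i' hh => h.disj 0 i' j i hh.symm
    by_cases hdead : dg R (b 0 1) = 0 ∨ dg R (b 0 6) = 0
    · rw [TE_split ED b 0, add_assoc]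
      have hN : ∀ i, dg (TE ED (b ∘ (0 : Fin (m + 1)).succAbove) + (TE EZ z + R)) (b 0 i) =
          dg R (b 0 i) := by
        intro i
        rw [dg_add, dg_add, dg_TE_out fun j i' => hbf j i' i, dg_TE_out fun j i' => hfz j i' i]
        omega
      refine peelD hf (h.capD 0) (fun i => by rw [hN]; exact h.slotsb 0 i)
        (by rw [hN, hN]; exact hdead) ?_ ?_
      · intro e he
        rcases Multiset.mem_add.mp he with h1 | h1
        · obtain ⟨j, hj⟩ := mem_TE.mp h1
          exact emb_loopless (fun _ _ hh => (h.injb _ _ _ _ hh).2) (by decide) e hj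
        · rcases Multiset.mem_add.mp h1 with h1 | h1
          · obtain ⟨j, hj⟩ := mem_TE.mp h1
            exact emb_loopless (fun _ _ hh => (h.inj _ _ _ _ hh).2) (by decide) e hj
          · exact h.loopless e h1
      · rw [outt_add, outt_add, outt_TE, outt_TE]
        · exact IH k z _ (h.rest.sub (Helper19.Kill.outt_le' _ _))
        · intro j' i hi
          obtain ⟨i', hi'⟩ := Helper19.DN.mem_img.mp hi
          exact hfz j' i i' hi'.symm
        · intro j' i hi
          obtain ⟨i', hi'⟩ := Helper19.DN.mem_img.mp hi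
          exact hbf j' i i' hi'.symm
    push Not at hdead
    obtain ⟨a, ha⟩ := exists_at hdead.1
    by_cases ht : s(a, b 0 6) ∈ R ∧ (s(a, b 0 4) ∈ R ∨ s(a, b 0 7) ∈ R)
    · refine h.step IH rv (Or.inr rfl) (a := a) (mem_sw ht.1) ?_
      rintro ⟨t1, t2⟩
      have t1' : s(a, b 0 1) ∈ R := t1
      have t2' : s(a, b 0 3) ∈ R ∨ s(a, b 0 0) ∈ R := t2
      have hd := h.deg a
      have nn : ∀ {i i' : Fin 8}, i ≠ i' → b 0 i ≠ b 0 i' := fun hij hh => hij (hf hh)
      have h4 : 4 ≤ dg R a := by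
        rcases ht.2 with u | u <;> rcases t2' with w | w <;>
          exact four_le_dg (nn (by decide)) (nn (by decide)) (nn (by decide)) (nn (by decide))
            (nn (by decide)) (nn (by decide)) t1' ht.1 u w
      omega
    · exact h.step IH id (Or.inl rfl) (a := a) ha ht

end Helper19.TN
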