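import Pool.Agent.helper19.L9.FPair

/-!
# Networks of blocks `D` and cells `F`
-/

set_option linter.unusedSimpArgs false

namespace Helper19.DN

open Finset Helper42.L9 Helper33.L9 Helper19.Kill Helper19.Gadget

variable {V : Type*} {c : V → ℕ} {M N R L O W : Multiset (Sym2 V)} {m n k : ℕ}

theorem two_le_dg {v x y : V} (hxy : x ≠ y) (h1 : s(v, x) ∈ M) (h2 : s(v, y) ∈ M) :
    2 ≤ dg M v := by
  obtain ⟨M', rfl⟩ := Multiset.exists_cons_of_mem h1
  obtain ⟨M'', rfl⟩ := Multiset.exists_cons_of_mem (mem_second hxy h2)
  rw [dg_cons_pos (Sym2.mem_mk_left _ _), dg_cons_pos (Sym2.mem_mk_left _ _)]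
  omega

theorem three_le_dg {v x y w : V} (hxy : x ≠ y) (hxw : x ≠ w) (hyw : y ≠ w)
    (h1 : s(v, x) ∈ M) (h2 : s(v, y) ∈ M) (h3 : s(v, w) ∈ M) : 3 ≤ dg M v := by
  obtain ⟨M', rfl⟩ := Multiset.exists_cons_of_mem h1
  have := two_le_dg hyw (mem_second hxy h2) (mem_second hxw h3)
  rw [dg_cons_pos (Sym2.mem_mk_left _ _)]
  omega

theorem noK4_cons {x y : V} (h : NoK4 M) (hd : dg (s(x, y) ::ₘ M) y ≤ 2) :
    NoK4 (s(x, y) ::ₘ M) := by
  intro p q r t hn h1 h2 h3 h4 h5 h6
  simp only [List.nodup_cons, List.mem_cons, List.not_mem_nil, or_false, not_or,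
    not_false_eq_true, List.nodup_nil, and_true] at hn
  obtain ⟨⟨n1, n2, n3⟩, ⟨n4, n5⟩, n6⟩ := hn
  have hp : p ≠ y := by
    rintro rfl
    have := three_le_dg n4 n5 n6 h1 h2 h3
    omega
  have hq : q ≠ y := by
    rintro rfl
    have := three_le_dg n2 n3 n6 (mem_sw h1) h4 h5
    omega
  have hr : r ≠ y := by
    rintro rfl
    have := three_le_dg n1 n3 n5 (mem_sw h2) (mem_sw h4) h6
    omega
  have ht : t ≠ y := by
    rintro rfl
    have := three_le_dg n1 n2 n4 (mem_sw h3) (mem_sw h5) (mem_sw h6)
    omega
  have key : ∀ {u w : V}, u ≠ y → w ≠ y → s(u, w) ∈ s(x, y) ::ₘ M → s(u, w) ∈ M := by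
    intro u w hu hw h
    rcases Multiset.mem_cons.mp h with h | h
    · rw [Sym2.eq_iff] at h
      rcases h with ⟨_, h⟩ | ⟨h, _⟩
      · exact absurd h hw
      · exact absurd h hu
    · exact h
  exact h p q r t (by simp [n1, n2, n3, n4, n5, n6]) (key hp hq h1) (key hp hr h2) (key hp ht h3)
    (key hq hr h4) (key hq ht h5) (key hr ht h6)

theorem z4_inj : Function.Injective z4 := by decide

theorem z4_ne3 : ∀ i : Fin 4, z4 i ≠ 3 := by decide

/-- a network of blocks `D` and cells `F` with links `L` and own edges `O` -/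
structure DFNet (b : Fin m → Fin 8 → V) (z : Fin k → Fin 4 → V) (c : V → ℕ)
    (L O : Multiset (Sym2 V)) : Prop where
  injb : ∀ j i j' i', b j i = b j' i' → j = j' ∧ i = i'
  inj : ∀ j i j' i', z j i = z j' i' → j = j' ∧ i = i'
  disj : ∀ j i j' i', b j i ≠ z j' i'
  capb : ∀ j, 3 ≤ c (b j 1) ∧ 3 ≤ c (b j 2) ∧ 3 ≤ c (b j 5) ∧ 3 ≤ c (b j 6)
  cap : ∀ j, 3 ≤ c (z j 1) ∧ 3 ≤ c (z j 2)
  two : ∀ v, 2 ≤ c v
  loopless : ∀ e ∈ L + O, ¬ e.IsDiag
  slotsb : ∀ j i, dg L (b j i) ≤ slD i
  slots : ∀ j i, dg L (z j i) ≤ slZ i
  offOb : ∀ j i, dg O (b j i) = 0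
  offO : ∀ j i, dg O (z j i) = 0
  degL : ∀ v, dg L v ≤ 2
  deg : ∀ v, dg (L + O) v ≤ 3
  noK4 : NoK4 (L + O)

variable {z : Fin k → Fin 4 → V}

theorem DFNet.sub {b : Fin m → Fin 8 → V} (h : DFNet b z c L O) {L' O' : Multiset (Sym2 V)}
    (hL : L' ≤ L) (hO : O' ≤ O) : DFNet b z c L' O' :=
  ⟨h.injb, h.inj, h.disj, h.capb, h.cap, h.two,
    fun e he => h.loopless e (Multiset.mem_of_le (add_le_add hL hO) he),
    fun j i => (dg_le_of_le hL _).trans (h.slotsb j i),
    fun j i => (dg_le_of_le hL _).trans (h.slots j i),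
    fun j i => Nat.le_zero.mp ((dg_le_of_le hO _).trans (h.offOb j i).le),
    fun j i => Nat.le_zero.mp ((dg_le_of_le hO _).trans (h.offO j i).le),
    fun v => (dg_le_of_le hL _).trans (h.degL v),
    fun v => (dg_le_of_le (add_le_add hL hO) _).trans (h.deg v),
    h.noK4.of_le (add_le_add hL hO)⟩

/-- **Networks of blocks `D` and cells `F` have the Alon-Tarsi property.** -/
theorem DFNet.at : ∀ (m k : ℕ) (b : Fin m → Fin 8 → V) (z : Fin k → Fin 4 → V)
    (L O : Multiset (Sym2 V)), DFNet b z c L O → AT (TE ED b + (TE EZ z + (L + O))) c := by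
  classical
  intro m
  induction m with
  | zero =>
    intro k b z L O h
    have e0 : TE ED b = 0 := by
      unfold TE; simp
    rw [e0, zero_add]
    exact FNet.at k z L O ⟨h.inj, h.cap, h.two, h.loopless, h.slots, h.offO, h.degL, h.deg, h.noK4⟩
  | succ m ih =>
    intro k b z L O h
    rw [TE_split ED b 0, add_assoc]
    set f := b 0 with hf0
    set b' := b ∘ (0 : Fin (m + 1)).succAbove with hb'
    have hf : Function.Injective f := fun _ _ hh => (h.injb _ _ _ _ hh).2
    have hbf : ∀ j i i', b' j i ≠ f i' := by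
      intro j i i' hh
      exact Fin.succAbove_ne 0 j (h.injb _ _ _ _ hh).1
    have hfz : ∀ j i i', z j i ≠ f i' := fun j i i' hh => h.disj 0 i' j i hh.symm
    have ne : ∀ {i i' : Fin 8}, i ≠ i' → f i ≠ f i' := fun hij hh => hij (hf hh)
    have hcf : ∀ i, cD i ≤ c (f i) := by
      obtain ⟨a1, a2, a3, a4⟩ := h.capb 0
      have a5 := h.two
      intro i
      fin_cases i
      · exact a5 _
      · exact a1
      · exact a2
      · exact a5 _
      · exact a5 _
      · exact a3
      · exact a4
      · exact a5 _
    have hsf : ∀ i, dg L (f i) ≤ slD i := h.slotsb 0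
    have hOf : ∀ i, dg O (f i) = 0 := h.offOb 0
    have hlL : ∀ e ∈ L, ¬ e.IsDiag := fun e he => h.loopless e (Multiset.mem_add.mpr (Or.inl he))
    have hlO : ∀ e ∈ O, ¬ e.IsDiag := fun e he => h.loopless e (Multiset.mem_add.mpr (Or.inr he))
    have hlb : ∀ e ∈ TE ED b', ¬ e.IsDiag := by
      intro e he
      obtain ⟨j, hj⟩ := mem_TE.mp he
      exact emb_loopless (fun _ _ hh => (h.injb _ _ _ _ hh).2) (by decide) e hj
    have hlz : ∀ e ∈ TE EZ z, ¬ e.IsDiag := by
      intro e he
      obtain ⟨j, hj⟩ := mem_TE.mp he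
      exact emb_loopless (fun _ _ hh => (h.inj _ _ _ _ hh).2) (by decide) e hj
    have dTb : ∀ i, dg (TE ED b') (f i) = 0 := fun i => dg_TE_out fun j i' => hbf j i' i
    have dTz : ∀ i, dg (TE EZ z) (f i) = 0 := fun i => dg_TE_out fun j i' => hfz j i' i
    have hN : ∀ i, dg (TE ED b' + (TE EZ z + (L + O))) (f i) = dg L (f i) := by
      intro i
      rw [dg_add, dg_add, dg_add, dTb, dTz, hOf]; omega
    by_cases hdead : dg L (f 1) = 0
    · refine peelD hf hcf (fun i => by rw [hN]; exact hsf i) (Or.inl (by rw [hN]; exact hdead)) ?_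
        ?_
      · intro e he
        rcases Multiset.mem_add.mp he with h1 | h1
        · exact hlb e h1
        · rcases Multiset.mem_add.mp h1 with h1 | h1
          · exact hlz e h1
          · exact h.loopless e h1
      · rw [outt_add, outt_add, outt_add, outt_TE, outt_TE]
        · refine ih k b' z _ _ (DFNet.sub (L := L) (O := O) ?_ (Helper19.Kill.outt_le' _ _)
            (Helper19.Kill.outt_le' _ _))
          exact ⟨fun j i j' i' hh => by
              obtain ⟨h1, h2⟩ := h.injb _ _ _ _ hh
              exact ⟨Fin.succAbove_right_injective h1, h2⟩,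
            h.inj, fun j i j' i' => h.disj _ _ _ _, fun j => h.capb _, h.cap, h.two, h.loopless,
            fun j i => h.slotsb _ i, h.slots, fun j i => h.offOb _ i, h.offO, h.degL, h.deg,
            h.noK4⟩
        · intro j' i hi
          obtain ⟨i', hi'⟩ := mem_img.mp hi
          exact hfz j' i i' hi'.symm
        · intro j' i hi
          obtain ⟨i', hi'⟩ := mem_img.mp hi
          exact hbf j' i i' hi'.symm
    · obtain ⟨a, ha⟩ := exists_at hdead
      obtain ⟨L₁, hL₁⟩ := Multiset.exists_cons_of_mem ha
      have hs1 := hsf 1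
      have s1 : slD 1 = 1 := rfl
      have dL : ∀ v, dg L v = (if v = f 1 ∨ v = a then 1 else 0) + dg L₁ v := by
        intro v
        rw [hL₁, dg_cons_add']
        congr
      have hle1 : L₁ ≤ L := by rw [hL₁]; exact Multiset.le_cons_self _ _
      have haf : ∀ i, slD i = 0 → f i ≠ a := by
        rintro i hi rfl
        have h1 := hsf i
        have h2 := dL (f i)
        rw [if_pos (Or.inr rfl)] at h2
        omega
      have haf1 : f 1 ≠ a := by
        rintro rfl; exact hlL _ ha (Sym2.mk_isDiag_iff.mpr rfl)
      have r1 : dg L₁ (f 1) = 0 := by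
        have h1 := dL (f 1)
        rw [if_pos (Or.inl rfl)] at h1
        omega
      have r2 : dg L₁ (f 2) = 0 := by
        have h1 := (dg_le_of_le hle1 (f 2)).trans (hsf 2)
        have s2 : slD 2 = 0 := rfl
        omega
      have r5 : dg L₁ (f 5) = 0 := by
        have h1 := (dg_le_of_le hle1 (f 5)).trans (hsf 5)
        have s2 : slD 5 = 0 := rfl
        omega
      have e1 : emb f ED + (TE ED b' + (TE EZ z + (L + O))) =
          emb f ED + (s(f 1, a) ::ₘ (TE ED b' + (TE EZ z + (L₁ + O)))) := by
        rw [hL₁]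
        simp only [← Multiset.singleton_add]
        abel
      rw [e1]
      have hN1 : ∀ i, dg L₁ (f i) = 0 →
          ∀ e ∈ TE ED b' + (TE EZ z + (L₁ + O)), f i ∉ e := by
        intro i hi
        refine notMem_of_dg ?_
        rw [dg_add, dg_add, dg_add, dTb, dTz, hOf, hi]
      refine lemD hf haf1.symm (haf 2 rfl).symm (hN1 1 r1) (hN1 2 r2) (hcf 1) (hcf 2) ?_
      -- peel `f 3`
      set L' := outt {f 3} (s(a, f 5) ::ₘ L₁) with hL'
      have e2 : s(a, f 5) ::ₘ (emb f ED' + (TE ED b' + (TE EZ z + (L₁ + O)))) =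
          s(f 3, f 4) ::ₘ (TE ED b' + ((emb (f ∘ z4) EZ + TE EZ z) + ((s(a, f 5) ::ₘ L₁) + O))) := by
        rw [emb_ED']
        simp only [← Multiset.singleton_add]
        abel
      rw [e2]
      have la : ¬ (s(a, f 5) : Sym2 V).IsDiag := by
        rw [Sym2.mk_isDiag_iff]; exact (haf 5 rfl).symm
      have lL1 : ∀ e ∈ s(a, f 5) ::ₘ L₁, ¬ e.IsDiag := by
        intro e he
        rcases Multiset.mem_cons.mp he with rfl | h1
        · exact la
        · exact hlL e (Multiset.mem_of_le hle1 h1)
      have hdle : ∀ v, v ≠ f 5 → dg (s(a, f 5) ::ₘ L₁) v ≤ dg L v := by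
        intro v hv
        rw [dg_cons_add', dL]
        by_cases h1 : v = a
        · rw [if_pos (Or.inl h1), if_pos (c := v = f 1 ∨ v = a) (Or.inr h1)]
        · rw [if_neg]
          · omega
          · rintro (h' | h')
            · exact h1 h'
            · exact hv h'
      have hd5 : dg (s(a, f 5) ::ₘ L₁) (f 5) = 1 := by
        rw [dg_cons_add', if_pos (Or.inr rfl), r5]
      have hz4 : ∀ i, (f ∘ z4) i ≠ f 3 := fun i hh => z4_ne3 i (hf hh)
      refine AT.peel (f 3) _ c ?_ ?_ ?_
      · intro e he
        rcases Multiset.mem_cons.mp he with rfl | h1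
        · rw [Sym2.mk_isDiag_iff]; exact ne (by decide)
        · rcases Multiset.mem_add.mp h1 with h1 | h1
          · exact hlb e h1
          · rcases Multiset.mem_add.mp h1 with h1 | h1
            · rcases Multiset.mem_add.mp h1 with h1 | h1
              · exact emb_loopless (hf.comp z4_inj) (by decide) e h1
              · exact hlz e h1
            · rcases Multiset.mem_add.mp h1 with h1 | h1
              · exact lL1 e h1
              · exact hlO e h1
      · rw [dg_cons_add', if_pos (Or.inl rfl), dg_add, dg_add, dg_add, dg_add, dTb, dTz, hOf,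
          dg_emb_out hz4]
        have h1 := (hdle (f 3) (ne (by decide))).trans (hsf 3)
        have h2 : slD 3 = 1 := rfl
        have h3 := h.two (f 3)
        omega
      · have hns : ∀ v, v ≠ f 3 → v ∉ ({f 3} : Finset V) := fun v hv hh =>
          hv (Finset.mem_singleton.mp hh)
        have e3 : outt {f 3} (s(f 3, f 4) ::ₘ (TE ED b' + ((emb (f ∘ z4) EZ + TE EZ z) +
            ((s(a, f 5) ::ₘ L₁) + O)))) =
            TE ED b' + (TE EZ (Fin.cons (f ∘ z4) z : Fin (k + 1) → Fin 4 → V) + (L' + O)) := by
          rw [outt_cons_touch ⟨f 3, Sym2.mem_mk_left _ _, Finset.mem_singleton_self _⟩, outt_add,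
            outt_add, outt_add, outt_add, outt_TE fun j i => hns _ (hbf j i 3),
            outt_TE fun j i => hns _ (hfz j i 3), outt_emb_keep fun i => hns _ (hz4 i)]
          congr 2
          · unfold TE
            rw [Fin.sum_univ_succ]
            simp only [Fin.cons_zero, Fin.cons_succ]
          · congr 1
            refine outt_keep fun e he v hv hh => ?_
            rw [Finset.mem_singleton] at hh
            subst hh
            exact notMem_of_dg (hOf 3) e he hv
        rw [e3]
        have hL'le : L' ≤ s(a, f 5) ::ₘ L₁ := Helper19.Kill.outt_le' _ _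
        refine ih (k + 1) b' _ L' O ⟨?_, ?_, ?_, fun j => h.capb _, ?_, h.two, ?_, ?_, ?_,
          fun j i => h.offOb _ i, ?_, ?_, ?_, ?_⟩
        · intro j i j' i' hh
          obtain ⟨h1, h2⟩ := h.injb _ _ _ _ hh
          exact ⟨Fin.succAbove_right_injective h1, h2⟩
        · intro j i j' i'
          refine Fin.cases ?_ (fun j => ?_) j
          · refine Fin.cases ?_ (fun j' => ?_) j'
            · intro hh
              simp only [Fin.cons_zero] at hh
              exact ⟨rfl, (hf.comp z4_inj) hh⟩
            · intro hh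
              simp only [Fin.cons_zero, Fin.cons_succ] at hh
              exact absurd hh.symm (hfz _ _ _)
          · refine Fin.cases ?_ (fun j' => ?_) j'
            · intro hh
              simp only [Fin.cons_zero, Fin.cons_succ] at hh
              exact absurd hh (hfz _ _ _)
            · intro hh
              simp only [Fin.cons_succ] at hh
              obtain ⟨h1, h2⟩ := h.inj _ _ _ _ hh
              exact ⟨by rw [h1], h2⟩
        · intro j i j' i'
          refine Fin.cases ?_ (fun j' => ?_) j'
          · simp only [Fin.cons_zero]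
            exact hbf _ _ _
          · simp only [Fin.cons_succ]
            exact h.disj _ _ _ _
        · intro j
          refine Fin.cases ?_ (fun j => ?_) j
          · simp only [Fin.cons_zero]
            exact ⟨hcf 5, hcf 6⟩
          · simp only [Fin.cons_succ]
            exact h.cap j
        · intro e he
          rcases Multiset.mem_add.mp he with h1 | h1
          · exact lL1 e (Multiset.mem_of_le hL'le h1)
          · exact hlO e h1
        · intro j i
          exact (dg_le_of_le hL'le _).trans ((hdle _ (hbf _ _ _)).trans (h.slotsb _ i))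
        · intro j i
          refine Fin.cases ?_ (fun j => ?_) j
          · simp only [Fin.cons_zero]
            have h1 := dg_le_of_le hL'le ((f ∘ z4) i)
            fin_cases i
            · exact h1.trans ((hdle _ (ne (by decide))).trans (hsf 4))
            · exact h1.trans hd5.le
            · exact h1.trans ((hdle _ (ne (by decide))).trans (hsf 6))
            · exact h1.trans ((hdle _ (ne (by decide))).trans (hsf 7))
          · simp only [Fin.cons_succ]
            exact (dg_le_of_le hL'le _).trans ((hdle _ (hfz _ _ _)).trans (h.slots _ i))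
        · intro j i
          refine Fin.cases ?_ (fun j => ?_) j
          · simp only [Fin.cons_zero]
            exact hOf _
          · simp only [Fin.cons_succ]
            exact h.offO _ _
        · intro v
          by_cases hv : v = f 5
          · rw [hv]
            have := dg_le_of_le hL'le (f 5)
            omega
          · exact (dg_le_of_le hL'le _).trans ((hdle _ hv).trans (h.degL v))
        · intro v
          have h1 := h.deg v
          rw [dg_add] at h1 ⊢
          have h2 := dg_le_of_le hL'le v
          by_cases hv : v = f 5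
          · subst hv
            rw [hOf] at h1 ⊢
            omega
          · have := hdle v hv
            omega
        · have h1 : NoK4 (s(a, f 5) ::ₘ (L₁ + O)) := by
            refine noK4_cons (h.noK4.of_le (add_le_add hle1 le_rfl)) ?_
            rw [dg_cons_add', if_pos (Or.inr rfl), dg_add, r5, hOf]
            omega
          refine h1.of_le ?_
          rw [← Multiset.cons_add]
          exact add_le_add hL'le le_rfl

end Helper19.DN
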