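import Pool.Agent.helper19.L9.Parity4

/-!
# The potential of the four class parity scheme

`Phi = D_B + D_C - e(A,B) - e(C,D)`, written (doubled) as a sum of pair interactions. `cost v c` is the
marginal cost of the vertex `v` in the class `c`.
-/

namespace Helper19.L9

open Finset

variable {V : Type*}

/-- class weights of a pair at distance exactly two -/
def kTwo (c d : Fin 4) : ℤ := if c = d ∧ (c = 1 ∨ c = 2) then 1 else 0

/-- class weights of an adjacent pair -/
def kAdj (c d : Fin 4) : ℤ :=
  if (c = 0 ∧ d = 1) ∨ (c = 1 ∧ d = 0) ∨ (c = 2 ∧ d = 3) ∨ (c = 3 ∧ d = 2) then -1 else 0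

theorem kTwo_symm (c d : Fin 4) : kTwo c d = kTwo d c := by
  revert c d; decide

theorem kAdj_symm (c d : Fin 4) : kAdj c d = kAdj d c := by
  revert c d; decide

theorem Two.symm {G : SimpleGraph V} {v w : V} (h : Two G v w) : Two G w v := by
  obtain ⟨h1, h2, x, h3, h4⟩ := h
  exact ⟨h1.symm, fun h => h2 h.symm, x, h4.symm, h3.symm⟩

open Classical in
/-- interaction of `v` in class `c` with `w` in class `d` -/
noncomputable def pairK (G : SimpleGraph V) (v w : V) (c d : Fin 4) : ℤ :=
  (if Two G v w then kTwo c d else 0) + (if G.Adj v w then kAdj c d else 0)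

theorem pairK_symm (G : SimpleGraph V) (v w : V) (c d : Fin 4) :
    pairK G v w c d = pairK G w v d c := by
  have h1 : Two G v w ↔ Two G w v := ⟨Two.symm, Two.symm⟩
  have h2 : G.Adj v w ↔ G.Adj w v := G.adj_comm v w
  unfold pairK
  rw [kTwo_symm c d, kAdj_symm c d]
  by_cases a : Two G v w
  · by_cases b : G.Adj v w
    · rw [if_pos a, if_pos b, if_pos (h1.mp a), if_pos (h2.mp b)]
    · rw [if_pos a, if_neg b, if_pos (h1.mp a), if_neg (fun h => b (h2.mpr h))]
  · by_cases b : G.Adj v w
    · rw [if_neg a, if_pos b, if_neg (fun h => a (h1.mpr h)), if_pos (h2.mp b)]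
    · rw [if_neg a, if_neg b, if_neg (fun h => a (h1.mpr h)), if_neg (fun h => b (h2.mpr h))]

theorem pairK_self (G : SimpleGraph V) (v : V) (c d : Fin 4) : pairK G v v c d = 0 := by
  unfold pairK
  have h1 : ¬ Two G v v := fun h => h.1 rfl
  have h2 : ¬ G.Adj v v := G.loopless.irrefl v
  rw [if_neg h1, if_neg h2, add_zero]

variable [Fintype V]

/-- marginal cost of `v` in class `c` -/
noncomputable def cost (G : SimpleGraph V) (cls : V → Fin 4) (v : V) (c : Fin 4) : ℤ :=
  ∑ w, pairK G v w c (cls w)

/-- twice the potential -/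
noncomputable def energy (G : SimpleGraph V) (cls : V → Fin 4) : ℤ :=
  ∑ v, ∑ w, pairK G v w (cls v) (cls w)

theorem energy_update [DecidableEq V] (G : SimpleGraph V) (cls : V → Fin 4) (v : V)
    (c : Fin 4) :
    energy G (Function.update cls v c) = energy G cls + 2 * (cost G cls v c - cost G cls v (cls v)) := by
  have hcost : ∀ d, cost G cls v d = ∑ w ∈ univ.erase v, pairK G v w d (cls w) := by
    intro d
    unfold cost
    rw [← Finset.add_sum_erase _ _ (mem_univ v), pairK_self, zero_add]
  have hE : ∀ s : V → Fin 4, (∀ w, w ≠ v → s w = cls w) →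
      energy G s = 2 * ∑ w ∈ univ.erase v, pairK G v w (s v) (cls w) +
        ∑ x ∈ univ.erase v, ∑ w ∈ univ.erase v, pairK G x w (cls x) (cls w) := by
    intro s hs
    unfold energy
    rw [← Finset.add_sum_erase _ _ (mem_univ v)]
    have h1 : ∑ w, pairK G v w (s v) (s w) =
        ∑ w ∈ univ.erase v, pairK G v w (s v) (cls w) := by
      rw [← Finset.add_sum_erase _ _ (mem_univ v), pairK_self, zero_add]
      apply sum_congr rfl
      intro w hw
      rw [hs w (ne_of_mem_erase hw)]
    have h2 : ∀ x ∈ univ.erase v, ∑ w, pairK G x w (s x) (s w) =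
        pairK G v x (s v) (cls x) + ∑ w ∈ univ.erase v, pairK G x w (cls x) (cls w) := by
      intro x hx
      rw [← Finset.add_sum_erase _ _ (mem_univ v), hs x (ne_of_mem_erase hx),
        pairK_symm G x v]
      congr 1
      apply sum_congr rfl
      intro w hw
      rw [hs w (ne_of_mem_erase hw)]
    rw [h1, sum_congr rfl h2, sum_add_distrib]
    ring
  rw [hE (Function.update cls v c) (fun w hw => Function.update_of_ne hw _ _),
    hE cls (fun _ _ => rfl), hcost, hcost, Function.update_self]
  ring

open Classical in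
theorem cost_B (G : SimpleGraph V) (cls : V → Fin 4) (v : V) :
    cost G cls v 1 = ((univ.filter fun w => cls w = 1 ∧ Two G v w).card : ℤ) -
      (univ.filter fun w => cls w = 0 ∧ G.Adj v w).card := by
  unfold cost pairK
  rw [sum_add_distrib, card_filter, card_filter]
  push_cast
  rw [sub_eq_add_neg, ← sum_neg_distrib]
  congr 1
  · apply sum_congr rfl
    intro w _
    have : kTwo 1 (cls w) = if cls w = 1 then 1 else 0 := by
      generalize cls w = d
      revert d; decide
    rw [this]
    by_cases h1 : cls w = 1 <;> by_cases h2 : Two G v w <;> simp [h1, h2]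
  · apply sum_congr rfl
    intro w _
    have : kAdj 1 (cls w) = if cls w = 0 then -1 else 0 := by
      generalize cls w = d
      revert d; decide
    rw [this]
    by_cases h1 : cls w = 0 <;> by_cases h2 : G.Adj v w <;> simp [h1, h2]

open Classical in
theorem cost_C (G : SimpleGraph V) (cls : V → Fin 4) (v : V) :
    cost G cls v 2 = ((univ.filter fun w => cls w = 2 ∧ Two G v w).card : ℤ) -
      (univ.filter fun w => cls w = 3 ∧ G.Adj v w).card := by
  unfold cost pairK
  rw [sum_add_distrib, card_filter, card_filter]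
  push_cast
  rw [sub_eq_add_neg, ← sum_neg_distrib]
  congr 1
  · apply sum_congr rfl
    intro w _
    have : kTwo 2 (cls w) = if cls w = 2 then 1 else 0 := by
      generalize cls w = d
      revert d; decide
    rw [this]
    by_cases h1 : cls w = 2 <;> by_cases h2 : Two G v w <;> simp [h1, h2]
  · apply sum_congr rfl
    intro w _
    have : kAdj 2 (cls w) = if cls w = 3 then -1 else 0 := by
      generalize cls w = d
      revert d; decide
    rw [this]
    by_cases h1 : cls w = 3 <;> by_cases h2 : G.Adj v w <;> simp [h1, h2]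

open Classical in
theorem cost_A (G : SimpleGraph V) (cls : V → Fin 4) (v : V) :
    cost G cls v 0 = -((univ.filter fun w => cls w = 1 ∧ G.Adj v w).card : ℤ) := by
  unfold cost pairK
  rw [sum_add_distrib, card_filter]
  push_cast
  rw [← sum_neg_distrib]
  have h0 : ∑ w, (if Two G v w then kTwo 0 (cls w) else 0) = 0 := by
    apply sum_eq_zero
    intro w _
    have : kTwo 0 (cls w) = 0 := by
      generalize cls w = d
      revert d; decide
    rw [this]; simp
  rw [h0, zero_add]
  apply sum_congr rfl
  intro w _
  have : kAdj 0 (cls w) = if cls w = 1 then -1 else 0 := by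
    generalize cls w = d
    revert d; decide
  rw [this]
  by_cases h1 : cls w = 1 <;> by_cases h2 : G.Adj v w <;> simp [h1, h2]

open Classical in
theorem cost_D (G : SimpleGraph V) (cls : V → Fin 4) (v : V) :
    cost G cls v 3 = -((univ.filter fun w => cls w = 2 ∧ G.Adj v w).card : ℤ) := by
  unfold cost pairK
  rw [sum_add_distrib, card_filter]
  push_cast
  rw [← sum_neg_distrib]
  have h0 : ∑ w, (if Two G v w then kTwo 3 (cls w) else 0) = 0 := by
    apply sum_eq_zero
    intro w _
    have : kTwo 3 (cls w) = 0 := by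
      generalize cls w = d
      revert d; decide
    rw [this]; simp
  rw [h0, zero_add]
  apply sum_congr rfl
  intro w _
  have : kAdj 3 (cls w) = if cls w = 2 then -1 else 0 := by
    generalize cls w = d
    revert d; decide
  rw [this]
  by_cases h1 : cls w = 2 <;> by_cases h2 : G.Adj v w <;> simp [h1, h2]

open Classical in
/-- the two needs of a vertex add up to the number of vertices at distance two minus the number
of `A`- and `D`-vertices at distance at most two -/
theorem cost_B_add_cost_C (G : SimpleGraph V) (cls : V → Fin 4) (v : V) :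
    cost G cls v 1 + cost G cls v 2 = ((univ.filter fun w => Two G v w).card : ℤ) -
      (univ.filter fun w => (cls w = 0 ∨ cls w = 3) ∧ Close G v w).card := by
  rw [cost_B, cost_C, card_filter, card_filter, card_filter, card_filter, card_filter,
    card_filter]
  push_cast
  rw [← sum_sub_distrib, ← sum_sub_distrib, ← sum_sub_distrib, ← sum_add_distrib]
  apply sum_congr rfl
  intro w _
  have hcl : Close G v w ↔ (G.Adj v w ∨ Two G v w) := by
    constructor
    · rintro ⟨h1, h2⟩
      by_cases h : G.Adj v w
      · exact Or.inl h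
      · rcases h2 with h2 | h2
        · exact absurd h2 h
        · exact Or.inr ⟨h1, h, h2⟩
    · rintro (h | h)
      · exact ⟨G.ne_of_adj h, Or.inl h⟩
      · exact ⟨h.1, Or.inr h.2.2⟩
  rw [hcl]
  have h4 : cls w = 0 ∨ cls w = 1 ∨ cls w = 2 ∨ cls w = 3 := by
    generalize cls w = c
    fin_cases c <;> simp
  by_cases h2 : Two G v w
  · have ha : ¬ G.Adj v w := h2.2.1
    rcases h4 with h | h | h | h <;> simp [h, h2, ha]
  · by_cases ha : G.Adj v w <;> rcases h4 with h | h | h | h <;> simp [h, h2, ha]

/-- a split of the vertices outside `A ∪ D` into `B`, `C` of least potential -/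
theorem exists_split [DecidableEq V] (G : SimpleGraph V) (A D : Finset V)
    (hAD : Disjoint A D) :
    ∃ cls : V → Fin 4, (∀ v, cls v = 0 ↔ v ∈ A) ∧ (∀ v, cls v = 3 ↔ v ∈ D) ∧
      ∀ cls' : V → Fin 4, (∀ v, cls' v = 0 ↔ v ∈ A) → (∀ v, cls' v = 3 ↔ v ∈ D) →
        energy G cls ≤ energy G cls' := by
  classical
  set 𝒮 : Finset (V → Fin 4) := univ.filter fun cls =>
    (∀ v, cls v = 0 ↔ v ∈ A) ∧ (∀ v, cls v = 3 ↔ v ∈ D) with h𝒮
  have hne : 𝒮.Nonempty := by
    refine ⟨fun v => if v ∈ A then 0 else if v ∈ D then 3 else 1, ?_⟩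
    rw [h𝒮, mem_filter]
    refine ⟨mem_univ _, ?_, ?_⟩
    · intro v
      by_cases h1 : v ∈ A
      · simp [h1]
      · by_cases h2 : v ∈ D <;> simp [h1, h2]
    · intro v
      by_cases h1 : v ∈ A
      · have h2 : v ∉ D := fun h => (disjoint_left.mp hAD h1) h
        simp [h1, h2]
      · by_cases h2 : v ∈ D <;> simp [h1, h2]
  obtain ⟨cls, hcls, hmin⟩ := exists_min_image 𝒮 (energy G) hne
  rw [h𝒮, mem_filter] at hcls
  refine ⟨cls, hcls.2.1, hcls.2.2, ?_⟩
  intro cls' h1 h2
  exact hmin cls' (by rw [h𝒮, mem_filter]; exact ⟨mem_univ _, h1, h2⟩)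

open Classical in
/-- **coverage gives needs**: at a split of least potential the own need is at most the other need,
so it is at most one when `|D2(v)|` minus the number of close `A`, `D`-vertices is at most three -/
theorem needs_of_coverage [DecidableEq V] (G : SimpleGraph V) (A D : Finset V)
    (hcov : ∀ v, v ∉ A → v ∉ D → (univ.filter fun w => Two G v w).card ≤
      (univ.filter fun w => (w ∈ A ∨ w ∈ D) ∧ Close G v w).card + 3)
    (cls : V → Fin 4) (hA : ∀ v, cls v = 0 ↔ v ∈ A) (hD : ∀ v, cls v = 3 ↔ v ∈ D)
    (hmin : ∀ cls' : V → Fin 4, (∀ v, cls' v = 0 ↔ v ∈ A) → (∀ v, cls' v = 3 ↔ v ∈ D) →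
        energy G cls ≤ energy G cls') (v : V) :
    (cls v = 1 → cost G cls v 1 ≤ cost G cls v 2 ∧ cost G cls v 1 ≤ 1 ∧
      cost G cls v 1 + cost G cls v 2 ≤ 3) ∧
    (cls v = 2 → cost G cls v 2 ≤ cost G cls v 1 ∧ cost G cls v 2 ≤ 1 ∧
      cost G cls v 1 + cost G cls v 2 ≤ 3) := by
  have hsum : v ∉ A → v ∉ D → cost G cls v 1 + cost G cls v 2 ≤ 3 := by
    intro h1 h2
    rw [cost_B_add_cost_C]
    have h3 := hcov v h1 h2
    have h4 : (univ.filter fun w => (cls w = 0 ∨ cls w = 3) ∧ Close G v w) =
        (univ.filter fun w => (w ∈ A ∨ w ∈ D) ∧ Close G v w) := by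
      ext w
      simp only [mem_filter, hA, hD]
    rw [h4]
    omega
  have hflip : ∀ c c' : Fin 4, (c = 1 ∨ c = 2) → (c' = 1 ∨ c' = 2) → cls v = c →
      cost G cls v c ≤ cost G cls v c' := by
    intro c c' hc hc' hv
    have hvA : v ∉ A := by
      rw [← hA, hv]; rcases hc with h | h <;> rw [h] <;> decide
    have hvD : v ∉ D := by
      rw [← hD, hv]; rcases hc with h | h <;> rw [h] <;> decide
    have h := hmin (Function.update cls v c') ?_ ?_
    · rw [energy_update, hv] at h
      linarith
    · intro w
      by_cases hw : w = v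
      · subst hw
        rw [Function.update_self]
        constructor
        · intro h; rcases hc' with h' | h' <;> rw [h'] at h <;> exact absurd h (by decide)
        · intro h; exact absurd h hvA
      · rw [Function.update_of_ne hw]; exact hA w
    · intro w
      by_cases hw : w = v
      · subst hw
        rw [Function.update_self]
        constructor
        · intro h; rcases hc' with h' | h' <;> rw [h'] at h <;> exact absurd h (by decide)
        · intro h; exact absurd h hvD
      · rw [Function.update_of_ne hw]; exact hD w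
  constructor
  · intro hv
    have hvA : v ∉ A := by rw [← hA, hv]; decide
    have hvD : v ∉ D := by rw [← hD, hv]; decide
    have h1 := hflip 1 2 (Or.inl rfl) (Or.inr rfl) hv
    have h2 := hsum hvA hvD
    refine ⟨h1, ?_, h2⟩
    omega
  · intro hv
    have hvA : v ∉ A := by rw [← hA, hv]; decide
    have hvD : v ∉ D := by rw [← hD, hv]; decide
    have h1 := hflip 2 1 (Or.inr rfl) (Or.inl rfl) hv
    have h2 := hsum hvA hvD
    refine ⟨h1, ?_, h2⟩
    omega

end Helper19.L9
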