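import Pool.Agent.helper19.L9.FNet

/-!
# Networks of cells `F`: one cell
-/

set_option linter.unusedSimpArgs false

namespace Helper19.DN

open Finset Helper42.L9 Helper33.L9 Helper19.Kill Helper19.Gadget

variable {V : Type*} {c : V → ℕ} {M N R L O W : Multiset (Sym2 V)} {m n k : ℕ}

theorem dg_pos' {v : V} {e : Sym2 V} (he : e ∈ M) (hv : v ∈ e) : dg M v ≠ 0 :=
  fun h => notMem_of_dg h e he hv

theorem prs4 : ∀ i j : Fin 4, i < j → ((i : ℕ), (j : ℕ)) ∈ prs 4 := fun i j h => mem_prs h j.2
theorem prs5 : ∀ i j : Fin 5, i < j → ((i : ℕ), (j : ℕ)) ∈ prs 5 := fun i j h => mem_prs h j.2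
theorem prs6 : ∀ i j : Fin 6, i < j → ((i : ℕ), (j : ℕ)) ∈ prs 6 := fun i j h => mem_prs h j.2
theorem prs8 : ∀ i j : Fin 8, i < j → ((i : ℕ), (j : ℕ)) ∈ prs 8 := fun i j h => mem_prs h j.2

theorem chkKp_of_chkK {n : ℕ} {cl : List ℕ} {g : List (ℕ × ℕ)} {sl : List ℕ}
    (h : chkK n cl g sl = true) : chkKp n cl g sl (prs n) = true := by
  unfold chkKp
  rw [Bool.and_eq_true]
  refine ⟨?_, h⟩
  rw [List.all_eq_true]
  intro e he
  exact decide_eq_true (prs_lt e he)

/-- **One cell** whose two middle links do not go to the last vertex of another cell. -/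
theorem FNet.one {z : Fin (k + 1) → Fin 4 → V} (h : FNet z c L O) (j : Fin (k + 1))
    (IH : ∀ L O, FNet (z ∘ j.succAbove) c L O → AT (TE EZ (z ∘ j.succAbove) + (L + O)) c)
    (hbc : ∀ l, l ≠ j → s(z j 1, z l 3) ∈ L → s(z j 2, z l 3) ∈ L → False) :
    AT (TE EZ z + (L + O)) c := by
  classical
  rw [TE_split EZ z j, add_assoc]
  set f := z j with hf0
  set z' := z ∘ j.succAbove with hz'
  have hf : Function.Injective f := h.zinj j
  have H : FNet z' c L O := h.rest j
  have hzf : ∀ j' i i', z' j' i ≠ f i' := fun j' i i' => h.rest_ne j j' i i'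
  have ne : ∀ {i i' : Fin 4}, i ≠ i' → f i ≠ f i' := fun hij hh => hij (hf hh)
  have hcf : ∀ i, cZ i ≤ c (f i) := h.capZ j
  have hsf : ∀ i, dg L (f i) ≤ slZ i := h.slots j
  have hOf : ∀ i, dg O (f i) = 0 := h.offO j
  have hlL : ∀ e ∈ L, ¬ e.IsDiag := fun e he => h.loopless e (Multiset.mem_add.mpr (Or.inl he))
  have hlO : ∀ e ∈ O, ¬ e.IsDiag := fun e he => h.loopless e (Multiset.mem_add.mpr (Or.inr he))
  have hNf : ∀ i, dg (TE EZ z' + (L + O)) (f i) = dg L (f i) := by
    intro i
    rw [dg_add, dg_add, dg_TE_out fun j' i' => hzf j' i' i, hOf, add_zero, zero_add]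
  have hBl : ∀ e ∈ emb f EZ, ¬ e.IsDiag := emb_loopless hf (by decide)
  by_cases hdead : dg L (f 1) = 0 ∨ dg L (f 2) = 0
  · -- a middle link is missing
    refine peelZ hf hcf (fun i => by rw [hNf]; exact hsf i) (by rw [hNf, hNf]; exact hdead) ?_ ?_
    · intro e he
      rcases Multiset.mem_add.mp he with h1 | h1
      · exact H.llTE e h1
      · exact h.loopless e h1
    · rw [outt_add, outt_add, outt_TE]
      · exact IH _ _ (H.sub (Helper19.Kill.outt_le' _ _) (Helper19.Kill.outt_le' _ _))
      · intro j' i hi
        obtain ⟨i', hi'⟩ := mem_img.mp hi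
        exact hzf j' i i' hi'.symm
  push Not at hdead
  obtain ⟨x, hx⟩ := exists_at hdead.1
  obtain ⟨y, hy⟩ := exists_at hdead.2
  have s1 : slZ 1 = 1 := rfl
  have s2 : slZ 2 = 1 := rfl
  have hs1 := hsf 1
  have hs2 := hsf 2
  have hxf1 : x ≠ f 1 := by
    rintro rfl; exact hlL _ hx (Sym2.mk_isDiag_iff.mpr rfl)
  have hyf2 : y ≠ f 2 := by
    rintro rfl; exact hlL _ hy (Sym2.mk_isDiag_iff.mpr rfl)
  have hD0 : ∀ i, dg (emb f EZ + (L + O)) (f i) ≤ tZ i := h.tot j
  have hBf : ∀ {p : ℕ} (w : Fin p → V), ∀ e ∈ emb f EZ, ∃ i, Fin.append f w i ∈ e := by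
    intro p w e he
    obtain ⟨q, hq, rfl⟩ := mem_emb.mp he
    exact ⟨Fin.castAdd p q.1, by rw [Fin.append_left]; exact Sym2.mem_mk_left _ _⟩
  by_cases hxf2 : x = f 2
  · -- the two middle vertices are linked
    subst hxf2
    obtain ⟨L₁, hL₁⟩ := Multiset.exists_cons_of_mem hx
    refine H.kill IH (B := emb f EZ) (W := L₁ + O) f hf hzf ((1, 2) :: EZ) ?_ ?_ hBl tZ hD0
      [2, 3, 3, 2] [1, 0, 0, 2] (by decide) ?_ (by decide) _ rfl (prs 4) ?_
      (chkKp_of_chkK chk_fuv)
    · rw [hL₁]
      have : emb f ((1, 2) :: EZ) = s(f 1, f 2) ::ₘ emb f EZ := rfl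
      rw [this]
      simp only [← Multiset.singleton_add]
      abel
    · intro e he
      obtain ⟨q, hq, rfl⟩ := mem_emb.mp he
      exact ⟨q.1, Sym2.mem_mk_left _ _⟩
    · intro i
      refine le_trans ?_ (hcf i)
      revert i; decide
    · intro i i' hii _
      exact prs4 i i' hii
  have hyf1 : y ≠ f 1 := by
    rintro rfl
    have h1 : 2 ≤ dg L (f 1) := by
      obtain ⟨L₁, hL₁⟩ := Multiset.exists_cons_of_mem hx
      have h2 : s(f 1, f 2) ∈ L₁ := by
        have := mem_sw hy
        rw [hL₁] at this
        exact mem_second hxf2 this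
      obtain ⟨L₂, hL₂⟩ := Multiset.exists_cons_of_mem h2
      rw [hL₁, dg_cons_pos (Sym2.mem_mk_left _ _), hL₂, dg_cons_pos (Sym2.mem_mk_left _ _)]
      omega
    omega
  obtain ⟨L₁, hL₁⟩ := Multiset.exists_cons_of_mem hx
  have hy1 : s(f 2, y) ∈ L₁ := by
    rw [hL₁] at hy
    rcases Multiset.mem_cons.mp hy with h1 | h1
    · rw [Sym2.eq_iff] at h1
      rcases h1 with ⟨h1, _⟩ | ⟨h1, _⟩
      · exact absurd h1 (ne (by decide))
      · exact absurd h1.symm hxf2
    · exact h1
  obtain ⟨L₂, hL₂⟩ := Multiset.exists_cons_of_mem hy1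
  have hLL : L = s(f 1, x) ::ₘ s(f 2, y) ::ₘ L₂ := by rw [hL₁, hL₂]
  have dL : ∀ v, dg L v = (if v = f 1 ∨ v = x then 1 else 0) +
      ((if v = f 2 ∨ v = y then 1 else 0) + dg L₂ v) := by
    intro v
    rw [hLL, dg_cons_add', dg_cons_add']
    congr
  have r1 : dg L₂ (f 1) = 0 := by
    have h1 := dL (f 1)
    rw [if_pos (Or.inl rfl)] at h1
    omega
  have r2 : dg L₂ (f 2) = 0 := by
    have h1 := dL (f 2)
    rw [if_pos (c := f 2 = f 2 ∨ f 2 = y) (Or.inl rfl)] at h1
    omega
  have hle2 : L₂ ≤ L := by
    rw [hLL]
    exact (Multiset.le_cons_self _ _).trans (Multiset.le_cons_self _ _)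
  by_cases hxy : x = y
  · -- both middle links go to the same vertex
    subst hxy
    have hdx : 2 ≤ dg L x := by
      rw [dL, if_pos (Or.inr rfl), if_pos (Or.inr rfl)]
      omega
    have hdx2 := h.degL x
    have rx : dg L₂ x = 0 := by
      have h1 := dL x
      rw [if_pos (Or.inr rfl), if_pos (Or.inr rfl)] at h1
      omega
    by_cases hxf : ∃ i, f i = x
    · obtain ⟨i, rfl⟩ := hxf
      have hi : i = 3 := by
        have h1 := hsf i
        have h2 : 2 ≤ slZ i := hdx.trans h1
        revert h2
        clear * -
        revert i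
        decide
      subst hi
      refine H.kill IH (B := emb f EZ) (W := L₂ + O) f hf hzf ((1, 3) :: (2, 3) :: EZ) ?_ ?_ hBl
        tZ hD0 [2, 3, 3, 2] [1, 0, 0, 0] (by decide) ?_ (by decide) _ rfl (prs 4) ?_
        (chkKp_of_chkK chk_fq)
      · rw [hLL]
        have : emb f ((1, 3) :: (2, 3) :: EZ) = s(f 1, f 3) ::ₘ s(f 2, f 3) ::ₘ emb f EZ := rfl
        rw [this]
        simp only [← Multiset.singleton_add]
        abel
      · intro e he
        obtain ⟨q, hq, rfl⟩ := mem_emb.mp he
        exact ⟨q.1, Sym2.mem_mk_left _ _⟩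
      · intro i
        refine le_trans ?_ (hcf i)
        revert i; decide
      · intro i i' hii _
        exact prs4 i i' hii
    · push Not at hxf
      -- `x` is not in a cell
      have hxz : ∀ j' i, z' j' i ≠ x := by
        rintro j' i rfl
        have h1 := H.slots j' i
        have h2 : 2 ≤ slZ i := hdx.trans h1
        have hi : i = 3 := by
          revert h2
          clear * -
          revert i
          decide
        subst hi
        exact hbc (j.succAbove j') (Fin.succAbove_ne _ _) hx hy
      by_cases hO0 : dg O x = 0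
      · have hg : Function.Injective (Fin.append f ![x]) := by
          rw [Fin.append_injective_iff]
          refine ⟨hf, Function.injective_of_subsingleton _, fun i i' => ?_⟩
          have : i' = 0 := Subsingleton.elim _ _
          subst this
          exact hxf i
        refine H.kill IH (B := emb f EZ) (W := L₂ + O) (Fin.append f ![x] : Fin 5 → V) hg ?_
          [(1, 4), (2, 4), (0, 1), (1, 2), (2, 3), (0, 2), (1, 3)] ?_ (hBf _) hBl
          ![3, 4, 4, 4, 2] ?_ [2, 3, 3, 2, 2] [1, 0, 0, 2, 0] (by decide) ?_ (by decide) _ rfl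
          (prs 5) ?_ (chkKp_of_chkK chk_fo)
        · intro j' i i'
          refine Fin.addCases (m := 4) (n := 1) (fun a => ?_) (fun a => ?_) i'
          · rw [Fin.append_left]; exact hzf _ _ _
          · rw [Fin.append_right]
            have : a = 0 := Subsingleton.elim _ _
            subst this
            exact hxz _ _
        · rw [hLL]
          have : emb (Fin.append f ![x] : Fin 5 → V)
              [(1, 4), (2, 4), (0, 1), (1, 2), (2, 3), (0, 2), (1, 3)] =
              s(f 1, x) ::ₘ s(f 2, x) ::ₘ emb f EZ := rfl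
          rw [this]
          simp only [← Multiset.singleton_add]
          abel
        · intro i
          have e0 : (![3, 4, 4, 4, 2] : Fin 5 → ℕ) = Fin.append tZ ![2] := by
            funext i; fin_cases i <;> rfl
          rw [e0]
          refine Fin.addCases (m := 4) (n := 1) (fun a => ?_) (fun a => ?_) i
          · rw [Fin.append_left, Fin.append_left]; exact hD0 a
          · rw [Fin.append_right, Fin.append_right]
            have : a = 0 := Subsingleton.elim _ _
            subst this
            show dg (emb f EZ + (L + O)) x ≤ 2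
            rw [dg_add, dg_add, hO0, dg_emb_out hxf]
            omega
        · intro i
          have h1 := hcf
          have h2 := h.two
          fin_cases i
          · exact h1 0
          · exact h1 1
          · exact h1 2
          · exact h1 3
          · exact h2 _
        · intro i i' hii _
          exact prs5 i i' hii
      · -- the own neighbour of `x`
        obtain ⟨o, ho⟩ := exists_at hO0
        obtain ⟨O₁, hO₁⟩ := Multiset.exists_cons_of_mem ho
        have hox : o ≠ x := by
          rintro rfl; exact hlO _ ho (Sym2.mk_isDiag_iff.mpr rfl)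
        have hof : ∀ i, f i ≠ o := by
          rintro i rfl
          exact dg_pos' ho (Sym2.mem_mk_right _ _) (hOf i)
        have hoz : ∀ j' i, z' j' i ≠ o := by
          rintro j' i rfl
          exact dg_pos' ho (Sym2.mem_mk_right _ _) (H.offO j' i)
        have hdegx := h.deg x
        rw [dg_add] at hdegx
        have hdego := h.deg o
        have hg : Function.Injective (Fin.append f ![x, o]) := by
          rw [Fin.append_injective_iff]
          refine ⟨hf, ?_, fun i i' => ?_⟩
          · intro a b hab
            fin_cases a <;> fin_cases b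
            · rfl
            · exact absurd hab.symm hox
            · exact absurd hab hox
            · rfl
          · fin_cases i'
            · exact hxf i
            · exact hof i
        refine H.kill IH (B := emb f EZ) (W := L₂ + O₁) (Fin.append f ![x, o] : Fin 6 → V) hg ?_
          [(1, 4), (2, 4), (4, 5), (0, 1), (1, 2), (2, 3), (0, 2), (1, 3)] ?_ (hBf _) hBl
          ![3, 4, 4, 4, 3, 3] ?_ [2, 3, 3, 2, 2, 2] [1, 0, 0, 2, 0, 2] (by decide) ?_ (by decide)
          _ rfl (prs 6) ?_ (chkKp_of_chkK chk_foo)
        · intro j' i i'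
          refine Fin.addCases (m := 4) (n := 2) (fun a => ?_) (fun a => ?_) i'
          · rw [Fin.append_left]; exact hzf _ _ _
          · rw [Fin.append_right]
            fin_cases a
            · exact hxz _ _
            · exact hoz _ _
        · rw [hLL, hO₁]
          have : emb (Fin.append f ![x, o] : Fin 6 → V)
              [(1, 4), (2, 4), (4, 5), (0, 1), (1, 2), (2, 3), (0, 2), (1, 3)] =
              s(f 1, x) ::ₘ s(f 2, x) ::ₘ s(x, o) ::ₘ emb f EZ := rfl
          rw [this]
          simp only [← Multiset.singleton_add]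
          abel
        · intro i
          have e0 : (![3, 4, 4, 4, 3, 3] : Fin 6 → ℕ) = Fin.append tZ ![3, 3] := by
            funext i; fin_cases i <;> rfl
          rw [e0]
          refine Fin.addCases (m := 4) (n := 2) (fun a => ?_) (fun a => ?_) i
          · rw [Fin.append_left, Fin.append_left]; exact hD0 a
          · rw [Fin.append_right, Fin.append_right]
            fin_cases a
            · show dg (emb f EZ + (L + O)) x ≤ 3
              rw [dg_add, dg_emb_out hxf, zero_add]
              exact h.deg x
            · show dg (emb f EZ + (L + O)) o ≤ 3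
              rw [dg_add, dg_emb_out hof, zero_add]
              exact h.deg o
        · intro i
          have h1 := hcf
          have h2 := h.two
          fin_cases i
          · exact h1 0
          · exact h1 1
          · exact h1 2
          · exact h1 3
          · exact h2 _
          · exact h2 _
        · intro i i' hii _
          exact prs6 i i' hii
  · -- different ends
    by_cases hK : NoK4 (s(x, y) ::ₘ (L₂ + O))
    · -- Lemma E
      have e1 : emb f EZ + (TE EZ z' + (L + O)) =
          emb f EZ + (s(f 1, x) ::ₘ s(f 2, y) ::ₘ (TE EZ z' + (L₂ + O))) := by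
        rw [hLL]
        simp only [← Multiset.singleton_add]
        abel
      rw [e1]
      have hz0 : ∀ i, dg L₂ (f i) = 0 → ∀ e ∈ TE EZ z' + (L₂ + O), f i ∉ e := by
        intro i hi
        refine notMem_of_dg ?_
        rw [dg_add, dg_add, hi, hOf, dg_TE_out fun j' i' => hzf j' i' i]
      refine lemZ hf hxf1 hxf2 hyf1 hyf2 (hz0 1 r1) (hz0 2 r2) (hcf 1) (hcf 2) ?_
      have e2 : s(x, y) ::ₘ (TE EZ z' + (L₂ + O)) = TE EZ z' + ((s(x, y) ::ₘ L₂) + O) := by
        simp only [← Multiset.singleton_add]
        abel
      rw [e2]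
      have hdle : ∀ v, dg (s(x, y) ::ₘ L₂) v ≤ dg L v := by
        intro v
        rw [dg_cons_add', dL]
        by_cases h1 : v = x
        · rw [if_pos (Or.inl h1), if_pos (c := v = f 1 ∨ v = x) (Or.inr h1)]; omega
        · by_cases h2 : v = y
          · rw [if_pos (Or.inr h2), if_pos (c := v = f 2 ∨ v = y) (Or.inr h2)]; omega
          · rw [if_neg]
            · omega
            · rintro (h3 | h3)
              · exact h1 h3
              · exact h2 h3
      refine IH _ _ ⟨H.inj, H.cap, H.two, ?_, fun j' i => (hdle _).trans (H.slots j' i), H.offO,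
        fun v => (hdle v).trans (H.degL v), ?_, ?_⟩
      · intro e he
        rcases Multiset.mem_add.mp he with h1 | h1
        · rcases Multiset.mem_cons.mp h1 with rfl | h1
          · rw [Sym2.mk_isDiag_iff]; exact hxy
          · exact hlL e (Multiset.mem_of_le hle2 h1)
        · exact hlO e h1
      · intro v
        have h1 := h.deg v
        rw [dg_add] at h1 ⊢
        have := hdle v
        omega
      · rw [Multiset.cons_add]; exact hK
    · -- a `K_4`
      have hK2 : NoK4 (L₂ + O) := h.noK4.of_le (add_le_add hle2 le_rfl)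
      obtain ⟨p, q, hn, m1, m2, m3, m4, m5⟩ := k4_of_not hK2 hK
      have hn' := hn
      simp only [List.nodup_cons, List.mem_cons, List.not_mem_nil, or_false, not_or,
        not_false_eq_true, List.nodup_nil, and_true] at hn'
      obtain ⟨⟨n1, n2, n3⟩, ⟨n4, n5⟩, n6⟩ := hn'
      set w : Fin 4 → V := ![x, y, p, q] with hw
      have hwi : Function.Injective w := by
        have e0 : w = fun i => [x, y, p, q].get i := by
          funext i; fin_cases i <;> rfl
        rw [e0]
        exact List.nodup_iff_injective_get.mp hn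
      -- every vertex of the `K_4` has degree three
      have d3 : ∀ {v a b d : V}, a ≠ b → a ≠ d → b ≠ d → s(v, a) ∈ L + O → s(v, b) ∈ L + O →
          s(v, d) ∈ L + O → 3 ≤ dg (L + O) v := by
        intro v a b d hab had hbd h1 h2 h3
        obtain ⟨M', hM'⟩ := Multiset.exists_cons_of_mem h1
        rw [hM'] at h2 h3 ⊢
        have h2' := mem_second hab h2
        have h3' := mem_second had h3
        obtain ⟨M'', hM''⟩ := Multiset.exists_cons_of_mem h2'
        rw [hM''] at h3' ⊢
        have h3'' := mem_second hbd h3'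
        obtain ⟨M3, hM3⟩ := Multiset.exists_cons_of_mem h3''
        rw [hM3, dg_cons_pos (Sym2.mem_mk_left _ _), dg_cons_pos (Sym2.mem_mk_left _ _),
          dg_cons_pos (Sym2.mem_mk_left _ _)]
        omega
      have up : ∀ {e : Sym2 V}, e ∈ L₂ + O → e ∈ L + O := fun he =>
        Multiset.mem_of_le (add_le_add hle2 le_rfl) he
      have hxl : s(x, f 1) ∈ L + O := Multiset.mem_add.mpr (Or.inl (mem_sw hx))
      have hyl : s(y, f 2) ∈ L + O := Multiset.mem_add.mpr (Or.inl (mem_sw hy))
      have hcell : ∀ {v : V}, 3 ≤ dg (L + O) v → (∀ i, f i ≠ v) ∧ ∀ j' i, z' j' i ≠ v := by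
        intro v hv
        constructor
        · rintro i rfl
          rw [dg_add, hOf] at hv
          have h1 := hsf i
          have h2 : ∀ i, slZ i ≤ 2 := by decide
          have := h2 i
          omega
        · rintro j' i rfl
          rw [dg_add, H.offO] at hv
          have h1 := H.slots j' i
          have h2 : ∀ i, slZ i ≤ 2 := by decide
          have := h2 i
          omega
      have cp' := hcell (d3 n1 n3 n5 (mem_sw (up m1)) (mem_sw (up m3)) (up m5))
      have cq' := hcell (d3 n1 n2 n4 (mem_sw (up m2)) (mem_sw (up m4)) (mem_sw (up m5)))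
      have cx' := hcell (d3 n6 (cp'.1 1).symm (cq'.1 1).symm (up m1) (up m2) hxl)
      have cy' := hcell (d3 n6 (cp'.1 2).symm (cq'.1 2).symm (up m3) (up m4) hyl)
      have hwf : ∀ i a, f i ≠ w a := by
        intro i a
        fin_cases a
        · exact cx'.1 i
        · exact cy'.1 i
        · exact cp'.1 i
        · exact cq'.1 i
      have hwz : ∀ j' i a, z' j' i ≠ w a := by
        intro j' i a
        fin_cases a
        · exact cx'.2 _ _
        · exact cy'.2 _ _
        · exact cp'.2 _ _
        · exact cq'.2 _ _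
      have hg : Function.Injective (Fin.append f w) := by
        rw [Fin.append_injective_iff]
        exact ⟨hf, hwi, hwf⟩
      -- the five edges
      set E5 : List (Fin 4 × Fin 4) := [(0, 2), (0, 3), (1, 2), (1, 3), (2, 3)] with hE5
      have hnd : (emb w E5).Nodup := by
        unfold emb
        rw [Multiset.coe_nodup]
        have h1 : (E5.map fun p => s(w p.1, w p.2)) =
            (E5.map fun p => s(p.1, p.2)).map (Sym2.map w) := by
          rw [List.map_map]; rfl
        rw [h1]
        refine List.Nodup.map (Sym2.map.injective hwi) ?_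
        rw [hE5]
        decide
      have hle : emb w E5 ≤ L₂ + O := by
        rw [Multiset.le_iff_subset hnd]
        intro e he
        obtain ⟨t, ht, rfl⟩ := mem_emb.mp he
        simp only [hE5, List.mem_cons, List.not_mem_nil, or_false] at ht
        rcases ht with rfl | rfl | rfl | rfl | rfl
        · exact m1
        · exact m2
        · exact m3
        · exact m4
        · exact m5
      obtain ⟨W, hW⟩ := Multiset.le_iff_exists_add.mp hle
      refine H.kill IH (B := emb f EZ) (W := W) (Fin.append f w : Fin 8 → V) hg ?_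
        [(1, 4), (2, 5), (4, 6), (4, 7), (5, 6), (5, 7), (6, 7), (0, 1), (1, 2), (2, 3), (0, 2),
          (1, 3)] ?_ (hBf _) hBl
        ![3, 4, 4, 4, 3, 3, 3, 3] ?_ [2, 3, 3, 2, 2, 2, 2, 2] [1, 0, 0, 2, 0, 0, 0, 0] (by decide)
        ?_ (by decide) _ rfl (prs 8) ?_ (chkKp_of_chkK chk_fk)
      · intro j' i i'
        refine Fin.addCases (m := 4) (n := 4) (fun a => ?_) (fun a => ?_) i'
        · rw [Fin.append_left]; exact hzf _ _ _
        · rw [Fin.append_right]
          exact hwz _ _ _
      · have h1 : L + O = s(f 1, x) ::ₘ s(f 2, y) ::ₘ (emb w E5 + W) := by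
          rw [← hW, hLL]
          simp only [← Multiset.singleton_add]
          abel
        rw [h1]
        have : emb (Fin.append f w : Fin 8 → V)
            [(1, 4), (2, 5), (4, 6), (4, 7), (5, 6), (5, 7), (6, 7), (0, 1), (1, 2), (2, 3),
              (0, 2), (1, 3)] =
            s(f 1, x) ::ₘ s(f 2, y) ::ₘ s(x, p) ::ₘ s(x, q) ::ₘ s(y, p) ::ₘ s(y, q) ::ₘ
              s(p, q) ::ₘ emb f EZ := rfl
        rw [this]
        have h5 : emb w E5 = s(x, p) ::ₘ s(x, q) ::ₘ s(y, p) ::ₘ s(y, q) ::ₘ s(p, q) ::ₘ 0 := rfl
        rw [h5]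
        simp only [← Multiset.singleton_add]
        abel
      · intro i
        have e0 : (![3, 4, 4, 4, 3, 3, 3, 3] : Fin 8 → ℕ) = Fin.append tZ ![3, 3, 3, 3] := by
          funext i; fin_cases i <;> rfl
        rw [e0]
        refine Fin.addCases (m := 4) (n := 4) (fun a => ?_) (fun a => ?_) i
        · rw [Fin.append_left, Fin.append_left]; exact hD0 a
        · rw [Fin.append_right, Fin.append_right, dg_add, dg_emb_out (hwf · a), zero_add]
          refine (h.deg _).trans ?_
          fin_cases a <;> decide
      · intro i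
        have h1 := hcf
        have h2 := h.two
        fin_cases i
        · exact h1 0
        · exact h1 1
        · exact h1 2
        · exact h1 3
        · exact h2 _
        · exact h2 _
        · exact h2 _
        · exact h2 _
      · intro i i' hii _
        exact prs8 i i' hii

end Helper19.DN
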