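import Pool.Agent.helper19.L9.KillT
import Pool.Agent.helper19.L9.DFNet

/-!
# Networks of cells `F`, triple condition
-/

set_option linter.unusedSimpArgs false

namespace Helper19.TN

open Finset Helper42.L9 Helper33.L9 Helper19.Kill Helper19.Gadget Helper19.DN

variable {V : Type*} {c : V → ℕ} {M N R W : Multiset (Sym2 V)} {m n k : ℕ}

/-- the vertex `v` sees `u`, `v` and `p` or `q` of the cell -/
def Tri (f : Fin 4 → V) (R : Multiset (Sym2 V)) (v : V) : Prop :=
  s(v, f 1) ∈ R ∧ s(v, f 2) ∈ R ∧ (s(v, f 0) ∈ R ∨ s(v, f 3) ∈ R)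

theorem Tri.mono {f : Fin 4 → V} {R R' : Multiset (Sym2 V)} {v : V} (h : Tri f R v)
    (hR : R ≤ R') : Tri f R' v :=
  ⟨Multiset.mem_of_le hR h.1, Multiset.mem_of_le hR h.2.1,
    h.2.2.imp (Multiset.mem_of_le hR) (Multiset.mem_of_le hR)⟩

/-- a network of cells `F` (`p u v q` = `0 1 2 3`), other edges `R` -/
structure FN (z : Fin k → Fin 4 → V) (c : V → ℕ) (R : Multiset (Sym2 V)) : Prop where
  inj : ∀ j i j' i', z j i = z j' i' → j = j' ∧ i = i'
  cap : ∀ j, 3 ≤ c (z j 1) ∧ 3 ≤ c (z j 2)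
  two : ∀ v, 2 ≤ c v
  loopless : ∀ e ∈ R, ¬ e.IsDiag
  slots : ∀ j i, dg R (z j i) ≤ slZ i
  deg : ∀ v, dg R v ≤ 3
  noK4 : NoK4 R
  noTri : ∀ j v, ¬ Tri (z j) R v

variable {z : Fin k → Fin 4 → V}

theorem FN.zinj (h : FN z c R) (j : Fin k) : Function.Injective (z j) :=
  fun _ _ hh => (h.inj _ _ _ _ hh).2

theorem FN.sub (h : FN z c R) {R' : Multiset (Sym2 V)} (hR : R' ≤ R) : FN z c R' :=
  ⟨h.inj, h.cap, h.two, fun e he => h.loopless e (Multiset.mem_of_le hR he),
    fun j i => (dg_le_of_le hR _).trans (h.slots j i),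
    fun v => (dg_le_of_le hR _).trans (h.deg v), h.noK4.of_le hR,
    fun j v hv => h.noTri j v (hv.mono hR)⟩

theorem FN.rest {z : Fin (k + 1) → Fin 4 → V} (h : FN z c R) (j : Fin (k + 1)) :
    FN (z ∘ j.succAbove) c R :=
  ⟨fun j' i j'' i' hh => by
      obtain ⟨h1, h2⟩ := h.inj _ _ _ _ hh
      exact ⟨Fin.succAbove_right_injective h1, h2⟩,
    fun j' => h.cap _, h.two, h.loopless, fun j' i => h.slots _ i, h.deg, h.noK4,
    fun j' v => h.noTri _ v⟩

theorem FN.rest_ne {z : Fin (k + 1) → Fin 4 → V} (h : FN z c R) (j : Fin (k + 1))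
    (j' : Fin k) (i i' : Fin 4) : (z ∘ j.succAbove) j' i ≠ z j i' := by
  intro hh
  exact Fin.succAbove_ne j j' (h.inj _ _ _ _ hh).1

theorem FN.capZ (h : FN z c R) (j : Fin k) (i : Fin 4) : cZ i ≤ c (z j i) := by
  obtain ⟨h1, h2⟩ := h.cap j
  fin_cases i
  · exact h.two _
  · exact h1
  · exact h2
  · exact h.two _

theorem FN.llTE (h : FN z c R) : ∀ e ∈ TE EZ z, ¬ e.IsDiag := by
  intro e he
  obtain ⟨j, hj⟩ := mem_TE.mp he
  exact emb_loopless (h.zinj j) (by decide) e hj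

theorem FN.tot (h : FN z c R) (j : Fin k) (i : Fin 4) :
    dg (emb (z j) EZ + R) (z j i) ≤ tZ i := by
  rw [dg_add, dg_emb (h.zinj j)]
  have := h.slots j i
  have h2 : ∀ i, cnt EZ i + slZ i ≤ tZ i := by decide
  have h3 := h2 i
  omega

/-- **Killing step.** `B` : the inner edges of the cells which are removed. -/
theorem FN.kill (h : FN z c R)
    (IH : ∀ R, FN z c R → AT (TE EZ z + R) c) {B : Multiset (Sym2 V)}
    (g : Fin n → V) (hg : Function.Injective g) (hgz : ∀ j i i', z j i ≠ g i')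
    (E : List (Fin n × Fin n)) (heq : B + R = emb g E + W)
    (hB : ∀ e ∈ B, ∃ i, g i ∈ e) (hBl : ∀ e ∈ B, ¬ e.IsDiag) (D : Fin n → ℕ)
    (hD : ∀ i, dg (B + R) (g i) ≤ D i)
    (cl sl : List ℕ) (h7 : cl.all (· ≤ 7) = true) (hc : ∀ i : Fin n, cp cl i ≤ c (g i))
    (hsl : ∀ i : Fin n, D i ≤ cnt E i + sl.getD i 0) (gE : List (ℕ × ℕ))
    (hE : (E.map fun e => ((e.1 : ℕ), (e.2 : ℕ))) = gE) (ps : List (ℕ × ℕ))
    (hin : ∀ i j : Fin n, i < j → s(g i, g j) ∈ W → ((i : ℕ), (j : ℕ)) ∈ ps)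
    (hchk : chkKp n cl gE sl ps = true) : AT (B + (TE EZ z + R)) c := by
  classical
  have hgT : ∀ i, dg (TE EZ z) (g i) = 0 := fun i => dg_TE_out fun j i' => hgz j i' i
  have e1 : B + (TE EZ z + R) = emb g E + (TE EZ z + W) := by
    rw [add_left_comm, heq, add_left_comm]
  rw [e1]
  have hWle : W ≤ B + R := by
    rw [heq]; exact Multiset.le_add_left _ _
  have hWl : ∀ e ∈ W, ¬ e.IsDiag := by
    intro e he
    rcases Multiset.mem_add.mp (Multiset.mem_of_le hWle he) with h1 | h1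
    · exact hBl e h1
    · exact h.loopless e h1
  refine kill_of_chkp g hg cl h7 hc sl E gE hE _ ?_ ?_ ps ?_ hchk ?_
  · intro i
    rw [dg_add, hgT, zero_add]
    have h1 := hD i
    rw [heq, dg_add, dg_emb hg] at h1
    have h2 := hsl i
    omega
  · intro e he
    rcases Multiset.mem_add.mp he with h1 | h1
    · exact h.llTE e h1
    · exact hWl e h1
  · intro i j hij hm
    rcases Multiset.mem_add.mp hm with h1 | h1
    · exact absurd (Sym2.mem_mk_left _ _) (notMem_of_dg (hgT i) _ h1)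
    · exact hin i j hij h1
  · have hA : ∀ j i, z j i ∉ img g := by
      intro j i hi
      obtain ⟨i', hi'⟩ := Helper19.DN.mem_img.mp hi
      exact hgz j i i' hi'.symm
    have e2 : outt (img g) W = outt (img g) R := by
      have h1 : outt (img g) (B + R) = outt (img g) (emb g E + W) := by rw [heq]
      rw [outt_add, outt_add, outt_none (M := B), outt_none (M := emb g E), zero_add,
        zero_add] at h1
      · exact h1.symm
      · intro e he
        obtain ⟨p, hp, rfl⟩ := mem_emb.mp he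
        exact ⟨g p.1, Sym2.mem_mk_left _ _, Helper19.DN.mem_img.mpr ⟨_, rfl⟩⟩
      · intro e he
        obtain ⟨i, hi⟩ := hB e he
        exact ⟨g i, hi, Helper19.DN.mem_img.mpr ⟨_, rfl⟩⟩
    have e3 : outt (@Finset.image _ _ (Classical.decEq V) g Finset.univ) (TE EZ z + W) =
        TE EZ z + outt (img g) R := by
      have : (@Finset.image _ _ (Classical.decEq V) g Finset.univ) = img g := rfl
      rw [this, outt_add, outt_TE hA, e2]
    rw [e3]
    exact IH _ (h.sub (Helper19.Kill.outt_le' _ _))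

/-! ### the mirror image of a cell -/

/-- exchange `u` and `v` -/
def sw : Fin 4 → Fin 4 := ![0, 2, 1, 3]

theorem sw_inj : Function.Injective sw := by decide

theorem emb_sw (f : Fin 4 → V) : emb (f ∘ sw) EZ = emb f EZ := by
  unfold emb EZ sw
  simp only [List.map_cons, List.map_nil, ← Multiset.cons_coe, Multiset.coe_nil,
    Function.comp_apply]
  simp only [Matrix.cons_val_zero, Matrix.cons_val_one, Matrix.cons_val]
  rw [Sym2.eq_swap (a := f 2) (b := f 1)]
  simp only [← Multiset.singleton_add]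
  abel

/-- **A vertex which sees `u` and `v` of a cell.** -/
theorem FN.fo {z : Fin (k + 1) → Fin 4 → V} (h : FN z c R) (j : Fin (k + 1))
    (IH : ∀ R, FN (z ∘ j.succAbove) c R → AT (TE EZ (z ∘ j.succAbove) + R) c) {x : V}
    (hxz : ∀ j i, z j i ≠ x) (hx : s(z j 1, x) ∈ R) (hy : s(z j 2, x) ∈ R) :
    AT (TE EZ z + R) c := by
  classical
  rw [TE_split EZ z j, add_assoc]
  set f := z j with hf0
  set z' := z ∘ j.succAbove with hz'
  have hf : Function.Injective f := h.zinj j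
  have H : FN z' c R := h.rest j
  have hzf : ∀ j' i i', z' j' i ≠ f i' := fun j' i i' => h.rest_ne j j' i i'
  have ne : ∀ {i i' : Fin 4}, i ≠ i' → f i ≠ f i' := fun hij hh => hij (hf hh)
  have hcf : ∀ i, cZ i ≤ c (f i) := h.capZ j
  have hsf : ∀ i, dg R (f i) ≤ slZ i := h.slots j
  have hxf : ∀ i, f i ≠ x := hxz j
  have hBl : ∀ e ∈ emb f EZ, ¬ e.IsDiag := emb_loopless hf (by decide)
  obtain ⟨R₁, hR₁⟩ := Multiset.exists_cons_of_mem hx
  have hy1 : s(f 2, x) ∈ R₁ := by
    rw [hR₁] at hy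
    rcases Multiset.mem_cons.mp hy with h1 | h1
    · rw [Sym2.eq_iff] at h1
      rcases h1 with ⟨h1, _⟩ | ⟨h1, _⟩
      · exact absurd h1 (ne (by decide))
      · exact absurd h1 (hxf 2)
    · exact h1
  obtain ⟨R₂, hR₂⟩ := Multiset.exists_cons_of_mem hy1
  have hRR : R = s(f 1, x) ::ₘ s(f 2, x) ::ₘ R₂ := by rw [hR₁, hR₂]
  have dR : ∀ v, dg R v = (if v = f 1 ∨ v = x then 1 else 0) +
      ((if v = f 2 ∨ v = x then 1 else 0) + dg R₂ v) := by
    intro v
    rw [hRR, dg_cons_add', dg_cons_add']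
    congr
  have s1 : slZ 1 = 1 := rfl
  have s2 : slZ 2 = 1 := rfl
  have hs1 := hsf 1
  have hs2 := hsf 2
  have r1 : dg R₂ (f 1) = 0 := by
    have h1 := dR (f 1)
    rw [if_pos (Or.inl rfl)] at h1
    omega
  have r2 : dg R₂ (f 2) = 0 := by
    have h1 := dR (f 2)
    rw [if_pos (c := f 2 = f 2 ∨ f 2 = x) (Or.inl rfl)] at h1
    omega
  have hle2 : R₂ ≤ R := by
    rw [hRR]
    exact (Multiset.le_cons_self _ _).trans (Multiset.le_cons_self _ _)
  have hg : Function.Injective (Fin.append f ![x]) := by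
    rw [Fin.append_injective_iff]
    refine ⟨hf, Function.injective_of_subsingleton _, fun i i' => ?_⟩
    have : i' = 0 := Subsingleton.elim _ _
    subst this
    exact hxf i
  have hD0 : ∀ i, dg (emb f EZ + R) (f i) ≤ tZ i := h.tot j
  have hBf : ∀ {p : ℕ} (w : Fin p → V), ∀ e ∈ emb f EZ, ∃ i, Fin.append f w i ∈ e := by
    intro p w e he
    obtain ⟨q, hq, rfl⟩ := mem_emb.mp he
    exact ⟨Fin.castAdd p q.1, by rw [Fin.append_left]; exact Sym2.mem_mk_left _ _⟩
  refine H.kill IH (B := emb f EZ) (W := R₂) (Fin.append f ![x] : Fin 5 → V) hg ?_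
    [(1, 4), (2, 4), (0, 1), (1, 2), (2, 3), (0, 2), (1, 3)] ?_ (hBf _) hBl
    ![3, 4, 4, 4, 3] ?_ [2, 3, 3, 2, 2] [1, 0, 0, 2, 1] (by decide) ?_ (by decide) _ rfl
    [(0, 3)] ?_ chk_fo1
  · intro j' i i'
    refine Fin.addCases (m := 4) (n := 1) (fun a => ?_) (fun a => ?_) i'
    · rw [Fin.append_left]; exact hzf _ _ _
    · rw [Fin.append_right]
      have : a = 0 := Subsingleton.elim _ _
      subst this
      exact hxz _ _
  · rw [hRR]
    have : emb (Fin.append f ![x] : Fin 5 → V)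
        [(1, 4), (2, 4), (0, 1), (1, 2), (2, 3), (0, 2), (1, 3)] =
        s(f 1, x) ::ₘ s(f 2, x) ::ₘ emb f EZ := rfl
    rw [this]
    simp only [← Multiset.singleton_add]
    abel
  · intro i
    have e0 : (![3, 4, 4, 4, 3] : Fin 5 → ℕ) = Fin.append tZ ![3] := by
      funext i; fin_cases i <;> rfl
    rw [e0]
    refine Fin.addCases (m := 4) (n := 1) (fun a => ?_) (fun a => ?_) i
    · rw [Fin.append_left, Fin.append_left]; exact hD0 a
    · rw [Fin.append_right, Fin.append_right]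
      have : a = 0 := Subsingleton.elim _ _
      subst this
      show dg (emb f EZ + R) x ≤ 3
      rw [dg_add, dg_emb_out hxf, zero_add]
      exact h.deg x
  · intro i
    have h1 := hcf
    have h2 := h.two
    fin_cases i
    · exact h1 0
    · exact h1 1
    · exact h1 2
    · exact h1 3
    · exact h2 _
  · intro i i' hii hm
    have q1 : ∀ {a b : V}, dg R₂ a = 0 ∨ dg R₂ b = 0 → s(a, b) ∈ R₂ → False :=
      fun h0 hm => no_edge h0 hm
    have t0 : s(f 0, x) ∈ R₂ → False := fun hh =>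
      h.noTri j x ⟨mem_sw hx, mem_sw hy, Or.inl (mem_sw (Multiset.mem_of_le hle2 hh))⟩
    have t3 : s(f 3, x) ∈ R₂ → False := fun hh =>
      h.noTri j x ⟨mem_sw hx, mem_sw hy, Or.inr (mem_sw (Multiset.mem_of_le hle2 hh))⟩
    have a0 : Fin.append f ![x] (0 : Fin 5) = f 0 := rfl
    have a1 : Fin.append f ![x] (1 : Fin 5) = f 1 := rfl
    have a2 : Fin.append f ![x] (2 : Fin 5) = f 2 := rfl
    have a3 : Fin.append f ![x] (3 : Fin 5) = f 3 := rfl
    have a4 : Fin.append f ![x] (4 : Fin 5) = x := rfl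
    fin_cases i <;> fin_cases i' <;> first
      | exact absurd hii (by decide)
      | exact (q1 (Or.inl r1) hm).elim
      | exact (q1 (Or.inr r1) hm).elim
      | exact (q1 (Or.inl r2) hm).elim
      | exact (q1 (Or.inr r2) hm).elim
      | exact (t0 hm).elim
      | exact (t3 hm).elim
      | decide

end Helper19.TN
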