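import Pool.Agent.helper19.L9.FN

/-!
# Networks of cells `F`, triple condition: two cells and a vertex, one cell
-/

set_option linter.unusedSimpArgs false
set_option linter.unusedVariables false

namespace Helper19.TN

open Finset Helper42.L9 Helper33.L9 Helper19.Kill Helper19.Gadget Helper19.DN

variable {V : Type*} {c : V → ℕ} {M N R W : Multiset (Sym2 V)} {m n k : ℕ}

theorem prs9 : ∀ i j : Fin 9, i < j → ((i : ℕ), (j : ℕ)) ∈ prs 9 := fun i j h => mem_prs h j.2

/-- a list of different edges of `R` can be split off -/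
theorem emb_split {G : Fin n → V} (hG : Function.Injective G) {E : List (Fin n × Fin n)}
    (hE : (E.map fun p => s(p.1, p.2)).Nodup) (h : ∀ p ∈ E, s(G p.1, G p.2) ∈ R) :
    ∃ W, R = emb G E + W := by
  have hnd : (emb G E).Nodup := by
    unfold emb
    rw [Multiset.coe_nodup]
    have h1 : (E.map fun p => s(G p.1, G p.2)) =
        (E.map fun p => s(p.1, p.2)).map (Sym2.map G) := by
      rw [List.map_map]; rfl
    rw [h1]
    exact List.Nodup.map (Sym2.map.injective hG) hE
  have hle : emb G E ≤ R := by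
    rw [Multiset.le_iff_subset hnd]
    intro e he
    obtain ⟨t, ht, rfl⟩ := mem_emb.mp he
    exact h t ht
  exact Multiset.le_iff_exists_add.mp hle

theorem sg_emb {σ : Fin 4 → Fin 4} (hσ : σ = id ∨ σ = sw) (f : Fin 4 → V) :
    emb (f ∘ σ) EZ = emb f EZ := by
  rcases hσ with rfl | rfl
  · rfl
  · exact emb_sw f

theorem sg_inj {σ : Fin 4 → Fin 4} (hσ : σ = id ∨ σ = sw) : Function.Injective σ := by
  rcases hσ with rfl | rfl
  · exact Function.injective_id
  · exact sw_inj

theorem sg_tZ {σ : Fin 4 → Fin 4} (hσ : σ = id ∨ σ = sw) (i : Fin 4) : tZ (σ i) = tZ i := by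
  rcases hσ with rfl | rfl
  · rfl
  · revert i; decide

theorem sg_cZ {σ : Fin 4 → Fin 4} (hσ : σ = id ∨ σ = sw) (i : Fin 4) : cZ (σ i) = cZ i := by
  rcases hσ with rfl | rfl
  · rfl
  · revert i; decide

theorem sg_0 {σ : Fin 4 → Fin 4} (hσ : σ = id ∨ σ = sw) : σ 0 = 0 ∧ σ 3 = 3 := by
  rcases hσ with rfl | rfl <;> exact ⟨rfl, rfl⟩

/-- **Two cells and a vertex.** -/
theorem FN.ffx {z : Fin (k + 2) → Fin 4 → V} (h : FN z c R) (j : Fin (k + 2))
    (l : Fin (k + 1)) (σ τ : Fin 4 → Fin 4) (hσ : σ = id ∨ σ = sw) (hτ : τ = id ∨ τ = sw)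
    (IH : ∀ (z : Fin k → Fin 4 → V) R, FN z c R → AT (TE EZ z + R) c) {x : V}
    (hxz : ∀ j i, z j i ≠ x) (h1 : s(z j (σ 1), x) ∈ R)
    (h2 : s(z j (σ 2), z (j.succAbove l) (τ 1)) ∈ R) (h3 : s(z (j.succAbove l) (τ 2), x) ∈ R)
    (h4 : s(z (j.succAbove l) 0, x) ∈ R ∨ s(z (j.succAbove l) 3, x) ∈ R) :
    AT (TE EZ z + R) c := by
  classical
  rw [TE_split EZ z j, TE_split EZ (z ∘ j.succAbove) l, add_assoc, add_assoc, ← add_assoc]
  set f := z j ∘ σ with hf0
  set g := (z ∘ j.succAbove) l ∘ τ with hg0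
  have ef : emb (z j) EZ = emb f EZ := (sg_emb hσ _).symm
  have eg : emb ((z ∘ j.succAbove) l) EZ = emb g EZ := (sg_emb hτ _).symm
  rw [ef, eg]
  set z' := (z ∘ j.succAbove) ∘ l.succAbove with hz'
  have hf : Function.Injective f := (h.zinj j).comp (sg_inj hσ)
  have hg : Function.Injective g := (h.zinj _).comp (sg_inj hτ)
  have H1 : FN (z ∘ j.succAbove) c R := h.rest j
  have H : FN z' c R := H1.rest l
  have hzf : ∀ j' i i', z' j' i ≠ f i' := fun j' i i' => h.rest_ne j _ i _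
  have hzg : ∀ j' i i', z' j' i ≠ g i' := fun j' i i' => H1.rest_ne l j' i _
  have hfg : ∀ i i', f i ≠ g i' := fun i i' hh => h.rest_ne j l _ _ hh.symm
  have hxf : ∀ i, f i ≠ x := fun i => hxz j _
  have hxg : ∀ i, g i ≠ x := fun i => hxz _ _
  have hcf : ∀ i, cZ i ≤ c (f i) := fun i => by
    have := h.capZ j (σ i)
    rw [sg_cZ hσ] at this
    exact this
  have hcg : ∀ i, cZ i ≤ c (g i) := fun i => by
    have := h.capZ (j.succAbove l) (τ i)
    rw [sg_cZ hτ] at this
    exact this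
  have htf : ∀ i, dg (emb f EZ + R) (f i) ≤ tZ i := fun i => by
    have := h.tot j (σ i)
    rw [sg_tZ hσ, ef] at this
    exact this
  have htg : ∀ i, dg (emb g EZ + R) (g i) ≤ tZ i := fun i => by
    have h5 := h.tot (j.succAbove l) (τ i)
    rw [sg_tZ hτ] at h5
    have h6 : emb (z (j.succAbove l)) EZ = emb g EZ := eg
    rw [h6] at h5
    exact h5
  have hFG : Function.Injective (Fin.append f g) := by
    rw [Fin.append_injective_iff]
    exact ⟨hf, hg, hfg⟩
  have hG : Function.Injective (Fin.append (Fin.append f g) ![x]) := by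
    rw [Fin.append_injective_iff]
    refine ⟨hFG, Function.injective_of_subsingleton _, fun i i' => ?_⟩
    have : i' = 0 := Subsingleton.elim _ _
    subst this
    refine Fin.addCases (m := 4) (n := 4) (fun a => ?_) (fun a => ?_) i
    · rw [Fin.append_left]; exact hxf a
    · rw [Fin.append_right]; exact hxg a
  have hBl : ∀ e ∈ emb f EZ + emb g EZ, ¬ e.IsDiag := by
    intro e he
    rcases Multiset.mem_add.mp he with h' | h'
    · exact emb_loopless hf (by decide) e h'
    · exact emb_loopless hg (by decide) e h'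
  have hBG : ∀ e ∈ emb f EZ + emb g EZ, ∃ i, Fin.append (Fin.append f g) ![x] i ∈ e := by
    intro e he
    rcases Multiset.mem_add.mp he with h' | h'
    · obtain ⟨q, hq, rfl⟩ := mem_emb.mp h'
      exact ⟨Fin.castAdd 1 (Fin.castAdd 4 q.1), by
        rw [Fin.append_left, Fin.append_left]; exact Sym2.mem_mk_left _ _⟩
    · obtain ⟨q, hq, rfl⟩ := mem_emb.mp h'
      exact ⟨Fin.castAdd 1 (Fin.natAdd 4 q.1), by
        rw [Fin.append_left, Fin.append_right]; exact Sym2.mem_mk_left _ _⟩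
  have hzG : ∀ j' i i', z' j' i ≠ Fin.append (Fin.append f g) ![x] i' := by
    intro j' i i'
    refine Fin.addCases (m := 8) (n := 1) (fun a => ?_) (fun a => ?_) i'
    · rw [Fin.append_left]
      refine Fin.addCases (m := 4) (n := 4) (fun a => ?_) (fun a => ?_) a
      · rw [Fin.append_left]; exact hzf _ _ _
      · rw [Fin.append_right]; exact hzg _ _ _
    · rw [Fin.append_right]
      have : a = 0 := Subsingleton.elim _ _
      subst this
      exact hxz _ _
  have e0 : (![3, 4, 4, 4, 3, 4, 4, 4, 3] : Fin 9 → ℕ) =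
      Fin.append (Fin.append tZ tZ) ![3] := by
    funext i; fin_cases i <;> rfl
  have hD : ∀ i, dg (emb f EZ + emb g EZ + R) (Fin.append (Fin.append f g) ![x] i) ≤
      (![3, 4, 4, 4, 3, 4, 4, 4, 3] : Fin 9 → ℕ) i := by
    intro i
    rw [e0]
    refine Fin.addCases (m := 8) (n := 1) (fun a => ?_) (fun a => ?_) i
    · rw [Fin.append_left, Fin.append_left]
      refine Fin.addCases (m := 4) (n := 4) (fun a => ?_) (fun a => ?_) a
      · rw [Fin.append_left, Fin.append_left, dg_add, dg_add,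
          dg_emb_out (f := g) fun i h => hfg a i h.symm, add_zero, ← dg_add]
        exact htf a
      · rw [Fin.append_right, Fin.append_right, dg_add, dg_add, dg_emb_out (f := f) fun i h =>
          hfg i a h, zero_add, ← dg_add]
        exact htg a
    · rw [Fin.append_right, Fin.append_right]
      have : a = 0 := Subsingleton.elim _ _
      subst this
      show dg (emb f EZ + emb g EZ + R) x ≤ 3
      rw [dg_add, dg_add, dg_emb_out hxf, dg_emb_out hxg, zero_add, zero_add]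
      exact h.deg x
  have hcG : ∀ i : Fin 9, cp [2, 3, 3, 2, 2, 3, 3, 2, 2] i ≤
      c (Fin.append (Fin.append f g) ![x] i) := by
    intro i
    have a1 := hcf
    have a2 := hcg
    have a3 := h.two
    fin_cases i
    · exact a1 0
    · exact a1 1
    · exact a1 2
    · exact a1 3
    · exact a2 0
    · exact a2 1
    · exact a2 2
    · exact a2 3
    · exact a3 _
  have k0 : z (j.succAbove l) 0 = g 0 := by
    show _ = z (j.succAbove l) (τ 0)
    rw [(sg_0 hτ).1]
  have k3 : z (j.succAbove l) 3 = g 3 := by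
    show _ = z (j.succAbove l) (τ 3)
    rw [(sg_0 hτ).2]
  rw [k0, k3] at h4
  have h1' : s(f 1, x) ∈ R := h1
  have h2' : s(f 2, g 1) ∈ R := h2
  have h3' : s(g 2, x) ∈ R := h3
  have h5 : emb f EZ = s(f 0, f 1) ::ₘ s(f 1, f 2) ::ₘ s(f 2, f 3) ::ₘ s(f 0, f 2) ::ₘ
    s(f 1, f 3) ::ₘ 0 := rfl
  rcases h4 with h4 | h4
  · obtain ⟨W, hW⟩ := emb_split (R := R) hG
      (E := [(1, 8), (2, 5), (6, 8), (4, 8)]) (by decide) (by
        intro p hp
        simp only [List.mem_cons, List.not_mem_nil, or_false] at hp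
        rcases hp with rfl | rfl | rfl | rfl
        · exact h1'
        · exact h2'
        · exact h3'
        · exact h4)
    refine H.kill (IH _) (B := emb f EZ + emb g EZ) (W := W)
      (Fin.append (Fin.append f g) ![x] : Fin 9 → V) hG hzG
      [(1, 8), (2, 5), (6, 8), (4, 8), (0, 1), (1, 2), (2, 3), (0, 2), (1, 3), (4, 5), (5, 6),
        (6, 7), (4, 6), (5, 7)] ?_ hBG hBl ![3, 4, 4, 4, 3, 4, 4, 4, 3] hD
      [2, 3, 3, 2, 2, 3, 3, 2, 2] [1, 0, 0, 2, 0, 0, 0, 2, 0] (by decide) hcG (by decide) _ rfl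
      (prs 9) ?_ (chkKp_of_chkK chk_ffp)
    · rw [hW]
      have : emb (Fin.append (Fin.append f g) ![x] : Fin 9 → V)
          [(1, 8), (2, 5), (6, 8), (4, 8), (0, 1), (1, 2), (2, 3), (0, 2), (1, 3), (4, 5), (5, 6),
            (6, 7), (4, 6), (5, 7)] =
          s(f 1, x) ::ₘ s(f 2, g 1) ::ₘ s(g 2, x) ::ₘ s(g 0, x) ::ₘ s(f 0, f 1) ::ₘ
            s(f 1, f 2) ::ₘ s(f 2, f 3) ::ₘ s(f 0, f 2) ::ₘ s(f 1, f 3) ::ₘ emb g EZ := rfl
      rw [this]
      have h6 : emb (Fin.append (Fin.append f g) ![x] : Fin 9 → V)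
          [(1, 8), (2, 5), (6, 8), (4, 8)] =
          s(f 1, x) ::ₘ s(f 2, g 1) ::ₘ s(g 2, x) ::ₘ s(g 0, x) ::ₘ 0 := rfl
      rw [h6, h5]
      simp only [← Multiset.singleton_add]
      abel
    · intro i i' hii _
      exact prs9 i i' hii
  · obtain ⟨W, hW⟩ := emb_split (R := R) hG
      (E := [(1, 8), (2, 5), (6, 8), (7, 8)]) (by decide) (by
        intro p hp
        simp only [List.mem_cons, List.not_mem_nil, or_false] at hp
        rcases hp with rfl | rfl | rfl | rfl
        · exact h1'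
        · exact h2'
        · exact h3'
        · exact h4)
    refine H.kill (IH _) (B := emb f EZ + emb g EZ) (W := W)
      (Fin.append (Fin.append f g) ![x] : Fin 9 → V) hG hzG
      [(1, 8), (2, 5), (6, 8), (7, 8), (0, 1), (1, 2), (2, 3), (0, 2), (1, 3), (4, 5), (5, 6),
        (6, 7), (4, 6), (5, 7)] ?_ hBG hBl ![3, 4, 4, 4, 3, 4, 4, 4, 3] hD
      [2, 3, 3, 2, 2, 3, 3, 2, 2] [1, 0, 0, 2, 1, 0, 0, 1, 0] (by decide) hcG (by decide) _ rfl
      (prs 9) ?_ (chkKp_of_chkK chk_ffq)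
    · rw [hW]
      have : emb (Fin.append (Fin.append f g) ![x] : Fin 9 → V)
          [(1, 8), (2, 5), (6, 8), (7, 8), (0, 1), (1, 2), (2, 3), (0, 2), (1, 3), (4, 5), (5, 6),
            (6, 7), (4, 6), (5, 7)] =
          s(f 1, x) ::ₘ s(f 2, g 1) ::ₘ s(g 2, x) ::ₘ s(g 3, x) ::ₘ s(f 0, f 1) ::ₘ
            s(f 1, f 2) ::ₘ s(f 2, f 3) ::ₘ s(f 0, f 2) ::ₘ s(f 1, f 3) ::ₘ emb g EZ := rfl
      rw [this]
      have h6 : emb (Fin.append (Fin.append f g) ![x] : Fin 9 → V)
          [(1, 8), (2, 5), (6, 8), (7, 8)] =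
          s(f 1, x) ::ₘ s(f 2, g 1) ::ₘ s(g 2, x) ::ₘ s(g 3, x) ::ₘ 0 := rfl
      rw [h6, h5]
      simp only [← Multiset.singleton_add]
      abel
    · intro i i' hii _
      exact prs9 i i' hii

end Helper19.TN
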