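import Pool.Agent.helper19.L9.FN1

/-!
# Networks of cells `F`, triple condition: the theorem
-/

set_option linter.unusedSimpArgs false
set_option linter.unusedVariables false

namespace Helper19.TN

open Finset Helper42.L9 Helper33.L9 Helper19.Kill Helper19.Gadget Helper19.DN

variable {V : Type*} {c : V → ℕ} {M N R W : Multiset (Sym2 V)} {m n k : ℕ}

theorem edge_new {v a x y : V} (h : s(v, a) ∈ s(x, y) ::ₘ R) (hv : v = x) (hxy : x ≠ y) :
    a = y ∨ s(v, a) ∈ R := by
  subst hv
  rcases Multiset.mem_cons.mp h with h | h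
  · rw [Sym2.eq_iff] at h
    rcases h with ⟨_, h⟩ | ⟨h, _⟩
    · exact Or.inl h
    · exact absurd h hxy
  · exact Or.inr h

/-- **A new triple after Lemma E.** -/
theorem FN.tri {z : Fin (k + 1) → Fin 4 → V} (h : FN z c R) (j : Fin (k + 1))
    (IH : ∀ m, m ≤ k → ∀ (z : Fin m → Fin 4 → V) R, FN z c R → AT (TE EZ z + R) c)
    (hnuv : ∀ j' v, (∀ j i, z j i ≠ v) → s(z j' 1, v) ∈ R → s(z j' 2, v) ∈ R → False)
    {x y : V} {R₂ : Multiset (Sym2 V)} (hxy : x ≠ y) (hx : s(z j 1, x) ∈ R)
    (hy : s(z j 2, y) ∈ R) (hle2 : R₂ ≤ R) (hd : ∀ v, dg (s(x, y) ::ₘ R₂) v ≤ dg R v)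
    (hT : ∃ j' v, Tri ((z ∘ j.succAbove) j') (s(x, y) ::ₘ R₂) v) : AT (TE EZ z + R) c := by
  obtain ⟨l, v, t1, t2, t3⟩ := hT
  rcases k with _ | k
  · exact l.elim0
  have t1' : s(v, z (j.succAbove l) 1) ∈ s(x, y) ::ₘ R₂ := t1
  have t2' : s(v, z (j.succAbove l) 2) ∈ s(x, y) ::ₘ R₂ := t2
  have t3' : s(v, z (j.succAbove l) 0) ∈ s(x, y) ::ₘ R₂ ∨
    s(v, z (j.succAbove l) 3) ∈ s(x, y) ::ₘ R₂ := t3
  set G := z (j.succAbove l) with hG
  have hGi : Function.Injective G := h.zinj _
  have ne : ∀ {i i' : Fin 4}, i ≠ i' → G i ≠ G i' := fun hij hh => hij (hGi hh)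
  have h3 : 3 ≤ dg (s(x, y) ::ₘ R₂) v := by
    rcases t3' with t | t
    · exact three_le_dg (ne (by decide)) (ne (by decide)) (ne (by decide)) t1' t2' t
    · exact three_le_dg (ne (by decide)) (ne (by decide)) (ne (by decide)) t1' t2' t
  have hvz : ∀ j i, z j i ≠ v := by
    rintro j' i rfl
    have h4 := h.slots j' i
    have h5 := hd (z j' i)
    have h6 : ∀ i, slZ i ≤ 2 := by decide
    have := h6 i
    omega
  have up : ∀ {e : Sym2 V}, e ∈ R₂ → e ∈ R := fun he => Multiset.mem_of_le hle2 he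
  have hvxy : v = x ∨ v = y := by
    by_contra hcon
    push Not at hcon
    obtain ⟨n1, n2⟩ := hcon
    have key : ∀ {a : V}, s(v, a) ∈ s(x, y) ::ₘ R₂ → s(v, a) ∈ R := by
      intro a ha
      rcases Multiset.mem_cons.mp ha with ha | ha
      · rw [Sym2.eq_iff] at ha
        rcases ha with ⟨ha, _⟩ | ⟨ha, _⟩
        · exact absurd ha n1
        · exact absurd ha n2
      · exact up ha
    exact h.noTri _ v ⟨key t1', key t2', t3'.imp key key⟩
  have IH' : ∀ (z : Fin k → Fin 4 → V) R, FN z c R → AT (TE EZ z + R) c := IH k (by omega)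
  -- the common part
  have main : ∀ (σ : Fin 4 → Fin 4), (σ = id ∨ σ = sw) → ∀ x y : V, x ≠ y → v = x →
      s(z j (σ 1), x) ∈ R → s(z j (σ 2), y) ∈ R →
      s(v, G 1) ∈ s(x, y) ::ₘ R₂ → s(v, G 2) ∈ s(x, y) ::ₘ R₂ →
      (s(v, G 0) ∈ s(x, y) ::ₘ R₂ ∨ s(v, G 3) ∈ s(x, y) ::ₘ R₂) → AT (TE EZ z + R) c := by
    intro σ hσ x y hxy hv hx hy t1 t2 t3
    have e1 := edge_new t1 hv hxy
    have e2 := edge_new t2 hv hxy
    have e3 : (G 0 = y ∨ s(v, G 0) ∈ R₂) ∨ (G 3 = y ∨ s(v, G 3) ∈ R₂) :=
      t3.imp (fun t => edge_new t hv hxy) (fun t => edge_new t hv hxy)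
    subst hv
    by_cases g1 : G 1 = y
    · have g2 : s(v, G 2) ∈ R := up (e2.resolve_left fun hh => ne (i := 1) (i' := 2) (by decide)
        (g1.trans hh.symm))
      have g3 : s(v, G 0) ∈ R ∨ s(v, G 3) ∈ R := by
        rcases e3 with e3 | e3
        · exact Or.inl (up (e3.resolve_left fun hh => ne (i := 1) (i' := 0) (by decide)
            (g1.trans hh.symm)))
        · exact Or.inr (up (e3.resolve_left fun hh => ne (i := 1) (i' := 3) (by decide)
            (g1.trans hh.symm)))
      refine h.ffx j l σ id hσ (Or.inl rfl) IH' hvz hx ?_ (mem_sw g2) (g3.imp mem_sw mem_sw)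
      show s(z j (σ 2), G 1) ∈ R
      rw [g1]; exact hy
    by_cases g2 : G 2 = y
    · have g1' : s(v, G 1) ∈ R := up (e1.resolve_left g1)
      have g3 : s(v, G 0) ∈ R ∨ s(v, G 3) ∈ R := by
        rcases e3 with e3 | e3
        · exact Or.inl (up (e3.resolve_left fun hh => ne (i := 2) (i' := 0) (by decide)
            (g2.trans hh.symm)))
        · exact Or.inr (up (e3.resolve_left fun hh => ne (i := 2) (i' := 3) (by decide)
            (g2.trans hh.symm)))
      refine h.ffx j l σ sw hσ (Or.inr rfl) IH' hvz hx ?_ (mem_sw g1') (g3.imp mem_sw mem_sw)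
      show s(z j (σ 2), G 2) ∈ R
      rw [g2]; exact hy
    · exact (hnuv _ v hvz (mem_sw (up (e1.resolve_left g1)))
        (mem_sw (up (e2.resolve_left g2)))).elim
  rcases hvxy with hv | hv
  · exact main id (Or.inl rfl) x y hxy hv hx hy t1' t2' t3'
  · rw [Sym2.eq_swap (a := x) (b := y)] at t1' t2' t3'
    exact main sw (Or.inr rfl) y x hxy.symm hv hy hx t1' t2' t3'

/-- **One cell** whose two middle links do not go to the last vertex of another cell. -/
theorem FN.one {z : Fin (k + 1) → Fin 4 → V} (h : FN z c R) (j : Fin (k + 1))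
    (IHa : ∀ m, m ≤ k → ∀ (z : Fin m → Fin 4 → V) R, FN z c R → AT (TE EZ z + R) c)
    (hbc : ∀ l, l ≠ j → s(z j 1, z l 3) ∈ R → s(z j 2, z l 3) ∈ R → False)
    (hnuv : ∀ j' v, (∀ j i, z j i ≠ v) → s(z j' 1, v) ∈ R → s(z j' 2, v) ∈ R → False) :
    AT (TE EZ z + R) c := by
  classical
  have IH : ∀ R, FN (z ∘ j.succAbove) c R → AT (TE EZ (z ∘ j.succAbove) + R) c :=
    fun R hR => IHa k le_rfl _ R hR
  have hTri := fun {x y : V} {R₂ : Multiset (Sym2 V)} => h.tri j IHa hnuv (x := x) (y := y)
    (R₂ := R₂)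
  rw [TE_split EZ z j, add_assoc] at hTri ⊢
  set f := z j with hf0
  set z' := z ∘ j.succAbove with hz'
  have hf : Function.Injective f := h.zinj j
  have H : FN z' c R := h.rest j
  have hzf : ∀ j' i i', z' j' i ≠ f i' := fun j' i i' => h.rest_ne j j' i i'
  have ne : ∀ {i i' : Fin 4}, i ≠ i' → f i ≠ f i' := fun hij hh => hij (hf hh)
  have hcf : ∀ i, cZ i ≤ c (f i) := h.capZ j
  have hsf : ∀ i, dg R (f i) ≤ slZ i := h.slots j
  have hNf : ∀ i, dg (TE EZ z' + R) (f i) = dg R (f i) := by
    intro i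
    rw [dg_add, dg_TE_out fun j' i' => hzf j' i' i, zero_add]
  have hBl : ∀ e ∈ emb f EZ, ¬ e.IsDiag := emb_loopless hf (by decide)
  by_cases hdead : dg R (f 1) = 0 ∨ dg R (f 2) = 0
  · -- a middle link is missing
    refine peelZ hf hcf (fun i => by rw [hNf]; exact hsf i) (by rw [hNf, hNf]; exact hdead) ?_ ?_
    · intro e he
      rcases Multiset.mem_add.mp he with h1 | h1
      · exact H.llTE e h1
      · exact h.loopless e h1
    · rw [outt_add, outt_TE]
      · exact IH _ (H.sub (Helper19.Kill.outt_le' _ _))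
      · intro j' i hi
        obtain ⟨i', hi'⟩ := Helper19.DN.mem_img.mp hi
        exact hzf j' i i' hi'.symm
  push Not at hdead
  obtain ⟨x, hx⟩ := exists_at hdead.1
  obtain ⟨y, hy⟩ := exists_at hdead.2
  have s1 : slZ 1 = 1 := rfl
  have s2 : slZ 2 = 1 := rfl
  have hs1 := hsf 1
  have hs2 := hsf 2
  have hxf1 : x ≠ f 1 := by
    rintro rfl; exact h.loopless _ hx (Sym2.mk_isDiag_iff.mpr rfl)
  have hyf2 : y ≠ f 2 := by
    rintro rfl; exact h.loopless _ hy (Sym2.mk_isDiag_iff.mpr rfl)
  have hD0 : ∀ i, dg (emb f EZ + R) (f i) ≤ tZ i := h.tot j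
  have hBf : ∀ {p : ℕ} (w : Fin p → V), ∀ e ∈ emb f EZ, ∃ i, Fin.append f w i ∈ e := by
    intro p w e he
    obtain ⟨q, hq, rfl⟩ := mem_emb.mp he
    exact ⟨Fin.castAdd p q.1, by rw [Fin.append_left]; exact Sym2.mem_mk_left _ _⟩
  by_cases hxf2 : x = f 2
  · -- the two middle vertices are linked
    subst hxf2
    obtain ⟨R₁, hR₁⟩ := Multiset.exists_cons_of_mem hx
    refine H.kill IH (B := emb f EZ) (W := R₁) f hf hzf ((1, 2) :: EZ) ?_ ?_ hBl tZ hD0
      [2, 3, 3, 2] [1, 0, 0, 2] (by decide) ?_ (by decide) _ rfl (prs 4) ?_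
      (chkKp_of_chkK chk_fuv)
    · rw [hR₁]
      have : emb f ((1, 2) :: EZ) = s(f 1, f 2) ::ₘ emb f EZ := rfl
      rw [this]
      simp only [← Multiset.singleton_add]
      abel
    · intro e he
      obtain ⟨q, hq, rfl⟩ := mem_emb.mp he
      exact ⟨q.1, Sym2.mem_mk_left _ _⟩
    · intro i
      refine le_trans ?_ (hcf i)
      revert i; decide
    · intro i i' hii _
      exact prs4 i i' hii
  have hyf1 : y ≠ f 1 := by
    rintro rfl
    have h1 : 2 ≤ dg R (f 1) := by
      obtain ⟨R₁, hR₁⟩ := Multiset.exists_cons_of_mem hx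
      have h2 : s(f 1, f 2) ∈ R₁ := by
        have := mem_sw hy
        rw [hR₁] at this
        exact mem_second hxf2 this
      obtain ⟨R₂, hR₂⟩ := Multiset.exists_cons_of_mem h2
      rw [hR₁, dg_cons_pos (Sym2.mem_mk_left _ _), hR₂, dg_cons_pos (Sym2.mem_mk_left _ _)]
      omega
    omega
  obtain ⟨R₁, hR₁⟩ := Multiset.exists_cons_of_mem hx
  have hy1 : s(f 2, y) ∈ R₁ := by
    rw [hR₁] at hy
    rcases Multiset.mem_cons.mp hy with h1 | h1
    · rw [Sym2.eq_iff] at h1
      rcases h1 with ⟨h1, _⟩ | ⟨h1, _⟩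
      · exact absurd h1 (ne (by decide))
      · exact absurd h1.symm hxf2
    · exact h1
  obtain ⟨R₂, hR₂⟩ := Multiset.exists_cons_of_mem hy1
  have hRR : R = s(f 1, x) ::ₘ s(f 2, y) ::ₘ R₂ := by rw [hR₁, hR₂]
  have dR : ∀ v, dg R v = (if v = f 1 ∨ v = x then 1 else 0) +
      ((if v = f 2 ∨ v = y then 1 else 0) + dg R₂ v) := by
    intro v
    rw [hRR, dg_cons_add', dg_cons_add']
    congr
  have r1 : dg R₂ (f 1) = 0 := by
    have h1 := dR (f 1)
    rw [if_pos (Or.inl rfl)] at h1
    omega
  have r2 : dg R₂ (f 2) = 0 := by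
    have h1 := dR (f 2)
    rw [if_pos (c := f 2 = f 2 ∨ f 2 = y) (Or.inl rfl)] at h1
    omega
  have hle2 : R₂ ≤ R := by
    rw [hRR]
    exact (Multiset.le_cons_self _ _).trans (Multiset.le_cons_self _ _)
  by_cases hxy : x = y
  · -- both middle links go to the same vertex
    subst hxy
    have hdx : 2 ≤ dg R x := by
      rw [dR, if_pos (Or.inr rfl), if_pos (Or.inr rfl)]
      omega
    by_cases hxf : ∃ i, f i = x
    · obtain ⟨i, rfl⟩ := hxf
      have hi : i = 3 := by
        have h1 := hsf i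
        have h2 : 2 ≤ slZ i := hdx.trans h1
        revert h2
        clear * -
        revert i
        decide
      subst hi
      refine H.kill IH (B := emb f EZ) (W := R₂) f hf hzf ((1, 3) :: (2, 3) :: EZ) ?_ ?_ hBl
        tZ hD0 [2, 3, 3, 2] [1, 0, 0, 0] (by decide) ?_ (by decide) _ rfl (prs 4) ?_
        (chkKp_of_chkK chk_fq)
      · rw [hRR]
        have : emb f ((1, 3) :: (2, 3) :: EZ) = s(f 1, f 3) ::ₘ s(f 2, f 3) ::ₘ emb f EZ := rfl
        rw [this]
        simp only [← Multiset.singleton_add]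
        abel
      · intro e he
        obtain ⟨q, hq, rfl⟩ := mem_emb.mp he
        exact ⟨q.1, Sym2.mem_mk_left _ _⟩
      · intro i
        refine le_trans ?_ (hcf i)
        revert i; decide
      · intro i i' hii _
        exact prs4 i i' hii
    · push Not at hxf
      -- `x` is not in a cell
      have hxz : ∀ j' i, z' j' i ≠ x := by
        rintro j' i rfl
        have h1 := H.slots j' i
        have h2 : 2 ≤ slZ i := hdx.trans h1
        have hi : i = 3 := by
          revert h2
          clear * -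
          revert i
          decide
        subst hi
        exact hbc (j.succAbove j') (Fin.succAbove_ne _ _) hx hy
      refine (hnuv j x ?_ hx hy).elim
      intro j' i hh
      by_cases hj : j' = j
      · subst hj; exact hxf i hh
      · obtain ⟨j'', rfl⟩ := Fin.exists_succAbove_eq hj
        exact hxz j'' i hh
  · -- different ends
    by_cases hK : NoK4 (s(x, y) ::ₘ R₂)
    · have hdle : ∀ v, dg (s(x, y) ::ₘ R₂) v ≤ dg R v := by
        intro v
        rw [dg_cons_add', dR]
        by_cases h1 : v = x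
        · rw [if_pos (Or.inl h1), if_pos (c := v = f 1 ∨ v = x) (Or.inr h1)]; omega
        · by_cases h2 : v = y
          · rw [if_pos (Or.inr h2), if_pos (c := v = f 2 ∨ v = y) (Or.inr h2)]; omega
          · rw [if_neg]
            · omega
            · rintro (h3 | h3)
              · exact h1 h3
              · exact h2 h3
      by_cases hT : ∃ j' v, Tri (z' j') (s(x, y) ::ₘ R₂) v
      · exact hTri hxy hx hy hle2 hdle hT
      · push Not at hT
        -- Lemma E
        have e1 : emb f EZ + (TE EZ z' + R) =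
            emb f EZ + (s(f 1, x) ::ₘ s(f 2, y) ::ₘ (TE EZ z' + R₂)) := by
          rw [hRR]
          simp only [← Multiset.singleton_add]
          abel
        rw [e1]
        have hz0 : ∀ i, dg R₂ (f i) = 0 → ∀ e ∈ TE EZ z' + R₂, f i ∉ e := by
          intro i hi
          refine notMem_of_dg ?_
          rw [dg_add, hi, dg_TE_out fun j' i' => hzf j' i' i]
        refine lemZ hf hxf1 hxf2 hyf1 hyf2 (hz0 1 r1) (hz0 2 r2) (hcf 1) (hcf 2) ?_
        have e2 : s(x, y) ::ₘ (TE EZ z' + R₂) = TE EZ z' + (s(x, y) ::ₘ R₂) := by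
          simp only [← Multiset.singleton_add]
          abel
        rw [e2]
        refine IH _ ⟨H.inj, H.cap, H.two, ?_, fun j' i => (hdle _).trans (H.slots j' i),
          fun v => (hdle v).trans (h.deg v), hK, hT⟩
        intro e he
        rcases Multiset.mem_cons.mp he with rfl | h1
        · rw [Sym2.mk_isDiag_iff]; exact hxy
        · exact h.loopless e (Multiset.mem_of_le hle2 h1)
    · -- a `K_4`
      have hK2 : NoK4 R₂ := h.noK4.of_le hle2
      obtain ⟨p, q, hn, m1, m2, m3, m4, m5⟩ := k4_of_not hK2 hK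
      have hn' := hn
      simp only [List.nodup_cons, List.mem_cons, List.not_mem_nil, or_false, not_or,
        not_false_eq_true, List.nodup_nil, and_true] at hn'
      obtain ⟨⟨n1, n2, n3⟩, ⟨n4, n5⟩, n6⟩ := hn'
      set w : Fin 4 → V := ![x, y, p, q] with hw
      have hwi : Function.Injective w := by
        have e0 : w = fun i => [x, y, p, q].get i := by
          funext i; fin_cases i <;> rfl
        rw [e0]
        exact List.nodup_iff_injective_get.mp hn
      have up : ∀ {e : Sym2 V}, e ∈ R₂ → e ∈ R := fun he => Multiset.mem_of_le hle2 he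
      have hxl : s(x, f 1) ∈ R := mem_sw hx
      have hyl : s(y, f 2) ∈ R := mem_sw hy
      have hcell : ∀ {v : V}, 3 ≤ dg R v → (∀ i, f i ≠ v) ∧ ∀ j' i, z' j' i ≠ v := by
        intro v hv
        constructor
        · rintro i rfl
          have h1 := hsf i
          have h2 : ∀ i, slZ i ≤ 2 := by decide
          have := h2 i
          omega
        · rintro j' i rfl
          have h1 := H.slots j' i
          have h2 : ∀ i, slZ i ≤ 2 := by decide
          have := h2 i
          omega
      have cp' := hcell (three_le_dg n1 n3 n5 (mem_sw (up m1)) (mem_sw (up m3)) (up m5))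
      have cq' := hcell (three_le_dg n1 n2 n4 (mem_sw (up m2)) (mem_sw (up m4))
        (mem_sw (up m5)))
      have cx' := hcell (three_le_dg n6 (cp'.1 1).symm (cq'.1 1).symm (up m1) (up m2) hxl)
      have cy' := hcell (three_le_dg n6 (cp'.1 2).symm (cq'.1 2).symm (up m3) (up m4) hyl)
      have hwf : ∀ i a, f i ≠ w a := by
        intro i a
        fin_cases a
        · exact cx'.1 i
        · exact cy'.1 i
        · exact cp'.1 i
        · exact cq'.1 i
      have hwz : ∀ j' i a, z' j' i ≠ w a := by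
        intro j' i a
        fin_cases a
        · exact cx'.2 _ _
        · exact cy'.2 _ _
        · exact cp'.2 _ _
        · exact cq'.2 _ _
      have hg : Function.Injective (Fin.append f w) := by
        rw [Fin.append_injective_iff]
        exact ⟨hf, hwi, hwf⟩
      obtain ⟨W, hW⟩ := emb_split (R := R₂) hwi
        (E := [(0, 2), (0, 3), (1, 2), (1, 3), (2, 3)]) (by decide) (by
          intro t ht
          simp only [List.mem_cons, List.not_mem_nil, or_false] at ht
          rcases ht with rfl | rfl | rfl | rfl | rfl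
          · exact m1
          · exact m2
          · exact m3
          · exact m4
          · exact m5)
      refine H.kill IH (B := emb f EZ) (W := W) (Fin.append f w : Fin 8 → V) hg ?_
        [(1, 4), (2, 5), (4, 6), (4, 7), (5, 6), (5, 7), (6, 7), (0, 1), (1, 2), (2, 3), (0, 2),
          (1, 3)] ?_ (hBf _) hBl
        ![3, 4, 4, 4, 3, 3, 3, 3] ?_ [2, 3, 3, 2, 2, 2, 2, 2] [1, 0, 0, 2, 0, 0, 0, 0] (by decide)
        ?_ (by decide) _ rfl (prs 8) ?_ (chkKp_of_chkK chk_fk)
      · intro j' i i'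
        refine Fin.addCases (m := 4) (n := 4) (fun a => ?_) (fun a => ?_) i'
        · rw [Fin.append_left]; exact hzf _ _ _
        · rw [Fin.append_right]
          exact hwz _ _ _
      · rw [hRR, hW]
        have : emb (Fin.append f w : Fin 8 → V)
            [(1, 4), (2, 5), (4, 6), (4, 7), (5, 6), (5, 7), (6, 7), (0, 1), (1, 2), (2, 3),
              (0, 2), (1, 3)] =
            s(f 1, x) ::ₘ s(f 2, y) ::ₘ s(x, p) ::ₘ s(x, q) ::ₘ s(y, p) ::ₘ s(y, q) ::ₘ
              s(p, q) ::ₘ emb f EZ := rfl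
        rw [this]
        have h5 : emb w [(0, 2), (0, 3), (1, 2), (1, 3), (2, 3)] =
          s(x, p) ::ₘ s(x, q) ::ₘ s(y, p) ::ₘ s(y, q) ::ₘ s(p, q) ::ₘ 0 := rfl
        rw [h5]
        simp only [← Multiset.singleton_add]
        abel
      · intro i
        have e0 : (![3, 4, 4, 4, 3, 3, 3, 3] : Fin 8 → ℕ) = Fin.append tZ ![3, 3, 3, 3] := by
          funext i; fin_cases i <;> rfl
        rw [e0]
        refine Fin.addCases (m := 4) (n := 4) (fun a => ?_) (fun a => ?_) i
        · rw [Fin.append_left, Fin.append_left]; exact hD0 a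
        · rw [Fin.append_right, Fin.append_right, dg_add, dg_emb_out (hwf · a), zero_add]
          refine (h.deg _).trans ?_
          fin_cases a <;> decide
      · intro i
        have h1 := hcf
        have h2 := h.two
        fin_cases i
        · exact h1 0
        · exact h1 1
        · exact h1 2
        · exact h1 3
        · exact h2 _
        · exact h2 _
        · exact h2 _
        · exact h2 _
      · intro i i' hii _
        exact prs8 i i' hii

end Helper19.TN
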