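import Pool.Agent.helper19.L9.Net

/-!
# Networks of blocks `D`: Lemma E and peeling steps
-/

set_option linter.unusedSimpArgs false

namespace Helper19.DN

open Finset Helper42.L9 Helper33.L9 Helper19.Kill Helper19.Gadget

variable {V : Type*} {c : V → ℕ} {M N R : Multiset (Sym2 V)} {m n : ℕ}

/-- what Lemma E leaves of `D` -/
def ED' : List (Fin 8 × Fin 8) := [(3, 4), (4, 5), (5, 6), (6, 7), (4, 6), (5, 7)]

/-- second half -/
def z4 : Fin 4 → Fin 8 := ![4, 5, 6, 7]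

theorem lemD {f : Fin 8 → V} (hf : Function.Injective f) {a : V} {N₁ : Multiset (Sym2 V)}
    (ha1 : a ≠ f 1) (ha2 : a ≠ f 2) (h1 : ∀ e ∈ N₁, f 1 ∉ e) (h2 : ∀ e ∈ N₁, f 2 ∉ e)
    (hc1 : 3 ≤ c (f 1)) (hc2 : 3 ≤ c (f 2))
    (h : AT (s(a, f 5) ::ₘ (emb f ED' + N₁)) c) : AT (emb f ED + (s(f 1, a) ::ₘ N₁)) c := by
  have ne : ∀ i j : Fin 8, i ≠ j → f i ≠ f j := fun i j hij hh => hij (hf hh)
  have e1 : emb f ED + (s(f 1, a) ::ₘ N₁) = s(f 2, f 1) ::ₘ s(f 2, f 5) ::ₘ s(f 2, f 0) ::ₘ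
      s(f 2, f 3) ::ₘ s(f 1, a) ::ₘ s(f 1, f 0) ::ₘ s(f 1, f 3) ::ₘ (emb f ED' + N₁) := by
    unfold emb ED ED'
    simp only [List.map_cons, List.map_nil, ← Multiset.cons_coe, Multiset.coe_nil,
      Multiset.cons_add, zero_add]
    rw [Sym2.eq_swap (a := f 2) (b := f 1), Sym2.eq_swap (a := f 2) (b := f 0),
      Sym2.eq_swap (a := f 1) (b := f 0)]
    simp only [← Multiset.singleton_add]
    abel
  rw [e1]
  have hE : ∀ i, i ≠ 3 → i ≠ 4 → i ≠ 5 → i ≠ 6 → i ≠ 7 → ∀ e ∈ emb f ED', f i ∉ e := by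
    intro i _ _ _ _ _ e he hi
    obtain ⟨p, hp, rfl⟩ := mem_emb.mp he
    rw [Sym2.mem_iff] at hi
    have key : i ≠ p.1 ∧ i ≠ p.2 := by
      simp only [ED', List.mem_cons, List.not_mem_nil, or_false] at hp
      rcases hp with rfl | rfl | rfl | rfl | rfl | rfl <;> exact ⟨by assumption, by assumption⟩
    rcases hi with h | h
    · exact key.1 (hf h)
    · exact key.2 (hf h)
  refine AT.lemmaE (ne 1 2 (by decide)) ha1 ha2 (ne 5 1 (by decide)) (ne 5 2 (by decide))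
    (ne 0 1 (by decide)) (ne 0 2 (by decide)) (ne 3 1 (by decide)) (ne 3 2 (by decide)) ?_ ?_ h
    hc1 hc2
  · intro e he
    rcases Multiset.mem_add.mp he with h | h
    · exact hE 1 (by decide) (by decide) (by decide) (by decide) (by decide) e h
    · exact h1 e h
  · intro e he
    rcases Multiset.mem_add.mp he with h | h
    · exact hE 2 (by decide) (by decide) (by decide) (by decide) (by decide) e h
    · exact h2 e h

theorem lemZ {z : Fin 4 → V} (hz : Function.Injective z) {a b : V} {N₁ : Multiset (Sym2 V)}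
    (ha1 : a ≠ z 1) (ha2 : a ≠ z 2) (hb1 : b ≠ z 1) (hb2 : b ≠ z 2)
    (h1 : ∀ e ∈ N₁, z 1 ∉ e) (h2 : ∀ e ∈ N₁, z 2 ∉ e) (hc1 : 3 ≤ c (z 1)) (hc2 : 3 ≤ c (z 2))
    (h : AT (s(a, b) ::ₘ N₁) c) :
    AT (emb z EZ + (s(z 1, a) ::ₘ s(z 2, b) ::ₘ N₁)) c := by
  have ne : ∀ i j : Fin 4, i ≠ j → z i ≠ z j := fun i j hij hh => hij (hz hh)
  have e1 : emb z EZ + (s(z 1, a) ::ₘ s(z 2, b) ::ₘ N₁) = s(z 2, z 1) ::ₘ s(z 2, b) ::ₘ
      s(z 2, z 0) ::ₘ s(z 2, z 3) ::ₘ s(z 1, a) ::ₘ s(z 1, z 0) ::ₘ s(z 1, z 3) ::ₘ N₁ := by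
    unfold emb EZ
    simp only [List.map_cons, List.map_nil, ← Multiset.cons_coe, Multiset.coe_nil,
      Multiset.cons_add, zero_add]
    rw [Sym2.eq_swap (a := z 2) (b := z 1), Sym2.eq_swap (a := z 2) (b := z 0),
      Sym2.eq_swap (a := z 1) (b := z 0)]
    simp only [← Multiset.singleton_add]
    abel
  rw [e1]
  exact AT.lemmaE (ne 1 2 (by decide)) ha1 ha2 hb1 hb2 (ne 0 1 (by decide)) (ne 0 2 (by decide))
    (ne 3 1 (by decide)) (ne 3 2 (by decide)) h1 h2 h hc1 hc2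

/-- the rest of `D` is a cell `Z` and the edge `q1 p2` -/
theorem emb_ED' (f : Fin 8 → V) : emb f ED' = s(f 3, f 4) ::ₘ emb (f ∘ z4) EZ := by
  unfold emb ED' EZ z4
  simp only [List.map_cons, List.map_nil, ← Multiset.cons_coe, Multiset.coe_nil,
    Function.comp_apply]
  rfl

/-- `D` read backwards -/
def rv : Fin 8 → Fin 8 := ![7, 6, 5, 4, 3, 2, 1, 0]

theorem emb_rv (f : Fin 8 → V) : emb (f ∘ rv) ED = emb f ED := by
  unfold emb ED rv
  simp only [List.map_cons, List.map_nil, ← Multiset.cons_coe, Multiset.coe_nil,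
    Function.comp_apply]
  simp only [Matrix.cons_val_zero, Matrix.cons_val_one, Matrix.cons_val]
  rw [Sym2.eq_swap (a := f 6) (b := f 5), Sym2.eq_swap (a := f 7) (b := f 6),
    Sym2.eq_swap (a := f 6) (b := f 4), Sym2.eq_swap (a := f 5) (b := f 4),
    Sym2.eq_swap (a := f 7) (b := f 5), Sym2.eq_swap (a := f 5) (b := f 2),
    Sym2.eq_swap (a := f 4) (b := f 3), Sym2.eq_swap (a := f 3) (b := f 2),
    Sym2.eq_swap (a := f 2) (b := f 1), Sym2.eq_swap (a := f 1) (b := f 0),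
    Sym2.eq_swap (a := f 3) (b := f 1), Sym2.eq_swap (a := f 2) (b := f 0)]
  simp only [← Multiset.singleton_add]
  abel

/-! ### peeling -/

/-- `U` or `V` dead: the block peels -/
theorem peelD {f : Fin 8 → V} (hf : Function.Injective f) (hcap : ∀ i, cD i ≤ c (f i))
    (hs : ∀ i, dg N (f i) ≤ slD i) (h0 : dg N (f 1) = 0 ∨ dg N (f 6) = 0)
    (hN : ∀ e ∈ N, ¬ e.IsDiag) (h : AT (outt (img f) N) c) : AT (emb f ED + N) c := by
  rcases h0 with h0 | h0
  · refine peel_cell hf cD ![2, 0, 0, 1, 1, 0, 1, 2] hcap ?_ (by decide) hN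
      [1, 2, 0, 3, 5, 6, 4, 7] (by decide) (by decide) h
    intro i
    by_cases hi : i = 1
    · subst hi; rw [h0]; exact Nat.zero_le _
    · refine (hs i).trans ?_
      revert hi
      revert i
      decide
  · refine peel_cell hf cD ![2, 1, 0, 1, 1, 0, 0, 2] hcap ?_ (by decide) hN
      [6, 5, 7, 4, 2, 1, 3, 0] (by decide) (by decide) h
    intro i
    by_cases hi : i = 6
    · subst hi; rw [h0]; exact Nat.zero_le _
    · refine (hs i).trans ?_
      revert hi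
      revert i
      decide

/-- slots of `Z` -/
def slZ : Fin 4 → ℕ := ![1, 1, 1, 2]

/-- caps of `Z` -/
def cZ : Fin 4 → ℕ := ![2, 3, 3, 2]

theorem peelZ {z : Fin 4 → V} (hz : Function.Injective z) (hcap : ∀ i, cZ i ≤ c (z i))
    (hs : ∀ i, dg N (z i) ≤ slZ i) (h0 : dg N (z 1) = 0 ∨ dg N (z 2) = 0)
    (hN : ∀ e ∈ N, ¬ e.IsDiag) (h : AT (outt (img z) N) c) : AT (emb z EZ + N) c := by
  rcases h0 with h0 | h0
  · refine peel_cell hz cZ ![1, 0, 1, 2] hcap ?_ (by decide) hN [1, 2, 0, 3] (by decide)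
      (by decide) h
    intro i
    by_cases hi : i = 1
    · subst hi; rw [h0]; exact Nat.zero_le _
    · refine (hs i).trans ?_
      revert hi
      revert i
      decide
  · refine peel_cell hz cZ ![1, 1, 0, 2] hcap ?_ (by decide) hN [2, 1, 0, 3] (by decide)
      (by decide) h
    intro i
    by_cases hi : i = 2
    · subst hi; rw [h0]; exact Nat.zero_le _
    · refine (hs i).trans ?_
      revert hi
      revert i
      decide

end Helper19.DN
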