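import Pool.Agent.helper19.L9.KillF
import Pool.Agent.helper19.L9.NetStep

/-!
# Networks of cells `F`
-/

set_option linter.unusedSimpArgs false

namespace Helper19.DN

open Finset Helper42.L9 Helper33.L9 Helper19.Kill Helper19.Gadget

variable {V : Type*} {c : V → ℕ} {M N R L O W : Multiset (Sym2 V)} {m n k : ℕ}

/-! ### small lemmas -/

theorem dg_cons_add' (x y v : V) (M : Multiset (Sym2 V)) :
    dg (s(x, y) ::ₘ M) v = @ite _ (v = x ∨ v = y) (Classical.dec _) 1 0 + dg M v := by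
  classical
  split_ifs with h
  · rw [dg_cons_pos (by rw [Sym2.mem_iff]; exact h), add_comm]
  · rw [dg_cons_neg (by rw [Sym2.mem_iff]; exact h), zero_add]

theorem mem_sw {x y : V} (h : s(x, y) ∈ M) : s(y, x) ∈ M := by
  rw [Sym2.eq_swap]; exact h

/-- the second of two edges at `v` -/
theorem mem_second {v x y : V} (hxy : x ≠ y) (h : s(v, y) ∈ s(v, x) ::ₘ M) : s(v, y) ∈ M := by
  rcases Multiset.mem_cons.mp h with h | h
  · rw [Sym2.eq_iff] at h
    rcases h with ⟨_, h⟩ | ⟨h, h'⟩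
    · exact absurd h.symm hxy
    · exact absurd (h'.trans h).symm hxy
  · exact h

theorem k4_of_not {x y : V} (hW : NoK4 W) (h : ¬ NoK4 (s(x, y) ::ₘ W)) :
    ∃ p q, [x, y, p, q].Nodup ∧ s(x, p) ∈ W ∧ s(x, q) ∈ W ∧ s(y, p) ∈ W ∧ s(y, q) ∈ W ∧
      s(p, q) ∈ W := by
  unfold NoK4 at h
  push Not at h
  obtain ⟨a, b, c, d, hn, h1, h2, h3, h4, h5, h6, _⟩ := h
  have key : ∀ a b c d : V, [a, b, c, d].Nodup → s(a, c) ∈ s(x, y) ::ₘ W →
      s(a, d) ∈ s(x, y) ::ₘ W → s(b, c) ∈ s(x, y) ::ₘ W → s(b, d) ∈ s(x, y) ::ₘ W →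
      s(c, d) ∈ s(x, y) ::ₘ W → s(a, b) = s(x, y) →
      ∃ p q, [x, y, p, q].Nodup ∧ s(x, p) ∈ W ∧ s(x, q) ∈ W ∧ s(y, p) ∈ W ∧ s(y, q) ∈ W ∧
        s(p, q) ∈ W := by
    intro a b c d hn h2 h3 h4 h5 h6 hab
    have hn' := hn
    simp only [List.nodup_cons, List.mem_cons, List.not_mem_nil, or_false, not_or,
      not_false_eq_true, List.nodup_nil, and_true] at hn'
    obtain ⟨⟨n1, n2, n3⟩, ⟨n4, n5⟩, n6⟩ := hn'
    rw [← hab] at h2 h3 h4 h5 h6
    have g : ∀ {u w : V}, s(u, w) ∈ s(a, b) ::ₘ W → s(u, w) ≠ s(a, b) → s(u, w) ∈ W :=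
      fun h hne => (Multiset.mem_cons.mp h).resolve_left hne
    have g2 := g h2 (by
      rw [Ne, Sym2.eq_iff]; rintro (⟨_, h⟩ | ⟨h, _⟩)
      exacts [n4 h.symm, n1 h])
    have g3 := g h3 (by
      rw [Ne, Sym2.eq_iff]; rintro (⟨_, h⟩ | ⟨h, _⟩)
      exacts [n5 h.symm, n1 h])
    have g4 := g h4 (by
      rw [Ne, Sym2.eq_iff]; rintro (⟨h, _⟩ | ⟨_, h⟩)
      exacts [n1 h.symm, n2 h.symm])
    have g5 := g h5 (by
      rw [Ne, Sym2.eq_iff]; rintro (⟨h, _⟩ | ⟨_, h⟩)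
      exacts [n1 h.symm, n3 h.symm])
    have g6 := g h6 (by
      rw [Ne, Sym2.eq_iff]; rintro (⟨h, _⟩ | ⟨h, _⟩)
      exacts [n2 h.symm, n4 h.symm])
    rw [Sym2.eq_iff] at hab
    rcases hab with ⟨rfl, rfl⟩ | ⟨rfl, rfl⟩
    · exact ⟨c, d, hn, g2, g3, g4, g5, g6⟩
    · refine ⟨c, d, ?_, g4, g5, g2, g3, g6⟩
      simp only [List.nodup_cons, List.mem_cons, List.not_mem_nil, or_false, not_or,
        not_false_eq_true, List.nodup_nil, and_true]
      exact ⟨⟨Ne.symm n1, n4, n5⟩, ⟨n2, n3⟩, n6⟩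
  have hn' := hn
  simp only [List.nodup_cons, List.mem_cons, List.not_mem_nil, or_false, not_or,
    not_false_eq_true, List.nodup_nil, and_true] at hn'
  obtain ⟨⟨n1, n2, n3⟩, ⟨n4, n5⟩, n6⟩ := hn'
  have nd : ∀ {p q r t : V}, p ≠ q → p ≠ r → p ≠ t → q ≠ r → q ≠ t → r ≠ t →
      [p, q, r, t].Nodup := by
    intro p q r t a1 a2 a3 a4 a5 a6
    simp [a1, a2, a3, a4, a5, a6]
  by_cases e1 : s(a, b) = s(x, y)
  · exact key a b c d hn h2 h3 h4 h5 h6 e1
  by_cases e2 : s(a, c) = s(x, y)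
  · exact key a c b d (nd n2 n1 n3 (Ne.symm n4) n6 n5) h1 h3 (mem_sw h4) h6 h5 e2
  by_cases e3 : s(a, d) = s(x, y)
  · exact key a d b c (nd n3 n1 n2 (Ne.symm n5) (Ne.symm n6) n4) h1 h2 (mem_sw h5) (mem_sw h6) h4
      e3
  by_cases e4 : s(b, c) = s(x, y)
  · exact key b c a d (nd n4 (Ne.symm n1) n5 (Ne.symm n2) n6 n3) (mem_sw h1) h5 (mem_sw h2) h6 h3
      e4
  by_cases e5 : s(b, d) = s(x, y)
  · exact key b d a c (nd n5 (Ne.symm n1) n4 (Ne.symm n3) (Ne.symm n6) n2) (mem_sw h1) h4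
      (mem_sw h3) (mem_sw h6) h2 e5
  by_cases e6 : s(c, d) = s(x, y)
  · exact key c d a b (nd n6 (Ne.symm n2) (Ne.symm n4) (Ne.symm n3) (Ne.symm n5) n1) (mem_sw h2)
      (mem_sw h4) (mem_sw h3) (mem_sw h5) h1 e6
  exact (hW a b c d hn ((Multiset.mem_cons.mp h1).resolve_left e1)
    ((Multiset.mem_cons.mp h2).resolve_left e2) ((Multiset.mem_cons.mp h3).resolve_left e3)
    ((Multiset.mem_cons.mp h4).resolve_left e4) ((Multiset.mem_cons.mp h5).resolve_left e5)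
    ((Multiset.mem_cons.mp h6).resolve_left e6)).elim

/-! ### networks -/

/-- all the inner edges of a family of blocks -/
noncomputable def TE (E : List (Fin n × Fin n)) (b : Fin m → Fin n → V) : Multiset (Sym2 V) :=
  ∑ j, emb (b j) E

theorem mem_TE {E : List (Fin n × Fin n)} {b : Fin m → Fin n → V} {e : Sym2 V} :
    e ∈ TE E b ↔ ∃ j, e ∈ emb (b j) E := by
  unfold TE
  rw [Multiset.mem_sum]
  simp

theorem TE_split (E : List (Fin n × Fin n)) (b : Fin (m + 1) → Fin n → V) (j : Fin (m + 1)) :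
    TE E b = emb (b j) E + TE E (b ∘ j.succAbove) := by
  unfold TE
  rw [Fin.sum_univ_succAbove _ j]
  rfl

theorem dg_TE_out {E : List (Fin n × Fin n)} {b : Fin m → Fin n → V} {v : V}
    (h : ∀ j i, b j i ≠ v) : dg (TE E b) v = 0 := by
  refine dg_zero fun e he hv => ?_
  obtain ⟨j, hj⟩ := mem_TE.mp he
  obtain ⟨p, hp, rfl⟩ := mem_emb.mp hj
  rw [Sym2.mem_iff] at hv
  rcases hv with h1 | h1
  · exact h _ _ h1.symm
  · exact h _ _ h1.symm

theorem outt_TE {E : List (Fin n × Fin n)} {b : Fin m → Fin n → V} {A : Finset V}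
    (h : ∀ j i, b j i ∉ A) : outt A (TE E b) = TE E b := by
  refine outt_keep fun e he v hv => ?_
  obtain ⟨j, hj⟩ := mem_TE.mp he
  obtain ⟨p, hp, rfl⟩ := mem_emb.mp hj
  rw [Sym2.mem_iff] at hv
  rcases hv with rfl | rfl
  · exact h _ _
  · exact h _ _

/-- a network of cells `F` (`p u v q` = `0 1 2 3`), links `L` and own edges `O` -/
structure FNet (z : Fin k → Fin 4 → V) (c : V → ℕ) (L O : Multiset (Sym2 V)) : Prop where
  inj : ∀ j i j' i', z j i = z j' i' → j = j' ∧ i = i'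
  cap : ∀ j, 3 ≤ c (z j 1) ∧ 3 ≤ c (z j 2)
  two : ∀ v, 2 ≤ c v
  loopless : ∀ e ∈ L + O, ¬ e.IsDiag
  slots : ∀ j i, dg L (z j i) ≤ slZ i
  offO : ∀ j i, dg O (z j i) = 0
  degL : ∀ v, dg L v ≤ 2
  deg : ∀ v, dg (L + O) v ≤ 3
  noK4 : NoK4 (L + O)

variable {z : Fin k → Fin 4 → V}

theorem FNet.zinj (h : FNet z c L O) (j : Fin k) : Function.Injective (z j) :=
  fun _ _ hh => (h.inj _ _ _ _ hh).2

theorem FNet.sub (h : FNet z c L O) {L' O' : Multiset (Sym2 V)} (hL : L' ≤ L) (hO : O' ≤ O) :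
    FNet z c L' O' :=
  ⟨h.inj, h.cap, h.two, fun e he => h.loopless e (Multiset.mem_of_le (add_le_add hL hO) he),
    fun j i => (dg_le_of_le hL _).trans (h.slots j i),
    fun j i => Nat.le_zero.mp ((dg_le_of_le hO _).trans (h.offO j i).le),
    fun v => (dg_le_of_le hL _).trans (h.degL v),
    fun v => (dg_le_of_le (add_le_add hL hO) _).trans (h.deg v),
    h.noK4.of_le (add_le_add hL hO)⟩

theorem FNet.rest {z : Fin (k + 1) → Fin 4 → V} (h : FNet z c L O) (j : Fin (k + 1)) :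
    FNet (z ∘ j.succAbove) c L O :=
  ⟨fun j' i j'' i' hh => by
      obtain ⟨h1, h2⟩ := h.inj _ _ _ _ hh
      exact ⟨Fin.succAbove_right_injective h1, h2⟩,
    fun j' => h.cap _, h.two, h.loopless, fun j' i => h.slots _ i, fun j' i => h.offO _ i,
    h.degL, h.deg, h.noK4⟩

theorem FNet.rest_ne {z : Fin (k + 1) → Fin 4 → V} (h : FNet z c L O) (j : Fin (k + 1))
    (j' : Fin k) (i i' : Fin 4) : (z ∘ j.succAbove) j' i ≠ z j i' := by
  intro hh
  exact Fin.succAbove_ne j j' (h.inj _ _ _ _ hh).1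

theorem FNet.capZ (h : FNet z c L O) (j : Fin k) (i : Fin 4) : cZ i ≤ c (z j i) := by
  obtain ⟨h1, h2⟩ := h.cap j
  fin_cases i
  · exact h.two _
  · exact h1
  · exact h2
  · exact h.two _

theorem FNet.llTE (h : FNet z c L O) : ∀ e ∈ TE EZ z, ¬ e.IsDiag := by
  intro e he
  obtain ⟨j, hj⟩ := mem_TE.mp he
  exact emb_loopless (h.zinj j) (by decide) e hj

/-- total degree of the vertices of a cell -/
def tZ : Fin 4 → ℕ := ![3, 4, 4, 4]

theorem FNet.tot (h : FNet z c L O) (j : Fin k) (i : Fin 4) :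
    dg (emb (z j) EZ + (L + O)) (z j i) ≤ tZ i := by
  rw [dg_add, dg_add, dg_emb (h.zinj j), h.offO, add_zero]
  have := h.slots j i
  have h2 : ∀ i, cnt EZ i + slZ i ≤ tZ i := by decide
  have h3 := h2 i
  omega

/-- **Killing step.** `B` : the inner edges of the cells which are removed. -/
theorem FNet.kill (h : FNet z c L O)
    (IH : ∀ L O, FNet z c L O → AT (TE EZ z + (L + O)) c) {B : Multiset (Sym2 V)}
    (g : Fin n → V) (hg : Function.Injective g) (hgz : ∀ j i i', z j i ≠ g i')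
    (E : List (Fin n × Fin n)) (heq : B + (L + O) = emb g E + W)
    (hB : ∀ e ∈ B, ∃ i, g i ∈ e) (hBl : ∀ e ∈ B, ¬ e.IsDiag) (D : Fin n → ℕ)
    (hD : ∀ i, dg (B + (L + O)) (g i) ≤ D i)
    (cl sl : List ℕ) (h7 : cl.all (· ≤ 7) = true) (hc : ∀ i : Fin n, cp cl i ≤ c (g i))
    (hsl : ∀ i : Fin n, D i ≤ cnt E i + sl.getD i 0) (gE : List (ℕ × ℕ))
    (hE : (E.map fun e => ((e.1 : ℕ), (e.2 : ℕ))) = gE) (ps : List (ℕ × ℕ))
    (hin : ∀ i j : Fin n, i < j → s(g i, g j) ∈ W → ((i : ℕ), (j : ℕ)) ∈ ps)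
    (hchk : chkKp n cl gE sl ps = true) : AT (B + (TE EZ z + (L + O))) c := by
  classical
  have hgT : ∀ i, dg (TE EZ z) (g i) = 0 := fun i => dg_TE_out fun j i' => hgz j i' i
  have e1 : B + (TE EZ z + (L + O)) = emb g E + (TE EZ z + W) := by
    rw [add_left_comm, heq, add_left_comm]
  rw [e1]
  have hWle : W ≤ B + (L + O) := by
    rw [heq]; exact Multiset.le_add_left _ _
  have hWl : ∀ e ∈ W, ¬ e.IsDiag := by
    intro e he
    rcases Multiset.mem_add.mp (Multiset.mem_of_le hWle he) with h1 | h1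
    · exact hBl e h1
    · exact h.loopless e h1
  refine kill_of_chkp g hg cl h7 hc sl E gE hE _ ?_ ?_ ps ?_ hchk ?_
  · intro i
    rw [dg_add, hgT, zero_add]
    have h1 := hD i
    rw [heq, dg_add, dg_emb hg] at h1
    have h2 := hsl i
    omega
  · intro e he
    rcases Multiset.mem_add.mp he with h1 | h1
    · exact h.llTE e h1
    · exact hWl e h1
  · intro i j hij hm
    rcases Multiset.mem_add.mp hm with h1 | h1
    · exact absurd (Sym2.mem_mk_left _ _) (notMem_of_dg (hgT i) _ h1)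
    · exact hin i j hij h1
  · have hA : ∀ j i, z j i ∉ img g := by
      intro j i hi
      obtain ⟨i', hi'⟩ := mem_img.mp hi
      exact hgz j i i' hi'.symm
    have e2 : outt (img g) W = outt (img g) L + outt (img g) O := by
      have h1 : outt (img g) (B + (L + O)) = outt (img g) (emb g E + W) := by rw [heq]
      rw [outt_add, outt_add, outt_add, outt_none (M := B), outt_none (M := emb g E), zero_add,
        zero_add] at h1
      · exact h1.symm
      · intro e he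
        obtain ⟨p, hp, rfl⟩ := mem_emb.mp he
        exact ⟨g p.1, Sym2.mem_mk_left _ _, mem_img.mpr ⟨_, rfl⟩⟩
      · intro e he
        obtain ⟨i, hi⟩ := hB e he
        exact ⟨g i, hi, mem_img.mpr ⟨_, rfl⟩⟩
    have e3 : outt (@Finset.image _ _ (Classical.decEq V) g Finset.univ) (TE EZ z + W) =
        TE EZ z + (outt (img g) L + outt (img g) O) := by
      have : (@Finset.image _ _ (Classical.decEq V) g Finset.univ) = img g := rfl
      rw [this, outt_add, outt_TE hA, e2]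
    rw [e3]
    exact IH _ _ (h.sub (Helper19.Kill.outt_le' _ _) (Helper19.Kill.outt_le' _ _))

end Helper19.DN
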