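import Pool.Agent.helper19.L9.FMain

/-!
# Networks of cells `F`: two cells, the theorem
-/

set_option linter.unusedSimpArgs false

namespace Helper19.DN

open Finset Helper42.L9 Helper33.L9 Helper19.Kill Helper19.Gadget

variable {V : Type*} {c : V → ℕ} {M N R L O W : Multiset (Sym2 V)} {m n k : ℕ}

/-- no edge of `W` between `u` and `w` -/
theorem no_edge {u w : V} (h : dg W u = 0 ∨ dg W w = 0) : s(u, w) ∉ W := by
  intro hm
  rcases h with h | h
  · exact notMem_of_dg h _ hm (Sym2.mem_mk_left _ _)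
  · exact notMem_of_dg h _ hm (Sym2.mem_mk_right _ _)

/-- the only edge at `v` -/
theorem only_edge {v x y : V} (h : dg L v ≤ 1) (hx : s(v, x) ∈ L) (hy : s(v, y) ∈ L) : x = y := by
  by_contra hne
  obtain ⟨L₁, hL₁⟩ := Multiset.exists_cons_of_mem hx
  rw [hL₁] at hy h
  obtain ⟨L₂, hL₂⟩ := Multiset.exists_cons_of_mem (mem_second hne hy)
  rw [hL₂, dg_cons_pos (Sym2.mem_mk_left _ _), dg_cons_pos (Sym2.mem_mk_left _ _)] at h
  omega

theorem FNet.pair {z : Fin (k + 2) → Fin 4 → V} (h : FNet z c L O) (j l l' : Fin (k + 2))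
    (hlj : l ≠ j) (hl' : l' ≠ l)
    (IH : ∀ (z : Fin k → Fin 4 → V) L O, FNet z c L O → AT (TE EZ z + (L + O)) c)
    (h1 : s(z j 1, z l 3) ∈ L) (h2 : s(z j 2, z l 3) ∈ L) (h3 : s(z l 1, z l' 3) ∈ L)
    (h4 : s(z l 2, z l' 3) ∈ L) (hor : l' = j ∨ s(z j 0, z l 0) ∉ L) :
    AT (TE EZ z + (L + O)) c := by
  classical
  obtain ⟨l₁, rfl⟩ := Fin.exists_succAbove_eq hlj
  rw [TE_split EZ z j, TE_split EZ (z ∘ j.succAbove) l₁, add_assoc, add_assoc, ← add_assoc]
  set f := z j with hf0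
  set g := (z ∘ j.succAbove) l₁ with hg0
  have hgl : z (j.succAbove l₁) = g := rfl
  rw [hgl] at h1 h2 h3 h4 hor
  set z' := (z ∘ j.succAbove) ∘ l₁.succAbove with hz'
  have hf : Function.Injective f := h.zinj j
  have hg : Function.Injective g := h.zinj _
  have H1 : FNet (z ∘ j.succAbove) c L O := h.rest j
  have H : FNet z' c L O := H1.rest l₁
  have hzf : ∀ j' i i', z' j' i ≠ f i' := fun j' i i' => h.rest_ne j _ i i'
  have hzg : ∀ j' i i', z' j' i ≠ g i' := fun j' i i' => H1.rest_ne l₁ j' i i'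
  have hfg : ∀ i i', f i ≠ g i' := fun i i' hh => h.rest_ne j l₁ i' i hh.symm
  have nf : ∀ {i i' : Fin 4}, i ≠ i' → f i ≠ f i' := fun hij hh => hij (hf hh)
  have ng : ∀ {i i' : Fin 4}, i ≠ i' → g i ≠ g i' := fun hij hh => hij (hg hh)
  have hcf : ∀ i, cZ i ≤ c (f i) := h.capZ j
  have hcg : ∀ i, cZ i ≤ c (g i) := h.capZ _
  have hsf : ∀ i, dg L (f i) ≤ slZ i := h.slots j
  have hsg : ∀ i, dg L (g i) ≤ slZ i := h.slots _
  have hOf : ∀ i, dg O (f i) = 0 := h.offO j
  have hOg : ∀ i, dg O (g i) = 0 := h.offO _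
  have hG : Function.Injective (Fin.append f g) := by
    rw [Fin.append_injective_iff]
    exact ⟨hf, hg, hfg⟩
  have hBl : ∀ e ∈ emb f EZ + emb g EZ, ¬ e.IsDiag := by
    intro e he
    rcases Multiset.mem_add.mp he with h' | h'
    · exact emb_loopless hf (by decide) e h'
    · exact emb_loopless hg (by decide) e h'
  have hBG : ∀ e ∈ emb f EZ + emb g EZ, ∃ i, Fin.append f g i ∈ e := by
    intro e he
    rcases Multiset.mem_add.mp he with h' | h'
    · obtain ⟨q, hq, rfl⟩ := mem_emb.mp h'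
      exact ⟨Fin.castAdd 4 q.1, by rw [Fin.append_left]; exact Sym2.mem_mk_left _ _⟩
    · obtain ⟨q, hq, rfl⟩ := mem_emb.mp h'
      exact ⟨Fin.natAdd 4 q.1, by rw [Fin.append_right]; exact Sym2.mem_mk_left _ _⟩
  have hzG : ∀ j' i i', z' j' i ≠ Fin.append f g i' := by
    intro j' i i'
    refine Fin.addCases (m := 4) (n := 4) (fun a => ?_) (fun a => ?_) i'
    · rw [Fin.append_left]; exact hzf _ _ _
    · rw [Fin.append_right]; exact hzg _ _ _
  have e0 : (![3, 4, 4, 4, 3, 4, 4, 4] : Fin 8 → ℕ) = Fin.append tZ tZ := by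
    funext i; fin_cases i <;> rfl
  have hD : ∀ i, dg (emb f EZ + emb g EZ + (L + O)) (Fin.append f g i) ≤
      (![3, 4, 4, 4, 3, 4, 4, 4] : Fin 8 → ℕ) i := by
    intro i
    rw [e0]
    refine Fin.addCases (m := 4) (n := 4) (fun a => ?_) (fun a => ?_) i
    · rw [Fin.append_left, Fin.append_left, dg_add, dg_add,
        dg_emb_out (f := g) fun i h => hfg a i h.symm, add_zero, ← dg_add]
      exact h.tot j a
    · rw [Fin.append_right, Fin.append_right, dg_add, dg_add, dg_emb_out (f := f) fun i h =>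
        hfg i a h, zero_add, ← dg_add]
      exact h.tot _ a
  have hcG : ∀ i : Fin 8, cp [2, 3, 3, 2, 2, 3, 3, 2] i ≤ c (Fin.append f g i) := by
    intro i
    have a1 := hcf
    have a2 := hcg
    fin_cases i
    · exact a1 0
    · exact a1 1
    · exact a1 2
    · exact a1 3
    · exact a2 0
    · exact a2 1
    · exact a2 2
    · exact a2 3
  -- the first two links
  obtain ⟨L₁, hL₁⟩ := Multiset.exists_cons_of_mem h1
  have h2' : s(f 2, g 3) ∈ L₁ := by
    rw [hL₁] at h2
    exact mem_sw (mem_second (nf (i := 1) (i' := 2) (by decide))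
      (by rw [Sym2.eq_swap (a := g 3) (b := f 1)]; exact mem_sw h2))
  obtain ⟨L₂, hL₂⟩ := Multiset.exists_cons_of_mem h2'
  have hLL : L = s(f 1, g 3) ::ₘ s(f 2, g 3) ::ₘ L₂ := by rw [hL₁, hL₂]
  have dL : ∀ v, dg L v = (if v = f 1 ∨ v = g 3 then 1 else 0) +
      ((if v = f 2 ∨ v = g 3 then 1 else 0) + dg L₂ v) := by
    intro v
    rw [hLL, dg_cons_add', dg_cons_add']
    congr
  have s1 : slZ 1 = 1 := rfl
  have s2 : slZ 2 = 1 := rfl
  have s3 : slZ 3 = 2 := rfl
  have s0 : slZ 0 = 1 := rfl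
  have r1 : dg L₂ (f 1) = 0 := by
    have h1 := dL (f 1)
    rw [if_pos (Or.inl rfl)] at h1
    have := hsf 1
    omega
  have r2 : dg L₂ (f 2) = 0 := by
    have h1 := dL (f 2)
    rw [if_pos (c := f 2 = f 2 ∨ f 2 = g 3) (Or.inl rfl)] at h1
    have := hsf 2
    omega
  have r3 : dg L₂ (g 3) = 0 := by
    have h1 := dL (g 3)
    rw [if_pos (Or.inr rfl), if_pos (Or.inr rfl)] at h1
    have := hsg 3
    omega
  have hle2 : L₂ ≤ L := by
    rw [hLL]
    exact (Multiset.le_cons_self _ _).trans (Multiset.le_cons_self _ _)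
  by_cases hcyc : l' = j
  · -- two-cycle
    subst hcyc
    have k1 : s(g 1, f 3) ∈ L₂ := by
      rw [hLL] at h3
      rcases Multiset.mem_cons.mp h3 with h' | h'
      · rw [Sym2.eq_iff] at h'
        rcases h' with ⟨h', _⟩ | ⟨h', _⟩
        · exact absurd h'.symm (hfg _ _)
        · exact absurd h' (ng (by decide))
      · rcases Multiset.mem_cons.mp h' with h' | h'
        · rw [Sym2.eq_iff] at h'
          rcases h' with ⟨h', _⟩ | ⟨h', _⟩
          · exact absurd h'.symm (hfg _ _)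
          · exact absurd h' (ng (by decide))
        · exact h'
    have k2 : s(g 2, f 3) ∈ L₂ := by
      rw [hLL] at h4
      rcases Multiset.mem_cons.mp h4 with h' | h'
      · rw [Sym2.eq_iff] at h'
        rcases h' with ⟨h', _⟩ | ⟨h', _⟩
        · exact absurd h'.symm (hfg _ _)
        · exact absurd h' (ng (by decide))
      · rcases Multiset.mem_cons.mp h' with h' | h'
        · rw [Sym2.eq_iff] at h'
          rcases h' with ⟨h', _⟩ | ⟨h', _⟩
          · exact absurd h'.symm (hfg _ _)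
          · exact absurd h' (ng (by decide))
        · exact h'
    obtain ⟨L₃, hL₃⟩ := Multiset.exists_cons_of_mem k1
    have k2' : s(g 2, f 3) ∈ L₃ := by
      rw [hL₃] at k2
      exact mem_sw (mem_second (ng (i := 1) (i' := 2) (by decide))
        (by rw [Sym2.eq_swap (a := f 3) (b := g 1)]; exact mem_sw k2))
    obtain ⟨L₄, hL₄⟩ := Multiset.exists_cons_of_mem k2'
    refine H.kill (IH _) (B := emb f EZ + emb g EZ) (W := L₄ + O) (Fin.append f g : Fin 8 → V)
      hG hzG [(1, 7), (2, 7), (5, 3), (6, 3), (0, 1), (1, 2), (2, 3), (0, 2), (1, 3), (4, 5),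
        (5, 6), (6, 7), (4, 6), (5, 7)] ?_ hBG hBl ![3, 4, 4, 4, 3, 4, 4, 4] hD
      [2, 3, 3, 2, 2, 3, 3, 2] [1, 0, 0, 0, 1, 0, 0, 0] (by decide) hcG (by decide) _ rfl (prs 8)
      ?_ (chkKp_of_chkK chk_cyc)
    · rw [hLL, hL₃, hL₄]
      have : emb (Fin.append f g : Fin 8 → V)
          [(1, 7), (2, 7), (5, 3), (6, 3), (0, 1), (1, 2), (2, 3), (0, 2), (1, 3), (4, 5),
            (5, 6), (6, 7), (4, 6), (5, 7)] =
          s(f 1, g 3) ::ₘ s(f 2, g 3) ::ₘ s(g 1, f 3) ::ₘ s(g 2, f 3) ::ₘ s(f 0, f 1) ::ₘ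
            s(f 1, f 2) ::ₘ s(f 2, f 3) ::ₘ s(f 0, f 2) ::ₘ s(f 1, f 3) ::ₘ emb g EZ := rfl
      rw [this]
      have h5 : emb f EZ = s(f 0, f 1) ::ₘ s(f 1, f 2) ::ₘ s(f 2, f 3) ::ₘ s(f 0, f 2) ::ₘ
        s(f 1, f 3) ::ₘ 0 := rfl
      rw [h5]
      simp only [← Multiset.singleton_add]
      abel
    · intro i i' hii _
      exact prs8 i i' hii
  · have hp : s(f 0, g 0) ∉ L := hor.resolve_left hcyc
    refine H.kill (IH _) (B := emb f EZ + emb g EZ) (W := L₂ + O) (Fin.append f g : Fin 8 → V)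
      hG hzG [(1, 7), (2, 7), (0, 1), (1, 2), (2, 3), (0, 2), (1, 3), (4, 5),
        (5, 6), (6, 7), (4, 6), (5, 7)] ?_ hBG hBl ![3, 4, 4, 4, 3, 4, 4, 4] hD
      [2, 3, 3, 2, 2, 3, 3, 2] [1, 0, 0, 2, 1, 1, 1, 0] (by decide) hcG (by decide) _ rfl
      [(0, 3), (3, 4)] ?_ chk_pair
    · rw [hLL]
      have : emb (Fin.append f g : Fin 8 → V)
          [(1, 7), (2, 7), (0, 1), (1, 2), (2, 3), (0, 2), (1, 3), (4, 5),
            (5, 6), (6, 7), (4, 6), (5, 7)] =
          s(f 1, g 3) ::ₘ s(f 2, g 3) ::ₘ s(f 0, f 1) ::ₘ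
            s(f 1, f 2) ::ₘ s(f 2, f 3) ::ₘ s(f 0, f 2) ::ₘ s(f 1, f 3) ::ₘ emb g EZ := rfl
      rw [this]
      have h5 : emb f EZ = s(f 0, f 1) ::ₘ s(f 1, f 2) ::ₘ s(f 2, f 3) ::ₘ s(f 0, f 2) ::ₘ
        s(f 1, f 3) ::ₘ 0 := rfl
      rw [h5]
      simp only [← Multiset.singleton_add]
      abel
    · -- the possible inner links
      intro i i' hii hm
      have hO : ∀ a, dg O (Fin.append f g a) = 0 := by
        intro a
        refine Fin.addCases (m := 4) (n := 4) (fun a => ?_) (fun a => ?_) a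
        · rw [Fin.append_left]; exact hOf a
        · rw [Fin.append_right]; exact hOg a
      have hm2 : s(Fin.append f g i, Fin.append f g i') ∈ L₂ := by
        rcases Multiset.mem_add.mp hm with h' | h'
        · exact h'
        · exact absurd h' (no_edge (Or.inl (hO i)))
      have hmL : s(Fin.append f g i, Fin.append f g i') ∈ L := Multiset.mem_of_le hle2 hm2
      have z1 : ∀ a, a = (1 : Fin 8) ∨ a = 2 ∨ a = 7 → dg L₂ (Fin.append f g a) = 0 := by
        rintro a (rfl | rfl | rfl)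
        · exact r1
        · exact r2
        · exact r3
      -- the links of `g 1`, `g 2` leave the two cells
      have hout : ∀ a, z l' 3 ≠ Fin.append f g a := by
        intro a
        refine Fin.addCases (m := 4) (n := 4) (fun a => ?_) (fun a => ?_) a
        · rw [Fin.append_left]; exact fun hh => hcyc (h.inj _ _ _ _ hh).1
        · rw [Fin.append_right]; exact fun hh => hl' (h.inj _ _ _ _ hh).1
      have z2 : ∀ a b, s(Fin.append f g a, Fin.append f g b) ∈ L → a ≠ (5 : Fin 8) ∧ a ≠ 6 := by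
        intro a b hab
        constructor
        · rintro rfl
          exact hout b (only_edge (v := g 1) (by have := hsg 1; omega) h3 hab)
        · rintro rfl
          exact hout b (only_edge (v := g 2) (by have := hsg 2; omega) h4 hab)
      have q1 : ¬ (i = 1 ∨ i = 2 ∨ i = 7) := fun hh => no_edge (Or.inl (z1 i hh)) hm2
      have q2 : ¬ (i' = 1 ∨ i' = 2 ∨ i' = 7) := fun hh => no_edge (Or.inr (z1 i' hh)) hm2
      have q3 := z2 i i' hmL
      have q4 := z2 i' i (mem_sw hmL)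
      have q5 : ¬ (i = 0 ∧ i' = 4) := by
        rintro ⟨rfl, rfl⟩
        exact hp hmL
      clear hm hm2 hmL
      revert hii q1 q2 q3 q4 q5
      revert i i'
      decide

/-- **Networks of cells `F` have the Alon-Tarsi property.** -/
theorem FNet.at : ∀ (k : ℕ) (z : Fin k → Fin 4 → V) (L O : Multiset (Sym2 V)), FNet z c L O →
    AT (TE EZ z + (L + O)) c := by
  intro k
  induction k using Nat.strong_induction_on with
  | _ k ih =>
    intro z L O h
    rcases k with _ | k
    · have e0 : TE EZ z = 0 := by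
        unfold TE; simp
      rw [e0, zero_add]
      exact (at_cubic _ _ le_rfl h.loopless h.deg h.noK4).mono h.two
    · by_cases hall : ∀ j, ∃ l, l ≠ j ∧ s(z j 1, z l 3) ∈ L ∧ s(z j 2, z l 3) ∈ L
      · obtain ⟨l, a1, a2, a3⟩ := hall 0
        rcases k with _ | k
        · exact absurd (Fin.ext (by have := l.2; simp only [Fin.val_zero]; omega)) a1
        obtain ⟨l', b1, b2, b3⟩ := hall l
        have IH : ∀ (z : Fin k → Fin 4 → V) L O, FNet z c L O → AT (TE EZ z + (L + O)) c :=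
          ih k (by omega)
        by_cases hc : l' = 0 ∨ s(z 0 0, z l 0) ∉ L
        · exact h.pair 0 l l' a1 b1 IH a2 a3 b2 b3 hc
        · push Not at hc
          obtain ⟨l'', c1, c2, c3⟩ := hall l'
          refine h.pair l l' l'' b1 c1 IH b2 b3 c2 c3 (Or.inr ?_)
          intro hm
          have h1 := only_edge (by have := h.slots l 0; exact this) (mem_sw hc.2) hm
          exact hc.1 (h.inj _ _ _ _ h1).1.symm
      · push Not at hall
        obtain ⟨j, hj⟩ := hall
        exact h.one j (fun L O hh => ih k (by omega) _ L O hh) fun l hl h1 h2 => hj l hl h1 h2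

end Helper19.DN
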