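import Pool.Agent.helper19.L9.Links

/-!
# Computing the forms of a block

Polynomials are lists of (code, coefficient); the code of a monomial is its exponent vector
in base 8.
-/

set_option linter.unusedSimpArgs false

namespace Helper19.Gadget

open MvPolynomial Finset Helper42.L9

/-! ### lists -/

abbrev PL := List (ℕ × ℤ)

/-- coefficient of a code -/
def cfL (a : ℕ) : PL → ℤ
  | [] => 0
  | p :: P => (if p.1 = a then p.2 else 0) + cfL a P

theorem cfL_append (a : ℕ) (P Q : PL) : cfL a (P ++ Q) = cfL a P + cfL a Q := by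
  induction P with
  | nil => simp [cfL]
  | cons p P ih => simp only [List.cons_append, cfL, ih]; ring

/-- merge -/
def mrg : ℕ → PL → PL → PL
  | 0, P, Q => P ++ Q
  | _ + 1, [], Q => Q
  | _ + 1, P, [] => P
  | f + 1, p :: P, q :: Q =>
    if p.1 < q.1 then p :: mrg f P (q :: Q)
    else if q.1 < p.1 then q :: mrg f (p :: P) Q
    else if p.1 = q.1 then (if p.2 + q.2 = 0 then mrg f P Q else (p.1, p.2 + q.2) :: mrg f P Q)
    else (p :: P) ++ (q :: Q)

theorem cfL_mrg (a : ℕ) : ∀ (f : ℕ) (P Q : PL), cfL a (mrg f P Q) = cfL a P + cfL a Q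
  | 0, P, Q => by rw [mrg, cfL_append]
  | f + 1, [], Q => by simp [mrg, cfL]
  | f + 1, p :: P, [] => by simp [mrg, cfL]
  | f + 1, p :: P, q :: Q => by
    rw [mrg]
    split_ifs with h1 h2 h3 h4
    · simp only [cfL, cfL_mrg a f]; ring
    · simp only [cfL, cfL_mrg a f]; ring
    · simp only [cfL, cfL_mrg a f, h3]
      split_ifs
      · linarith
      · ring
    · simp only [cfL, cfL_mrg a f, h3]
      split_ifs <;> ring
    · rw [cfL_append]

/-- multiply by `s * X i`, drop the monomials whose exponent of `i` exceeds the cap -/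
def sh (cap i : ℕ) (s : ℤ) : PL → PL
  | [] => []
  | p :: P => if p.1 / 8 ^ i % 8 < cap then (p.1 + 8 ^ i, s * p.2) :: sh cap i s P else sh cap i s P

theorem dig_add {c i : ℕ} (h : c / 8 ^ i % 8 < 7) : (c + 8 ^ i) / 8 ^ i % 8 = c / 8 ^ i % 8 + 1 := by
  rw [Nat.add_div_right _ (by positivity)]
  omega

theorem cfL_sh_zero {cap i a : ℕ} (hcap : cap ≤ 7) (s : ℤ) (P : PL) (h : a / 8 ^ i % 8 = 0) :
    cfL a (sh cap i s P) = 0 := by
  induction P with
  | nil => rfl
  | cons p P ih =>
    rw [sh]
    split_ifs with hp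
    · rw [cfL, ih, if_neg]; · rfl
      intro he
      have := dig_add (c := p.1) (i := i) (by omega)
      simp only at he
      rw [he, h] at this
      omega
    · exact ih

theorem cfL_sh_pos {cap i a : ℕ} (s : ℤ) (P : PL) (h : a / 8 ^ i % 8 < cap) :
    cfL (a + 8 ^ i) (sh cap i s P) = s * cfL a P := by
  induction P with
  | nil => simp [cfL, sh]
  | cons p P ih =>
    rw [sh]
    split_ifs with hp
    · simp only [cfL, ih]
      by_cases he : p.1 = a
      · rw [if_pos he, if_pos (by rw [he])]; ring
      · rw [if_neg he, if_neg (by omega)]; ring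
    · rw [cfL, ih, if_neg]
      · ring
      · rintro rfl; exact hp h

/-- multiply by `X i - X j` -/
def stp (caps : ℕ → ℕ) (e : ℕ × ℕ) (P : PL) : PL :=
  mrg (2 * P.length) (sh (caps e.1) e.1 1 P) (sh (caps e.2) e.2 (-1) P)

/-- the product of all factors -/
def fst (caps : ℕ → ℕ) (E : List (ℕ × ℕ)) : PL := E.foldr (stp caps) [(0, 1)]

/-- code of an exponent vector -/
def enc {N : ℕ} (μ : Fin N →₀ ℕ) : ℕ := ∑ i : Fin N, μ i * 8 ^ (i : ℕ)

theorem enc_div {N : ℕ} (μ : Fin N →₀ ℕ) (h : ∀ i, μ i ≤ 7) (i : Fin N) :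
    enc μ / 8 ^ (i : ℕ) % 8 = μ i := by
  induction N with
  | zero => exact i.elim0
  | succ N ih =>
    have e1 : enc μ = μ 0 + 8 * enc (Finsupp.equivFunOnFinite.symm fun j : Fin N => μ j.succ) := by
      unfold enc
      rw [Fin.sum_univ_succ, Finset.mul_sum]
      congr 1
      · simp
      · refine Finset.sum_congr rfl fun j _ => ?_
        simp only [Fin.val_succ, pow_succ, Finsupp.equivFunOnFinite_symm_apply_apply]
        ring
    refine Fin.cases ?_ (fun j => ?_) i
    · rw [e1]
      simp only [Fin.val_zero, pow_zero, Nat.div_one]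
      have := h 0
      omega
    · have := ih (Finsupp.equivFunOnFinite.symm fun j : Fin N => μ j.succ) (fun j => h j.succ) j
      rw [Finsupp.equivFunOnFinite_symm_apply_apply] at this
      rw [← this, e1, Fin.val_succ, pow_succ, mul_comm (8 ^ (j : ℕ)) 8, ← Nat.div_div_eq_div_mul]
      congr 2
      have := h 0
      omega

theorem enc_add_single {N : ℕ} (μ : Fin N →₀ ℕ) (i : Fin N) :
    enc (μ + Finsupp.single i 1) = enc μ + 8 ^ (i : ℕ) := by
  classical
  unfold enc
  simp only [Finsupp.coe_add, Pi.add_apply, add_mul, Finset.sum_add_distrib]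
  congr 1
  rw [Finset.sum_eq_single i]
  · simp
  · intro j _ hj
    simp [Finsupp.single_apply, Ne.symm hj]
  · intro h; exact absurd (Finset.mem_univ i) h

theorem coeff_X_mul_cases {N : ℕ} (μ : Fin N →₀ ℕ) (i : Fin N) (P : MvPolynomial (Fin N) ℤ) :
    coeff μ (X i * P) = if μ i = 0 then 0 else coeff (μ - Finsupp.single i 1) P := by
  classical
  rw [coeff_X_mul']
  by_cases h : μ i = 0
  · rw [if_neg (by simpa using h), if_pos h]
  · rw [if_pos (by simpa using h), if_neg h]

/-- correctness -/
theorem cfL_fst {N : ℕ} (caps : ℕ → ℕ) (hcaps : ∀ i, caps i ≤ 7) (E : List (Fin N × Fin N)) :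
    ∀ μ : Fin N →₀ ℕ, (∀ i, μ i ≤ caps i) →
      cfL (enc μ) (fst caps (E.map fun e => ((e.1 : ℕ), (e.2 : ℕ)))) = coeff μ (ep E) := by
  classical
  induction E with
  | nil =>
    intro μ hμ
    simp only [fst, List.map_nil, List.foldr_nil, cfL, add_zero, ep, List.prod_nil, coeff_one]
    by_cases h : μ = 0
    · subst h
      rw [if_pos, if_pos rfl]
      simp [enc]
    · rw [if_neg, if_neg (Ne.symm h)]
      intro h0
      apply h
      ext i
      have h1 := enc_div μ (fun i => (hμ i).trans (hcaps i)) i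
      rw [← h0] at h1
      simp at h1
      simp [← h1]
  | cons e E ih =>
    intro μ hμ
    have h7 : ∀ i, μ i ≤ 7 := fun i => (hμ i).trans (hcaps i)
    have key : ∀ (i : Fin N) (s : ℤ), cfL (enc μ) (sh (caps i) i s
        (fst caps (E.map fun e => ((e.1 : ℕ), (e.2 : ℕ))))) = s * coeff μ (X i * ep E) := by
      intro i s
      rw [coeff_X_mul_cases]
      by_cases h : μ i = 0
      · rw [if_pos h, mul_zero]
        exact cfL_sh_zero (hcaps i) s _ (by rw [enc_div μ h7 i, h])
      · rw [if_neg h]
        set μ' := μ - Finsupp.single i 1 with hμ'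
        have e1 : μ = μ' + Finsupp.single i 1 := by
          rw [hμ', tsub_add_cancel_of_le]
          rw [Finsupp.single_le_iff]
          omega
        have h2 : ∀ j, μ' j ≤ caps j := fun j => by
          have : μ' j ≤ μ j := by rw [hμ', Finsupp.tsub_apply]; omega
          exact this.trans (hμ j)
        have h3 : μ' i + 1 = μ i := by
          conv_rhs => rw [e1]
          simp
        conv_lhs => rw [e1, enc_add_single]
        rw [cfL_sh_pos s _ (by
          rw [enc_div μ' (fun j => (h2 j).trans (hcaps j)) i]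
          have := hμ i
          omega), ih μ' h2]
    have e2 : ep (e :: E) = X e.1 * ep E - X e.2 * ep E := by
      simp [ep]; ring
    rw [e2, coeff_sub]
    simp only [fst, List.map_cons, List.foldr_cons, stp]
    rw [cfL_mrg]
    have k1 := key e.1 1
    have k2 := key e.2 (-1)
    simp only [fst] at k1 k2
    rw [k1, k2]
    ring

end Helper19.Gadget
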