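import Pool.Agent.helper19.L9.SpanEval

/-!
# Single forms in the span of the forms of a block
-/

set_option linter.unusedSimpArgs false

namespace Helper19.Gadget

open MvPolynomial Finset Helper42.L9

variable {V : Type*} {n k : ℕ}

/-- a form in the rational span of the forms of the block (caps `c`) -/
def FormIn (own : Fin k → Fin n) (E : List (Fin n × Fin n)) (c : Fin n → ℕ)
    (Φ : Finset (Fin k) → ℤ) : Prop :=
  ∃ (mons : Finset (Fin n →₀ ℕ)) (q : (Fin n →₀ ℕ) → ℤ) (D : ℤ), D ≠ 0 ∧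
    (∀ μ ∈ mons, ∀ i, μ i ≤ c i) ∧ ∀ T, D * Φ T = ∑ μ ∈ mons, q μ * Fc own E μ T

theorem FormIn.of_fc (own : Fin k → Fin n) (E : List (Fin n × Fin n)) (c : Fin n → ℕ)
    (μ : Fin n →₀ ℕ) (hμ : ∀ i, μ i ≤ c i) : FormIn own E c (Fc own E μ) :=
  ⟨{μ}, fun _ => 1, 1, one_ne_zero, by simpa using hμ, fun T => by simp⟩

theorem FormIn.smul {own : Fin k → Fin n} {E : List (Fin n × Fin n)} {c : Fin n → ℕ}
    {Φ : Finset (Fin k) → ℤ} (h : FormIn own E c Φ) (a : ℤ) :
    FormIn own E c (fun T => a * Φ T) := by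
  obtain ⟨mons, q, D, hD, hc, hid⟩ := h
  refine ⟨mons, fun μ => a * q μ, D, hD, hc, fun T => ?_⟩
  have := hid T
  calc D * (a * Φ T) = a * (D * Φ T) := by ring
    _ = ∑ μ ∈ mons, a * q μ * Fc own E μ T := by
      rw [this, Finset.mul_sum]
      exact Finset.sum_congr rfl fun μ _ => by ring

theorem FormIn.add {own : Fin k → Fin n} {E : List (Fin n × Fin n)} {c : Fin n → ℕ}
    {Φ Ψ : Finset (Fin k) → ℤ} (h : FormIn own E c Φ) (h' : FormIn own E c Ψ) :
    FormIn own E c (fun T => Φ T + Ψ T) := by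
  classical
  obtain ⟨mons, q, D, hD, hc, hid⟩ := h
  obtain ⟨mons', q', D', hD', hc', hid'⟩ := h'
  refine ⟨mons ∪ mons', fun μ => D' * (if μ ∈ mons then q μ else 0) +
    D * (if μ ∈ mons' then q' μ else 0), D * D', mul_ne_zero hD hD', ?_, fun T => ?_⟩
  · intro μ hμ
    rcases Finset.mem_union.mp hμ with h | h
    · exact hc μ h
    · exact hc' μ h
  · have e1 : ∑ μ ∈ mons ∪ mons', (if μ ∈ mons then q μ else 0) * Fc own E μ T =
        ∑ μ ∈ mons, q μ * Fc own E μ T := by
      rw [← Finset.sum_subset Finset.subset_union_left (f := fun μ =>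
        (if μ ∈ mons then q μ else 0) * Fc own E μ T)]
      · exact Finset.sum_congr rfl fun μ hμ => by rw [if_pos hμ]
      · intro μ _ hμ; rw [if_neg hμ, zero_mul]
    have e2 : ∑ μ ∈ mons ∪ mons', (if μ ∈ mons' then q' μ else 0) * Fc own E μ T =
        ∑ μ ∈ mons', q' μ * Fc own E μ T := by
      rw [← Finset.sum_subset Finset.subset_union_right (f := fun μ =>
        (if μ ∈ mons' then q' μ else 0) * Fc own E μ T)]
      · exact Finset.sum_congr rfl fun μ hμ => by rw [if_pos hμ]
      · intro μ _ hμ; rw [if_neg hμ, zero_mul]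
    calc D * D' * (Φ T + Ψ T) = D' * (D * Φ T) + D * (D' * Ψ T) := by ring
      _ = D' * ∑ μ ∈ mons ∪ mons', (if μ ∈ mons then q μ else 0) * Fc own E μ T +
          D * ∑ μ ∈ mons ∪ mons', (if μ ∈ mons' then q' μ else 0) * Fc own E μ T := by
        rw [hid T, hid' T, e1, e2]
      _ = _ := by
        rw [Finset.mul_sum, Finset.mul_sum, ← Finset.sum_add_distrib]
        exact Finset.sum_congr rfl fun μ _ => by ring

/-- **one form suffices** -/
theorem FormIn.at {b : Fin n → V} (hb : Function.Injective b) {own : Fin k → Fin n}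
    {E : List (Fin n × Fin n)} {L : List (Lk k V)} (hL : (sls L).Nodup)
    (hLa : ∀ i, i ∈ sls L) (hoff : Off b L) {N : Multiset (Sym2 V)}
    (hN : ∀ e ∈ N, ∀ i, b i ∉ e) {c : V → ℕ} {Φ : Finset (Fin k) → ℤ}
    (h : FormIn own E (fun i => c (b i)) Φ) (hs : Sup (ev Φ L * gp N) c) :
    AT (blE b E + lkE (fun i => b (own i)) L + N) c := by
  obtain ⟨mons, q, D, hD, hc, hid⟩ := h
  unfold AT
  rw [sup_sign (gp_total b own E L N)]
  exact sup_of_form hb own E hL hLa hoff (fun i => fr_gp fun e he => hN e he i) c Φ mons id q D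
    hD (fun μ hμ i => hc μ hμ i) hid hs

/-! ### the checker -/

/-- the form given by a list of (code of `T`, value) -/
noncomputable def fL (P : PL) (T : Finset (Fin k)) : ℤ := cfL (tc T) P

/-- check one form -/
def chkF (cl : List ℕ) (n : ℕ) (P : PL) (c : ℤ × List (ℕ × ℤ)) (G : PL) : Bool :=
  decide (c.1 ≠ 0) &&
  c.2.all (fun q => decide (q.1 < 8 ^ n) && okc cl n q.1) &&
  (mrg (2 * G.length + 2 * P.length) (scl c.1 P)
    (scl (-1) (comb (8 ^ n) G c.2))).all (fun p => decide (p.2 = 0))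

theorem formIn_of_chkF (own : Fin k → Fin n) (E : List (Fin n × Fin n)) (cl : List ℕ)
    (hl : cl.length = n) (h7 : cl.all (· ≤ 7) = true) (P : PL) (c : ℤ × List (ℕ × ℤ))
    (h : chkF cl n P c (fst (cp cl) ((GE own E).map fun e => ((e.1 : ℕ), (e.2 : ℕ)))) = true) :
    FormIn own E (fun i => cp cl i) (fL P) := by
  classical
  set G := fst (cp cl) ((GE own E).map fun e => ((e.1 : ℕ), (e.2 : ℕ))) with hG
  have c7 : ∀ i, cp cl i ≤ 7 := by
    intro i
    unfold cp
    rw [List.getD_eq_getElem?_getD]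
    rcases hi : cl[i]? with _ | x
    · simp
    · rw [List.all_eq_true] at h7
      have := h7 x (List.mem_of_getElem? hi)
      simpa using this
  have c1 : ∀ (i : ℕ), cl.length ≤ i → cp cl i = 1 := by
    intro i hi
    unfold cp
    rw [List.getD_eq_getElem?_getD, List.getElem?_eq_none hi]; rfl
  have form : ∀ (μ : Fin n →₀ ℕ), (∀ i : Fin n, μ i ≤ cp cl i) →
      ∀ T : Finset (Fin k), cfL (enc μ + 8 ^ n * tc T) G = Fc own E μ T := by
    intro μ hμ T
    rw [← enc_joint, hG, cfL_fst (cp cl) c7, coeff_GE]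
    intro i
    refine Fin.addCases (fun j => ?_) (fun j => ?_) i
    · rw [Finsupp.add_apply, ind_castAdd, Finsupp.mapDomain_apply (Fin.castAdd_injective n k)]
      simpa using hμ j
    · rw [Finsupp.add_apply, Finsupp.mapDomain_of_notMem_range, ind_natAdd,
        c1 _ (by simp [hl])]
      · split_ifs <;> simp
      · rintro ⟨l, hl⟩
        have := congrArg Fin.val hl
        simp at this
        omega
  rw [chkF, Bool.and_eq_true, Bool.and_eq_true, decide_eq_true_eq, List.all_eq_true,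
    List.all_eq_true] at h
  obtain ⟨⟨hD, hq⟩, hz⟩ := h
  have hq1 : ∀ q ∈ c.2, q.1 < 8 ^ n := fun q hh => by
    have := hq q hh
    rw [Bool.and_eq_true, decide_eq_true_eq] at this
    exact this.1
  have hq2 : ∀ q ∈ c.2, ∀ i : Fin n, dec n q.1 i ≤ cp cl i := fun q hh i => by
    have := hq q hh
    rw [Bool.and_eq_true, decide_eq_true_eq] at this
    rw [dec, Finsupp.equivFunOnFinite_symm_apply_apply]
    exact okc_spec this.2 i i.2
  have key : ∀ T : Finset (Fin k), c.1 * fL P T =
      (c.2.map fun q => q.2 * Fc own E (dec n q.1) T).sum := by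
    intro T
    have h2 := cfL_all_zero _ (fun p hp => by simpa using hz p hp) (tc T)
    rw [cfL_mrg, cfL_scl, cfL_scl, cfL_comb G _ _ hq1] at h2
    have h3 : (c.2.map fun q => q.2 * cfL (q.1 + 8 ^ n * tc T) G).sum =
        (c.2.map fun q => q.2 * Fc own E (dec n q.1) T).sum := by
      congr 1
      refine List.map_congr_left fun q hh => ?_
      have h4 := form (dec n q.1) (hq2 q hh) T
      rw [enc_dec n q.1 (hq1 q hh)] at h4
      rw [h4]
    rw [h3] at h2
    unfold fL
    linarith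
  refine ⟨(c.2.map fun q => dec n q.1).toFinset,
    fun μ => (c.2.map fun q => if dec n q.1 = μ then q.2 else 0).sum, c.1, hD, ?_, ?_⟩
  · intro μ hμ i
    rw [List.mem_toFinset, List.mem_map] at hμ
    obtain ⟨q, hq', rfl⟩ := hμ
    exact hq2 q hq' i
  · intro T
    rw [key T]
    have gen : ∀ (l : List (ℕ × ℤ)) (S : Finset (Fin n →₀ ℕ)),
        (∀ q ∈ l, dec n q.1 ∈ S) →
        (l.map fun q => q.2 * Fc own E (dec n q.1) T).sum =
        ∑ μ ∈ S, (l.map fun q => if dec n q.1 = μ then q.2 else 0).sum * Fc own E μ T := by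
      intro l S
      induction l with
      | nil => intro _; simp
      | cons q l ih =>
        intro hS
        rw [List.map_cons, List.sum_cons, ih fun q hq => hS q (List.mem_cons_of_mem _ hq)]
        simp only [List.map_cons, List.sum_cons, add_mul, Finset.sum_add_distrib]
        congr 1
        rw [Finset.sum_eq_single (dec n q.1)]
        · rw [if_pos rfl]
        · intro μ _ hμ
          rw [if_neg (Ne.symm hμ), zero_mul]
        · intro h; exact absurd (hS q List.mem_cons_self) h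
    refine gen _ _ fun q hq => ?_
    rw [List.mem_toFinset, List.mem_map]
    exact ⟨q, hq, rfl⟩

/-- forced check of several forms -/
def chkFC (n : ℕ) (cl : List ℕ) (g : List (ℕ × ℕ)) (l : List (PL × ℤ × List (ℕ × ℤ))) : Bool :=
  fstC (cp cl) g fun G => l.all fun x => chkF cl n x.1 x.2 G

theorem formIn_of_chkFC (own : Fin k → Fin n) (E : List (Fin n × Fin n)) (cl : List ℕ)
    (hl : cl.length = n) (h7 : cl.all (· ≤ 7) = true) (g : List (ℕ × ℕ))
    (hg : (GE own E).map (fun e => ((e.1 : ℕ), (e.2 : ℕ))) = g)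
    (l : List (PL × ℤ × List (ℕ × ℤ))) (h : chkFC n cl g l = true) :
    ∀ x ∈ l, FormIn own E (fun i => cp cl i) (fL x.1) := by
  rw [chkFC, fstC_eq, List.all_eq_true] at h
  intro x hx
  exact formIn_of_chkF own E cl hl h7 x.1 x.2 (by rw [hg]; exact h x hx)

end Helper19.Gadget
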