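import Pool.Agent.helper42.L9.Gp

/-!
# Gadget replacement for Alon-Tarsi arguments

A block with vertices `b 0, ..., b (n-1)`, inner edges `E` and slots `Fin k` (slot `i` sits at the
block vertex `own i`).  The links at the slots are given by a list of items (`Lk`).
`kap L T` is the contribution of the outside when the slots of `T` pay outside.
-/

set_option linter.unusedSimpArgs false

namespace Helper19.Gadget

open MvPolynomial Finset Helper42.L9

variable {V : Type*} {n k : ℕ}

/-- link items: no link, link to an outside vertex, link between two slots -/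
inductive Lk (k : ℕ) (V : Type*) where
  | dead (i : Fin k) : Lk k V
  | ext (i : Fin k) (o : V) : Lk k V
  | int (i j : Fin k) : Lk k V

/-- slots of an item -/
def Lk.sl : Lk k V → List (Fin k)
  | .dead i => [i]
  | .ext i _ => [i]
  | .int i j => [i, j]

/-- all slots of a list -/
def sls (L : List (Lk k V)) : List (Fin k) := L.flatMap Lk.sl

/-- polynomial of an item, `x i` is the variable at slot `i` -/
noncomputable def Lk.pl (x : Fin k → MvPolynomial V ℤ) : Lk k V → MvPolynomial V ℤ
  | .dead _ => 1
  | .ext i o => x i - X o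
  | .int i j => x i - x j

/-- polynomial of a list of items -/
noncomputable def lp (x : Fin k → MvPolynomial V ℤ) (L : List (Lk k V)) : MvPolynomial V ℤ :=
  (L.map (Lk.pl x)).prod

open Classical in
/-- outside part of an item -/
noncomputable def Lk.kp (T : Finset (Fin k)) : Lk k V → MvPolynomial V ℤ
  | .dead i => if i ∈ T then -1 else 0
  | .ext i o => if i ∈ T then X o else 1
  | .int i j => if i ∈ T then (if j ∈ T then 0 else 1) else (if j ∈ T then -1 else 0)

/-- outside part of a list -/
noncomputable def kap (L : List (Lk k V)) (T : Finset (Fin k)) : MvPolynomial V ℤ :=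
  (L.map (Lk.kp T)).prod

theorem kp_congr {T T' : Finset (Fin k)} (l : Lk k V) (h : ∀ i ∈ l.sl, (i ∈ T ↔ i ∈ T')) :
    l.kp T = l.kp T' := by
  classical
  cases l with
  | dead i => simp only [Lk.kp, Lk.sl, List.mem_singleton, forall_eq] at *; simp only [h]
  | ext i o => simp only [Lk.kp, Lk.sl, List.mem_singleton, forall_eq] at *; simp only [h]
  | int i j =>
    have h1 := h i (by simp [Lk.sl])
    have h2 := h j (by simp [Lk.sl])
    simp only [Lk.kp, h1, h2]

theorem kap_congr {T T' : Finset (Fin k)} (L : List (Lk k V))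
    (h : ∀ i ∈ sls L, (i ∈ T ↔ i ∈ T')) : kap L T = kap L T' := by
  induction L with
  | nil => rfl
  | cons l L ih =>
    simp only [kap, List.map_cons, List.prod_cons] at ih ⊢
    rw [kp_congr l fun i hi => h i (by simp only [sls, List.flatMap_cons, List.mem_append]; exact Or.inl hi),
      ih fun i hi => h i (by simp only [sls, List.flatMap_cons, List.mem_append]; exact Or.inr hi)]

theorem sum_ps_insert {α M : Type*} [DecidableEq α] [AddCommMonoid M] {a : α} {s : Finset α}
    (h : a ∉ s) (f : Finset α → M) :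
    ∑ t ∈ (insert a s).powerset, f t =
      ∑ t ∈ s.powerset, f t + ∑ t ∈ s.powerset, f (insert a t) := by
  rw [Finset.powerset_insert, Finset.sum_union, Finset.sum_image]
  · intro t ht u hu htu
    have h1 : a ∉ t := fun hh => h (Finset.mem_powerset.mp ht hh)
    have h2 : a ∉ u := fun hh => h (Finset.mem_powerset.mp hu hh)
    rw [← Finset.erase_insert h1, ← Finset.erase_insert h2]
    exact congrArg (fun z => z.erase a) htu
  · rw [Finset.disjoint_left]
    intro t ht ht'
    obtain ⟨u, _, rfl⟩ := Finset.mem_image.mp ht'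
    exact h (Finset.mem_powerset.mp ht (Finset.mem_insert_self _ _))

/-- the expansion -/
theorem lp_eq (x : Fin k → MvPolynomial V ℤ) (L : List (Lk k V)) (hL : (sls L).Nodup) :
    lp x L = ∑ T ∈ (sls L).toFinset.powerset,
      (-1) ^ T.card * (∏ i ∈ (sls L).toFinset \ T, x i) * kap L T := by
  classical
  induction L with
  | nil => simp [lp, sls, kap]
  | cons l L ih =>
    have hs : sls (l :: L) = l.sl ++ sls L := by simp [sls]
    rw [hs] at hL
    rw [List.nodup_append] at hL
    obtain ⟨h1, h2, h3⟩ := hL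
    have ih' := ih h2
    have e0 : lp x (l :: L) = l.pl x * lp x L := by simp [lp]
    have ek : ∀ T, kap (l :: L) T = l.kp T * kap L T := fun T => by simp [kap]
    rw [e0, ih', hs, List.toFinset_append]
    set S := (sls L).toFinset with hS
    cases l with
    | dead i =>
      have hi : i ∉ S := by
        intro h
        exact h3 i (by simp [Lk.sl]) i (List.mem_toFinset.mp h) rfl
      have e1 : (Lk.dead i : Lk k V).sl.toFinset ∪ S = insert i S := by
        ext a; simp [Lk.sl]
      rw [e1, sum_ps_insert hi, Finset.mul_sum]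
      rw [← Finset.sum_add_distrib]
      refine Finset.sum_congr rfl fun T hT => ?_
      rw [Finset.mem_powerset] at hT
      have hiT : i ∉ T := fun h => hi (hT h)
      rw [ek, ek]
      have k1 : (Lk.dead i : Lk k V).kp T = 0 := by simp [Lk.kp, hiT]
      have k2 : (Lk.dead i : Lk k V).kp (insert i T) = -1 := by simp [Lk.kp]
      rw [k1, k2, Finset.card_insert_of_notMem hiT, Finset.insert_sdiff_insert,
        Finset.sdiff_insert_of_notMem hi, kap_congr (T := insert i T) (T' := T) L ?_]
      · simp only [Lk.pl]; ring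
      · intro j hj
        have : j ≠ i := by
          rintro rfl
          exact hi (List.mem_toFinset.mpr hj)
        simp [this]
    | ext i o =>
      have hi : i ∉ S := by
        intro h
        exact h3 i (by simp [Lk.sl]) i (List.mem_toFinset.mp h) rfl
      have e1 : (Lk.ext i o : Lk k V).sl.toFinset ∪ S = insert i S := by
        ext a; simp [Lk.sl]
      rw [e1, sum_ps_insert hi, Finset.mul_sum]
      rw [← Finset.sum_add_distrib]
      refine Finset.sum_congr rfl fun T hT => ?_
      rw [Finset.mem_powerset] at hT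
      have hiT : i ∉ T := fun h => hi (hT h)
      rw [ek, ek]
      have k1 : (Lk.ext i o : Lk k V).kp T = 1 := by simp [Lk.kp, hiT]
      have k2 : (Lk.ext i o : Lk k V).kp (insert i T) = X o := by simp [Lk.kp]
      have hiS : i ∉ S \ T := fun h => hi (Finset.mem_sdiff.mp h).1
      rw [k1, k2, Finset.card_insert_of_notMem hiT, Finset.insert_sdiff_insert,
        Finset.sdiff_insert_of_notMem hi, Finset.insert_sdiff_of_notMem _ hiT,
        Finset.prod_insert hiS, kap_congr (T := insert i T) (T' := T) L ?_]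
      · simp only [Lk.pl]; ring
      · intro j hj
        have : j ≠ i := by
          rintro rfl
          exact hi (List.mem_toFinset.mpr hj)
        simp [this]
    | int i j =>
      have hij : i ≠ j := by
        simp only [Lk.sl, List.nodup_cons, List.mem_singleton] at h1
        exact h1.1
      have hi : i ∉ S := by
        intro h
        exact h3 i (by simp [Lk.sl]) i (List.mem_toFinset.mp h) rfl
      have hj : j ∉ S := by
        intro h
        exact h3 j (by simp [Lk.sl]) j (List.mem_toFinset.mp h) rfl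
      have e1 : (Lk.int i j : Lk k V).sl.toFinset ∪ S = insert i (insert j S) := by
        ext a; simp [Lk.sl, or_assoc]
      have hi' : i ∉ insert j S := by simp [hij, hi]
      rw [e1, sum_ps_insert hi', sum_ps_insert hj,
        sum_ps_insert hj, Finset.mul_sum]
      rw [← Finset.sum_add_distrib, ← Finset.sum_add_distrib, ← Finset.sum_add_distrib]
      refine Finset.sum_congr rfl fun T hT => ?_
      rw [Finset.mem_powerset] at hT
      have hiT : i ∉ T := fun h => hi (hT h)
      have hjT : j ∉ T := fun h => hj (hT h)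
      have hiT' : i ∉ insert j T := by simp [hij, hiT]
      rw [ek, ek, ek, ek]
      have k1 : (Lk.int i j : Lk k V).kp T = 0 := by simp [Lk.kp, hiT, hjT]
      have k2 : (Lk.int i j : Lk k V).kp (insert j T) = -1 := by simp [Lk.kp, hiT, hij]
      have k3 : (Lk.int i j : Lk k V).kp (insert i T) = 1 := by
        simp [Lk.kp, hjT, Ne.symm hij]
      have k4 : (Lk.int i j : Lk k V).kp (insert i (insert j T)) = 0 := by simp [Lk.kp]
      have c2 : kap L (insert j T) = kap L T := kap_congr L fun a ha => by
        have : a ≠ j := by rintro rfl; exact hj (List.mem_toFinset.mpr ha)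
        simp [this]
      have c3 : kap L (insert i T) = kap L T := kap_congr L fun a ha => by
        have : a ≠ i := by rintro rfl; exact hi (List.mem_toFinset.mpr ha)
        simp [this]
      have d2 : insert i (insert j S) \ insert j T = insert i (S \ T) := by
        ext a
        simp only [Finset.mem_sdiff, Finset.mem_insert]
        constructor
        · rintro ⟨h | h | h, h'⟩
          · exact Or.inl h
          · exact absurd (Or.inl h) h'
          · exact Or.inr ⟨h, fun h2 => h' (Or.inr h2)⟩
        · rintro (h | ⟨h, h'⟩)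
          · exact ⟨Or.inl h, by rintro (h2 | h2); exact hij (h ▸ h2); exact hiT (h ▸ h2)⟩
          · exact ⟨Or.inr (Or.inr h), by rintro (h2 | h2); exact hj (h2 ▸ h); exact h' h2⟩
      have d3 : insert i (insert j S) \ insert i T = insert j (S \ T) := by
        ext a
        simp only [Finset.mem_sdiff, Finset.mem_insert]
        constructor
        · rintro ⟨h | h | h, h'⟩
          · exact absurd (Or.inl h) h'
          · exact Or.inl h
          · exact Or.inr ⟨h, fun h2 => h' (Or.inr h2)⟩
        · rintro (h | ⟨h, h'⟩)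
          · exact ⟨Or.inr (Or.inl h), by rintro (h2 | h2); exact hij (h2.symm.trans h); exact hjT (h ▸ h2)⟩
          · exact ⟨Or.inr (Or.inr h), by rintro (h2 | h2); exact hi (h2 ▸ h); exact h' h2⟩
      have hiS : i ∉ S \ T := fun h => hi (Finset.mem_sdiff.mp h).1
      have hjS : j ∉ S \ T := fun h => hj (Finset.mem_sdiff.mp h).1
      rw [k1, k2, k3, k4, c2, c3, d2, d3, Finset.prod_insert hiS, Finset.prod_insert hjS,
        Finset.card_insert_of_notMem hjT, Finset.card_insert_of_notMem hiT]
      simp only [Lk.pl]; ring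

/-! ### coefficients -/

theorem coeff_rename_mul {b : Fin n → V} (hb : Function.Injective b)
    (p : MvPolynomial (Fin n) ℤ) {Q : MvPolynomial V ℤ} (hQ : ∀ i, Fr (b i) Q)
    (μ : Fin n →₀ ℕ) {t : V →₀ ℕ} (ht : ∀ i, t (b i) = 0) :
    coeff (Finsupp.mapDomain b μ + t) (rename b p * Q) = coeff μ p * coeff t Q := by
  classical
  induction p using MvPolynomial.induction_on' with
  | monomial m a =>
    rw [rename_monomial, coeff_monomial_mul', coeff_monomial]
    by_cases h : m = μ
    · subst h
      rw [if_pos le_self_add, if_pos rfl, add_tsub_cancel_left]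
    · rw [if_neg h, zero_mul]
      split_ifs with hle
      · by_contra hne
        apply h
        have hc := right_ne_zero_of_mul hne
        ext i
        have h1 := hQ i _ hc
        have h2 := hle (b i)
        simp only [Finsupp.coe_add, Pi.add_apply, Finsupp.coe_tsub, Pi.sub_apply,
          Finsupp.mapDomain_apply hb, ht i, add_zero] at h1 h2
        omega
      · rfl
  | add p q hp hq => rw [map_add, add_mul, coeff_add, hp, hq, coeff_add, add_mul]

theorem Fr.sum {ι : Type*} {v : V} (s : Finset ι) (f : ι → MvPolynomial V ℤ)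
    (h : ∀ i ∈ s, Fr v (f i)) : Fr v (∑ i ∈ s, f i) := by
  classical
  induction s using Finset.induction_on with
  | empty => simpa using fr_zero v
  | insert a s ha ih =>
    rw [Finset.sum_insert ha]
    exact (h a (Finset.mem_insert_self _ _)).add
      (ih fun i hi => h i (Finset.mem_insert_of_mem hi))

/-- the outside vertex of every item avoids the block -/
def Off (b : Fin n → V) (L : List (Lk k V)) : Prop :=
  ∀ i o, Lk.ext i o ∈ L → ∀ s, b s ≠ o

theorem fr_kap {b : Fin n → V} {L : List (Lk k V)} (h : Off b L) (T : Finset (Fin k))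
    (s : Fin n) : Fr (b s) (kap L T) := by
  classical
  induction L with
  | nil => simpa [kap] using fr_one (b s)
  | cons l L ih =>
    have e : kap (l :: L) T = l.kp T * kap L T := by simp [kap]
    rw [e]
    refine Fr.mul ?_ (ih fun i o hio => h i o (List.mem_cons_of_mem _ hio))
    have fm1 : Fr (b s) (-1 : MvPolynomial V ℤ) := (fr_one (b s)).neg
    cases l with
    | dead i =>
      simp only [Lk.kp]; split_ifs
      · exact fm1
      · exact fr_zero _
    | ext i o =>
      simp only [Lk.kp]; split_ifs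
      · exact fr_X (Ne.symm (h i o List.mem_cons_self s))
      · exact fr_one _
    | int i j =>
      simp only [Lk.kp]; split_ifs
      · exact fr_zero _
      · exact fr_one _
      · exact fm1
      · exact fr_zero _

/-- inner edges of a block -/
noncomputable def ep (E : List (Fin n × Fin n)) : MvPolynomial (Fin n) ℤ :=
  (E.map fun e => X e.1 - X e.2).prod

/-- the forms of a block: coefficient of `μ`, the slots of `T` are paid outside -/
noncomputable def Fc (own : Fin k → Fin n) (E : List (Fin n × Fin n)) (μ : Fin n →₀ ℕ)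
    (T : Finset (Fin k)) : ℤ :=
  (-1) ^ T.card * coeff μ ((∏ i ∈ Finset.univ \ T, X (own i)) * ep E)

/-- a form evaluated at a list of links -/
noncomputable def ev (Φ : Finset (Fin k) → ℤ) (L : List (Lk k V)) : MvPolynomial V ℤ :=
  ∑ T : Finset (Fin k), C (Φ T) * kap L T

theorem fr_ev {b : Fin n → V} {L : List (Lk k V)} (h : Off b L) (Φ : Finset (Fin k) → ℤ)
    (s : Fin n) : Fr (b s) (ev Φ L) :=
  Fr.sum _ _ fun T _ => (fr_C _ _).mul (fr_kap h T s)

theorem coeff_block {b : Fin n → V} (hb : Function.Injective b) (own : Fin k → Fin n)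
    (E : List (Fin n × Fin n)) {L : List (Lk k V)} (hL : (sls L).Nodup)
    (hLa : ∀ i, i ∈ sls L) (hoff : Off b L) {Q : MvPolynomial V ℤ} (hQ : ∀ i, Fr (b i) Q)
    (μ : Fin n →₀ ℕ) {t : V →₀ ℕ} (ht : ∀ i, t (b i) = 0) :
    coeff (Finsupp.mapDomain b μ + t)
      (rename b (ep E) * (lp (fun i => X (b (own i))) L * Q)) =
    coeff t (ev (Fc own E μ) L * Q) := by
  classical
  have hu : (sls L).toFinset = Finset.univ := by
    ext i; simp [hLa i]
  have e1 : rename b (ep E) * (lp (fun i => X (b (own i))) L * Q) =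
      ∑ T : Finset (Fin k), rename b ((-1) ^ T.card *
        ((∏ i ∈ Finset.univ \ T, X (own i)) * ep E)) * (kap L T * Q) := by
    rw [lp_eq _ L hL, hu, Finset.powerset_univ, Finset.sum_mul, Finset.mul_sum]
    refine Finset.sum_congr rfl fun T _ => ?_
    rw [map_mul, map_mul, map_pow, map_neg, map_one, map_prod]
    simp only [rename_X]
    ring
  rw [e1, coeff_sum, ev, Finset.sum_mul, coeff_sum]
  refine Finset.sum_congr rfl fun T _ => ?_
  rw [coeff_rename_mul hb _ (fun i => (fr_kap hoff T i).mul (hQ i)) μ ht, mul_assoc (C _),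
    coeff_C_mul, Fc]
  congr 1
  have : ((-1) ^ T.card : MvPolynomial (Fin n) ℤ) = C ((-1) ^ T.card) := by simp
  rw [this, coeff_C_mul]

/-- every form in the span of the forms of the block gives Alon-Tarsi monomials -/
theorem sup_of_form {b : Fin n → V} (hb : Function.Injective b) (own : Fin k → Fin n)
    (E : List (Fin n × Fin n)) {L : List (Lk k V)} (hL : (sls L).Nodup)
    (hLa : ∀ i, i ∈ sls L) (hoff : Off b L) {Q : MvPolynomial V ℤ} (hQ : ∀ i, Fr (b i) Q)
    (c : V → ℕ) (Φ : Finset (Fin k) → ℤ) {ι : Type*} (mons : Finset ι) (mu : ι → (Fin n →₀ ℕ))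
    (q : ι → ℤ) (D : ℤ) (hD : D ≠ 0) (hc : ∀ μ ∈ mons, ∀ i, mu μ i ≤ c (b i))
    (hid : ∀ T, D * Φ T = ∑ μ ∈ mons, q μ * Fc own E (mu μ) T)
    (hs : Sup (ev Φ L * Q) c) :
    Sup (rename b (ep E) * (lp (fun i => X (b (own i))) L * Q)) c := by
  classical
  obtain ⟨t, ht, hne⟩ := hs
  have ht0 : ∀ i, t (b i) = 0 := fun i => ((fr_ev hoff Φ i).mul (hQ i)) t hne
  have e1 : D * coeff t (ev Φ L * Q) =
      ∑ μ ∈ mons, q μ * coeff t (ev (Fc own E (mu μ)) L * Q) := by
    have h1 : ∀ Ψ : Finset (Fin k) → ℤ, coeff t (ev Ψ L * Q) =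
        ∑ T : Finset (Fin k), Ψ T * coeff t (kap L T * Q) := by
      intro Ψ
      rw [ev, Finset.sum_mul, coeff_sum]
      refine Finset.sum_congr rfl fun T _ => ?_
      rw [mul_assoc, coeff_C_mul]
    rw [h1, Finset.mul_sum]
    simp only [h1, Finset.mul_sum]
    rw [Finset.sum_comm]
    refine Finset.sum_congr rfl fun T _ => ?_
    rw [← mul_assoc, hid T, Finset.sum_mul]
    refine Finset.sum_congr rfl fun μ _ => ?_
    ring
  have h2 : ∑ μ ∈ mons, q μ * coeff t (ev (Fc own E (mu μ)) L * Q) ≠ 0 := by
    rw [← e1]; exact mul_ne_zero hD hne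
  obtain ⟨μ, hμ, h3⟩ := Finset.exists_ne_zero_of_sum_ne_zero h2
  refine ⟨Finsupp.mapDomain b (mu μ) + t, fun v => ?_, ?_⟩
  · rw [Finsupp.add_apply]
    by_cases hv : ∃ i, b i = v
    · obtain ⟨i, rfl⟩ := hv
      rw [Finsupp.mapDomain_apply hb, ht0 i, add_zero]
      exact hc μ hμ i
    · rw [Finsupp.mapDomain_of_notMem_range, zero_add]
      · exact ht v
      · rintro ⟨i, hi⟩; exact hv ⟨i, hi⟩
  · rw [coeff_block hb own E hL hLa hoff hQ (mu μ) ht0]
    exact right_ne_zero_of_mul h3

/-- the converse: an Alon-Tarsi monomial comes from a form -/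
theorem form_of_sup {b : Fin n → V} (hb : Function.Injective b) (own : Fin k → Fin n)
    (E : List (Fin n × Fin n)) {L : List (Lk k V)} (hL : (sls L).Nodup)
    (hLa : ∀ i, i ∈ sls L) (hoff : Off b L) {Q : MvPolynomial V ℤ} (hQ : ∀ i, Fr (b i) Q)
    (c : V → ℕ)
    (hs : Sup (rename b (ep E) * (lp (fun i => X (b (own i))) L * Q)) c) :
    ∃ μ : Fin n →₀ ℕ, (∀ i, μ i ≤ c (b i)) ∧ Sup (ev (Fc own E μ) L * Q) c := by
  classical
  obtain ⟨t, ht, hne⟩ := hs
  set μ : Fin n →₀ ℕ := t.comapDomain b hb.injOn with hμ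
  set t' : V →₀ ℕ := t - Finsupp.mapDomain b μ with ht'
  have h1 : ∀ i, μ i = t (b i) := fun i => by rw [hμ, Finsupp.comapDomain_apply]
  have h2 : ∀ i, t' (b i) = 0 := by
    intro i
    rw [ht', Finsupp.tsub_apply, Finsupp.mapDomain_apply hb, h1, Nat.sub_self]
  have h3 : Finsupp.mapDomain b μ + t' = t := by
    ext v
    rw [Finsupp.add_apply, ht', Finsupp.tsub_apply]
    by_cases hv : ∃ i, b i = v
    · obtain ⟨i, rfl⟩ := hv
      rw [Finsupp.mapDomain_apply hb, h1]; omega
    · rw [Finsupp.mapDomain_of_notMem_range]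
      · omega
      · rintro ⟨i, hi⟩; exact hv ⟨i, hi⟩
  refine ⟨μ, fun i => by rw [h1]; exact ht _, t', fun v => ?_, ?_⟩
  · rw [ht', Finsupp.tsub_apply]; exact (Nat.sub_le _ _).trans (ht v)
  · rw [← coeff_block hb own E hL hLa hoff hQ μ h2, h3]
    exact hne

/-- span condition: every form of the block `(own', E')` with caps `c'` is (up to a factor)
an integral combination of forms of the block `(own, E)` with caps `c` -/
def Spans {n' : ℕ} (own : Fin k → Fin n) (E : List (Fin n × Fin n)) (c : Fin n → ℕ)
    (own' : Fin k → Fin n') (E' : List (Fin n' × Fin n')) (c' : Fin n' → ℕ) : Prop :=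
  ∀ ν : Fin n' →₀ ℕ, (∀ i, ν i ≤ c' i) → ∃ (mons : Finset (Fin n →₀ ℕ)) (q : (Fin n →₀ ℕ) → ℤ)
    (D : ℤ), D ≠ 0 ∧ (∀ μ ∈ mons, ∀ i, μ i ≤ c i) ∧
      ∀ T, D * Fc own' E' ν T = ∑ μ ∈ mons, q μ * Fc own E μ T

/-- **Gadget replacement**, polynomial form. -/
theorem sup_gadget {n' : ℕ} {b : Fin n → V} (hb : Function.Injective b) {b' : Fin n' → V}
    (hb' : Function.Injective b') (own : Fin k → Fin n) (E : List (Fin n × Fin n))
    (own' : Fin k → Fin n') (E' : List (Fin n' × Fin n'))
    {L : List (Lk k V)} (hL : (sls L).Nodup) (hLa : ∀ i, i ∈ sls L) (hoff : Off b L)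
    (hoff' : Off b' L) {Q : MvPolynomial V ℤ} (hQ : ∀ i, Fr (b i) Q) (hQ' : ∀ i, Fr (b' i) Q)
    (c c' : V → ℕ) (hcc : ∀ v, (∀ i, b i ≠ v) → c' v ≤ c v)
    (hsp : Spans own E (fun i => c (b i)) own' E' (fun i => c' (b' i)))
    (hs : Sup (rename b' (ep E') * (lp (fun i => X (b' (own' i))) L * Q)) c') :
    Sup (rename b (ep E) * (lp (fun i => X (b (own i))) L * Q)) c := by
  obtain ⟨ν, hν, hs'⟩ := form_of_sup hb' own' E' hL hLa hoff' hQ' c' hs
  obtain ⟨mons, q, D, hD, hc, hid⟩ := hsp ν hν
  refine sup_of_form hb own E hL hLa hoff hQ c (Fc own' E' ν) mons id q D hD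
    (fun μ hμ i => hc μ hμ i) hid ?_
  obtain ⟨t, ht, hne⟩ := hs'
  have ht0 : ∀ i, t (b i) = 0 := fun i => ((fr_ev hoff _ i).mul (hQ i)) t hne
  refine ⟨t, fun v => ?_, hne⟩
  by_cases hv : ∃ i, b i = v
  · obtain ⟨i, rfl⟩ := hv
    rw [ht0 i]; exact Nat.zero_le _
  · exact (ht v).trans (hcc v fun i hi => hv ⟨i, hi⟩)

/-! ### multigraphs -/

/-- edges of the links -/
def lkE (x : Fin k → V) : List (Lk k V) → Multiset (Sym2 V)
  | [] => 0
  | .dead _ :: L => lkE x L
  | .ext i o :: L => s(x i, o) ::ₘ lkE x L
  | .int i j :: L => s(x i, x j) ::ₘ lkE x L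

/-- inner edges -/
def blE (b : Fin n → V) (E : List (Fin n × Fin n)) : Multiset (Sym2 V) :=
  ((E.map fun e => s(b e.1, b e.2)) : Multiset (Sym2 V))

theorem gp_lkE (x : Fin k → V) (L : List (Lk k V)) :
    gp (lkE x L) = lp (fun i => X (x i)) L ∨ gp (lkE x L) = - lp (fun i => X (x i)) L := by
  induction L with
  | nil => left; simp [lkE, lp]
  | cons l L ih =>
    have e0 : lp (fun i => X (x i)) (l :: L) = l.pl (fun i => X (x i)) * lp (fun i => X (x i)) L := by
      simp [lp]
    cases l with
    | dead i => rw [e0]; simpa [lkE, Lk.pl] using ih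
    | ext i o =>
      rw [e0]
      simp only [lkE, Lk.pl]
      rcases gp_cons_mk (x i) o (lkE x L) with h | h <;> rcases ih with h2 | h2 <;> rw [h, h2]
      · left; rfl
      · right; ring
      · right; rfl
      · left; ring
    | int i j =>
      rw [e0]
      simp only [lkE, Lk.pl]
      rcases gp_cons_mk (x i) (x j) (lkE x L) with h | h <;> rcases ih with h2 | h2 <;> rw [h, h2]
      · left; rfl
      · right; ring
      · right; rfl
      · left; ring

theorem gp_blE (b : Fin n → V) (E : List (Fin n × Fin n)) :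
    gp (blE b E) = rename b (ep E) ∨ gp (blE b E) = - rename b (ep E) := by
  induction E with
  | nil => left; simp [blE, ep]
  | cons e E ih =>
    have e0 : rename b (ep (e :: E)) = (X (b e.1) - X (b e.2)) * rename b (ep E) := by
      simp [ep]
    have e1 : blE b (e :: E) = s(b e.1, b e.2) ::ₘ blE b E := by simp [blE]
    rw [e0, e1]
    rcases gp_cons_mk (b e.1) (b e.2) (blE b E) with h | h <;> rcases ih with h2 | h2 <;>
      rw [h, h2]
    · left; rfl
    · right; ring
    · right; rfl
    · left; ring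

theorem sup_sign {P Q : MvPolynomial V ℤ} {c : V → ℕ} (h : P = Q ∨ P = -Q) :
    Sup P c ↔ Sup Q c := by
  rcases h with rfl | rfl
  · exact Iff.rfl
  · exact sup_neg_iff

theorem gp_total (b : Fin n → V) (own : Fin k → Fin n) (E : List (Fin n × Fin n))
    (L : List (Lk k V)) (N : Multiset (Sym2 V)) :
    gp (blE b E + lkE (fun i => b (own i)) L + N) =
        rename b (ep E) * (lp (fun i => X (b (own i))) L * gp N) ∨
    gp (blE b E + lkE (fun i => b (own i)) L + N) =
        -(rename b (ep E) * (lp (fun i => X (b (own i))) L * gp N)) := by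
  rw [gp_add, gp_add]
  rcases gp_blE b E with h | h <;> rcases gp_lkE (fun i => b (own i)) L with h2 | h2 <;>
    rw [h, h2]
  · left; ring
  · right; ring
  · right; ring
  · left; ring

/-- **Gadget replacement**, multigraph form. -/
theorem at_gadget {n' : ℕ} {b : Fin n → V} (hb : Function.Injective b) {b' : Fin n' → V}
    (hb' : Function.Injective b') (own : Fin k → Fin n) (E : List (Fin n × Fin n))
    (own' : Fin k → Fin n') (E' : List (Fin n' × Fin n'))
    {L : List (Lk k V)} (hL : (sls L).Nodup) (hLa : ∀ i, i ∈ sls L) (hoff : Off b L)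
    (hoff' : Off b' L) {N : Multiset (Sym2 V)} (hN : ∀ e ∈ N, ∀ i, b i ∉ e)
    (hN' : ∀ e ∈ N, ∀ i, b' i ∉ e) (c c' : V → ℕ) (hcc : ∀ v, (∀ i, b i ≠ v) → c' v ≤ c v)
    (hsp : Spans own E (fun i => c (b i)) own' E' (fun i => c' (b' i)))
    (hs : AT (blE b' E' + lkE (fun i => b' (own' i)) L + N) c') :
    AT (blE b E + lkE (fun i => b (own i)) L + N) c := by
  unfold AT at hs ⊢
  rw [sup_sign (gp_total b own E L N)]
  rw [sup_sign (gp_total b' own' E' L N)] at hs
  exact sup_gadget hb hb' own E own' E' hL hLa hoff hoff' (fun i => fr_gp fun e he => hN e he i)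
    (fun i => fr_gp fun e he => hN' e he i) c c' hcc hsp hs

end Helper19.Gadget
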