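import Pool.Agent.helper19.L9.Paint

/-!
# The paint game with blocking

Every vertex `v` has a set `A v` of allowed stages (labels) and a set `B v` of blockers.
If the coefficient of `X ^ t` in the graph polynomial of the conflicts `E` is non-zero and
`t v + |B v| < |A v|` for all `v`, there is a labelling `f` with `f v ∈ A v`, different labels at
the ends of each conflict and `f v ≠ f b + 1` for `b ∈ B v`.
(The labels are given in increasing order; the vertex `v` is blocked at stage `l` if some
`b ∈ B v` got the label `l - 1`.)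
-/

namespace Helper19.L9

open MvPolynomial Finset

variable {V ι : Type*}

theorem game_step [DecidableEq V] (u w : ι → V) (E : Finset ι) (A : V → Finset ℕ)
    (Bl : V → Finset V) (R : Finset V) (f : V → ℕ) (l : ℕ) (k : V →₀ ℕ)
    (hfl : ∀ v, v ∉ R → f v < l)
    (hcoeff : coeff k (linPoly u w (E.filter fun e => u e ∈ R ∧ w e ∈ R)) ≠ 0)
    (hbud : ∀ v ∈ R, k v + ((Bl v).filter fun b => b ∈ R ∨ f b + 1 = l).card <
      ((A v).filter fun a => l ≤ a).card) :
    ∃ U ⊆ R, (∀ v ∈ U, l ∈ A v ∧ ∀ b ∈ Bl v, b ∉ R → f b + 1 ≠ l) ∧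
      (∀ e ∈ E, ¬ (u e ∈ U ∧ w e ∈ U)) ∧ ∃ k' : V →₀ ℕ,
      coeff k' (linPoly u w (E.filter fun e => u e ∈ R \ U ∧ w e ∈ R \ U)) ≠ 0 ∧
      ∀ v ∈ R \ U, k' v + ((Bl v).filter fun b => b ∈ R).card <
        ((A v).filter fun a => l + 1 ≤ a).card := by
  classical
  set S := R.filter (fun v => l ∈ A v ∧ ∀ b ∈ Bl v, b ∉ R → f b + 1 ≠ l) with hS
  obtain ⟨U, hUS, hind, k', hk1, hk2, hk3⟩ := paint_move u w _ k hcoeff S
  have hUR : U ⊆ R := hUS.trans (Finset.filter_subset _ _)
  refine ⟨U, hUR, ?_, ?_, k', ?_, ?_⟩
  · intro v hv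
    exact (Finset.mem_filter.mp (hUS hv)).2
  · rintro e he ⟨h1, h2⟩
    exact hind e (Finset.mem_filter.mpr ⟨he, hUR h1, hUR h2⟩) ⟨h1, h2⟩
  · rw [Finset.filter_filter] at hk3
    have : (E.filter fun e => u e ∈ R \ U ∧ w e ∈ R \ U) =
        E.filter fun e => (u e ∈ R ∧ w e ∈ R) ∧ u e ∉ U ∧ w e ∉ U := by
      apply Finset.filter_congr
      intro e _
      simp only [Finset.mem_sdiff]
      tauto
    rw [this]; exact hk3
  · intro v hv
    rw [Finset.mem_sdiff] at hv
    have hb := hbud v hv.1
    have hsub : ((Bl v).filter fun b => b ∈ R) ⊆ (Bl v).filter fun b => b ∈ R ∨ f b + 1 = l := by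
      intro b hb
      rw [Finset.mem_filter] at hb ⊢
      exact ⟨hb.1, Or.inl hb.2⟩
    have hcard := Finset.card_le_card hsub
    by_cases hl : l ∈ A v
    · -- one stage less remains
      have hA : ((A v).filter fun a => l ≤ a) = insert l ((A v).filter fun a => l + 1 ≤ a) := by
        ext a
        simp only [Finset.mem_filter, Finset.mem_insert]
        constructor
        · rintro ⟨h1, h2⟩
          by_cases h : a = l
          · exact Or.inl h
          · exact Or.inr ⟨h1, by omega⟩
        · rintro (h | ⟨h1, h2⟩)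
          · subst h; exact ⟨hl, le_rfl⟩
          · exact ⟨h1, by omega⟩
      have hA2 : ((A v).filter fun a => l ≤ a).card =
          ((A v).filter fun a => l + 1 ≤ a).card + 1 := by
        rw [hA, Finset.card_insert_of_notMem]
        simp
      by_cases hblk : ∀ b ∈ Bl v, b ∉ R → f b + 1 ≠ l
      · have hvS : v ∈ S := Finset.mem_filter.mpr ⟨hv.1, hl, hblk⟩
        have := hk1 v hvS hv.2
        omega
      · push Not at hblk
        obtain ⟨b, hb1, hb2, hb3⟩ := hblk
        have hlt : ((Bl v).filter fun b => b ∈ R).card <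
            ((Bl v).filter fun b => b ∈ R ∨ f b + 1 = l).card := by
          apply Finset.card_lt_card
          refine ⟨hsub, fun h => hb2 ?_⟩
          exact (Finset.mem_filter.mp (h (Finset.mem_filter.mpr ⟨hb1, Or.inr hb3⟩))).2
        have hk : k' v ≤ k v := by
          by_cases hvS : v ∈ S
          · exact (hk1 v hvS hv.2).le
          · exact hk2 v hvS
        omega
    · have hA : ((A v).filter fun a => l ≤ a) = ((A v).filter fun a => l + 1 ≤ a) := by
        apply Finset.filter_congr
        intro a ha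
        constructor
        · intro h
          have : a ≠ l := fun h2 => hl (h2 ▸ ha)
          omega
        · intro h; omega
      have hvS : v ∉ S := fun h => hl (Finset.mem_filter.mp h).2.1
      have hk := hk2 v hvS
      rw [hA] at hb
      omega

/-- **The blocking game.** -/
theorem game [Fintype V] [DecidableEq V] (u w : ι → V) (E : Finset ι) (A : V → Finset ℕ)
    (Bl : V → Finset V) (t : V →₀ ℕ) (hcoeff : coeff t (linPoly u w E) ≠ 0)
    (hbud : ∀ v, t v + (Bl v).card < (A v).card) :
    ∃ f : V → ℕ, (∀ v, f v ∈ A v) ∧ (∀ e ∈ E, f (u e) ≠ f (w e)) ∧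
      ∀ v, ∀ b ∈ Bl v, f v ≠ f b + 1 := by
  classical
  -- state after `l` stages
  have main : ∀ l : ℕ, ∃ (R : Finset V) (f : V → ℕ) (k : V →₀ ℕ),
      (∀ v, v ∉ R → f v < l ∧ f v ∈ A v) ∧
      (∀ e ∈ E, u e ∉ R → w e ∉ R → f (u e) ≠ f (w e)) ∧
      (∀ v, v ∉ R → ∀ b ∈ Bl v, b ∉ R → f v ≠ f b + 1) ∧
      coeff k (linPoly u w (E.filter fun e => u e ∈ R ∧ w e ∈ R)) ≠ 0 ∧
      (∀ v ∈ R, k v + ((Bl v).filter fun b => b ∈ R ∨ f b + 1 = l).card <
        ((A v).filter fun a => l ≤ a).card) := by
    intro l
    induction l with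
    | zero =>
      refine ⟨univ, fun _ => 0, t, ?_, ?_, ?_, ?_, ?_⟩
      · intro v hv; exact absurd (Finset.mem_univ v) hv
      · intro e _ h; exact absurd (Finset.mem_univ _) h
      · intro v hv; exact absurd (Finset.mem_univ v) hv
      · simpa using hcoeff
      · intro v _
        have h1 : ((Bl v).filter fun b => b ∈ (univ : Finset V) ∨ 0 + 1 = 0) = Bl v := by
          simp
        have h2 : ((A v).filter fun a => 0 ≤ a) = A v := by simp
        rw [h1, h2]; exact hbud v
    | succ l ih =>
      obtain ⟨R, f, k, h1, h2, h3, h4, h5⟩ := ih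
      obtain ⟨U, hUR, hU, hind, k', hc', hb'⟩ :=
        game_step u w E A Bl R f l k (fun v hv => (h1 v hv).1) h4 h5
      refine ⟨R \ U, fun v => if v ∈ U then l else f v, k', ?_, ?_, ?_, hc', ?_⟩
      · intro v hv
        by_cases hvU : v ∈ U
        · simp only [hvU, if_true]
          exact ⟨Nat.lt_succ_self l, (hU v hvU).1⟩
        · simp only [hvU, if_false]
          have hvR : v ∉ R := fun h => hv (Finset.mem_sdiff.mpr ⟨h, hvU⟩)
          exact ⟨Nat.lt_succ_of_lt (h1 v hvR).1, (h1 v hvR).2⟩
      · intro e he hu hw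
        by_cases huU : u e ∈ U
        · by_cases hwU : w e ∈ U
          · exact absurd ⟨huU, hwU⟩ (hind e he)
          · have hwR : w e ∉ R := fun h => hw (Finset.mem_sdiff.mpr ⟨h, hwU⟩)
            simp only [huU, hwU, if_true, if_false]
            exact (h1 _ hwR).1.ne'
        · have huR : u e ∉ R := fun h => hu (Finset.mem_sdiff.mpr ⟨h, huU⟩)
          by_cases hwU : w e ∈ U
          · simp only [huU, hwU, if_true, if_false]
            exact (h1 _ huR).1.ne
          · have hwR : w e ∉ R := fun h => hw (Finset.mem_sdiff.mpr ⟨h, hwU⟩)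
            simp only [huU, hwU, if_false]
            exact h2 e he huR hwR
      · intro v hv b hb hbR
        by_cases hvU : v ∈ U
        · by_cases hbU : b ∈ U
          · simp only [hvU, hbU, if_true]; omega
          · have hbR' : b ∉ R := fun h => hbR (Finset.mem_sdiff.mpr ⟨h, hbU⟩)
            simp only [hvU, hbU, if_true, if_false]
            exact fun h => (hU v hvU).2 b hb hbR' h.symm
        · have hvR : v ∉ R := fun h => hv (Finset.mem_sdiff.mpr ⟨h, hvU⟩)
          by_cases hbU : b ∈ U
          · simp only [hvU, hbU, if_true, if_false]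
            have := (h1 v hvR).1; omega
          · have hbR' : b ∉ R := fun h => hbR (Finset.mem_sdiff.mpr ⟨h, hbU⟩)
            simp only [hvU, hbU, if_false]
            exact h3 v hvR b hb hbR'
      · intro v hv
        refine lt_of_le_of_lt ?_ (hb' v hv)
        apply Nat.add_le_add_left
        apply Finset.card_le_card
        intro b hb
        rw [Finset.mem_filter] at hb ⊢
        refine ⟨hb.1, ?_⟩
        rcases hb.2 with h | h
        · exact (Finset.mem_sdiff.mp h).1
        · by_cases hbU : b ∈ U
          · exact hUR hbU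
          · simp only [hbU, if_false] at h
            by_contra hbR
            have := (h1 b hbR).1
            omega
  -- after all stages
  set L := (univ.biUnion A).sup id + 1 with hL
  obtain ⟨R, f, k, h1, h2, h3, _, h5⟩ := main L
  have hR : ∀ v, v ∉ R := by
    intro v hv
    have := h5 v hv
    have h6 : ((A v).filter fun a => L ≤ a) = ∅ := by
      rw [Finset.filter_eq_empty_iff]
      intro a ha
      have h7 : a ≤ (univ.biUnion A).sup id :=
        Finset.le_sup (f := id) (Finset.mem_biUnion.mpr ⟨v, Finset.mem_univ v, ha⟩)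
      omega
    rw [h6, Finset.card_empty] at this
    omega
  exact ⟨f, fun v => (h1 v (hR v)).2, fun e he => h2 e he (hR _) (hR _),
    fun v b hb => h3 v (hR v) b hb (hR b)⟩

end Helper19.L9
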