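import Pool.Agent.helper19.L9.JProf

/-!
# The joint stage: the finite statements with `kk`
-/

namespace Helper19.J

open Pool.Agent.helper40.L9.J Helper19.Chunk

/-- the elements of the masks of `trio` -/
def ob (O : ℕ) : List ℕ :=
  if Nat.beq O 5 then [0, 2] else if Nat.beq O 9 then [0, 3] else [1, 3]

theorem ob_tab : (trio.all fun O => (ob O).all fun a => tb O a && Nat.blt a 5) = true := by
  decide +kernel

theorem ob_mem {O a : ℕ} (hO : O ∈ trio) (ha : a ∈ ob O) : O.testBit a = true ∧ a < 5 := by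
  have h := List.all_eq_true.1 (List.all_eq_true.1 ob_tab O hO) a ha
  rw [Bool.and_eq_true] at h
  refine ⟨tb_iff.1 h.1, ?_⟩
  have h2 := h.2
  unfold Nat.blt at h2
  exact Nat.le_of_ble_eq_true h2

theorem has3_tab : (trio.all fun O => M3.all fun A => T3.any fun t =>
    Nat.beq t.1 O && Nat.beq t.2.1 A) = true := by decide +kernel

theorem has3 {O A : ℕ} (hO : O ∈ trio) (hA : A ∈ M3) :
    ∃ t ∈ T3, t.1 = O ∧ t.2.1 = A := by
  obtain ⟨t, ht, h⟩ := List.any_eq_true.1 (List.all_eq_true.1 (List.all_eq_true.1 has3_tab O hO)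
    A hA)
  rw [Bool.and_eq_true] at h
  exact ⟨t, ht, Nat.eq_of_beq_eq_true h.1, Nat.eq_of_beq_eq_true h.2⟩

def chk3 (Ob : List ℕ) (p q : ℕ) : Bool :=
  Ob.any fun e => r5.any fun y => nb (dg p e y) 0 && (Ob.any fun a => nb y a &&
    (r5.any fun y' => nb y' e && (nb y y' && ts (dg p e y) (dg q a y'))))

def fK3 (t : ℕ × ℕ × List ℕ) : Bool := T3.all fun t' => nb t.1 t'.1 ||
    (t.2.2.all fun p => t'.2.2.all fun q => chk3 (ob t.1) p q)

theorem K3c_0 : (chunk 1 0 T3).all fK3 = true := by decide +kernel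
theorem K3c_1 : (chunk 1 1 T3).all fK3 = true := by decide +kernel
theorem K3c_2 : (chunk 1 2 T3).all fK3 = true := by decide +kernel
theorem K3c_3 : (chunk 1 3 T3).all fK3 = true := by decide +kernel
theorem K3c_4 : (chunk 1 4 T3).all fK3 = true := by decide +kernel
theorem K3c_5 : (chunk 1 5 T3).all fK3 = true := by decide +kernel
theorem K3c_6 : (chunk 1 6 T3).all fK3 = true := by decide +kernel
theorem K3c_7 : (chunk 1 7 T3).all fK3 = true := by decide +kernel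
theorem K3c_8 : (chunk 1 8 T3).all fK3 = true := by decide +kernel
theorem K3c_9 : (chunk 1 9 T3).all fK3 = true := by decide +kernel
theorem K3c_10 : (chunk 1 10 T3).all fK3 = true := by decide +kernel
theorem K3c_11 : (chunk 1 11 T3).all fK3 = true := by decide +kernel
theorem K3c_12 : (chunk 1 12 T3).all fK3 = true := by decide +kernel
theorem K3c_13 : (chunk 1 13 T3).all fK3 = true := by decide +kernel
theorem K3c_14 : (chunk 1 14 T3).all fK3 = true := by decide +kernel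
theorem K3c_15 : (chunk 1 15 T3).all fK3 = true := by decide +kernel
theorem K3c_16 : (chunk 1 16 T3).all fK3 = true := by decide +kernel
theorem K3c_17 : (chunk 1 17 T3).all fK3 = true := by decide +kernel
theorem K3c_18 : (chunk 1 18 T3).all fK3 = true := by decide +kernel
theorem K3c_19 : (chunk 1 19 T3).all fK3 = true := by decide +kernel
theorem K3c_20 : (chunk 1 20 T3).all fK3 = true := by decide +kernel
theorem K3c_21 : (chunk 1 21 T3).all fK3 = true := by decide +kernel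
theorem K3c_22 : (chunk 1 22 T3).all fK3 = true := by decide +kernel
theorem K3c_23 : (chunk 1 23 T3).all fK3 = true := by decide +kernel
theorem K3c_24 : (chunk 1 24 T3).all fK3 = true := by decide +kernel
theorem K3c_25 : (chunk 1 25 T3).all fK3 = true := by decide +kernel
theorem K3c_26 : (chunk 1 26 T3).all fK3 = true := by decide +kernel
theorem K3c_27 : (chunk 1 27 T3).all fK3 = true := by decide +kernel
theorem K3c_28 : (chunk 1 28 T3).all fK3 = true := by decide +kernel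
theorem K3c_29 : (chunk 1 29 T3).all fK3 = true := by decide +kernel

theorem K3_tab : (T3.all fun t => T3.all fun t' => nb t.1 t'.1 ||
    (t.2.2.all fun p => t'.2.2.all fun q => chk3 (ob t.1) p q)) = true := by
  refine all_of_chunks 1 30 (f := fK3) (by decide) fun i hi => ?_
  interval_cases i
  exacts [K3c_0, K3c_1, K3c_2, K3c_3, K3c_4, K3c_5, K3c_6, K3c_7, K3c_8, K3c_9, K3c_10,
    K3c_11, K3c_12, K3c_13, K3c_14, K3c_15, K3c_16, K3c_17, K3c_18, K3c_19, K3c_20, K3c_21,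
    K3c_22, K3c_23, K3c_24, K3c_25, K3c_26, K3c_27, K3c_28, K3c_29]

theorem K3 {O A B L A' B' L' : ℕ} (h : O ∈ trio) (hA : A ∈ M3) (hB : B ∈ M3)
    (hL : L ∈ M3) (hA' : A' ∈ M3) (hB' : B' ∈ M3) (hL' : L' ∈ M3) :
    ∃ a e y y', O.testBit a = true ∧ O.testBit e = true ∧ A.testBit y = true ∧ y ≠ a ∧
      A'.testBit y' = true ∧ y' ≠ e ∧ y ≠ y' ∧
      sdr (u4 e B (kk L y)) (u4 a B' (kk L' y')) = true := by
  obtain ⟨t, ht, ht1, ht2⟩ := has3 h hA
  obtain ⟨t', ht', ht1', ht2'⟩ := has3 h hA'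
  obtain ⟨p, hp, hpo⟩ := okt_spec T3_ok ht hB hL
  obtain ⟨q, hq, hqo⟩ := okt_spec T3_ok ht' hB' hL'
  have hc := List.all_eq_true.1 (List.all_eq_true.1 K3_tab t ht) t' ht'
  rw [Bool.or_eq_true, ht1, ht1'] at hc
  rcases hc with hc | hc
  · exact absurd rfl (nb_iff.1 hc)
  have hc2 := List.all_eq_true.1 (List.all_eq_true.1 hc p hp) q hq
  unfold chk3 at hc2
  obtain ⟨e, he, hc3⟩ := List.any_eq_true.1 hc2
  obtain ⟨y, hy, hc4⟩ := List.any_eq_true.1 hc3
  rw [Bool.and_eq_true] at hc4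
  obtain ⟨h0, hc5⟩ := hc4
  obtain ⟨a, ha, hc6⟩ := List.any_eq_true.1 hc5
  rw [Bool.and_eq_true] at hc6
  obtain ⟨hya, hc7⟩ := hc6
  obtain ⟨y', hy', hc8⟩ := List.any_eq_true.1 hc7
  rw [Bool.and_eq_true, Bool.and_eq_true] at hc8
  obtain ⟨hye, hyy, hts⟩ := hc8
  have he5 := (ob_mem h he).2
  have ha5 := (ob_mem h ha).2
  have hy5 := lt_of_mem_r5 hy
  have hy5' := lt_of_mem_r5 hy'
  have P := okp_spec hpo he5 hy5 (nb_iff.1 h0)
  have Q := okp_spec hqo ha5 hy5' (ts_ne_right hts (dg_lt _ _ _))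
  rw [ht2] at P
  rw [ht2'] at Q
  exact ⟨a, e, y, y', (ob_mem h ha).1, (ob_mem h he).1, P.2.1, nb_iff.1 hya, Q.2.1,
    nb_iff.1 hye, nb_iff.1 hyy, sdr_uu he5 hy5 ha5 hy5' (M3_sub hB).1 hL (M3_sub hB').1 hL'
      P.2.2.2 Q.2.2.2 hts⟩

/-- a real side and a side of the form `u4 a B' (kk L' y')` -/
theorem sdr_ru {a e A a' B' L' y' q : ℕ} (ha : a < 5) (he : e < 5) (hA : A < 32) (ha' : a' < 5)
    (hy' : y' < 5) (hB' : B' ∈ M34) (hL' : L' ∈ M3)
    (hq : q = tu a' B' (tk L' y')) (h : ts (tr a e A) q = true) :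
    sdr (uR a e A) (u4 a' B' (kk L' y')) = true := by
  apply sdr_of_ts (uR_lt _ _ _) (u4_lt _ _ _)
  rw [(kk_eq hL' hy').1, cl_uR ha he hA, cl_u4 ha' hB' (kk_eq hL' hy').2, ← hq]
  exact h

theorem K3R_tab : (T3.all fun t => M3.all fun A => t.2.2.all fun q =>
    (ob t.1).any fun a => (ob t.1).any fun e => r5.any fun y => tb A y &&
      (r5.any fun y' => nb y' e && (nb y y' && ts (tr a e (sg y)) (dg q a y')))) = true := by
  decide +kernel

theorem sg_lt {y : ℕ} (hy : y < 5) : sg y < 32 := by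
  interval_cases y <;> decide

/-- real - virtual, edge `y y'` -/
theorem K3R {O A A' B' L' : ℕ} (h : O ∈ trio) (hA : A ∈ M3)
    (hA' : A' ∈ M3) (hB' : B' ∈ M3) (hL' : L' ∈ M3) :
    ∃ a e y y', O.testBit a = true ∧ O.testBit e = true ∧ A.testBit y = true ∧
      A'.testBit y' = true ∧ y' ≠ e ∧ y ≠ y' ∧
      sdr (uR a e (sg y)) (u4 a B' (kk L' y')) = true := by
  obtain ⟨t', ht', ht1', ht2'⟩ := has3 h hA'
  obtain ⟨q, hq, hqo⟩ := okt_spec T3_ok ht' hB' hL'
  have hc := List.all_eq_true.1 (List.all_eq_true.1 (List.all_eq_true.1 K3R_tab t' ht') A hA) q hq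
  rw [ht1'] at hc
  obtain ⟨a, ha, hc1⟩ := List.any_eq_true.1 hc
  obtain ⟨e, he, hc2⟩ := List.any_eq_true.1 hc1
  obtain ⟨y, hy, hc3⟩ := List.any_eq_true.1 hc2
  rw [Bool.and_eq_true] at hc3
  obtain ⟨hAy, hc4⟩ := hc3
  obtain ⟨y', hy', hc5⟩ := List.any_eq_true.1 hc4
  rw [Bool.and_eq_true, Bool.and_eq_true] at hc5
  obtain ⟨hye, hyy, hts⟩ := hc5
  have he5 := (ob_mem h he).2
  have ha5 := (ob_mem h ha).2
  have hy5 := lt_of_mem_r5 hy
  have hy5' := lt_of_mem_r5 hy'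
  have Q := okp_spec hqo ha5 hy5' (ts_ne_right hts (tr_lt _ _ _))
  rw [ht2'] at Q
  exact ⟨a, e, y, y', (ob_mem h ha).1, (ob_mem h he).1, tb_iff.1 hAy, Q.2.1,
    nb_iff.1 hye, nb_iff.1 hyy, sdr_ru ha5 he5 (sg_lt hy5) ha5 hy5' (M3_sub hB').1 hL'
      Q.2.2.2 hts⟩

/-! ### `A = O + s` -/

def prs : List (ℕ × ℕ) :=
  [(5, 7), (5, 13), (5, 21), (9, 11), (9, 13), (9, 25), (10, 11), (10, 14), (10, 26)]

theorem prs_tab : (trio.all fun O => r5.all fun s => tb O s ||
    (prs.any fun r => Nat.beq r.1 O && Nat.beq r.2 (O ||| sg s))) = true := by decide +kernel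

theorem prs_tab2 : (prs.all fun r => trio.contains r.1 && (M3.contains r.2 &&
    (T5.any fun t => Nat.beq t.1 r.2 && Nat.beq t.2.1 r.2))) = true := by decide +kernel

theorem mem_prs {O s : ℕ} (hO : O ∈ trio) (hs : s < 5) (h : O.testBit s = false) :
    (O, O ||| sg s) ∈ prs := by
  have h1 := List.all_eq_true.1 (List.all_eq_true.1 prs_tab O hO) s (mem_r5 hs)
  rw [Bool.or_eq_true, tb_iff, h] at h1
  rcases h1 with h1 | h1
  · exact absurd h1 (by decide)
  obtain ⟨r, hr, h2⟩ := List.any_eq_true.1 h1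
  rw [Bool.and_eq_true] at h2
  have e1 := Nat.eq_of_beq_eq_true h2.1
  have e2 := Nat.eq_of_beq_eq_true h2.2
  have e3 : (O, O ||| sg s) = r := Prod.ext e1.symm e2.symm
  rw [e3]
  exact hr

theorem prs_M3 {O A : ℕ} (h : (O, A) ∈ prs) : A ∈ M3 := by
  have h1 := List.all_eq_true.1 prs_tab2 _ h
  rw [Bool.and_eq_true, Bool.and_eq_true] at h1
  simpa using h1.2.1

theorem prs_T5 {O A : ℕ} (h : (O, A) ∈ prs) : ∃ t ∈ T5, t.1 = A ∧ t.2.1 = A := by
  have h1 := List.all_eq_true.1 prs_tab2 _ h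
  rw [Bool.and_eq_true, Bool.and_eq_true] at h1
  obtain ⟨t, ht, h2⟩ := List.any_eq_true.1 h1.2.2
  rw [Bool.and_eq_true] at h2
  exact ⟨t, ht, Nat.eq_of_beq_eq_true h2.1, Nat.eq_of_beq_eq_true h2.2⟩

def fK4 (r : ℕ × ℕ) : Bool := T5.all fun t => nb t.1 r.2 || (nb t.2.1 r.2 ||
    (t.2.2.all fun p => M3.all fun B' => r5.any fun e => M2.all fun c => r5.any fun y =>
      nb (dg p e y) 0 && ((ob r.1).any fun a => nb y a && ts (dg p e y) (tu a B' c))))

theorem K4c_0 : (chunk 1 0 prs).all fK4 = true := by decide +kernel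
theorem K4c_1 : (chunk 1 1 prs).all fK4 = true := by decide +kernel
theorem K4c_2 : (chunk 1 2 prs).all fK4 = true := by decide +kernel
theorem K4c_3 : (chunk 1 3 prs).all fK4 = true := by decide +kernel
theorem K4c_4 : (chunk 1 4 prs).all fK4 = true := by decide +kernel
theorem K4c_5 : (chunk 1 5 prs).all fK4 = true := by decide +kernel
theorem K4c_6 : (chunk 1 6 prs).all fK4 = true := by decide +kernel
theorem K4c_7 : (chunk 1 7 prs).all fK4 = true := by decide +kernel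
theorem K4c_8 : (chunk 1 8 prs).all fK4 = true := by decide +kernel

theorem K4_tab : (prs.all fun r => T5.all fun t => nb t.1 r.2 || (nb t.2.1 r.2 ||
    (t.2.2.all fun p => M3.all fun B' => r5.any fun e => M2.all fun c => r5.any fun y =>
      nb (dg p e y) 0 && ((ob r.1).any fun a => nb y a && ts (dg p e y) (tu a B' c))))) = true := by
  refine all_of_chunks 1 9 (f := fK4) (by decide) fun i hi => ?_
  interval_cases i
  exacts [K4c_0, K4c_1, K4c_2, K4c_3, K4c_4, K4c_5, K4c_6, K4c_7, K4c_8]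

/-- edge `e y`: `O5 = A = O1 + s` -/
theorem K4 {O1 s B L B' : ℕ} {C' : ℕ → ℕ} (h : O1 ∈ trio) (hs : s < 5)
    (hs1 : O1.testBit s = false) (hB : B ∈ M3)
    (hL : L ∈ M3) (hB' : B' ∈ M3) (hC' : ∀ e, C' e ∈ M2) :
    ∃ a e y, O1.testBit a = true ∧ (O1 ||| sg s).testBit e = true ∧
      (O1 ||| sg s).testBit y = true ∧ y ≠ a ∧ y ≠ e ∧
      sdr (u4 e B (kk L y)) (u4 a B' (C' e)) = true := by
  have hr := mem_prs h hs hs1
  obtain ⟨t, ht, ht1, ht2⟩ := prs_T5 hr
  obtain ⟨p, hp, hpo⟩ := okt_spec T5_ok ht hB hL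
  have hc := List.all_eq_true.1 (List.all_eq_true.1 K4_tab _ hr) t ht
  rw [Bool.or_eq_true, Bool.or_eq_true] at hc
  rcases hc with hc | hc | hc
  · exact absurd ht1 (nb_iff.1 hc)
  · exact absurd ht2 (nb_iff.1 hc)
  obtain ⟨e, he, hc1⟩ := List.any_eq_true.1
    (List.all_eq_true.1 (List.all_eq_true.1 hc p hp) B' hB')
  obtain ⟨y, hy, hc2⟩ := List.any_eq_true.1 (List.all_eq_true.1 hc1 (C' e) (hC' e))
  rw [Bool.and_eq_true] at hc2
  obtain ⟨h0, hc3⟩ := hc2
  obtain ⟨a, ha, hc4⟩ := List.any_eq_true.1 hc3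
  rw [Bool.and_eq_true] at hc4
  obtain ⟨hya, hts⟩ := hc4
  have he5 := lt_of_mem_r5 he
  have hy5 := lt_of_mem_r5 hy
  have ha5 := (ob_mem h ha).2
  have P := okp_spec hpo he5 hy5 (nb_iff.1 h0)
  rw [ht1, ht2] at P
  refine ⟨a, e, y, (ob_mem h ha).1, P.1, P.2.1, nb_iff.1 hya, P.2.2.1 rfl, ?_⟩
  apply sdr_of_ts (u4_lt _ _ _) (u4_lt _ _ _)
  rw [(kk_eq hL hy5).1, cl_u4 he5 (M3_sub hB).1 (kk_eq hL hy5).2,
    cl_u4 ha5 (M3_sub hB').1 (M2_sub (hC' e)).1, ← P.2.2.2]
  exact hts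

def fK4p (r : ℕ × ℕ) : Bool := T3.all fun t => nb t.1 r.1 || (nb t.2.1 r.2 ||
    (t.2.2.all fun q => M4.all fun B => M3.all fun L => (ob r.1).any fun a => r5.any fun y' =>
      nb (dg q a y') 0 && (r5.any fun e => tb r.2 e && (nb y' e && (r5.any fun y => tb r.2 y &&
        (nb y a && (nb y e && ts (tu e (del B y') (tk L y)) (dg q a y'))))))))

theorem K4pc_0 : (chunk 1 0 prs).all fK4p = true := by decide +kernel
theorem K4pc_1 : (chunk 1 1 prs).all fK4p = true := by decide +kernel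
theorem K4pc_2 : (chunk 1 2 prs).all fK4p = true := by decide +kernel
theorem K4pc_3 : (chunk 1 3 prs).all fK4p = true := by decide +kernel
theorem K4pc_4 : (chunk 1 4 prs).all fK4p = true := by decide +kernel
theorem K4pc_5 : (chunk 1 5 prs).all fK4p = true := by decide +kernel
theorem K4pc_6 : (chunk 1 6 prs).all fK4p = true := by decide +kernel
theorem K4pc_7 : (chunk 1 7 prs).all fK4p = true := by decide +kernel
theorem K4pc_8 : (chunk 1 8 prs).all fK4p = true := by decide +kernel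

theorem K4p_tab : (prs.all fun r => T3.all fun t => nb t.1 r.1 || (nb t.2.1 r.2 ||
    (t.2.2.all fun q => M4.all fun B => M3.all fun L => (ob r.1).any fun a => r5.any fun y' =>
      nb (dg q a y') 0 && (r5.any fun e => tb r.2 e && (nb y' e && (r5.any fun y => tb r.2 y &&
        (nb y a && (nb y e && ts (tu e (del B y') (tk L y)) (dg q a y'))))))))) = true := by
  refine all_of_chunks 1 9 (f := fK4p) (by decide) fun i hi => ?_
  interval_cases i
  exacts [K4pc_0, K4pc_1, K4pc_2, K4pc_3, K4pc_4, K4pc_5, K4pc_6, K4pc_7, K4pc_8]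

/-- `e y` and `x y'`, `A' = O5 = A = O1 + s` -/
theorem K4p {O1 s B L B' L' : ℕ} (h : O1 ∈ trio) (hs : s < 5)
    (hs1 : O1.testBit s = false) (hB : B ∈ M4)
    (hL : L ∈ M3) (hB' : B' ∈ M3) (hL' : L' ∈ M3) :
    ∃ a e y y', O1.testBit a = true ∧ (O1 ||| sg s).testBit e = true ∧
      (O1 ||| sg s).testBit y = true ∧ y ≠ a ∧ y ≠ e ∧
      (O1 ||| sg s).testBit y' = true ∧ y' ≠ e ∧
      sdr (u4 e (del B y') (kk L y)) (u4 a B' (kk L' y')) = true := by
  have hr := mem_prs h hs hs1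
  obtain ⟨t, ht, ht1, ht2⟩ := has3 h (prs_M3 hr)
  obtain ⟨q, hq, hqo⟩ := okt_spec T3_ok ht hB' hL'
  have hc := List.all_eq_true.1 (List.all_eq_true.1 K4p_tab _ hr) t ht
  rw [Bool.or_eq_true, Bool.or_eq_true] at hc
  rcases hc with hc | hc | hc
  · exact absurd ht1 (nb_iff.1 hc)
  · exact absurd ht2 (nb_iff.1 hc)
  have hc0 := List.all_eq_true.1 (List.all_eq_true.1 (List.all_eq_true.1 hc q hq) B hB) L hL
  obtain ⟨a, ha, hc1⟩ := List.any_eq_true.1 hc0
  obtain ⟨y', hy', hc2⟩ := List.any_eq_true.1 hc1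
  rw [Bool.and_eq_true] at hc2
  obtain ⟨h0, hc3⟩ := hc2
  obtain ⟨e, he, hc4⟩ := List.any_eq_true.1 hc3
  rw [Bool.and_eq_true, Bool.and_eq_true] at hc4
  obtain ⟨hAe, hye, hc5⟩ := hc4
  obtain ⟨y, hy, hc6⟩ := List.any_eq_true.1 hc5
  rw [Bool.and_eq_true, Bool.and_eq_true, Bool.and_eq_true] at hc6
  obtain ⟨hAy, hya, hyee, hts⟩ := hc6
  have he5 := lt_of_mem_r5 he
  have hy5 := lt_of_mem_r5 hy
  have ha5 := (ob_mem h ha).2
  have hy5' := lt_of_mem_r5 hy'
  have Q := okp_spec hqo ha5 hy5' (nb_iff.1 h0)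
  rw [ht2] at Q
  exact ⟨a, e, y, y', (ob_mem h ha).1, tb_iff.1 hAe, tb_iff.1 hAy, nb_iff.1 hya, nb_iff.1 hyee,
    Q.2.1, nb_iff.1 hye, sdr_uu he5 hy5 ha5 hy5' (del_sub hB hy5') hL (M3_sub hB').1 hL'
      rfl Q.2.2.2 hts⟩

def fK4q (r : ℕ × ℕ) : Bool := T5.all fun t => nb t.1 r.2 || (nb t.2.1 r.2 ||
    (t.2.2.all fun p => M4.all fun B' => M3.all fun L' => r5.any fun e => r5.any fun y =>
      nb (dg p e y) 0 && ((ob r.1).any fun a => nb y a && (r5.any fun y' => tb r.2 y' &&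
        (nb y' e && ts (dg p e y) (tu a (del B' y') (tk L' y')))))))

theorem K4qc_0 : (chunk 1 0 prs).all fK4q = true := by decide +kernel
theorem K4qc_1 : (chunk 1 1 prs).all fK4q = true := by decide +kernel
theorem K4qc_2 : (chunk 1 2 prs).all fK4q = true := by decide +kernel
theorem K4qc_3 : (chunk 1 3 prs).all fK4q = true := by decide +kernel
theorem K4qc_4 : (chunk 1 4 prs).all fK4q = true := by decide +kernel
theorem K4qc_5 : (chunk 1 5 prs).all fK4q = true := by decide +kernel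
theorem K4qc_6 : (chunk 1 6 prs).all fK4q = true := by decide +kernel
theorem K4qc_7 : (chunk 1 7 prs).all fK4q = true := by decide +kernel
theorem K4qc_8 : (chunk 1 8 prs).all fK4q = true := by decide +kernel

theorem K4q_tab : (prs.all fun r => T5.all fun t => nb t.1 r.2 || (nb t.2.1 r.2 ||
    (t.2.2.all fun p => M4.all fun B' => M3.all fun L' => r5.any fun e => r5.any fun y =>
      nb (dg p e y) 0 && ((ob r.1).any fun a => nb y a && (r5.any fun y' => tb r.2 y' &&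
        (nb y' e && ts (dg p e y) (tu a (del B' y') (tk L' y')))))))) = true := by
  refine all_of_chunks 1 9 (f := fK4q) (by decide) fun i hi => ?_
  interval_cases i
  exacts [K4qc_0, K4qc_1, K4qc_2, K4qc_3, K4qc_4, K4qc_5, K4qc_6, K4qc_7, K4qc_8]

/-- `e y` and `x' y'`, `A' = O5 = A = O1 + s` -/
theorem K4q {O1 s B L B' L' : ℕ} (h : O1 ∈ trio) (hs : s < 5)
    (hs1 : O1.testBit s = false) (hB : B ∈ M3)
    (hL : L ∈ M3) (hB' : B' ∈ M4) (hL' : L' ∈ M3) :
    ∃ a e y y', O1.testBit a = true ∧ (O1 ||| sg s).testBit e = true ∧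
      (O1 ||| sg s).testBit y = true ∧ y ≠ a ∧ y ≠ e ∧
      (O1 ||| sg s).testBit y' = true ∧ y' ≠ e ∧
      sdr (u4 e B (kk L y)) (u4 a (del B' y') (kk L' y')) = true := by
  have hr := mem_prs h hs hs1
  obtain ⟨t, ht, ht1, ht2⟩ := prs_T5 hr
  obtain ⟨p, hp, hpo⟩ := okt_spec T5_ok ht hB hL
  have hc := List.all_eq_true.1 (List.all_eq_true.1 K4q_tab _ hr) t ht
  rw [Bool.or_eq_true, Bool.or_eq_true] at hc
  rcases hc with hc | hc | hc
  · exact absurd ht1 (nb_iff.1 hc)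
  · exact absurd ht2 (nb_iff.1 hc)
  have hc0 := List.all_eq_true.1 (List.all_eq_true.1 (List.all_eq_true.1 hc p hp) B' hB') L' hL'
  obtain ⟨e, he, hc1⟩ := List.any_eq_true.1 hc0
  obtain ⟨y, hy, hc2⟩ := List.any_eq_true.1 hc1
  rw [Bool.and_eq_true] at hc2
  obtain ⟨h0, hc3⟩ := hc2
  obtain ⟨a, ha, hc4⟩ := List.any_eq_true.1 hc3
  rw [Bool.and_eq_true] at hc4
  obtain ⟨hya, hc5⟩ := hc4
  obtain ⟨y', hy', hc6⟩ := List.any_eq_true.1 hc5
  rw [Bool.and_eq_true, Bool.and_eq_true] at hc6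
  obtain ⟨hAy, hye, hts⟩ := hc6
  have he5 := lt_of_mem_r5 he
  have hy5 := lt_of_mem_r5 hy
  have ha5 := (ob_mem h ha).2
  have hy5' := lt_of_mem_r5 hy'
  have P := okp_spec hpo he5 hy5 (nb_iff.1 h0)
  rw [ht1, ht2] at P
  exact ⟨a, e, y, y', (ob_mem h ha).1, P.1, P.2.1, nb_iff.1 hya, P.2.2.1 rfl, tb_iff.1 hAy,
    nb_iff.1 hye, sdr_uu he5 hy5 ha5 hy5' (M3_sub hB).1 hL (del_sub hB' hy5') hL'
      P.2.2.2 rfl hts⟩

def fK4R (r : ℕ × ℕ) : Bool := T5.all fun t => nb t.1 r.2 || (nb t.2.1 r.2 ||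
    (t.2.2.all fun q => M2.all fun A => (ob r.1).any fun e => r5.any fun a => r5.any fun y' =>
      nb y' e && ts (tr a e A) (dg q a y')))

theorem K4Rc_0 : (chunk 3 0 prs).all fK4R = true := by decide +kernel
theorem K4Rc_1 : (chunk 3 1 prs).all fK4R = true := by decide +kernel
theorem K4Rc_2 : (chunk 3 2 prs).all fK4R = true := by decide +kernel

theorem K4R_tab : (prs.all fun r => T5.all fun t => nb t.1 r.2 || (nb t.2.1 r.2 ||
    (t.2.2.all fun q => M2.all fun A => (ob r.1).any fun e => r5.any fun a => r5.any fun y' =>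
      nb y' e && ts (tr a e A) (dg q a y')))) = true := by
  refine all_of_chunks 3 3 (f := fK4R) (by decide) fun i hi => ?_
  interval_cases i
  exacts [K4Rc_0, K4Rc_1, K4Rc_2]

/-- real (A side) - virtual (B side), edge `a y'`: `O1 = A' = O5 + s` -/
theorem K4R {O5 s A B' L' : ℕ} (h : O5 ∈ trio) (hs : s < 5)
    (hs1 : O5.testBit s = false) (hA : A ∈ M2) (hB' : B' ∈ M3) (hL' : L' ∈ M3) :
    ∃ a e y', (O5 ||| sg s).testBit a = true ∧ O5.testBit e = true ∧
      (O5 ||| sg s).testBit y' = true ∧ y' ≠ e ∧ y' ≠ a ∧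
      sdr (uR a e A) (u4 a B' (kk L' y')) = true := by
  have hr := mem_prs h hs hs1
  obtain ⟨t, ht, ht1, ht2⟩ := prs_T5 hr
  obtain ⟨q, hq, hqo⟩ := okt_spec T5_ok ht hB' hL'
  have hc := List.all_eq_true.1 (List.all_eq_true.1 K4R_tab _ hr) t ht
  rw [Bool.or_eq_true, Bool.or_eq_true] at hc
  rcases hc with hc | hc | hc
  · exact absurd ht1 (nb_iff.1 hc)
  · exact absurd ht2 (nb_iff.1 hc)
  obtain ⟨e, he, hc1⟩ := List.any_eq_true.1
    (List.all_eq_true.1 (List.all_eq_true.1 hc q hq) A hA)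
  obtain ⟨a, ha, hc2⟩ := List.any_eq_true.1 hc1
  obtain ⟨y', hy', hc3⟩ := List.any_eq_true.1 hc2
  rw [Bool.and_eq_true] at hc3
  obtain ⟨hye, hts⟩ := hc3
  have he5 := (ob_mem h he).2
  have ha5 := lt_of_mem_r5 ha
  have hy5' := lt_of_mem_r5 hy'
  have Q := okp_spec hqo ha5 hy5' (ts_ne_right hts (tr_lt _ _ _))
  rw [ht1, ht2] at Q
  exact ⟨a, e, y', Q.1, (ob_mem h he).1, Q.2.1, nb_iff.1 hye, Q.2.2.1 rfl,
    sdr_ru ha5 he5 (M2_sub hA).2 ha5 hy5' (M3_sub hB').1 hL' Q.2.2.2 hts⟩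

/-! ### own edge `y y'` with edges `y y'`, `a y'`, `e y` -/

/-- own edge `y y'`: edges `y y'`, `a y'`, `e y`; `O1, O5 ∈ M3`, `A, A' ∈ M4`, `O1 ⊆ A`, `O5 ⊆ A'` and no
choice of `s ∈ A`, `t ∈ A'`, `s ≠ t` with `O1 \ {s,t}` and `O5 \ {s,t}` good for `N1` exists -/
def y5 : List (ℕ × ℕ × ℕ × ℕ) := ((M3.product M3).product (M4.product M4)).filterMap fun q =>
  let O1 := q.1.1; let O5 := q.1.2; let A := q.2.1; let A' := q.2.2
  if (List.range 5).any (fun s => A.testBit s && (List.range 5).any fun t => A'.testBit t && s != t &&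
    (let o := del (del O1 s) t; let o' := del (del O5 s) t
     ((o ∈ M2 || o ∈ M3) && (o' ∈ M2 || o' ∈ M3) && !(o == o' && o ∈ trio)))) then none
  else some (O1, O5, A, A')

def y5l : List (ℕ × ℕ × ℕ × ℕ) :=
  [(7, 13, 15, 15), (7, 21, 23, 23), (11, 13, 15, 15), (11, 14, 15, 15), (11, 25, 27, 27),
   (11, 26, 27, 27), (13, 7, 15, 15), (13, 11, 15, 15), (13, 21, 29, 29), (13, 25, 29, 29),
   (14, 11, 15, 15), (14, 26, 30, 30), (21, 7, 23, 23), (21, 13, 29, 29), (25, 11, 27, 27),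
   (25, 13, 29, 29), (26, 11, 27, 27), (26, 14, 30, 30)]

/-- the function in `y5` -/
def y5f (q : (ℕ × ℕ) × ℕ × ℕ) : Option (ℕ × ℕ × ℕ × ℕ) :=
  let O1 := q.1.1; let O5 := q.1.2; let A := q.2.1; let A' := q.2.2
  if (List.range 5).any (fun s => A.testBit s && (List.range 5).any fun t => A'.testBit t && s != t &&
    (let o := del (del O1 s) t; let o' := del (del O5 s) t
     ((o ∈ M2 || o ∈ M3) && (o' ∈ M2 || o' ∈ M3) && !(o == o' && o ∈ trio)))) then none
  else some (O1, O5, A, A')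

/-- the parts of `y5` -/
def y5t : ℕ → List (ℕ × ℕ × ℕ × ℕ)
  | 0 => [(7, 13, 15, 15)]
  | 1 => [(7, 21, 23, 23)]
  | 2 => [(11, 13, 15, 15), (11, 14, 15, 15)]
  | 3 => [(11, 25, 27, 27), (11, 26, 27, 27)]
  | 4 => [(13, 7, 15, 15), (13, 11, 15, 15)]
  | 5 => [(13, 21, 29, 29), (13, 25, 29, 29)]
  | 6 => [(14, 11, 15, 15)]
  | 7 => [(14, 26, 30, 30)]
  | 10 => [(21, 7, 23, 23), (21, 13, 29, 29)]
  | 14 => [(25, 11, 27, 27), (25, 13, 29, 29)]
  | 16 => [(26, 11, 27, 27), (26, 14, 30, 30)]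
  | _ => []

theorem y5c_0 : (chunk 125 0 ((M3.product M3).product (M4.product M4))).filterMap
    y5f = y5t 0 := by
  decide +kernel
theorem y5c_1 : (chunk 125 1 ((M3.product M3).product (M4.product M4))).filterMap
    y5f = y5t 1 := by
  decide +kernel
theorem y5c_2 : (chunk 125 2 ((M3.product M3).product (M4.product M4))).filterMap
    y5f = y5t 2 := by
  decide +kernel
theorem y5c_3 : (chunk 125 3 ((M3.product M3).product (M4.product M4))).filterMap
    y5f = y5t 3 := by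
  decide +kernel
theorem y5c_4 : (chunk 125 4 ((M3.product M3).product (M4.product M4))).filterMap
    y5f = y5t 4 := by
  decide +kernel
theorem y5c_5 : (chunk 125 5 ((M3.product M3).product (M4.product M4))).filterMap
    y5f = y5t 5 := by
  decide +kernel
theorem y5c_6 : (chunk 125 6 ((M3.product M3).product (M4.product M4))).filterMap
    y5f = y5t 6 := by
  decide +kernel
theorem y5c_7 : (chunk 125 7 ((M3.product M3).product (M4.product M4))).filterMap
    y5f = y5t 7 := by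
  decide +kernel
theorem y5c_8 : (chunk 125 8 ((M3.product M3).product (M4.product M4))).filterMap
    y5f = y5t 8 := by
  decide +kernel
theorem y5c_9 : (chunk 125 9 ((M3.product M3).product (M4.product M4))).filterMap
    y5f = y5t 9 := by
  decide +kernel
theorem y5c_10 : (chunk 125 10 ((M3.product M3).product (M4.product M4))).filterMap
    y5f = y5t 10 := by
  decide +kernel
theorem y5c_11 : (chunk 125 11 ((M3.product M3).product (M4.product M4))).filterMap
    y5f = y5t 11 := by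
  decide +kernel
theorem y5c_12 : (chunk 125 12 ((M3.product M3).product (M4.product M4))).filterMap
    y5f = y5t 12 := by
  decide +kernel
theorem y5c_13 : (chunk 125 13 ((M3.product M3).product (M4.product M4))).filterMap
    y5f = y5t 13 := by
  decide +kernel
theorem y5c_14 : (chunk 125 14 ((M3.product M3).product (M4.product M4))).filterMap
    y5f = y5t 14 := by
  decide +kernel
theorem y5c_15 : (chunk 125 15 ((M3.product M3).product (M4.product M4))).filterMap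
    y5f = y5t 15 := by
  decide +kernel
theorem y5c_16 : (chunk 125 16 ((M3.product M3).product (M4.product M4))).filterMap
    y5f = y5t 16 := by
  decide +kernel
theorem y5c_17 : (chunk 125 17 ((M3.product M3).product (M4.product M4))).filterMap
    y5f = y5t 17 := by
  decide +kernel
theorem y5c_18 : (chunk 125 18 ((M3.product M3).product (M4.product M4))).filterMap
    y5f = y5t 18 := by
  decide +kernel
theorem y5c_19 : (chunk 125 19 ((M3.product M3).product (M4.product M4))).filterMap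
    y5f = y5t 19 := by
  decide +kernel

theorem y5_eq : y5 = y5l := by
  have h : y5 = (List.range 20).flatMap y5t := by
    refine filterMap_of_chunks 125 20 (f := y5f) (by decide +kernel) y5t fun i hi => ?_
    interval_cases i
    exacts [y5c_0, y5c_1, y5c_2, y5c_3, y5c_4, y5c_5, y5c_6, y5c_7, y5c_8, y5c_9, y5c_10,
      y5c_11, y5c_12, y5c_13, y5c_14, y5c_15, y5c_16, y5c_17, y5c_18, y5c_19]
  rw [h]
  rfl

def fK5 (r : ℕ × ℕ × ℕ × ℕ) : Bool := (T5.any fun t => Nat.beq t.1 r.2.1 && Nat.beq t.2.1 r.2.2.1) &&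
    ((T5.any fun t' => Nat.beq t'.1 r.1 && Nat.beq t'.2.1 r.2.2.2) &&
    (T5.all fun t => nb t.1 r.2.1 || (nb t.2.1 r.2.2.1 || (T5.all fun t' => nb t'.1 r.1 ||
      (nb t'.2.1 r.2.2.2 || (t.2.2.all fun p => t'.2.2.all fun q => r5.any fun e =>
        r5.any fun y => nb (dg p e y) 0 && (r5.any fun a => nb y a && (r5.any fun y' => nb y' e &&
          (nb y y' && ts (dg p e y) (dg q a y'))))))))))

theorem K5c_0 : (chunk 2 0 y5l).all fK5 = true := by decide +kernel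
theorem K5c_1 : (chunk 2 1 y5l).all fK5 = true := by decide +kernel
theorem K5c_2 : (chunk 2 2 y5l).all fK5 = true := by decide +kernel
theorem K5c_3 : (chunk 2 3 y5l).all fK5 = true := by decide +kernel
theorem K5c_4 : (chunk 2 4 y5l).all fK5 = true := by decide +kernel
theorem K5c_5 : (chunk 2 5 y5l).all fK5 = true := by decide +kernel
theorem K5c_6 : (chunk 2 6 y5l).all fK5 = true := by decide +kernel
theorem K5c_7 : (chunk 2 7 y5l).all fK5 = true := by decide +kernel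
theorem K5c_8 : (chunk 2 8 y5l).all fK5 = true := by decide +kernel

theorem K5_tab : (y5l.all fun r =>
    (T5.any fun t => Nat.beq t.1 r.2.1 && Nat.beq t.2.1 r.2.2.1) &&
    ((T5.any fun t' => Nat.beq t'.1 r.1 && Nat.beq t'.2.1 r.2.2.2) &&
    (T5.all fun t => nb t.1 r.2.1 || (nb t.2.1 r.2.2.1 || (T5.all fun t' => nb t'.1 r.1 ||
      (nb t'.2.1 r.2.2.2 || (t.2.2.all fun p => t'.2.2.all fun q => r5.any fun e =>
        r5.any fun y => nb (dg p e y) 0 && (r5.any fun a => nb y a && (r5.any fun y' => nb y' e &&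
          (nb y y' && ts (dg p e y) (dg q a y'))))))))))) = true := by
  refine all_of_chunks 2 9 (f := fK5) (by decide) fun i hi => ?_
  interval_cases i
  exacts [K5c_0, K5c_1, K5c_2, K5c_3, K5c_4, K5c_5, K5c_6, K5c_7, K5c_8]

theorem K5 {O1 O5 A A' B L B' L' : ℕ} (h : (O1, O5, A, A') ∈ y5) (hB : B ∈ M3)
    (hL : L ∈ M3) (hB' : B' ∈ M3) (hL' : L' ∈ M3) :
    ∃ a e y y', O1.testBit a = true ∧ O5.testBit e = true ∧ A.testBit y = true ∧ y ≠ a ∧
      y ≠ e ∧ A'.testBit y' = true ∧ y' ≠ e ∧ y' ≠ a ∧ y ≠ y' ∧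
      sdr (u4 e B (kk L y)) (u4 a B' (kk L' y')) = true := by
  rw [y5_eq] at h
  have hc := List.all_eq_true.1 K5_tab _ h
  rw [Bool.and_eq_true, Bool.and_eq_true] at hc
  obtain ⟨hc1, hc2, hc3⟩ := hc
  obtain ⟨t, ht, ht0⟩ := List.any_eq_true.1 hc1
  obtain ⟨t', ht', ht0'⟩ := List.any_eq_true.1 hc2
  rw [Bool.and_eq_true] at ht0 ht0'
  have ht1 := Nat.eq_of_beq_eq_true ht0.1
  have ht2 := Nat.eq_of_beq_eq_true ht0.2
  have ht1' := Nat.eq_of_beq_eq_true ht0'.1
  have ht2' := Nat.eq_of_beq_eq_true ht0'.2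
  obtain ⟨p, hp, hpo⟩ := okt_spec T5_ok ht hB hL
  obtain ⟨q, hq, hqo⟩ := okt_spec T5_ok ht' hB' hL'
  have hc4 := List.all_eq_true.1 hc3 t ht
  rw [Bool.or_eq_true, Bool.or_eq_true] at hc4
  rcases hc4 with hc4 | hc4 | hc4
  · exact absurd ht1 (nb_iff.1 hc4)
  · exact absurd ht2 (nb_iff.1 hc4)
  have hc5 := List.all_eq_true.1 hc4 t' ht'
  rw [Bool.or_eq_true, Bool.or_eq_true] at hc5
  rcases hc5 with hc5 | hc5 | hc5
  · exact absurd ht1' (nb_iff.1 hc5)
  · exact absurd ht2' (nb_iff.1 hc5)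
  obtain ⟨e, he, hc6⟩ := List.any_eq_true.1
    (List.all_eq_true.1 (List.all_eq_true.1 hc5 p hp) q hq)
  obtain ⟨y, hy, hc7⟩ := List.any_eq_true.1 hc6
  rw [Bool.and_eq_true] at hc7
  obtain ⟨h0, hc8⟩ := hc7
  obtain ⟨a, ha, hc9⟩ := List.any_eq_true.1 hc8
  rw [Bool.and_eq_true] at hc9
  obtain ⟨hya, hc10⟩ := hc9
  obtain ⟨y', hy', hc11⟩ := List.any_eq_true.1 hc10
  rw [Bool.and_eq_true, Bool.and_eq_true] at hc11
  obtain ⟨hye, hyy, hts⟩ := hc11
  have he5 := lt_of_mem_r5 he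
  have ha5 := lt_of_mem_r5 ha
  have hy5 := lt_of_mem_r5 hy
  have hy5' := lt_of_mem_r5 hy'
  have P := okp_spec hpo he5 hy5 (nb_iff.1 h0)
  have Q := okp_spec hqo ha5 hy5' (ts_ne_right hts (dg_lt _ _ _))
  rw [ht1, ht2] at P
  rw [ht1', ht2'] at Q
  exact ⟨a, e, y, y', Q.1, P.1, P.2.1, nb_iff.1 hya, P.2.2.1 rfl, Q.2.1, nb_iff.1 hye,
    Q.2.2.1 rfl, nb_iff.1 hyy, sdr_uu he5 hy5 ha5 hy5' (M3_sub hB).1 hL (M3_sub hB').1 hL'
      P.2.2.2 Q.2.2.2 hts⟩

end Helper19.J
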