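import Pool.Agent.helper19.L9.SpanEval
import Pool.Agent.helper42.L9.Eph7

/-!
# Killer blocks, checked for all patterns of inner links

`kill_of_chk` : a block `g` with known inner edges `E` and at most `s i` further edges at `g i`
can be removed, if for every way to put further edges inside the block the block can pay all its
edges.
-/

set_option linter.unusedSimpArgs false

namespace Helper19.Kill

open MvPolynomial Finset Helper42.L9 Helper19.Gadget

variable {V : Type*} {n : ℕ} {c : V → ℕ}

/-! ### numeric part -/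

/-- digits of `m` plus the slots are at most the caps -/
def okl (cl sl : List ℕ) : ℕ → ℕ → Bool
  | 0, _ => true
  | n + 1, m => decide (m / 8 ^ n % 8 + sl.getD n 0 ≤ cp cl n) && okl cl sl n m

theorem okl_spec {cl sl : List ℕ} {n m : ℕ} (h : okl cl sl n m = true) (i : ℕ) (hi : i < n) :
    m / 8 ^ i % 8 + sl.getD i 0 ≤ cp cl i := by
  induction n with
  | zero => omega
  | succ n ih =>
    rw [okl, Bool.and_eq_true, decide_eq_true_eq] at h
    by_cases h2 : i = n
    · subst h2; exact h.1
    · exact ih h.2 (by omega)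

/-- some monomial within the caps -/
def leaf (n : ℕ) (cl sl : List ℕ) (P : PL) : Bool :=
  P.any fun p => decide (p.1 < 8 ^ n) && okl cl sl n p.1 && decide (cfL p.1 P ≠ 0)

/-- one slot less -/
def decAt (sl : List ℕ) (i : ℕ) : List ℕ := sl.set i (sl.getD i 0 - 1)

/-- all patterns -/
def chkP (n : ℕ) (cl : List ℕ) : ℕ → List (ℕ × ℕ) → PL → List ℕ → Bool
  | 0, _, _, _ => false
  | _ + 1, [], P, sl => leaf n cl sl P
  | f + 1, e :: ps, P, sl =>
    chkP n cl f ps P sl &&
    (if 1 ≤ sl.getD e.1 0 ∧ 1 ≤ sl.getD e.2 0 then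
      frcL (stp (cp cl) e P) fun Q => chkP n cl f (e :: ps) Q (decAt (decAt sl e.1) e.2) else true)

/-- all pairs -/
def prs : ℕ → List (ℕ × ℕ)
  | 0 => []
  | n + 1 => (List.range n).map (fun i => (i, n)) ++ prs n

theorem mem_prs {n i j : ℕ} (h : i < j) (hj : j < n) : (i, j) ∈ prs n := by
  induction n with
  | zero => omega
  | succ n ih =>
    rw [prs, List.mem_append]
    by_cases h2 : j = n
    · subst h2; left; rw [List.mem_map]; exact ⟨i, List.mem_range.mpr h, rfl⟩
    · right; exact ih (by omega)

theorem prs_lt {n : ℕ} : ∀ e ∈ prs n, e.1 < e.2 ∧ e.2 < n := by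
  induction n with
  | zero => intro e h; simp [prs] at h
  | succ n ih =>
    intro e h
    rw [prs, List.mem_append] at h
    rcases h with h | h
    · obtain ⟨i, hi, rfl⟩ := List.mem_map.mp h
      exact ⟨List.mem_range.mp hi, Nat.lt_succ_self _⟩
    · have := ih e h; exact ⟨this.1, by omega⟩

/-- the check -/
def chkK (n : ℕ) (cl : List ℕ) (g : List (ℕ × ℕ)) (sl : List ℕ) : Bool :=
  fstC (cp cl) g fun P => chkP n cl (n * n + sl.sum + 2) (prs n) P sl

/-! ### soundness -/

theorem outt_le' (A : Finset V) (M : Multiset (Sym2 V)) : outt A M ≤ M := by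
  classical
  unfold outt
  exact Multiset.filter_le _ _

theorem outt_cons_touch {A : Finset V} {e : Sym2 V} (h : ∃ v ∈ e, v ∈ A)
    (M : Multiset (Sym2 V)) : outt A (e ::ₘ M) = outt A M := by
  classical
  unfold outt
  rw [Multiset.filter_cons_of_neg]
  obtain ⟨v, hv, hA⟩ := h
  exact fun h2 => h2 v hv hA

theorem mem_img {g : Fin n → V} {v : V} [DecidableEq V] :
    v ∈ (Finset.univ.image g) ↔ ∃ i, g i = v := by
  simp

open Classical in
/-- the leaf case -/
theorem kill_leaf (g : Fin n → V) (hg : Function.Injective g) (E : List (Fin n × Fin n))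
    (μ : Fin n →₀ ℕ) (hμ : coeff μ (ep E) ≠ 0) (N : Multiset (Sym2 V))
    (hN : ∀ i j, s(g i, g j) ∉ N) (hc : ∀ i, μ i + dg N (g i) ≤ c (g i))
    (h : AT (outt (Finset.univ.image g) N) c) : AT (emb g E + N) c := by
  classical
  set A : Finset V := Finset.univ.image g with hA
  have memA : ∀ v, v ∈ A ↔ ∃ i, g i = v := fun v => by rw [hA]; simp
  have hinn : inn A (emb g E + N) = emb g E := by
    rw [inn_add]
    have h1 : inn A (emb g E) = emb g E := by
      unfold inn
      rw [Multiset.filter_eq_self]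
      intro e he v hv
      obtain ⟨p, hp, rfl⟩ := mem_emb.mp he
      rw [Sym2.mem_iff] at hv
      rcases hv with rfl | rfl
      · exact (memA _).mpr ⟨_, rfl⟩
      · exact (memA _).mpr ⟨_, rfl⟩
    have h2 : inn A N = 0 := by
      unfold inn
      rw [Multiset.filter_eq_nil]
      intro e he h3
      induction e with
      | _ x y =>
        obtain ⟨i, rfl⟩ := (memA _).mp (h3 x (Sym2.mem_mk_left _ _))
        obtain ⟨j, rfl⟩ := (memA _).mp (h3 y (Sym2.mem_mk_right _ _))
        exact hN i j he
    rw [h1, h2, add_zero]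
  have hout : outt A (emb g E + N) = outt A N := by
    unfold outt
    rw [Multiset.filter_add]
    have : Multiset.filter (fun e => ∀ v ∈ e, v ∉ A) (emb g E) = 0 := by
      rw [Multiset.filter_eq_nil]
      intro e he h3
      obtain ⟨p, hp, rfl⟩ := mem_emb.mp he
      exact h3 _ (Sym2.mem_mk_left _ _) ((memA _).mpr ⟨_, rfl⟩)
    rw [this, zero_add]
  have hcrs : ∀ i, dg (crs A (emb g E + N)) (g i) ≤ dg N (g i) := by
    intro i
    have e1 : crs A (emb g E + N) = crs A N := by
      unfold crs
      rw [Multiset.filter_add]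
      have : Multiset.filter (fun e => (∃ v ∈ e, v ∈ A) ∧ ∃ v ∈ e, v ∉ A) (emb g E) = 0 := by
        rw [Multiset.filter_eq_nil]
        rintro e he ⟨_, v, hv, hvA⟩
        obtain ⟨p, hp, rfl⟩ := mem_emb.mp he
        rw [Sym2.mem_iff] at hv
        rcases hv with rfl | rfl
        · exact hvA ((memA _).mpr ⟨_, rfl⟩)
        · exact hvA ((memA _).mpr ⟨_, rfl⟩)
      rw [this, zero_add]
    rw [e1]
    refine dg_le_of_le ?_ _
    unfold crs
    exact Multiset.filter_le _ _
  refine AT.block' A _ (fun v => Finsupp.mapDomain g μ v) c ?_ (by rw [hout]; exact h) ?_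
  · rw [hinn]
    have e0 : emb g E = blE g E := rfl
    rw [e0]
    unfold AT
    rw [sup_sign (gp_blE g E)]
    refine ⟨Finsupp.mapDomain g μ, fun v => le_rfl, ?_⟩
    rw [coeff_rename_mapDomain g hg]
    exact hμ
  · intro v hv
    obtain ⟨i, rfl⟩ := (memA _).mp hv
    rw [Finsupp.mapDomain_apply hg]
    exact (Nat.add_le_add_left (hcrs i) _).trans (hc i)

theorem getD_decAt (sl : List ℕ) (i j : ℕ) :
    (decAt sl i).getD j 0 = if i = j then sl.getD j 0 - 1 else sl.getD j 0 := by
  unfold decAt
  rw [List.getD_eq_getElem?_getD, List.getElem?_set]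
  by_cases h : i = j
  · subst h
    rw [if_pos rfl, if_pos rfl]
    by_cases hi : i < sl.length
    · rw [if_pos hi]; rfl
    · rw [if_neg hi, List.getD_eq_getElem?_getD, List.getElem?_eq_none (by omega)]; rfl
  · rw [if_neg h, if_neg h, List.getD_eq_getElem?_getD]

theorem chkP_sound (g : Fin n → V) (hg : Function.Injective g) (cl : List ℕ)
    (h7 : ∀ i, cp cl i ≤ 7) (hc : ∀ i : Fin n, cp cl i ≤ c (g i)) :
    ∀ (f : ℕ) (ps : List (ℕ × ℕ)) (sl : List ℕ) (E : List (Fin n × Fin n))
      (N : Multiset (Sym2 V)), (∀ i : Fin n, dg N (g i) ≤ sl.getD i 0) →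
      (∀ e ∈ N, ¬ e.IsDiag) → (∀ e ∈ ps, e.1 < e.2 ∧ e.2 < n) →
      (∀ i j : Fin n, i < j → s(g i, g j) ∈ N → ((i : ℕ), (j : ℕ)) ∈ ps) →
      chkP n cl f ps (fst (cp cl) (E.map fun e => ((e.1 : ℕ), (e.2 : ℕ)))) sl = true →
      AT (outt (@Finset.image _ _ (Classical.decEq V) g Finset.univ) N) c →
      AT (emb g E + N) c := by
  classical
  intro f
  induction f with
  | zero => intro ps sl E N _ _ _ _ h; simp [chkP] at h
  | succ f ih =>
    intro ps sl E N hs hl hps hin h hout
    cases ps with
    | nil =>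
      rw [chkP, leaf, List.any_eq_true] at h
      obtain ⟨p, _, hp⟩ := h
      rw [Bool.and_eq_true, Bool.and_eq_true, decide_eq_true_eq, decide_eq_true_eq] at hp
      obtain ⟨⟨h1, h2⟩, h3⟩ := hp
      have hdec : ∀ i : Fin n, dec n p.1 i = p.1 / 8 ^ (i : ℕ) % 8 := fun i => by
        rw [dec, Finsupp.equivFunOnFinite_symm_apply_apply]
      have hle : ∀ i : Fin n, dec n p.1 i + sl.getD i 0 ≤ cp cl i := fun i => by
        rw [hdec]; exact okl_spec h2 i i.2
      refine kill_leaf g hg E (dec n p.1) ?_ N ?_ ?_ (by convert hout)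
      · rw [← cfL_fst (cp cl) h7 E (dec n p.1) fun i => (Nat.le_add_right _ _).trans (hle i),
          enc_dec n p.1 h1]
        exact h3
      · intro i j hij
        have hne : i ≠ j := by
          rintro rfl
          exact hl _ hij (Sym2.mk_isDiag_iff.mpr rfl)
        rcases lt_or_gt_of_ne hne with h4 | h4
        · exact absurd (hin i j h4 hij) (by simp)
        · rw [Sym2.eq_swap] at hij
          exact absurd (hin j i h4 hij) (by simp)
      · intro i
        exact (Nat.add_le_add_left (hs i) _).trans ((hle i).trans (hc i))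
    | cons e ps =>
      obtain ⟨a, b⟩ := e
      rw [chkP, Bool.and_eq_true] at h
      obtain ⟨h1, h2⟩ := h
      obtain ⟨hab, hbn⟩ := hps _ List.mem_cons_self
      simp only at hab hbn
      by_cases hmem : s(g ⟨a, by omega⟩, g ⟨b, hbn⟩) ∈ N
      · obtain ⟨N', rfl⟩ := Multiset.exists_cons_of_mem hmem
        have hne : (⟨a, by omega⟩ : Fin n) ≠ ⟨b, hbn⟩ := fun h => by
          have := congrArg Fin.val h; simp at this; omega
        have ha := hs ⟨a, by omega⟩
        have hb := hs ⟨b, hbn⟩
        rw [dg_cons_pos (Sym2.mem_mk_left _ _)] at ha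
        rw [dg_cons_pos (Sym2.mem_mk_right _ _)] at hb
        simp only at ha hb
        rw [if_pos ⟨by simp only; omega, by simp only; omega⟩, frcL_eq] at h2
        have e1 : emb g E + s(g ⟨a, by omega⟩, g ⟨b, hbn⟩) ::ₘ N' =
            emb g ((⟨a, by omega⟩, ⟨b, hbn⟩) :: E) + N' := by
          rw [Multiset.add_cons]
          unfold emb
          rw [List.map_cons, ← Multiset.cons_coe, Multiset.cons_add]
        rw [e1]
        refine ih ((a, b) :: ps) (decAt (decAt sl a) b) ((⟨a, by omega⟩, ⟨b, hbn⟩) :: E) N'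
          ?_ (fun e he => hl e (Multiset.mem_cons_of_mem he)) hps ?_ ?_ ?_
        · intro i
          rw [getD_decAt, getD_decAt]
          by_cases hia : i = ⟨a, by omega⟩
          · subst hia
            rw [if_neg (by simp only; omega), if_pos rfl]
            simp only
            omega
          · by_cases hib : i = ⟨b, hbn⟩
            · subst hib
              rw [if_pos rfl, if_neg (by simp only; omega)]
              simp only
              omega
            · rw [if_neg fun h => hib (Fin.ext h.symm), if_neg fun h => hia (Fin.ext h.symm)]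
              refine le_trans ?_ (hs i)
              rw [dg_cons_neg]
              rw [Sym2.mem_iff]
              rintro (h | h)
              · exact hia (hg h)
              · exact hib (hg h)
        · intro i j hij hm
          exact hin i j hij (Multiset.mem_cons_of_mem hm)
        · exact h2
        · rw [outt_cons_touch ⟨_, Sym2.mem_mk_left _ _, by simp⟩] at hout
          exact hout
      · refine ih ps sl E N hs hl (fun e he => hps e (List.mem_cons_of_mem _ he)) ?_ h1 hout
        intro i j hij hm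
        rcases List.mem_cons.mp (hin i j hij hm) with h4 | h4
        · exfalso
          simp only [Prod.mk.injEq] at h4
          apply hmem
          have : i = ⟨a, by omega⟩ := Fin.ext h4.1
          have h5 : j = ⟨b, hbn⟩ := Fin.ext h4.2
          rw [← this, ← h5]; exact hm
        · exact h4

/-- **Killer blocks.** -/
theorem kill_of_chk (g : Fin n → V) (hg : Function.Injective g) (cl : List ℕ)
    (h7 : cl.all (· ≤ 7) = true) (hc : ∀ i : Fin n, cp cl i ≤ c (g i)) (sl : List ℕ)
    (E : List (Fin n × Fin n)) (gE : List (ℕ × ℕ))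
    (hE : (E.map fun e => ((e.1 : ℕ), (e.2 : ℕ))) = gE)
    (N : Multiset (Sym2 V)) (hs : ∀ i : Fin n, dg N (g i) ≤ sl.getD i 0)
    (hl : ∀ e ∈ N, ¬ e.IsDiag) (h : chkK n cl gE sl = true)
    (hout : AT (outt (@Finset.image _ _ (Classical.decEq V) g Finset.univ) N) c) :
    AT (emb g E + N) c := by
  have c7 : ∀ i, cp cl i ≤ 7 := by
    intro i
    unfold cp
    rw [List.getD_eq_getElem?_getD]
    rcases hi : cl[i]? with _ | x
    · simp
    · rw [List.all_eq_true] at h7
      have := h7 x (List.mem_of_getElem? hi)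
      simpa using this
  rw [chkK, fstC_eq, ← hE] at h
  exact chkP_sound g hg cl c7 hc _ (prs n) sl E N hs hl prs_lt
    (fun i j hij _ => mem_prs hij j.2) h hout

/-- the check with a list of possible inner pairs -/
def chkKp (n : ℕ) (cl : List ℕ) (g : List (ℕ × ℕ)) (sl : List ℕ) (ps : List (ℕ × ℕ)) : Bool :=
  ps.all (fun e => decide (e.1 < e.2 ∧ e.2 < n)) &&
  fstC (cp cl) g fun P => chkP n cl (n * n + sl.sum + 2) ps P sl

/-- **Killer blocks**, only the pairs in `ps` can be further inner edges. -/
theorem kill_of_chkp (g : Fin n → V) (hg : Function.Injective g) (cl : List ℕ)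
    (h7 : cl.all (· ≤ 7) = true) (hc : ∀ i : Fin n, cp cl i ≤ c (g i)) (sl : List ℕ)
    (E : List (Fin n × Fin n)) (gE : List (ℕ × ℕ))
    (hE : (E.map fun e => ((e.1 : ℕ), (e.2 : ℕ))) = gE)
    (N : Multiset (Sym2 V)) (hs : ∀ i : Fin n, dg N (g i) ≤ sl.getD i 0)
    (hl : ∀ e ∈ N, ¬ e.IsDiag) (ps : List (ℕ × ℕ))
    (hin : ∀ i j : Fin n, i < j → s(g i, g j) ∈ N → ((i : ℕ), (j : ℕ)) ∈ ps)
    (h : chkKp n cl gE sl ps = true)
    (hout : AT (outt (@Finset.image _ _ (Classical.decEq V) g Finset.univ) N) c) :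
    AT (emb g E + N) c := by
  have c7 : ∀ i, cp cl i ≤ 7 := by
    intro i
    unfold cp
    rw [List.getD_eq_getElem?_getD]
    rcases hi : cl[i]? with _ | x
    · simp
    · rw [List.all_eq_true] at h7
      have := h7 x (List.mem_of_getElem? hi)
      simpa using this
  rw [chkKp, Bool.and_eq_true, fstC_eq, ← hE, List.all_eq_true] at h
  exact chkP_sound g hg cl c7 hc _ ps sl E N hs hl (fun e he => by simpa using h.1 e he) hin h.2
    hout

end Helper19.Kill
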