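import Pool.Agent.helper19.L9.KillW

/-!
# Kernel checks for the block D and the cell Z
-/

namespace Helper19.Kill

open Helper19.Gadget

/-- inner edges of `D` : `p1 u1 v1 q1` = 0 1 2 3, `p2 u2 v2 q2` = 4 5 6 7 -/
def gD : List (ℕ × ℕ) :=
  [(1, 2), (0, 1), (1, 3), (2, 3), (0, 2), (2, 5), (3, 4), (4, 5), (5, 6), (6, 7), (4, 6), (5, 7)]

/-- inner edges of `Z` : `p u v q` = 0 1 2 3 -/
def gZ : List (ℕ × ℕ) := [(0, 1), (1, 2), (2, 3), (0, 2), (1, 3)]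

set_option maxRecDepth 100000

def g_uv : List ((ℕ × ℕ) × Bool × Bool) :=
  [((0, 1), false, false), ((0, 2), true, false), ((1, 3), false, false), ((2, 3), false, false),
   ((3, 4), true, false), ((1, 6), false, false), ((1, 2), true, false), ((2, 5), true, false),
   ((4, 5), false, false), ((5, 6), false, false), ((5, 7), true, false), ((6, 7), false, true),
   ((4, 6), true, true)]

def t_uv : CT :=
  .nd (.sk (.sk (.nd (.nd (.sk (.sk (.sk (.sk (.sk (.sk (.sk (.sk (.sk (.sk (.sk (.sk (.sk (.nd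
  (.sk (.sk (.nd (.nd (.sk (.sk (.sk (.sk (.sk (.lf 889048)))))) (.sk (.sk (.sk (.sk (.sk (.sk
  (.lf 889049)))))))) (.sk (.sk (.sk (.sk (.sk (.sk (.sk (.lf 893144))))))))))) (.sk (.sk (.sk
  (.sk (.nd (.sk (.sk (.sk (.sk (.sk (.lf 893144)))))) (.sk (.sk (.sk (.sk (.sk (.sk (.lf
  893145)))))))))))))))))))))))))) (.sk (.sk (.sk (.sk (.sk (.sk (.sk (.sk (.sk (.sk (.sk (.sk
  (.sk (.sk (.sk (.sk (.sk (.sk (.nd (.sk (.sk (.sk (.sk (.sk (.lf 893144)))))) (.sk (.sk (.sk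
  (.sk (.sk (.sk (.lf 893145))))))))))))))))))))))))))) (.sk (.nd (.sk (.sk (.sk (.sk (.sk (.sk
  (.sk (.sk (.sk (.sk (.sk (.sk (.sk (.nd (.sk (.sk (.sk (.sk (.sk (.sk (.sk (.sk (.sk (.lf
  889560)))))))))) (.sk (.sk (.sk (.sk (.sk (.sk (.sk (.sk (.sk (.sk (.lf
  893656))))))))))))))))))))))))) (.sk (.sk (.sk (.sk (.sk (.sk (.sk (.sk (.sk (.sk (.sk (.sk (.sk
  (.sk (.sk (.sk (.sk (.sk (.sk (.sk (.sk (.sk (.sk (.sk (.lf 893656))))))))))))))))))))))))))))))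
  (.nd (.sk (.sk (.nd (.nd (.sk (.sk (.sk (.sk (.sk (.sk (.sk (.sk (.sk (.sk (.sk (.sk (.sk (.nd
  (.sk (.sk (.nd (.nd (.sk (.sk (.sk (.sk (.sk (.lf 889049)))))) (.sk (.sk (.sk (.sk (.sk (.sk
  (.lf 889050)))))))) (.sk (.sk (.sk (.sk (.sk (.sk (.sk (.lf 893145))))))))))) (.sk (.sk (.sk
  (.sk (.sk (.sk (.sk (.sk (.sk (.sk (.lf 893145))))))))))))))))))))))))) (.sk (.sk (.sk (.sk (.sk
  (.sk (.sk (.sk (.sk (.sk (.sk (.sk (.sk (.sk (.sk (.sk (.sk (.sk (.nd (.sk (.sk (.sk (.sk (.sk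
  (.lf 893145)))))) (.sk (.sk (.sk (.sk (.sk (.sk (.lf 893146))))))))))))))))))))))))))) (.sk (.sk
  (.sk (.sk (.sk (.sk (.sk (.sk (.sk (.sk (.sk (.sk (.sk (.sk (.sk (.nd (.sk (.sk (.sk (.sk (.sk
  (.sk (.sk (.sk (.sk (.lf 889561)))))))))) (.sk (.sk (.sk (.sk (.sk (.sk (.sk (.sk (.sk (.sk (.lf
  893657)))))))))))))))))))))))))))))) (.sk (.sk (.sk (.sk (.sk (.sk (.sk (.sk (.sk (.sk (.sk (.sk
  (.sk (.sk (.sk (.sk (.sk (.sk (.sk (.sk (.sk (.nd (.sk (.sk (.sk (.sk (.sk (.sk (.lf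
  889050))))))) (.sk (.sk (.sk (.sk (.sk (.sk (.sk (.lf 893146)))))))))))))))))))))))))))))))

def g_up : List ((ℕ × ℕ) × Bool × Bool) :=
  [((6, 7), false, false), ((5, 7), false, true), ((1, 3), false, false), ((2, 3), false, false),
   ((3, 4), true, false), ((6, 0), false, false), ((5, 6), false, false), ((4, 6), false, true),
   ((4, 5), true, false), ((2, 5), false, true), ((1, 0), false, false), ((0, 1), false, false),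
   ((0, 2), true, false), ((1, 2), true, true)]

def t_up : CT :=
  .sk (.sk (.sk (.nd (.nd (.sk (.sk (.sk (.sk (.sk (.sk (.sk (.sk (.sk (.sk (.sk (.sk (.sk (.sk
  (.sk (.sk (.nd (.sk (.sk (.sk (.sk (.sk (.sk (.lf 626906))))))) (.sk (.sk (.sk (.sk (.sk (.sk
  (.sk (.lf 631002))))))))))))))))))))))))) (.sk (.sk (.sk (.sk (.sk (.sk (.sk (.sk (.sk (.sk (.sk
  (.sk (.sk (.sk (.sk (.sk (.sk (.sk (.sk (.sk (.sk (.sk (.sk (.sk (.lf
  631002)))))))))))))))))))))))))) (.sk (.nd (.sk (.sk (.sk (.sk (.sk (.sk (.sk (.sk (.sk (.sk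
  (.sk (.sk (.sk (.sk (.sk (.sk (.sk (.sk (.sk (.sk (.sk (.sk (.sk (.lf
  627418)))))))))))))))))))))))) (.sk (.sk (.sk (.sk (.sk (.sk (.sk (.sk (.sk (.sk (.sk (.sk (.sk
  (.sk (.sk (.sk (.sk (.sk (.sk (.sk (.sk (.sk (.sk (.sk (.lf 631514))))))))))))))))))))))))))))))

def g_uq : List ((ℕ × ℕ) × Bool × Bool) :=
  [((0, 1), false, false), ((0, 2), true, false), ((1, 3), false, false), ((2, 3), false, false),
   ((3, 4), true, false), ((1, 7), false, false), ((1, 2), true, false), ((2, 5), true, false),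
   ((4, 5), false, false), ((5, 6), false, false), ((5, 7), true, false), ((6, 7), false, false),
   ((6, 7), false, true), ((4, 6), true, true)]

def t_uq : CT :=
  .sk (.sk (.sk (.sk (.sk (.sk (.sk (.sk (.sk (.sk (.sk (.sk (.sk (.sk (.sk (.sk (.sk (.sk (.nd
  (.sk (.sk (.nd (.nd (.sk (.sk (.sk (.sk (.sk (.lf 5083344)))))) (.sk (.sk (.sk (.sk (.sk (.sk
  (.lf 5083345)))))))) (.sk (.sk (.sk (.sk (.sk (.sk (.sk (.lf 5087440))))))))))) (.sk (.sk (.sk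
  (.sk (.nd (.sk (.sk (.sk (.sk (.sk (.lf 5087440)))))) (.sk (.sk (.sk (.sk (.sk (.sk (.lf
  5087441))))))))))))))))))))))))))))))

def g_uo : List ((ℕ × ℕ) × Bool × Bool) :=
  [((0, 1), false, false), ((0, 2), true, false), ((1, 3), false, false), ((2, 3), false, false),
   ((3, 4), true, false), ((6, 7), false, false), ((5, 7), false, true), ((1, 2), false, false),
   ((2, 5), true, false), ((1, 8), true, false), ((4, 5), false, false), ((5, 6), true, false),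
   ((4, 6), true, false), ((6, 8), true, true)]

def t_uo : CT :=
  .nd (.sk (.sk (.nd (.nd (.sk (.sk (.nd (.nd (.sk (.sk (.nd (.nd (.sk (.sk (.sk (.sk (.sk (.sk
  (.sk (.sk (.sk (.sk (.sk (.sk (.sk (.nd (.sk (.sk (.nd (.nd (.sk (.sk (.sk (.sk (.sk (.lf
  17666712)))))) (.sk (.sk (.sk (.sk (.sk (.sk (.lf 17667224)))))))) (.sk (.sk (.sk (.sk (.sk (.sk
  (.sk (.lf 17670808))))))))))) (.sk (.sk (.sk (.sk (.nd (.sk (.sk (.sk (.sk (.sk (.lf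
  17670808)))))) (.sk (.sk (.sk (.sk (.sk (.sk (.lf 17671320)))))))))))))))))))))))))) (.sk (.sk
  (.sk (.sk (.sk (.sk (.sk (.sk (.sk (.sk (.sk (.sk (.sk (.sk (.sk (.sk (.sk (.sk (.nd (.sk (.sk
  (.sk (.sk (.sk (.lf 17670808)))))) (.sk (.sk (.sk (.sk (.sk (.sk (.lf
  17671320))))))))))))))))))))))))))) (.sk (.nd (.sk (.sk (.sk (.sk (.sk (.sk (.sk (.sk (.sk (.sk
  (.sk (.sk (.sk (.nd (.sk (.sk (.sk (.sk (.sk (.sk (.sk (.sk (.sk (.lf 17667224)))))))))) (.sk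
  (.sk (.sk (.sk (.sk (.sk (.sk (.sk (.sk (.sk (.lf 17671320))))))))))))))))))))))))) (.sk (.sk
  (.sk (.sk (.sk (.sk (.sk (.sk (.sk (.sk (.sk (.sk (.sk (.sk (.sk (.sk (.sk (.sk (.sk (.sk (.sk
  (.sk (.sk (.sk (.lf 17671320)))))))))))))))))))))))))))))) (.nd (.sk (.sk (.nd (.nd (.sk (.sk
  (.sk (.sk (.sk (.sk (.sk (.sk (.sk (.sk (.sk (.sk (.sk (.nd (.sk (.sk (.nd (.nd (.sk (.sk (.sk
  (.sk (.sk (.lf 17666713)))))) (.sk (.sk (.sk (.sk (.sk (.sk (.lf 17667225)))))))) (.sk (.sk (.sk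
  (.sk (.sk (.sk (.sk (.lf 17670809))))))))))) (.sk (.sk (.sk (.sk (.sk (.sk (.sk (.sk (.sk (.sk
  (.lf 17670809))))))))))))))))))))))))) (.sk (.sk (.sk (.sk (.sk (.sk (.sk (.sk (.sk (.sk (.sk
  (.sk (.sk (.sk (.sk (.sk (.sk (.sk (.nd (.sk (.sk (.sk (.sk (.sk (.lf 17670809)))))) (.sk (.sk
  (.sk (.sk (.sk (.sk (.lf 17671321))))))))))))))))))))))))))) (.sk (.sk (.sk (.sk (.sk (.sk (.sk
  (.sk (.sk (.sk (.sk (.sk (.sk (.sk (.sk (.nd (.sk (.sk (.sk (.sk (.sk (.sk (.sk (.sk (.sk (.lf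
  17667225)))))))))) (.sk (.sk (.sk (.sk (.sk (.sk (.sk (.sk (.sk (.sk (.lf
  17671321)))))))))))))))))))))))))))))) (.sk (.sk (.sk (.sk (.sk (.sk (.sk (.sk (.sk (.sk (.sk
  (.sk (.sk (.sk (.sk (.sk (.sk (.sk (.sk (.sk (.sk (.nd (.sk (.sk (.sk (.sk (.sk (.sk (.lf
  17666714))))))) (.sk (.sk (.sk (.sk (.sk (.sk (.sk (.lf 17670810))))))))))))))))))))))))))))))))
  (.sk (.nd (.sk (.sk (.nd (.nd (.sk (.sk (.sk (.sk (.sk (.sk (.sk (.sk (.sk (.sk (.sk (.sk (.sk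
  (.nd (.sk (.sk (.nd (.nd (.sk (.sk (.sk (.sk (.sk (.lf 34443928)))))) (.sk (.sk (.sk (.sk (.sk
  (.sk (.lf 34444440)))))))) (.sk (.sk (.sk (.sk (.sk (.sk (.sk (.lf 34448024))))))))))) (.sk (.sk
  (.sk (.sk (.nd (.sk (.sk (.sk (.sk (.sk (.lf 34448024)))))) (.sk (.sk (.sk (.sk (.sk (.sk (.lf
  34448536)))))))))))))))))))))))))) (.sk (.sk (.sk (.sk (.sk (.sk (.sk (.sk (.sk (.sk (.sk (.sk
  (.sk (.sk (.sk (.sk (.sk (.sk (.nd (.sk (.sk (.sk (.sk (.sk (.lf 34448024)))))) (.sk (.sk (.sk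
  (.sk (.sk (.sk (.lf 34448536))))))))))))))))))))))))))) (.sk (.sk (.sk (.sk (.sk (.sk (.sk (.sk
  (.sk (.sk (.sk (.sk (.sk (.sk (.sk (.nd (.sk (.sk (.sk (.sk (.sk (.sk (.sk (.sk (.sk (.lf
  34444440)))))))))) (.sk (.sk (.sk (.sk (.sk (.sk (.sk (.sk (.sk (.sk (.lf
  34448536)))))))))))))))))))))))))))))) (.sk (.sk (.sk (.sk (.sk (.sk (.sk (.sk (.sk (.sk (.sk
  (.sk (.sk (.sk (.sk (.sk (.sk (.sk (.nd (.sk (.sk (.nd (.nd (.sk (.sk (.sk (.sk (.sk (.lf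
  34443929)))))) (.sk (.sk (.sk (.sk (.sk (.sk (.lf 34444441)))))))) (.sk (.sk (.sk (.sk (.sk (.sk
  (.sk (.lf 34448025))))))))))) (.sk (.sk (.sk (.sk (.sk (.sk (.sk (.sk (.sk (.sk (.lf
  34448025))))))))))))))))))))))))))))))))))) (.sk (.sk (.sk (.sk (.nd (.sk (.sk (.nd (.sk (.sk
  (.sk (.sk (.sk (.sk (.sk (.sk (.sk (.sk (.sk (.sk (.sk (.sk (.sk (.sk (.sk (.sk (.nd (.sk (.sk
  (.sk (.sk (.sk (.lf 34447512)))))) (.sk (.sk (.sk (.sk (.sk (.sk (.lf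
  34447513)))))))))))))))))))))))))) (.sk (.sk (.sk (.sk (.sk (.sk (.sk (.sk (.sk (.sk (.sk (.sk
  (.sk (.sk (.sk (.sk (.sk (.sk (.sk (.sk (.sk (.sk (.sk (.sk (.sk (.lf
  34448024))))))))))))))))))))))))))))) (.nd (.sk (.sk (.nd (.sk (.sk (.sk (.sk (.sk (.sk (.sk
  (.sk (.sk (.sk (.sk (.sk (.sk (.sk (.sk (.sk (.sk (.sk (.nd (.sk (.sk (.sk (.sk (.sk (.lf
  34447513)))))) (.sk (.sk (.sk (.sk (.sk (.sk (.lf 34447514)))))))))))))))))))))))))) (.sk (.sk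
  (.sk (.sk (.sk (.sk (.sk (.sk (.sk (.sk (.sk (.sk (.sk (.sk (.sk (.sk (.sk (.sk (.sk (.sk (.sk
  (.sk (.sk (.sk (.sk (.lf 34448025))))))))))))))))))))))))))))) (.sk (.sk (.sk (.sk (.sk (.sk
  (.sk (.sk (.sk (.sk (.sk (.sk (.sk (.sk (.sk (.sk (.sk (.sk (.sk (.sk (.sk (.sk (.sk (.sk (.sk
  (.sk (.sk (.sk (.lf 34447514)))))))))))))))))))))))))))))))))))) (.sk (.sk (.sk (.sk (.sk (.nd
  (.sk (.sk (.sk (.nd (.sk (.sk (.sk (.sk (.sk (.sk (.sk (.sk (.sk (.sk (.sk (.sk (.sk (.nd (.sk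
  (.sk (.sk (.sk (.sk (.sk (.sk (.sk (.sk (.lf 34407640)))))))))) (.sk (.sk (.sk (.sk (.sk (.sk
  (.sk (.sk (.sk (.sk (.lf 34407641))))))))))))))))))))))))) (.sk (.sk (.sk (.sk (.sk (.sk (.sk
  (.sk (.sk (.sk (.sk (.sk (.sk (.sk (.sk (.sk (.sk (.sk (.sk (.sk (.sk (.sk (.sk (.sk (.lf
  34411736))))))))))))))))))))))))))))) (.nd (.sk (.sk (.sk (.nd (.sk (.sk (.sk (.sk (.sk (.sk
  (.sk (.sk (.sk (.sk (.sk (.sk (.sk (.nd (.sk (.sk (.sk (.sk (.sk (.sk (.sk (.sk (.sk (.lf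
  34407641)))))))))) (.sk (.sk (.sk (.sk (.sk (.sk (.sk (.sk (.sk (.sk (.lf
  34407642))))))))))))))))))))))))) (.sk (.sk (.sk (.sk (.sk (.sk (.sk (.sk (.sk (.sk (.sk (.sk
  (.sk (.sk (.sk (.sk (.sk (.sk (.sk (.sk (.sk (.sk (.sk (.sk (.lf
  34411737))))))))))))))))))))))))))))) (.sk (.sk (.sk (.sk (.sk (.sk (.sk (.sk (.sk (.sk (.sk
  (.sk (.sk (.sk (.sk (.sk (.sk (.sk (.sk (.sk (.sk (.sk (.sk (.sk (.sk (.sk (.sk (.sk (.lf
  34407642))))))))))))))))))))))))))))))))))))))) (.sk (.sk (.sk (.sk (.sk (.sk (.sk (.sk (.nd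
  (.sk (.sk (.nd (.nd (.sk (.sk (.sk (.sk (.sk (.sk (.sk (.sk (.sk (.sk (.sk (.sk (.sk (.nd (.sk
  (.sk (.nd (.nd (.sk (.sk (.sk (.sk (.sk (.lf 34443928)))))) (.sk (.sk (.sk (.sk (.sk (.sk (.lf
  34444440)))))))) (.sk (.sk (.sk (.sk (.sk (.sk (.sk (.lf 34448024))))))))))) (.sk (.sk (.sk (.sk
  (.sk (.sk (.sk (.sk (.sk (.sk (.lf 34448024))))))))))))))))))))))))) (.sk (.sk (.sk (.sk (.sk
  (.sk (.sk (.sk (.sk (.sk (.sk (.sk (.sk (.sk (.sk (.sk (.sk (.sk (.nd (.sk (.sk (.sk (.sk (.sk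
  (.lf 34448024)))))) (.sk (.sk (.sk (.sk (.sk (.sk (.lf 34448536))))))))))))))))))))))))))) (.sk
  (.nd (.sk (.sk (.sk (.sk (.sk (.sk (.sk (.sk (.sk (.sk (.sk (.sk (.sk (.nd (.sk (.sk (.sk (.sk
  (.sk (.sk (.sk (.sk (.sk (.lf 34444440)))))))))) (.sk (.sk (.sk (.sk (.sk (.sk (.sk (.sk (.sk
  (.sk (.lf 34448536))))))))))))))))))))))))) (.sk (.sk (.sk (.sk (.sk (.sk (.sk (.sk (.sk (.sk
  (.sk (.sk (.sk (.sk (.sk (.sk (.sk (.sk (.sk (.sk (.sk (.sk (.sk (.sk (.lf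
  34448536)))))))))))))))))))))))))))))) (.sk (.sk (.sk (.nd (.nd (.sk (.sk (.sk (.sk (.sk (.sk
  (.sk (.sk (.sk (.sk (.sk (.sk (.sk (.sk (.sk (.sk (.nd (.sk (.sk (.sk (.sk (.sk (.sk (.lf
  34443929))))))) (.sk (.sk (.sk (.sk (.sk (.sk (.sk (.lf 34448025))))))))))))))))))))))))) (.sk
  (.sk (.sk (.sk (.sk (.sk (.sk (.sk (.sk (.sk (.sk (.sk (.sk (.sk (.sk (.sk (.sk (.sk (.sk (.sk
  (.sk (.sk (.sk (.sk (.lf 34448025)))))))))))))))))))))))))) (.sk (.sk (.sk (.sk (.sk (.sk (.sk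
  (.sk (.sk (.sk (.sk (.sk (.sk (.sk (.sk (.sk (.sk (.sk (.sk (.sk (.sk (.sk (.sk (.sk (.sk (.lf
  34444441)))))))))))))))))))))))))))))))))))))))

def g_zk : List ((ℕ × ℕ) × Bool × Bool) :=
  [((0, 1), false, false), ((0, 2), true, false), ((2, 3), false, false), ((1, 3), false, true),
   ((1, 4), false, false), ((1, 2), true, false), ((2, 5), true, false), ((5, 6), false, false),
   ((5, 7), true, false), ((4, 7), false, false), ((6, 7), false, true), ((4, 6), true, true)]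

def t_zk : CT :=
  .sk (.sk (.sk (.sk (.sk (.sk (.sk (.sk (.sk (.sk (.sk (.sk (.sk (.sk (.sk (.sk (.sk (.sk (.sk
  (.sk (.sk (.sk (.nd (.sk (.sk (.sk (.sk (.sk (.lf 2695376)))))) (.sk (.sk (.sk (.sk (.sk (.sk
  (.lf 2695377)))))))))))))))))))))))))))))

theorem chk_uv : chkK 8 [2, 3, 3, 2, 2, 3, 3, 2] ((1, 6) :: gD) [2, 0, 0, 1, 1, 0, 0, 2] = true :=
  chkK_of_chkW t_uv g_uv (by decide) (by decide) (by decide) (by decide +kernel)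

theorem chk_up : chkK 8 [2, 3, 3, 2, 2, 3, 3, 2] ((1, 0) :: (6, 0) :: gD)
    [0, 0, 0, 1, 1, 0, 0, 2] = true :=
  chkK_of_chkW t_up g_up (by decide) (by decide) (by decide) (by decide +kernel)

theorem chk_uq : chkK 8 [2, 3, 3, 2, 2, 3, 3, 2] ((1, 7) :: (6, 7) :: gD)
    [2, 0, 0, 1, 1, 0, 0, 0] = true :=
  chkK_of_chkW t_uq g_uq (by decide) (by decide) (by decide) (by decide +kernel)

theorem chk_uo : chkK 9 [2, 3, 3, 2, 2, 3, 3, 2, 2] ((1, 8) :: (6, 8) :: gD)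
    [2, 0, 0, 1, 1, 0, 0, 2, 1] = true :=
  chkK_of_chkW t_uo g_uo (by decide) (by decide) (by decide) (by decide +kernel)

theorem chk_zk : chkK 8 [2, 3, 3, 2, 2, 2, 2, 2]
    ((1, 4) :: (2, 5) :: (4, 6) :: (4, 7) :: (5, 6) :: (5, 7) :: (6, 7) :: gZ)
    [1, 0, 0, 2, 0, 0, 0, 0] = true :=
  chkK_of_chkW t_zk g_zk (by decide) (by decide) (by decide) (by decide +kernel)

end Helper19.Kill
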