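import Pool.Agent.helper19.L9.KillW

/-!
# Kernel checks for the cells `F` (a `P_4` with at most one link at its first vertex)
-/

namespace Helper19.Kill

open Helper19.Gadget

set_option maxRecDepth 100000

def g_foo : List ((ℕ × ℕ) × Bool × Bool) :=
  [((4, 5), false, true), ((2, 3), false, false), ((1, 3), false, true), ((1, 4), false, false),
   ((2, 4), false, true), ((0, 1), false, false), ((0, 2), true, false), ((1, 2), true, true)]

def t_foo : CT :=
  .nd (.sk (.sk (.nd (.sk (.sk (.sk (.sk (.sk (.nd (.sk (.sk (.sk (.sk (.sk (.lf 8401)))))) (.sk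
  (.sk (.sk (.sk (.sk (.sk (.lf 8402))))))))))))) (.nd (.sk (.sk (.sk (.sk (.sk (.nd (.sk (.sk
  (.sk (.sk (.sk (.lf 8913)))))) (.sk (.sk (.sk (.sk (.sk (.sk (.lf 8914))))))))))))) (.sk (.sk
  (.sk (.sk (.sk (.sk (.sk (.sk (.sk (.sk (.sk (.sk (.lf 9425))))))))))))))))) (.sk (.sk (.sk (.nd
  (.sk (.sk (.sk (.sk (.sk (.sk (.sk (.sk (.sk (.sk (.sk (.lf 8402)))))))))))) (.sk (.sk (.sk (.sk
  (.sk (.sk (.sk (.sk (.sk (.sk (.sk (.sk (.lf 8914)))))))))))))))))

def g_fk : List ((ℕ × ℕ) × Bool × Bool) :=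
  [((0, 1), false, false), ((0, 2), true, false), ((2, 3), false, false), ((1, 3), false, true),
   ((1, 4), false, false), ((1, 2), true, false), ((2, 5), true, false), ((5, 6), false, false),
   ((5, 7), true, false), ((4, 7), false, false), ((6, 7), false, true), ((4, 6), true, true)]

def t_fk : CT :=
  .sk (.sk (.sk (.sk (.sk (.sk (.sk (.sk (.sk (.sk (.sk (.sk (.sk (.sk (.sk (.sk (.sk (.sk (.sk
  (.sk (.sk (.sk (.nd (.sk (.sk (.sk (.sk (.sk (.lf 2695376)))))) (.sk (.sk (.sk (.sk (.sk (.sk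
  (.lf 2695377)))))))))))))))))))))))))))))

def g_pair : List ((ℕ × ℕ) × Bool × Bool) :=
  [((2, 3), false, false), ((1, 3), false, true), ((5, 6), false, false), ((6, 7), false, false),
   ((4, 6), false, true), ((4, 5), true, false), ((5, 7), true, false), ((2, 7), false, false),
   ((1, 2), false, false), ((0, 2), false, true), ((1, 7), false, true), ((0, 1), true, true)]

def t_pair : CT :=
  .nd (.nd (.lf 4526233) (.sk (.lf 4530329))) (.sk (.nd (.lf 4526234) (.sk (.lf 4530330))))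

def g_cyc : List ((ℕ × ℕ) × Bool × Bool) :=
  [((1, 7), false, false), ((0, 1), false, false), ((1, 2), false, false), ((1, 3), true, false),
   ((0, 2), true, false), ((6, 3), false, false), ((5, 6), false, false), ((6, 7), false, false),
   ((4, 6), false, true), ((5, 3), false, false), ((4, 5), true, false), ((5, 7), true, false),
   ((2, 3), false, true), ((2, 7), true, true)]

def t_cyc : CT :=
  .sk (.sk (.sk (.sk (.sk (.sk (.sk (.sk (.sk (.sk (.sk (.sk (.sk (.sk (.sk (.sk (.sk (.sk (.nd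
  (.sk (.sk (.sk (.sk (.sk (.sk (.sk (.sk (.sk (.lf 5051585)))))))))) (.sk (.sk (.sk (.sk (.sk
  (.sk (.sk (.sk (.sk (.sk (.lf 5055681)))))))))))))))))))))))))))))

theorem chk_fuv : chkK 4 [2, 3, 3, 2] [(1, 2), (0, 1), (1, 2), (2, 3), (0, 2), (1, 3)]
    [1, 0, 0, 2] = true := by
  decide +kernel

theorem chk_fq : chkK 4 [2, 3, 3, 2] [(1, 3), (2, 3), (0, 1), (1, 2), (2, 3), (0, 2), (1, 3)]
    [1, 0, 0, 0] = true := by
  decide +kernel

theorem chk_fo : chkK 5 [2, 3, 3, 2, 2] [(1, 4), (2, 4), (0, 1), (1, 2), (2, 3), (0, 2), (1, 3)]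
    [1, 0, 0, 2, 0] = true := by
  decide +kernel

theorem chk_foo : chkK 6 [2, 3, 3, 2, 2, 2]
    [(1, 4), (2, 4), (4, 5), (0, 1), (1, 2), (2, 3), (0, 2), (1, 3)] [1, 0, 0, 2, 0, 2] = true :=
  chkK_of_chkW t_foo g_foo (by decide) (by decide) (by decide) (by decide +kernel)

theorem chk_fk : chkK 8 [2, 3, 3, 2, 2, 2, 2, 2]
    [(1, 4), (2, 5), (4, 6), (4, 7), (5, 6), (5, 7), (6, 7), (0, 1), (1, 2), (2, 3), (0, 2), (1, 3)]
    [1, 0, 0, 2, 0, 0, 0, 0] = true :=
  chkK_of_chkW t_fk g_fk (by decide) (by decide) (by decide) (by decide +kernel)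

theorem chk_pair : chkKp 8 [2, 3, 3, 2, 2, 3, 3, 2]
    [(1, 7), (2, 7), (0, 1), (1, 2), (2, 3), (0, 2), (1, 3), (4, 5), (5, 6), (6, 7), (4, 6), (5, 7)]
    [1, 0, 0, 2, 1, 1, 1, 0] [(0, 3), (3, 4)] = true :=
  chkKp_of_chkW t_pair g_pair (by decide) (by decide) (by decide) (by decide) (by decide +kernel)

theorem chk_cyc : chkK 8 [2, 3, 3, 2, 2, 3, 3, 2]
    [(1, 7), (2, 7), (5, 3), (6, 3), (0, 1), (1, 2), (2, 3), (0, 2), (1, 3), (4, 5), (5, 6),
      (6, 7), (4, 6), (5, 7)] [1, 0, 0, 0, 1, 0, 0, 0] = true :=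
  chkK_of_chkW t_cyc g_cyc (by decide) (by decide) (by decide) (by decide +kernel)

end Helper19.Kill
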