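import Pool.Agent.helper19.L9.Kill

/-!
# Killer blocks: single coefficients by depth first search

`coM G m` is the coefficient with exponent code `m` of the product over the edges of `G`,
computed by branching over the edges.  An edge carries two marks: the mark says that the end does
not occur in the later edges.  `chkT` is the check over all patterns of further inner edges, with
one exponent code for each pattern (a tree).
-/

set_option linter.unusedSimpArgs false

namespace Helper19.Kill

open MvPolynomial Finset Helper42.L9 Helper19.Gadget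

variable {V : Type*} {n : ℕ} {c : V → ℕ}

/-- force a natural number -/
def frcI (a : ℕ) (f : ℕ → ℤ) : ℤ :=
  match a with
  | 0 => f 0
  | m + 1 => f (m + 1)

theorem frcI_eq (a : ℕ) (f : ℕ → ℤ) : frcI a f = f a := by
  cases a <;> rfl

/-- one branch -/
def brn (m i : ℕ) (i1 : Bool) (j : ℕ) (j1 : Bool) (f : ℕ → ℤ) : ℤ :=
  if m / 8 ^ i % 8 = 0 then 0 else
    frcI (m - 8 ^ i) fun m' =>
      if (i1 && decide (m' / 8 ^ i % 8 ≠ 0)) || (j1 && decide (m' / 8 ^ j % 8 ≠ 0)) then 0
      else f m'

/-- the coefficient -/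
def coM : List ((ℕ × ℕ) × Bool × Bool) → ℕ → ℤ
  | [], m => if m = 0 then 1 else 0
  | e :: G, m => brn m e.1.1 e.2.1 e.1.2 e.2.2 (fun m' => coM G m') -
      brn m e.1.2 e.2.2 e.1.1 e.2.1 (fun m' => coM G m')

/-- the marks are right -/
def valM : List ((ℕ × ℕ) × Bool × Bool) → Bool
  | [] => true
  | e :: G => (!e.2.1 || G.all fun g => decide (g.1.1 ≠ e.1.1 ∧ g.1.2 ≠ e.1.1)) &&
      ((!e.2.2 || G.all fun g => decide (g.1.1 ≠ e.1.2 ∧ g.1.2 ≠ e.1.2)) && valM G)

theorem coeff_off {N : ℕ} (E : List (Fin N × Fin N)) (i : Fin N)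
    (h : ∀ e ∈ E, e.1 ≠ i ∧ e.2 ≠ i) :
    ∀ μ : Fin N →₀ ℕ, μ i ≠ 0 → coeff μ (ep E) = 0 := by
  classical
  induction E with
  | nil =>
    intro μ hμ
    simp only [ep, List.map_nil, List.prod_nil, coeff_one]
    rw [if_neg]
    rintro rfl
    exact hμ rfl
  | cons e E ih =>
    intro μ hμ
    have e2 : ep (e :: E) = X e.1 * ep E - X e.2 * ep E := by
      simp [ep]; ring
    have ih' := ih fun e he => h e (List.mem_cons_of_mem _ he)
    obtain ⟨h1, h2⟩ := h e List.mem_cons_self
    rw [e2, coeff_sub, coeff_X_mul_cases, coeff_X_mul_cases]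
    have z : ∀ j : Fin N, j ≠ i → (if μ j = 0 then (0 : ℤ) else
        coeff (μ - Finsupp.single j 1) (ep E)) = 0 := by
      intro j hj
      split_ifs with h0
      · rfl
      · refine ih' _ ?_
        rw [Finsupp.tsub_apply, Finsupp.single_apply, if_neg hj]
        simpa using hμ
    rw [z _ h1, z _ h2, sub_zero]

theorem coM_eq {N : ℕ} : ∀ (E : List (Fin N × Fin N)) (G : List ((ℕ × ℕ) × Bool × Bool)),
    E.map (fun e => ((e.1 : ℕ), (e.2 : ℕ))) = G.map Prod.fst → valM G = true →
    ∀ μ : Fin N →₀ ℕ, (∀ i, μ i ≤ 7) → coM G (enc μ) = coeff μ (ep E) := by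
  classical
  intro E
  induction E with
  | nil =>
    intro G hG _ μ hμ
    rcases G with _ | ⟨g, G⟩
    · simp only [coM, ep, List.map_nil, List.prod_nil, coeff_one]
      by_cases h : μ = 0
      · subst h
        rw [if_pos, if_pos rfl]
        simp [enc]
      · rw [if_neg, if_neg (Ne.symm h)]
        intro h0
        apply h
        ext i
        have h1 := enc_div μ hμ i
        rw [h0] at h1
        simp at h1
        simp [← h1]
    · simp at hG
  | cons e E ih =>
    intro G hG hv μ hμ
    rcases G with _ | ⟨g, G⟩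
    · simp at hG
    obtain ⟨⟨a, b⟩, a1, b1⟩ := g
    simp only [List.map_cons, List.cons.injEq, Prod.mk.injEq] at hG
    obtain ⟨⟨ha, hb⟩, hG⟩ := hG
    subst ha hb
    rw [valM, Bool.and_eq_true, Bool.and_eq_true] at hv
    obtain ⟨v1, v2, v3⟩ := hv
    simp only at v1 v2
    have IH := ih G hG v3
    have off : ∀ (i : Fin N) (i1 : Bool), (!i1 || G.all fun g =>
        decide (g.1.1 ≠ (i : ℕ) ∧ g.1.2 ≠ (i : ℕ))) = true → i1 = true →
        ∀ ν : Fin N →₀ ℕ, ν i ≠ 0 → coeff ν (ep E) = 0 := by
      intro i i1 h1 h2 ν hν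
      rw [h2, Bool.not_true, Bool.false_or, List.all_eq_true] at h1
      refine coeff_off E i ?_ ν hν
      intro e' he'
      have h3 : ((e'.1 : ℕ), (e'.2 : ℕ)) ∈ G.map Prod.fst := by
        rw [← hG]
        exact List.mem_map.mpr ⟨e', he', rfl⟩
      obtain ⟨g', hg', hg2⟩ := List.mem_map.mp h3
      have h4 := h1 g' hg'
      rw [decide_eq_true_eq, hg2] at h4
      exact ⟨fun h => h4.1 (by rw [h]), fun h => h4.2 (by rw [h])⟩
    have br : ∀ (i j : Fin N) (i1 j1 : Bool), (!i1 || G.all fun g =>
        decide (g.1.1 ≠ (i : ℕ) ∧ g.1.2 ≠ (i : ℕ))) = true →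
        (!j1 || G.all fun g => decide (g.1.1 ≠ (j : ℕ) ∧ g.1.2 ≠ (j : ℕ))) = true →
        brn (enc μ) i i1 j j1 (fun m' => coM G m') = coeff μ (X i * ep E) := by
      intro i j i1 j1 h1 h2
      rw [coeff_X_mul_cases, brn, enc_div μ hμ i]
      by_cases h : μ i = 0
      · rw [if_pos h, if_pos h]
      · rw [if_neg h, if_neg h, frcI_eq]
        set μ' := μ - Finsupp.single i 1 with hμ'
        have e1 : μ = μ' + Finsupp.single i 1 := by
          rw [hμ', tsub_add_cancel_of_le]
          rw [Finsupp.single_le_iff]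
          omega
        have h7 : ∀ j, μ' j ≤ 7 := fun j => by
          have : μ' j ≤ μ j := by rw [hμ', Finsupp.tsub_apply]; omega
          exact this.trans (hμ j)
        have e3 : enc μ - 8 ^ (i : ℕ) = enc μ' := by
          conv_lhs => rw [e1, enc_add_single]
          simp
        rw [e3, enc_div μ' h7, enc_div μ' h7]
        split_ifs with hc
        · rw [Bool.or_eq_true, Bool.and_eq_true, Bool.and_eq_true, decide_eq_true_eq,
            decide_eq_true_eq] at hc
          rcases hc with ⟨k1, k2⟩ | ⟨k1, k2⟩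
          · exact (off i i1 h1 k1 _ k2).symm
          · exact (off j j1 h2 k1 _ k2).symm
        · exact IH μ' h7
    have e2 : ep (e :: E) = X e.1 * ep E - X e.2 * ep E := by
      simp [ep]; ring
    rw [e2, coeff_sub, coM]
    simp only
    rw [br e.1 e.2 a1 b1 v1 v2, br e.2 e.1 b1 a1 v2 v1]

/-! ### patterns -/

/-- certificates -/
inductive CT where
  | lf (m : ℕ) : CT
  | sk (a : CT) : CT
  | nd (a b : CT) : CT

/-- force a list of numbers, reversed -/
def frcA : List ℕ → List ℕ → (List ℕ → Bool) → Bool
  | [], acc, f => f acc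
  | x :: L, acc, f => frcN x fun y => frcA L (y :: acc) f

theorem frcA_eq (L acc : List ℕ) (f : List ℕ → Bool) :
    frcA L acc f = f (L.reverse ++ acc) := by
  induction L generalizing acc with
  | nil => rfl
  | cons x L ih => simp [frcA, frcN_eq, ih]

def frcS (L : List ℕ) (f : List ℕ → Bool) : Bool := frcA L [] fun Q => frcA Q [] f

theorem frcS_eq (L : List ℕ) (f : List ℕ → Bool) : frcS L f = f L := by
  simp [frcS, frcA_eq]

/-- the check over all patterns -/
def chkT (n : ℕ) (cl : List ℕ) : CT → List (ℕ × ℕ) → List ((ℕ × ℕ) × Bool × Bool) →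
    List ℕ → Bool
  | .lf m, [], G, sl => decide (m < 8 ^ n) && (okl cl sl n m && decide (coM G m ≠ 0))
  | .sk a, e :: ps, G, sl => decide (sl.getD e.1 0 = 0 ∨ sl.getD e.2 0 = 0) && chkT n cl a ps G sl
  | .nd a b, e :: ps, G, sl => chkT n cl a ps G sl &&
      frcS (decAt (decAt sl e.1) e.2) fun sl' => chkT n cl b (e :: ps) ((e, false, false) :: G) sl'
  | _, _, _, _ => false

/-- the whole check -/
def chkW (n : ℕ) (cl : List ℕ) (t : CT) (ps : List (ℕ × ℕ))
    (G : List ((ℕ × ℕ) × Bool × Bool)) (sl : List ℕ) : Bool :=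
  ps.all (fun e => decide (e.1 < e.2 ∧ e.2 < n)) && (valM G && chkT n cl t ps G sl)

theorem chkT_sound (g : Fin n → V) (hg : Function.Injective g) (cl : List ℕ)
    (h7 : ∀ i, cp cl i ≤ 7) (hc : ∀ i : Fin n, cp cl i ≤ c (g i)) :
    ∀ (t : CT) (ps : List (ℕ × ℕ)) (sl : List ℕ) (E : List (Fin n × Fin n))
      (G : List ((ℕ × ℕ) × Bool × Bool)) (N : Multiset (Sym2 V)),
      E.map (fun e => ((e.1 : ℕ), (e.2 : ℕ))) = G.map Prod.fst → valM G = true →
      (∀ i : Fin n, dg N (g i) ≤ sl.getD i 0) →
      (∀ e ∈ N, ¬ e.IsDiag) → (∀ e ∈ ps, e.1 < e.2 ∧ e.2 < n) →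
      (∀ i j : Fin n, i < j → s(g i, g j) ∈ N → ((i : ℕ), (j : ℕ)) ∈ ps) →
      chkT n cl t ps G sl = true →
      AT (outt (@Finset.image _ _ (Classical.decEq V) g Finset.univ) N) c →
      AT (emb g E + N) c := by
  classical
  intro t
  induction t with
  | lf m =>
    intro ps sl E G N hEG hv hs hl hps hin h hout
    cases ps with
    | cons e ps => simp [chkT] at h
    | nil =>
      rw [chkT, Bool.and_eq_true, Bool.and_eq_true, decide_eq_true_eq, decide_eq_true_eq] at h
      obtain ⟨h1, h2, h3⟩ := h
      have hdec : ∀ i : Fin n, dec n m i = m / 8 ^ (i : ℕ) % 8 := fun i => by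
        rw [dec, Finsupp.equivFunOnFinite_symm_apply_apply]
      have hle : ∀ i : Fin n, dec n m i + sl.getD i 0 ≤ cp cl i := fun i => by
        rw [hdec]; exact okl_spec h2 i i.2
      refine kill_leaf g hg E (dec n m) ?_ N ?_ ?_ (by convert hout)
      · rw [← coM_eq E G hEG hv (dec n m) fun i => (Nat.le_add_right _ _).trans
          ((hle i).trans (h7 i)), enc_dec n m h1]
        exact h3
      · intro i j hij
        have hne : i ≠ j := by
          rintro rfl
          exact hl _ hij (Sym2.mk_isDiag_iff.mpr rfl)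
        rcases lt_or_gt_of_ne hne with h4 | h4
        · exact absurd (hin i j h4 hij) (by simp)
        · rw [Sym2.eq_swap] at hij
          exact absurd (hin j i h4 hij) (by simp)
      · intro i
        exact (Nat.add_le_add_left (hs i) _).trans ((hle i).trans (hc i))
  | sk a ih =>
    intro ps sl E G N hEG hv hs hl hps hin h hout
    cases ps with
    | nil => simp [chkT] at h
    | cons e ps =>
      rw [chkT, Bool.and_eq_true, decide_eq_true_eq] at h
      obtain ⟨h1, h2⟩ := h
      refine ih ps sl E G N hEG hv hs hl (fun e he => hps e (List.mem_cons_of_mem _ he)) ?_ h2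
        hout
      intro i j hij hm
      rcases List.mem_cons.mp (hin i j hij hm) with h4 | h4
      · exfalso
        rw [← h4] at h1
        simp only at h1
        have hi := hs i
        have hj := hs j
        have p1 : dg N (g i) ≠ 0 := fun h0 => by
          have h5 := Multiset.exists_cons_of_mem hm
          obtain ⟨N', rfl⟩ := h5
          rw [dg_cons_pos (Sym2.mem_mk_left _ _)] at h0
          omega
        have p2 : dg N (g j) ≠ 0 := fun h0 => by
          have h5 := Multiset.exists_cons_of_mem hm
          obtain ⟨N', rfl⟩ := h5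
          rw [dg_cons_pos (Sym2.mem_mk_right _ _)] at h0
          omega
        rcases h1 with h1 | h1 <;> omega
      · exact h4
  | nd a b iha ihb =>
    intro ps sl E G N hEG hv hs hl hps hin h hout
    cases ps with
    | nil => simp [chkT] at h
    | cons e ps =>
      obtain ⟨x, y⟩ := e
      rw [chkT, Bool.and_eq_true, frcS_eq] at h
      obtain ⟨h1, h2⟩ := h
      obtain ⟨hab, hbn⟩ := hps _ List.mem_cons_self
      simp only at hab hbn
      by_cases hmem : s(g ⟨x, by omega⟩, g ⟨y, hbn⟩) ∈ N
      · obtain ⟨N', rfl⟩ := Multiset.exists_cons_of_mem hmem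
        have ha := hs ⟨x, by omega⟩
        have hb := hs ⟨y, hbn⟩
        rw [dg_cons_pos (Sym2.mem_mk_left _ _)] at ha
        rw [dg_cons_pos (Sym2.mem_mk_right _ _)] at hb
        simp only at ha hb
        have e1 : emb g E + s(g ⟨x, by omega⟩, g ⟨y, hbn⟩) ::ₘ N' =
            emb g ((⟨x, by omega⟩, ⟨y, hbn⟩) :: E) + N' := by
          rw [Multiset.add_cons]
          unfold emb
          rw [List.map_cons, ← Multiset.cons_coe, Multiset.cons_add]
        rw [e1]
        refine ihb ((x, y) :: ps) (decAt (decAt sl x) y) ((⟨x, by omega⟩, ⟨y, hbn⟩) :: E)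
          (((x, y), false, false) :: G) N' ?_ ?_ ?_
          (fun e he => hl e (Multiset.mem_cons_of_mem he)) hps ?_ ?_ ?_
        · simp only [List.map_cons, hEG]
        · rw [valM, hv]; rfl
        · intro i
          rw [getD_decAt, getD_decAt]
          by_cases hia : i = ⟨x, by omega⟩
          · subst hia
            rw [if_neg (by simp only; omega), if_pos rfl]
            simp only
            omega
          · by_cases hib : i = ⟨y, hbn⟩
            · subst hib
              rw [if_pos rfl, if_neg (by simp only; omega)]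
              simp only
              omega
            · rw [if_neg fun h => hib (Fin.ext h.symm), if_neg fun h => hia (Fin.ext h.symm)]
              refine le_trans ?_ (hs i)
              rw [dg_cons_neg]
              rw [Sym2.mem_iff]
              rintro (h | h)
              · exact hia (hg h)
              · exact hib (hg h)
        · intro i j hij hm
          exact hin i j hij (Multiset.mem_cons_of_mem hm)
        · exact h2
        · rw [outt_cons_touch ⟨_, Sym2.mem_mk_left _ _, by simp⟩] at hout
          exact hout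
      · refine iha ps sl E G N hEG hv hs hl (fun e he => hps e (List.mem_cons_of_mem _ he)) ?_ h1
          hout
        intro i j hij hm
        rcases List.mem_cons.mp (hin i j hij hm) with h4 | h4
        · exfalso
          simp only [Prod.mk.injEq] at h4
          apply hmem
          have : i = ⟨x, by omega⟩ := Fin.ext h4.1
          have h5 : j = ⟨y, hbn⟩ := Fin.ext h4.2
          rw [← this, ← h5]; exact hm
        · exact h4

/-- **Killer blocks**, certificates. -/
theorem kill_of_chkW (g : Fin n → V) (hg : Function.Injective g) (cl : List ℕ)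
    (h7 : cl.all (· ≤ 7) = true) (hc : ∀ i : Fin n, cp cl i ≤ c (g i)) (sl : List ℕ)
    (E : List (Fin n × Fin n)) (G : List ((ℕ × ℕ) × Bool × Bool))
    (hE : (E.map fun e => ((e.1 : ℕ), (e.2 : ℕ))) = G.map Prod.fst)
    (N : Multiset (Sym2 V)) (hs : ∀ i : Fin n, dg N (g i) ≤ sl.getD i 0)
    (hl : ∀ e ∈ N, ¬ e.IsDiag) (ps : List (ℕ × ℕ))
    (hin : ∀ i j : Fin n, i < j → s(g i, g j) ∈ N → ((i : ℕ), (j : ℕ)) ∈ ps)
    (t : CT) (h : chkW n cl t ps G sl = true)
    (hout : AT (outt (@Finset.image _ _ (Classical.decEq V) g Finset.univ) N) c) :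
    AT (emb g E + N) c := by
  have c7 : ∀ i, cp cl i ≤ 7 := by
    intro i
    unfold cp
    rw [List.getD_eq_getElem?_getD]
    rcases hi : cl[i]? with _ | x
    · simp
    · rw [List.all_eq_true] at h7
      have := h7 x (List.mem_of_getElem? hi)
      simpa using this
  rw [chkW, Bool.and_eq_true, Bool.and_eq_true, List.all_eq_true] at h
  obtain ⟨h1, h2, h3⟩ := h
  exact chkT_sound g hg cl c7 hc t ps sl E G N hE h2 hs hl (fun e he => by simpa using h1 e he)
    hin h3 hout

end Helper19.Kill
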