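import Pool.Agent.helper19.L9.KillQ

/-!
# Killer blocks: the check over all patterns from the certificates

`chkK_of_chkW` and `chkKp_of_chkW` : the checks `chkK`, `chkKp` of `Kill` follow from the cheap
certificate check `chkW` of `KillQ`; the order of the edges does not matter.
-/

set_option linter.unusedSimpArgs false

namespace Helper19.Kill

open MvPolynomial Finset Helper42.L9 Helper19.Gadget

variable {n : ℕ}

theorem cfL_mem {a : ℕ} {P : PL} (h : cfL a P ≠ 0) : ∃ p ∈ P, p.1 = a := by
  induction P with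
  | nil => exact absurd rfl h
  | cons p P ih =>
    by_cases hp : p.1 = a
    · exact ⟨p, List.mem_cons_self, hp⟩
    · rw [cfL, if_neg hp, zero_add] at h
      obtain ⟨q, hq, h2⟩ := ih h
      exact ⟨q, List.mem_cons_of_mem _ hq, h2⟩

theorem sum_decAt_le (sl : List ℕ) (i : ℕ) : (decAt sl i).sum ≤ sl.sum := by
  unfold decAt
  induction sl generalizing i with
  | nil => simp
  | cons x sl ih =>
    cases i with
    | zero => simp
    | succ i =>
      have := ih i
      simp only [List.getD_cons_succ, List.set_cons_succ, List.sum_cons]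
      omega

theorem sum_decAt_lt {sl : List ℕ} {i : ℕ} (h : 1 ≤ sl.getD i 0) :
    (decAt sl i).sum + 1 ≤ sl.sum := by
  unfold decAt
  induction sl generalizing i with
  | nil => simp at h
  | cons x sl ih =>
    cases i with
    | zero =>
      simp only [List.getD_cons_zero] at h
      simp only [List.getD_cons_zero, List.set_cons_zero, List.sum_cons]
      omega
    | succ i =>
      simp only [List.getD_cons_succ] at h
      have := ih h
      simp only [List.getD_cons_succ, List.set_cons_succ, List.sum_cons]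
      omega

theorem chkP_of_chkT (cl : List ℕ) (h7 : ∀ i, cp cl i ≤ 7) :
    ∀ (t : CT) (ps : List (ℕ × ℕ)) (sl : List ℕ) (f : ℕ) (E E' : List (Fin n × Fin n))
      (G : List ((ℕ × ℕ) × Bool × Bool)),
      E.map (fun e => ((e.1 : ℕ), (e.2 : ℕ))) = G.map Prod.fst → valM G = true → E.Perm E' →
      (∀ e ∈ ps, e.1 < e.2 ∧ e.2 < n) → ps.length + sl.sum + 1 ≤ f →
      chkT n cl t ps G sl = true →
      chkP n cl f ps (fst (cp cl) (E'.map fun e => ((e.1 : ℕ), (e.2 : ℕ)))) sl = true := by
  classical
  intro t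
  induction t with
  | lf m =>
    intro ps sl f E E' G hEG hv hp hps hf h
    cases ps with
    | cons e ps => simp [chkT] at h
    | nil =>
      obtain ⟨f, rfl⟩ : ∃ f', f = f' + 1 := ⟨f - 1, by omega⟩
      rw [chkT, Bool.and_eq_true, Bool.and_eq_true, decide_eq_true_eq, decide_eq_true_eq] at h
      obtain ⟨h1, h2, h3⟩ := h
      have hle : ∀ i : Fin n, dec n m i ≤ cp cl i := fun i => by
        have := okl_spec h2 i i.2
        rw [dec, Finsupp.equivFunOnFinite_symm_apply_apply]
        omega
      have hep : ep E = ep E' := by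
        unfold ep
        exact (hp.map _).prod_eq
      have e1 : cfL m (fst (cp cl) (E'.map fun e => ((e.1 : ℕ), (e.2 : ℕ)))) = coM G m := by
        have a1 := coM_eq E G hEG hv (dec n m) fun i => (hle i).trans (h7 i)
        have a2 := cfL_fst (cp cl) h7 E' (dec n m) hle
        rw [enc_dec n m h1] at a1 a2
        rw [a1, a2, hep]
      rw [← e1] at h3
      obtain ⟨p, hpP, hpm⟩ := cfL_mem h3
      rw [chkP, leaf, List.any_eq_true]
      refine ⟨p, hpP, ?_⟩
      rw [hpm, Bool.and_eq_true, Bool.and_eq_true, decide_eq_true_eq, decide_eq_true_eq]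
      exact ⟨⟨h1, h2⟩, h3⟩
  | sk a ih =>
    intro ps sl f E E' G hEG hv hp hps hf h
    cases ps with
    | nil => simp [chkT] at h
    | cons e ps =>
      obtain ⟨f, rfl⟩ : ∃ f', f = f' + 1 := ⟨f - 1, by omega⟩
      rw [chkT, Bool.and_eq_true, decide_eq_true_eq] at h
      obtain ⟨h1, h2⟩ := h
      rw [List.length_cons] at hf
      rw [chkP, Bool.and_eq_true]
      refine ⟨ih ps sl f E E' G hEG hv hp (fun e he => hps e (List.mem_cons_of_mem _ he))
        (by omega) h2, ?_⟩
      rw [if_neg]
      rintro ⟨h3, h4⟩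
      rcases h1 with h1 | h1 <;> omega
  | nd a b iha ihb =>
    intro ps sl f E E' G hEG hv hp hps hf h
    cases ps with
    | nil => simp [chkT] at h
    | cons e ps =>
      obtain ⟨f, rfl⟩ : ∃ f', f = f' + 1 := ⟨f - 1, by omega⟩
      obtain ⟨x, y⟩ := e
      rw [chkT, Bool.and_eq_true, frcS_eq] at h
      obtain ⟨h1, h2⟩ := h
      obtain ⟨hab, hbn⟩ := hps _ List.mem_cons_self
      simp only at hab hbn h2
      rw [List.length_cons] at hf
      rw [chkP, Bool.and_eq_true]
      refine ⟨iha ps sl f E E' G hEG hv hp (fun e he => hps e (List.mem_cons_of_mem _ he))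
        (by omega) h1, ?_⟩
      split_ifs with hc
      · simp only at hc
        rw [frcL_eq]
        refine ihb ((x, y) :: ps) (decAt (decAt sl x) y) f ((⟨x, by omega⟩, ⟨y, hbn⟩) :: E)
          ((⟨x, by omega⟩, ⟨y, hbn⟩) :: E') (((x, y), false, false) :: G) ?_ ?_ (hp.cons _) hps
          ?_ h2
        · simp only [List.map_cons, hEG]
        · rw [valM, hv]; rfl
        · have a1 := sum_decAt_le (decAt sl x) y
          have a2 := sum_decAt_lt hc.1
          rw [List.length_cons]
          omega
      · rfl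

theorem map_pmap_fin (g : List (ℕ × ℕ)) (h : ∀ e ∈ g, e.1 < n ∧ e.2 < n) :
    (g.pmap (fun e he => ((⟨e.1, he.1⟩, ⟨e.2, he.2⟩) : Fin n × Fin n)) h).map
      (fun e => ((e.1 : ℕ), (e.2 : ℕ))) = g := by
  induction g with
  | nil => rfl
  | cons e g ih =>
    rw [List.pmap, List.map_cons, ih]

theorem length_prs (n : ℕ) : (prs n).length ≤ n * n := by
  induction n with
  | zero => simp [prs]
  | succ n ih =>
    rw [prs, List.length_append, List.length_map, List.length_range]
    nlinarith

theorem cap7 {cl : List ℕ} (h7 : cl.all (· ≤ 7) = true) : ∀ i, cp cl i ≤ 7 := by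
  intro i
  unfold cp
  rw [List.getD_eq_getElem?_getD]
  rcases hi : cl[i]? with _ | x
  · simp
  · rw [List.all_eq_true] at h7
    have := h7 x (List.mem_of_getElem? hi)
    simpa using this

/-- **`chkKp` from certificates.** -/
theorem chkKp_of_chkW {cl sl : List ℕ} {g ps : List (ℕ × ℕ)} (t : CT)
    (G : List ((ℕ × ℕ) × Bool × Bool)) (h7 : cl.all (· ≤ 7) = true)
    (hg : (g.all fun e => decide (e.1 < n ∧ e.2 < n)) = true)
    (hG : ((G.map Prod.fst).isPerm g) = true) (hps : ps.length ≤ n * n)
    (h : chkW n cl t ps G sl = true) : chkKp n cl g sl ps = true := by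
  rw [chkW, Bool.and_eq_true, Bool.and_eq_true] at h
  obtain ⟨h1, h2, h3⟩ := h
  rw [chkKp, Bool.and_eq_true]
  refine ⟨h1, ?_⟩
  rw [List.all_eq_true] at h1 hg
  have hp := List.isPerm_iff.1 hG
  have hg1 : ∀ e ∈ g, e.1 < n ∧ e.2 < n := fun e he => by simpa using hg e he
  have hg2 : ∀ e ∈ G.map Prod.fst, e.1 < n ∧ e.2 < n := fun e he => hg1 e (hp.mem_iff.1 he)
  rw [fstC_eq]
  have key := chkP_of_chkT (n := n) cl (cap7 h7) t ps sl (n * n + sl.sum + 2)
    ((G.map Prod.fst).pmap (fun e he => ((⟨e.1, he.1⟩, ⟨e.2, he.2⟩) : Fin n × Fin n)) hg2)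
    (g.pmap (fun e he => ((⟨e.1, he.1⟩, ⟨e.2, he.2⟩) : Fin n × Fin n)) hg1)
    G (map_pmap_fin _ _) h2 (hp.pmap _) (fun e he => by simpa using h1 e he) (by omega) h3
  rw [map_pmap_fin] at key
  exact key

/-- **`chkK` from certificates.** -/
theorem chkK_of_chkW {cl sl : List ℕ} {g : List (ℕ × ℕ)} (t : CT)
    (G : List ((ℕ × ℕ) × Bool × Bool)) (h7 : cl.all (· ≤ 7) = true)
    (hg : (g.all fun e => decide (e.1 < n ∧ e.2 < n)) = true)
    (hG : ((G.map Prod.fst).isPerm g) = true)
    (h : chkW n cl t (prs n) G sl = true) : chkK n cl g sl = true := by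
  have h2 := chkKp_of_chkW t G h7 hg hG (length_prs n) h
  rw [chkKp, Bool.and_eq_true] at h2
  exact h2.2

end Helper19.Kill
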