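import Pool.Agent.helper19.L9.KillF
import Pool.Agent.helper19.L9.KillW

/-!
# Kernel checks for cells `F` with an ordinary vertex
-/

namespace Helper19.Kill

open Helper19.Gadget

set_option maxRecDepth 100000

def g_ffp : List ((ℕ × ℕ) × Bool × Bool) :=
  [((0, 1), false, false), ((0, 2), true, false), ((2, 3), false, false), ((1, 3), false, true),
   ((6, 7), false, false), ((5, 7), false, true), ((2, 5), false, false), ((1, 2), false, true),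
   ((1, 8), true, false), ((4, 5), false, false), ((5, 6), true, false), ((4, 8), false, false),
   ((4, 6), true, false), ((6, 8), true, true)]

def t_ffp : CT :=
  .sk (.sk (.sk (.sk (.sk (.sk (.sk (.sk (.nd (.sk (.sk (.nd (.sk (.sk (.sk (.sk (.sk (.sk (.sk
  (.sk (.sk (.sk (.sk (.sk (.sk (.sk (.sk (.sk (.sk (.sk (.nd (.sk (.sk (.sk (.sk (.sk (.lf
  34443416)))))) (.sk (.sk (.sk (.sk (.sk (.sk (.lf 34443417)))))))))))))))))))))))))) (.nd (.sk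
  (.sk (.sk (.sk (.sk (.sk (.sk (.sk (.sk (.sk (.sk (.sk (.sk (.sk (.sk (.sk (.sk (.sk (.nd (.sk
  (.sk (.sk (.sk (.sk (.lf 34443928)))))) (.sk (.sk (.sk (.sk (.sk (.sk (.lf
  34444440)))))))))))))))))))))))))) (.sk (.sk (.sk (.sk (.sk (.sk (.sk (.sk (.sk (.sk (.sk (.sk
  (.sk (.sk (.sk (.sk (.sk (.sk (.sk (.sk (.sk (.sk (.sk (.sk (.sk (.lf
  34444440)))))))))))))))))))))))))))))) (.sk (.sk (.sk (.nd (.sk (.sk (.sk (.sk (.sk (.sk (.sk
  (.sk (.sk (.sk (.sk (.sk (.sk (.sk (.sk (.sk (.sk (.sk (.sk (.sk (.sk (.sk (.sk (.sk (.lf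
  34443417))))))))))))))))))))))))) (.sk (.sk (.sk (.sk (.sk (.sk (.sk (.sk (.sk (.sk (.sk (.sk
  (.sk (.sk (.sk (.sk (.sk (.sk (.sk (.sk (.sk (.sk (.sk (.sk (.sk (.lf
  34443929))))))))))))))))))))))))))))))))))))))

def g_ffq : List ((ℕ × ℕ) × Bool × Bool) :=
  [((0, 1), false, false), ((0, 2), true, false), ((2, 3), false, false), ((1, 3), false, true),
   ((7, 8), false, false), ((6, 7), false, false), ((5, 7), false, true), ((2, 5), false, false),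
   ((1, 2), false, true), ((1, 8), true, false), ((4, 5), false, false), ((5, 6), true, false),
   ((4, 6), true, false), ((6, 8), true, true)]

def t_ffq : CT :=
  .sk (.sk (.sk (.sk (.sk (.sk (.sk (.sk (.nd (.sk (.sk (.nd (.nd (.sk (.sk (.sk (.sk (.sk (.sk
  (.sk (.sk (.sk (.sk (.sk (.sk (.sk (.nd (.sk (.sk (.nd (.nd (.sk (.sk (.sk (.sk (.sk (.lf
  34410712)))))) (.sk (.sk (.sk (.sk (.sk (.sk (.lf 34410713)))))))) (.sk (.nd (.sk (.sk (.sk (.sk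
  (.sk (.lf 34414808)))))) (.sk (.sk (.sk (.sk (.sk (.sk (.lf 34414809)))))))))))) (.sk (.sk (.sk
  (.sk (.sk (.sk (.sk (.sk (.sk (.sk (.lf 34414808))))))))))))))))))))))))) (.sk (.sk (.sk (.sk
  (.sk (.sk (.sk (.sk (.sk (.sk (.sk (.sk (.sk (.sk (.sk (.sk (.sk (.sk (.nd (.sk (.sk (.sk (.sk
  (.sk (.lf 34414808)))))) (.sk (.sk (.sk (.sk (.sk (.sk (.lf 34414809)))))))))))))))))))))))))))
  (.sk (.sk (.sk (.sk (.sk (.sk (.sk (.sk (.sk (.sk (.sk (.sk (.sk (.sk (.sk (.nd (.sk (.sk (.nd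
  (.nd (.sk (.sk (.sk (.sk (.sk (.lf 34411224)))))) (.sk (.sk (.sk (.sk (.sk (.sk (.lf
  34411736)))))))) (.sk (.sk (.sk (.sk (.sk (.sk (.sk (.lf 34415320))))))))))) (.sk (.sk (.sk (.sk
  (.sk (.sk (.sk (.sk (.sk (.sk (.lf 34415320)))))))))))))))))))))))))))))) (.sk (.sk (.sk (.sk
  (.sk (.sk (.sk (.sk (.sk (.sk (.sk (.sk (.sk (.sk (.sk (.sk (.sk (.sk (.sk (.sk (.sk (.nd (.sk
  (.sk (.sk (.sk (.sk (.sk (.lf 34410713))))))) (.sk (.sk (.sk (.sk (.sk (.sk (.sk (.lf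
  34414809))))))))))))))))))))))))))))))))))))))

/-- `F` and a vertex `o` which sees `u`, `v` and a third vertex outside -/
theorem chk_fo1 : chkKp 5 [2, 3, 3, 2, 2] [(1, 4), (2, 4), (0, 1), (1, 2), (2, 3), (0, 2), (1, 3)]
    [1, 0, 0, 2, 1] [(0, 3)] = true := by
  decide +kernel

/-- two cells and a vertex `x` : `u1 x`, `v1 u2`, `v2 x`, `p2 x` -/
theorem chk_ffp : chkK 9 [2, 3, 3, 2, 2, 3, 3, 2, 2]
    [(1, 8), (2, 5), (6, 8), (4, 8), (0, 1), (1, 2), (2, 3), (0, 2), (1, 3), (4, 5), (5, 6), (6, 7),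
      (4, 6), (5, 7)]
    [1, 0, 0, 2, 0, 0, 0, 2, 0] = true :=
  chkK_of_chkW t_ffp g_ffp (by decide) (by decide) (by decide) (by decide +kernel)

/-- two cells and a vertex `x` : `u1 x`, `v1 u2`, `v2 x`, `q2 x` -/
theorem chk_ffq : chkK 9 [2, 3, 3, 2, 2, 3, 3, 2, 2]
    [(1, 8), (2, 5), (6, 8), (7, 8), (0, 1), (1, 2), (2, 3), (0, 2), (1, 3), (4, 5), (5, 6), (6, 7),
      (4, 6), (5, 7)]
    [1, 0, 0, 2, 1, 0, 0, 1, 0] = true :=
  chkK_of_chkW t_ffq g_ffq (by decide) (by decide) (by decide) (by decide +kernel)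

end Helper19.Kill
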