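import Pool.Agent.helper19.L9.Gadget

/-!
# Every loopless multigraph of small degree at the block gives a list of links
-/

set_option linter.unusedSimpArgs false

namespace Helper19.Gadget

open MvPolynomial Finset Helper42.L9

variable {V : Type*} {n k : ℕ}

theorem free_slot (own : Fin k → Fin n) (l : List (Fin k)) (s : Fin n)
    (h : (l.filter fun i => own i = s).length < (Finset.univ.filter fun i => own i = s).card) :
    ∃ i, own i = s ∧ i ∉ l := by
  classical
  by_contra hcon
  push Not at hcon
  have h1 : (Finset.univ.filter fun i => own i = s) ⊆ (l.filter fun i => own i = s).toFinset := by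
    intro i hi
    rw [Finset.mem_filter] at hi
    rw [List.mem_toFinset, List.mem_filter]
    exact ⟨hcon i hi.2, by simpa using hi.2⟩
  have h2 := Finset.card_le_card h1
  have h3 := List.toFinset_card_le (l.filter fun i => own i = s)
  omega

theorem sls_cons (l : Lk k V) (L : List (Lk k V)) : sls (l :: L) = l.sl ++ sls L := by
  simp [sls]

theorem dg_mk_ne {v a b : V} (h1 : v ≠ a) (h2 : v ≠ b) (M : Multiset (Sym2 V)) :
    dg (s(a, b) ::ₘ M) v = dg M v :=
  dg_cons_neg (by rw [Sym2.mem_iff]; rintro (h | h); exacts [h1 h, h2 h]) M

theorem links_exist₀ {b : Fin n → V} (hb : Function.Injective b) (own : Fin k → Fin n)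
    (L : Multiset (Sym2 V)) (hl : ∀ e ∈ L, ¬ e.IsDiag)
    (hdeg : ∀ s, dg L (b s) ≤ (Finset.univ.filter fun i => own i = s).card) :
    ∃ (I : List (Lk k V)) (N : Multiset (Sym2 V)), (sls I).Nodup ∧ Off b I ∧
      (∀ e ∈ N, ∀ i, b i ∉ e) ∧ L = lkE (fun i => b (own i)) I + N ∧
      (∀ i j, Lk.int i j ∈ I → own i ≠ own j) ∧ (∀ i, Lk.dead i ∉ I) ∧
      ∀ s, ((sls I).filter fun i => own i = s).length = dg L (b s) := by
  classical
  induction L using Multiset.induction_on with
  | empty =>
    refine ⟨[], 0, ?_, ?_, ?_, ?_, ?_, ?_, ?_⟩
    · simp [sls]
    · intro i o h; simp at h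
    · intro e h; simp at h
    · simp [lkE]
    · intro i j h; simp at h
    · intro i h; simp at h
    · intro s; simp [sls, dg]
  | cons e L ih =>
    obtain ⟨I, N, h1, h2, h3, h4, h5, h6, h7⟩ := ih
      (fun e he => hl e (Multiset.mem_cons_of_mem he))
      (fun s => (dg_le_of_le (Multiset.le_cons_self _ _) _).trans (hdeg s))
    have hfree : ∀ s, b s ∈ e → ∃ i, own i = s ∧ i ∉ sls I := by
      intro s hs
      apply free_slot
      have := hdeg s
      rw [dg_cons_pos hs, ← h7 s] at this
      omega
    induction e with
    | _ u v =>
      have huv : u ≠ v := by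
        have := hl _ (Multiset.mem_cons_self _ _)
        rwa [Sym2.mk_isDiag_iff] at this
      by_cases hu : ∃ s, b s = u
      · obtain ⟨s, rfl⟩ := hu
        obtain ⟨i, hi, hiI⟩ := hfree s (Sym2.mem_mk_left _ _)
        by_cases hv : ∃ s', b s' = v
        · obtain ⟨s', rfl⟩ := hv
          obtain ⟨j, hj, hjI⟩ := hfree s' (Sym2.mem_mk_right _ _)
          have hss : s ≠ s' := fun h => huv (by rw [h])
          have hij : i ≠ j := by rintro rfl; exact hss (hi.symm.trans hj)
          refine ⟨Lk.int i j :: I, N, ?_, ?_, h3, ?_, ?_, ?_, ?_⟩
          · rw [sls_cons, Lk.sl]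
            simp only [List.cons_append, List.nil_append, List.nodup_cons, List.mem_cons,
              not_or]
            exact ⟨⟨hij, hiI⟩, hjI, h1⟩
          · intro i' o ho s''
            rcases List.mem_cons.mp ho with h | h
            · exact absurd h (by simp)
            · exact h2 i' o h s''
          · simp only [lkE, hi, hj, Multiset.cons_add]
            rw [← h4]
          · intro i' j' h
            rcases List.mem_cons.mp h with h | h
            · simp only [Lk.int.injEq] at h
              rw [h.1, h.2, hi, hj]; exact hss
            · exact h5 i' j' h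
          · intro i' h
            rcases List.mem_cons.mp h with h | h
            · exact absurd h (by simp)
            · exact h6 i' h
          · intro s''
            rw [sls_cons, Lk.sl]
            simp only [List.cons_append, List.nil_append, List.filter_cons]
            by_cases e1 : s'' = s
            · subst e1
              rw [dg_cons_pos (Sym2.mem_mk_left _ _), ← h7 s'']
              simp [hi, hj, Ne.symm hss]
            · by_cases e2 : s'' = s'
              · subst e2
                rw [dg_cons_pos (Sym2.mem_mk_right _ _), ← h7 s'']
                simp [hi, hj, hss]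
              · rw [dg_mk_ne (fun h => e1 (hb h)) (fun h => e2 (hb h)), ← h7 s'']
                simp [hi, hj, Ne.symm e1, Ne.symm e2]
        · refine ⟨Lk.ext i v :: I, N, ?_, ?_, h3, ?_, ?_, ?_, ?_⟩
          · rw [sls_cons, Lk.sl]
            simp only [List.cons_append, List.nil_append, List.nodup_cons]
            exact ⟨hiI, h1⟩
          · intro i' o ho s''
            rcases List.mem_cons.mp ho with h | h
            · simp only [Lk.ext.injEq] at h
              rw [h.2]; exact fun hh => hv ⟨s'', hh⟩
            · exact h2 i' o h s''
          · simp only [lkE, hi, Multiset.cons_add]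
            rw [← h4]
          · intro i' j' h
            rcases List.mem_cons.mp h with h | h
            · exact absurd h (by simp)
            · exact h5 i' j' h
          · intro i' h
            rcases List.mem_cons.mp h with h | h
            · exact absurd h (by simp)
            · exact h6 i' h
          · intro s''
            rw [sls_cons, Lk.sl]
            simp only [List.cons_append, List.nil_append, List.filter_cons]
            by_cases e1 : s'' = s
            · subst e1
              rw [dg_cons_pos (Sym2.mem_mk_left _ _), ← h7 s'']
              simp [hi]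
            · rw [dg_mk_ne (fun h => e1 (hb h)) (fun h => hv ⟨s'', h⟩), ← h7 s'']
              simp [hi, Ne.symm e1]
      · by_cases hv : ∃ s', b s' = v
        · obtain ⟨s, rfl⟩ := hv
          obtain ⟨i, hi, hiI⟩ := hfree s (Sym2.mem_mk_right _ _)
          refine ⟨Lk.ext i u :: I, N, ?_, ?_, h3, ?_, ?_, ?_, ?_⟩
          · rw [sls_cons, Lk.sl]
            simp only [List.cons_append, List.nil_append, List.nodup_cons]
            exact ⟨hiI, h1⟩
          · intro i' o ho s''
            rcases List.mem_cons.mp ho with h | h
            · simp only [Lk.ext.injEq] at h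
              rw [h.2]; exact fun hh => hu ⟨s'', hh⟩
            · exact h2 i' o h s''
          · simp only [lkE, hi, Multiset.cons_add]
            rw [← h4, Sym2.eq_swap]
          · intro i' j' h
            rcases List.mem_cons.mp h with h | h
            · exact absurd h (by simp)
            · exact h5 i' j' h
          · intro i' h
            rcases List.mem_cons.mp h with h | h
            · exact absurd h (by simp)
            · exact h6 i' h
          · intro s''
            rw [sls_cons, Lk.sl]
            simp only [List.cons_append, List.nil_append, List.filter_cons]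
            by_cases e1 : s'' = s
            · subst e1
              rw [dg_cons_pos (Sym2.mem_mk_right _ _), ← h7 s'']
              simp [hi]
            · rw [dg_mk_ne (fun h => hu ⟨s'', h⟩) (fun h => e1 (hb h)), ← h7 s'']
              simp [hi, Ne.symm e1]
        · refine ⟨I, s(u, v) ::ₘ N, h1, h2, ?_, ?_, h5, h6, ?_⟩
          · intro e he i
            rcases Multiset.mem_cons.mp he with rfl | h
            · rw [Sym2.mem_iff]
              rintro (h | h)
              · exact hu ⟨i, h⟩
              · exact hv ⟨i, h⟩
            · exact h3 e h i
          · rw [Multiset.add_cons, ← h4]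
          · intro s''
            rw [dg_mk_ne (fun h => hu ⟨s'', h⟩) (fun h => hv ⟨s'', h⟩), h7 s'']

theorem sls_map_dead (l : List (Fin k)) : sls (l.map (Lk.dead : Fin k → Lk k V)) = l := by
  induction l with
  | nil => rfl
  | cons i l ih => rw [List.map_cons, sls_cons, ih]; rfl

theorem lkE_append (x : Fin k → V) (I J : List (Lk k V)) :
    lkE x (I ++ J) = lkE x I + lkE x J := by
  induction I with
  | nil => simp [lkE]
  | cons l I ih => cases l <;> simp [lkE, ih]

theorem lkE_map_dead (x : Fin k → V) (l : List (Fin k)) : lkE x (l.map Lk.dead) = 0 := by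
  induction l with
  | nil => rfl
  | cons i l ih => simpa [lkE] using ih

/-- **Links exist.** -/
theorem links_exist {b : Fin n → V} (hb : Function.Injective b) (own : Fin k → Fin n)
    (L : Multiset (Sym2 V)) (hl : ∀ e ∈ L, ¬ e.IsDiag)
    (hdeg : ∀ s, dg L (b s) ≤ (Finset.univ.filter fun i => own i = s).card) :
    ∃ (I : List (Lk k V)) (N : Multiset (Sym2 V)), (sls I).Nodup ∧ (∀ i, i ∈ sls I) ∧ Off b I ∧
      (∀ e ∈ N, ∀ i, b i ∉ e) ∧ L = lkE (fun i => b (own i)) I + N ∧
      (∀ i j, Lk.int i j ∈ I → own i ≠ own j) := by
  classical
  obtain ⟨I, N, h1, h2, h3, h4, h5, h6, h7⟩ := links_exist₀ hb own L hl hdeg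
  set R : List (Fin k) := (List.finRange k).filter fun i => i ∉ sls I with hR
  refine ⟨I ++ R.map Lk.dead, N, ?_, ?_, ?_, h3, ?_, ?_⟩
  · have : sls (I ++ R.map Lk.dead) = sls I ++ R := by
      rw [sls, List.flatMap_append]
      exact congrArg (sls I ++ ·) (sls_map_dead R)
    rw [this, List.nodup_append]
    refine ⟨h1, (List.nodup_finRange k).filter _, ?_⟩
    rintro a ha c hc rfl
    rw [hR, List.mem_filter] at hc
    simp [ha] at hc
  · intro i
    have : sls (I ++ R.map Lk.dead) = sls I ++ R := by
      rw [sls, List.flatMap_append]
      exact congrArg (sls I ++ ·) (sls_map_dead R)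
    rw [this, List.mem_append]
    by_cases hi : i ∈ sls I
    · exact Or.inl hi
    · right
      rw [hR, List.mem_filter]
      exact ⟨List.mem_finRange i, by simpa using hi⟩
  · intro i o h s
    rcases List.mem_append.mp h with h | h
    · exact h2 i o h s
    · obtain ⟨j, _, hj⟩ := List.mem_map.mp h
      exact absurd hj (by simp)
  · rw [lkE_append, lkE_map_dead, add_zero]; exact h4
  · intro i j h
    rcases List.mem_append.mp h with h | h
    · exact h5 i j h
    · obtain ⟨j', _, hj⟩ := List.mem_map.mp h
      exact absurd hj (by simp)

/-- degree in the links -/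
theorem dg_lkE_outside (x : Fin k → V) (I : List (Lk k V)) (v : V) (hv : ∀ i, x i ≠ v) :
    dg (lkE x I) v = I.countP (fun l => match l with
      | .ext _ o => @decide (o = v) (Classical.dec _)
      | _ => false) := by
  classical
  induction I with
  | nil => simp [lkE, dg]
  | cons l I ih =>
    cases l with
    | dead i => rw [lkE, ih, List.countP_cons_of_neg]; simp
    | ext i o =>
      rw [lkE]
      by_cases h : o = v
      · rw [dg_cons_pos (by rw [Sym2.mem_iff]; exact Or.inr h.symm), ih,
          List.countP_cons_of_pos (by simp [h])]
      · rw [dg_mk_ne (Ne.symm (hv i)) (Ne.symm h), ih, List.countP_cons_of_neg (by simp [h])]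
    | int i j =>
      rw [lkE, dg_mk_ne (Ne.symm (hv i)) (Ne.symm (hv j)), ih, List.countP_cons_of_neg (by simp)]

/-- outside the block the degree does not depend on the owners -/
theorem dg_lkE_eq (x y : Fin k → V) (I : List (Lk k V)) (v : V) (hx : ∀ i, x i ≠ v)
    (hy : ∀ i, y i ≠ v) : dg (lkE x I) v = dg (lkE y I) v := by
  rw [dg_lkE_outside x I v hx, dg_lkE_outside y I v hy]

/-- at a block vertex the degree is at most the number of its slots -/
theorem dg_lkE_le (x : Fin k → V) (I : List (Lk k V)) (hI : (sls I).Nodup) (v : V)
    (hv : ∀ i o, Lk.ext i o ∈ I → o ≠ v) :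
    dg (lkE x I) v ≤ @Finset.card (Fin k) (@Finset.filter _ (fun i => x i = v)
      (fun _ => Classical.dec _) Finset.univ) := by
  classical
  have key : dg (lkE x I) v ≤ ((sls I).filter fun i => @decide (x i = v) (Classical.dec _)).length := by
    clear hI
    induction I with
    | nil => simp [lkE, dg]
    | cons l I ih =>
      have ih' := ih fun i o h => hv i o (List.mem_cons_of_mem _ h)
      cases l with
      | dead i =>
        rw [lkE, sls_cons, List.filter_append, List.length_append]
        omega
      | ext i o =>
        have ho := hv i o List.mem_cons_self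
        rw [lkE, sls_cons, List.filter_append, List.length_append]
        by_cases h : x i = v
        · rw [dg_cons_pos (by rw [Sym2.mem_iff]; exact Or.inl h.symm)]
          simp only [Lk.sl, List.filter_cons, h, decide_true, if_true, List.filter_nil,
            List.length_cons, List.length_nil]
          omega
        · rw [dg_mk_ne (Ne.symm h) (Ne.symm ho)]; omega
      | int i j =>
        rw [lkE, sls_cons, List.filter_append, List.length_append]
        by_cases h : x i = v
        · rw [dg_cons_pos (by rw [Sym2.mem_iff]; exact Or.inl h.symm)]
          simp only [Lk.sl, List.filter_cons, h, decide_true, if_true, List.length_cons]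
          omega
        · by_cases h' : x j = v
          · rw [dg_cons_pos (by rw [Sym2.mem_iff]; exact Or.inr h'.symm)]
            simp only [Lk.sl, List.filter_cons, h, h', decide_true, decide_false, if_true,
              if_false, List.length_cons]
            simp only [List.filter_nil, List.length_nil, Bool.false_eq_true, if_false,
              List.length_cons]
            omega
          · rw [dg_mk_ne (Ne.symm h) (Ne.symm h')]; omega
  refine key.trans ?_
  have h2 : ((sls I).filter fun i => @decide (x i = v) (Classical.dec _)).Nodup := hI.filter _
  rw [← List.toFinset_card_of_nodup h2]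
  apply Finset.card_le_card
  intro i hi
  rw [List.mem_toFinset, List.mem_filter] at hi
  rw [Finset.mem_filter]
  exact ⟨Finset.mem_univ _, by simpa using hi.2⟩

end Helper19.Gadget
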