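import Pool.Agent.helper19.L9.Kill
import Pool.Agent.helper42.L9.Cubic3

/-!
# Networks of blocks `D`: definitions and basic steps
-/

set_option linter.unusedSimpArgs false

namespace Helper19.DN

open Finset Helper42.L9 Helper33.L9 Helper19.Kill Helper19.Gadget

variable {V : Type*} {c : V → ℕ} {M N R : Multiset (Sym2 V)} {m n : ℕ}

/-! ### outer edges -/

theorem outt_add (A : Finset V) (M N : Multiset (Sym2 V)) :
    outt A (M + N) = outt A M + outt A N := by
  classical
  unfold outt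
  exact Multiset.filter_add _ _ _

theorem outt_keep {A : Finset V} (h : ∀ e ∈ M, ∀ v ∈ e, v ∉ A) : outt A M = M := by
  classical
  unfold outt
  exact Multiset.filter_eq_self.mpr h

theorem outt_none {A : Finset V} (h : ∀ e ∈ M, ∃ v ∈ e, v ∈ A) : outt A M = 0 := by
  classical
  unfold outt
  rw [Multiset.filter_eq_nil]
  rintro e he h2
  obtain ⟨v, hv, hA⟩ := h e he
  exact h2 v hv hA

theorem outt_empty (M : Multiset (Sym2 V)) : outt ∅ M = M :=
  outt_keep fun _ _ _ _ => Finset.notMem_empty _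

theorem mem_outt {A : Finset V} {e : Sym2 V} : e ∈ outt A M ↔ e ∈ M ∧ ∀ v ∈ e, v ∉ A := by
  classical
  unfold outt
  rw [Multiset.mem_filter]

theorem outt_outt [DecidableEq V] (A B : Finset V) (M : Multiset (Sym2 V)) :
    outt A (outt B M) = outt (A ∪ B) M := by
  classical
  unfold outt
  rw [Multiset.filter_filter]
  refine Multiset.filter_congr fun e _ => ?_
  constructor
  · rintro ⟨h1, h2⟩ v hv h3
    rcases Finset.mem_union.mp h3 with h | h
    · exact h1 v hv h
    · exact h2 v hv h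
  · intro h
    exact ⟨fun v hv h1 => h v hv (Finset.mem_union_left _ h1),
      fun v hv h1 => h v hv (Finset.mem_union_right _ h1)⟩

theorem dg_zero {v : V} (h : ∀ e ∈ M, v ∉ e) : dg M v = 0 := by
  classical
  unfold dg
  rw [Multiset.countP_eq_zero]
  exact h

theorem notMem_of_dg {v : V} (h : dg M v = 0) : ∀ e ∈ M, v ∉ e := by
  classical
  unfold dg at h
  rw [Multiset.countP_eq_zero] at h
  exact h

theorem dg_outt_mem {A : Finset V} {v : V} (h : v ∈ A) : dg (outt A M) v = 0 :=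
  dg_zero fun _ he hv => (mem_outt.mp he).2 v hv h

theorem dg_outt_le (A : Finset V) (M : Multiset (Sym2 V)) (v : V) : dg (outt A M) v ≤ dg M v :=
  dg_le_of_le (Helper19.Kill.outt_le' A M) v

/-- an edge at a vertex of positive degree -/
theorem exists_at {v : V} (h : dg M v ≠ 0) : ∃ a, s(v, a) ∈ M := by
  classical
  unfold dg at h
  obtain ⟨e, he, hv⟩ := (Multiset.countP_pos (p := fun e => v ∈ e)).mp (Nat.pos_of_ne_zero h)
  obtain ⟨w, rfl⟩ := Sym2.mem_iff_exists.mp hv
  exact ⟨w, he⟩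

/-! ### embedded edge lists -/

theorem emb_loopless {f : Fin n → V} (hf : Function.Injective f) {E : List (Fin n × Fin n)}
    (hE : ∀ p ∈ E, p.1 ≠ p.2) : ∀ e ∈ emb f E, ¬ e.IsDiag := by
  intro e he
  obtain ⟨p, hp, rfl⟩ := mem_emb.mp he
  rw [Sym2.mk_isDiag_iff]
  exact fun h => hE p hp (hf h)

theorem dg_emb_out {f : Fin n → V} {E : List (Fin n × Fin n)} {v : V} (h : ∀ i, f i ≠ v) :
    dg (emb f E) v = 0 := by
  refine dg_zero fun e he hv => ?_
  obtain ⟨p, hp, rfl⟩ := mem_emb.mp he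
  rw [Sym2.mem_iff] at hv
  rcases hv with h1 | h1
  · exact h _ h1.symm
  · exact h _ h1.symm

theorem outt_emb {f : Fin n → V} {A : Finset V} {I : List (Fin n)} (hI : ∀ i, f i ∈ A ↔ i ∈ I)
    (E : List (Fin n × Fin n)) :
    outt A (emb f E) = emb f (E.filter fun p => p.1 ∉ I ∧ p.2 ∉ I) := by
  classical
  unfold outt emb
  rw [Multiset.filter_coe, List.filter_map]
  congr 2
  refine List.filter_congr fun p _ => ?_
  simp only [Function.comp_apply, Sym2.mem_iff, forall_eq_or_imp, forall_eq, hI, decide_eq_decide]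

theorem outt_emb_keep {f : Fin n → V} {A : Finset V} (hI : ∀ i, f i ∉ A)
    (E : List (Fin n × Fin n)) : outt A (emb f E) = emb f E := by
  refine outt_keep fun e he v hv => ?_
  obtain ⟨p, hp, rfl⟩ := mem_emb.mp he
  rw [Sym2.mem_iff] at hv
  rcases hv with rfl | rfl
  · exact hI _
  · exact hI _

/-! ### peeling a cell -/

/-- the order `l` peels the cell -/
def chkPeel {n : ℕ} (E : List (Fin n × Fin n)) (κ s : Fin n → ℕ) : List (Fin n) →
    List (Fin n) → Bool
  | [], _ => true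
  | i :: l, I => decide (cnt (E.filter fun p => p.1 ∉ I ∧ p.2 ∉ I) i + s i ≤ κ i) &&
      chkPeel E κ s l (i :: I)

open Classical in
theorem peel_aux {f : Fin n → V} (hf : Function.Injective f) (E : List (Fin n × Fin n))
    (κ s : Fin n → ℕ) (hκ : ∀ i, κ i ≤ c (f i)) (hs : ∀ i, dg N (f i) ≤ s i)
    (hl : ∀ e ∈ emb f E + N, ¬ e.IsDiag) :
    ∀ (l I : List (Fin n)) (A : Finset V), (∀ i, f i ∈ A ↔ i ∈ I) → chkPeel E κ s l I = true →
      AT (outt (A ∪ (l.map f).toFinset) (emb f E + N)) c → AT (outt A (emb f E + N)) c := by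
  intro l
  induction l with
  | nil => intro I A _ _ h; simpa using h
  | cons i l ih =>
    intro I A hI hchk h
    rw [chkPeel, Bool.and_eq_true, decide_eq_true_eq] at hchk
    obtain ⟨h1, h2⟩ := hchk
    refine AT.peel (f i) _ c (fun e he => hl e (Multiset.mem_of_le (Helper19.Kill.outt_le' _ _) he))
      ?_ ?_
    · rw [outt_add, dg_add, outt_emb hI, dg_emb hf]
      have h3 := dg_outt_le A N (f i)
      have h4 := hs i
      have h5 := hκ i
      omega
    · rw [outt_outt]
      refine ih (i :: I) ({f i} ∪ A) ?_ h2 ?_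
      · intro j
        rw [Finset.mem_union, Finset.mem_singleton, hI, List.mem_cons]
        constructor
        · rintro (h | h)
          · exact Or.inl (hf h)
          · exact Or.inr h
        · rintro (rfl | h)
          · exact Or.inl rfl
          · exact Or.inr h
      · have : {f i} ∪ A ∪ (l.map f).toFinset = A ∪ ((i :: l).map f).toFinset := by
          ext v
          simp only [Finset.mem_union, Finset.mem_singleton, List.map_cons, List.toFinset_cons,
            Finset.mem_insert]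
          tauto
        rw [this]
        exact h

/-- the image of a cell -/
noncomputable def img (f : Fin n → V) : Finset V :=
  @Finset.image _ _ (Classical.decEq V) f Finset.univ

theorem mem_img {f : Fin n → V} {v : V} : v ∈ img f ↔ ∃ i, f i = v := by
  classical
  unfold img
  simp

theorem peel_cell {f : Fin n → V} (hf : Function.Injective f) {E : List (Fin n × Fin n)}
    (κ s : Fin n → ℕ) (hκ : ∀ i, κ i ≤ c (f i)) (hs : ∀ i, dg N (f i) ≤ s i)
    (hE : ∀ p ∈ E, p.1 ≠ p.2) (hN : ∀ e ∈ N, ¬ e.IsDiag)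
    (l : List (Fin n)) (hl : ∀ i, i ∈ l) (hchk : chkPeel E κ s l [] = true)
    (h : AT (outt (img f) N) c) : AT (emb f E + N) c := by
  classical
  rw [← outt_empty (emb f E + N)]
  refine peel_aux hf E κ s hκ hs ?_ l [] ∅ (by simp) hchk ?_
  · intro e he
    rcases Multiset.mem_add.mp he with h | h
    · exact emb_loopless hf hE e h
    · exact hN e h
  · have e1 : (∅ : Finset V) ∪ (l.map f).toFinset = img f := by
      ext v
      rw [mem_img]
      simp only [Finset.empty_union, List.mem_toFinset, List.mem_map]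
      constructor
      · rintro ⟨i, _, h⟩; exact ⟨i, h⟩
      · rintro ⟨i, h⟩; exact ⟨i, hl i, h⟩
    rw [e1, outt_add, outt_none (M := emb f E), zero_add]
    · exact h
    · intro e he
      obtain ⟨p, hp, rfl⟩ := mem_emb.mp he
      exact ⟨f p.1, Sym2.mem_mk_left _ _, mem_img.mpr ⟨_, rfl⟩⟩

/-! ### the blocks -/

/-- inner edges of `D` -/
def ED : List (Fin 8 × Fin 8) :=
  [(1, 2), (0, 1), (1, 3), (2, 3), (0, 2), (2, 5), (3, 4), (4, 5), (5, 6), (6, 7), (4, 6), (5, 7)]

/-- inner edges of `Z` -/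
def EZ : List (Fin 4 × Fin 4) := [(0, 1), (1, 2), (2, 3), (0, 2), (1, 3)]

/-- slots of `D` -/
def slD : Fin 8 → ℕ := ![2, 1, 0, 1, 1, 0, 1, 2]

/-- caps of `D` -/
def cD : Fin 8 → ℕ := ![2, 3, 3, 2, 2, 3, 3, 2]

/-- all the inner edges of the blocks -/
noncomputable def T (b : Fin m → Fin 8 → V) : Multiset (Sym2 V) := ∑ j, emb (b j) ED

theorem mem_T {b : Fin m → Fin 8 → V} {e : Sym2 V} : e ∈ T b ↔ ∃ j, e ∈ emb (b j) ED := by
  unfold T
  rw [Multiset.mem_sum]
  simp

theorem T_split (b : Fin (m + 1) → Fin 8 → V) (k : Fin (m + 1)) :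
    T b = emb (b k) ED + T (b ∘ k.succAbove) := by
  unfold T
  rw [Fin.sum_univ_succAbove _ k]
  rfl

theorem dg_T_out {b : Fin m → Fin 8 → V} {v : V} (h : ∀ j i, b j i ≠ v) : dg (T b) v = 0 := by
  refine dg_zero fun e he hv => ?_
  obtain ⟨j, hj⟩ := mem_T.mp he
  obtain ⟨p, hp, rfl⟩ := mem_emb.mp hj
  rw [Sym2.mem_iff] at hv
  rcases hv with h1 | h1
  · exact h _ _ h1.symm
  · exact h _ _ h1.symm

theorem outt_T {b : Fin m → Fin 8 → V} {A : Finset V} (h : ∀ j i, b j i ∉ A) :
    outt A (T b) = T b := by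
  refine outt_keep fun e he v hv => ?_
  obtain ⟨j, hj⟩ := mem_T.mp he
  obtain ⟨p, hp, rfl⟩ := mem_emb.mp hj
  rw [Sym2.mem_iff] at hv
  rcases hv with rfl | rfl
  · exact h _ _
  · exact h _ _

/-- a network of blocks `D` and vertices of degree at most three -/
structure DNet (b : Fin m → Fin 8 → V) (c : V → ℕ) (R : Multiset (Sym2 V)) : Prop where
  inj : ∀ j i j' i', b j i = b j' i' → j = j' ∧ i = i'
  cap : ∀ j, 3 ≤ c (b j 1) ∧ 3 ≤ c (b j 2) ∧ 3 ≤ c (b j 5) ∧ 3 ≤ c (b j 6)
  two : ∀ v, 2 ≤ c v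
  loopless : ∀ e ∈ R, ¬ e.IsDiag
  slots : ∀ j i, dg R (b j i) ≤ slD i
  deg : ∀ v, dg R v ≤ 3
  noK4 : NoK4 R

theorem DNet.binj {b : Fin m → Fin 8 → V} (h : DNet b c R) (j : Fin m) :
    Function.Injective (b j) := fun _ _ hh => (h.inj _ _ _ _ hh).2

theorem T_loopless {b : Fin m → Fin 8 → V} (h : DNet b c R) : ∀ e ∈ T b, ¬ e.IsDiag := by
  intro e he
  obtain ⟨j, hj⟩ := mem_T.mp he
  exact emb_loopless (h.binj j) (by decide) e hj

theorem DNet.sub {b : Fin m → Fin 8 → V} (h : DNet b c R) {R' : Multiset (Sym2 V)}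
    (hR : R' ≤ R) : DNet b c R' :=
  ⟨h.inj, h.cap, h.two, fun e he => h.loopless e (Multiset.mem_of_le hR he),
    fun j i => (dg_le_of_le hR _).trans (h.slots j i), fun v => (dg_le_of_le hR _).trans (h.deg v),
    h.noK4.of_le hR⟩

theorem DNet.rest {b : Fin (m + 1) → Fin 8 → V} (h : DNet b c R) (k : Fin (m + 1)) :
    DNet (b ∘ k.succAbove) c R :=
  ⟨fun j i j' i' hh => by
      obtain ⟨h1, h2⟩ := h.inj _ _ _ _ hh
      exact ⟨Fin.succAbove_right_injective h1, h2⟩,
    fun j => h.cap _, h.two, h.loopless, fun j i => h.slots _ i, h.deg, h.noK4⟩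

theorem DNet.rest_ne {b : Fin (m + 1) → Fin 8 → V} (h : DNet b c R) (k : Fin (m + 1))
    (j : Fin m) (i i' : Fin 8) : (b ∘ k.succAbove) j i ≠ b k i' := by
  intro hh
  exact Fin.succAbove_ne k j (h.inj _ _ _ _ hh).1

theorem DNet.capD {b : Fin m → Fin 8 → V} (h : DNet b c R) (j : Fin m) (i : Fin 8) :
    cD i ≤ c (b j i) := by
  obtain ⟨h1, h2, h3, h4⟩ := h.cap j
  have h2' := fun v => h.two v
  fin_cases i
  · exact h.two _
  · exact h1
  · exact h2
  · exact h.two _
  · exact h.two _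
  · exact h3
  · exact h4
  · exact h.two _

end Helper19.DN
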