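import Pool.Agent.helper19.L9.PCore

/-!
# Components whose own paths have ends
-/

set_option linter.unusedSimpArgs false
set_option linter.unusedSectionVars false

namespace Helper19.P

open Finset Classical Helper42.L9 Helper33.Off Helper97.L9
open Helper33.L9 (cc ownR ownR_ne StarAt QE mem_QE cc_cap)
open Helper85.Bn (Ctx pre mem_pre msk)
open Helper19.Gadget (cp)

variable {V : Type*} [Fintype V] {G : SimpleGraph V} {X D : V → Prop} {S' : Finset V} {n : ℕ}

/-- roots and own paths of the legs -/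
structure Cfg (G : SimpleGraph V) (X D : V → Prop) (t : Ty) (P : ℕ → ℕ → V) (l : ℕ → ℕ) :
    Prop where
  m4 : t.m ≤ 4
  rs8 : ∀ r ∈ t.rs, 8 ≤ r
  rD : ∀ r ∈ t.rs, D (P r 0)
  rall : ∀ d, D d → ∃ r ∈ t.rs, P r 0 = d
  rinj : ∀ r ∈ t.rs, ∀ r' ∈ t.rs, P r 0 = P r' 0 → r = r'
  rnb : ∀ r ∈ t.rs, ∀ w, ownR G X (P r 0) w → ∃ c ∈ t.rnb r, w = P c.1 c.2
  rtc : ∀ j < t.m, t.rtc j ∈ t.rs
  pth : ∀ j < t.m, Pth G X D (P (t.rtc j) 0) (P j) (l j) (fun _ => False)
  dist : ∀ j < t.m, ∀ j' < t.m, P j 0 = P j' 0 → j = j'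
  kd : ∀ j < t.m, (t.kd j = 5 ∧ l j = 1 ∧ (lkS G X (P j 0)).card = 0) ∨
    (t.kd j = 4 ∧ 4 ≤ l j) ∨ (1 ≤ t.kd j ∧ t.kd j ≤ 3 ∧ l j = t.kd j)

variable {t : Ty} {P : ℕ → ℕ → V} {l : ℕ → ℕ}

theorem Cfg.ln_le (hC : Cfg G X D t P l) {j u : ℕ} (hj : j < t.m) (hu : u < ln (t.kd j)) :
    u < l j := by
  rcases hC.kd j hj with ⟨h1, h2, _⟩ | ⟨h1, h2⟩ | ⟨h1, h2, h3⟩
  · rw [h1] at hu; simp only [ln, if_true] at hu; omega
  · rw [h1] at hu; simp only [ln] at hu; norm_num at hu; omega
  · unfold ln at hu; split_ifs at hu <;> omega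

theorem Cfg.le_ln (hC : Cfg G X D t P l) {j u : ℕ} (hj : j < t.m) (hu : u < l j) (h4 : u < 4) :
    u < ln (t.kd j) := by
  rcases hC.kd j hj with ⟨h1, h2, _⟩ | ⟨h1, h2⟩ | ⟨h1, h2, h3⟩
  · rw [h1]; simp only [ln, if_true]; omega
  · rw [h1]; simp only [ln]; norm_num; omega
  · unfold ln; split_ifs <;> omega

theorem Cfg.rootD (hC : Cfg G X D t P l) {j : ℕ} (hj : j < t.m) : D (P (t.rtc j) 0) :=
  hC.rD _ (hC.rtc j hj)

/-- vertices on the legs are different -/
theorem Cfg.inj (hC : Cfg G X D t P l) {j j' u u' : ℕ} (hj : j < t.m) (hj' : j' < t.m)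
    (hu : u < l j) (hu' : u' < l j') (he : P j u = P j' u') : j = j' ∧ u = u' := by
  by_cases h1 : j = j'
  · subst h1
    exact ⟨rfl, (hC.pth j hj).inj' (hC.rootD hj) hu hu' he⟩
  · exfalso
    exact (hC.pth j hj).disj (hC.pth j' hj') (hC.rootD hj) (hC.rootD hj') (fun w hw => hw.elim)
      (fun e => h1 (hC.dist j' hj' j hj e).symm) (fun hf => hf.elim) u' hu' u hu he

theorem beq0 {a : ℕ} (h : Nat.beq a 0 = true) : a = 0 := Nat.eq_of_beq_eq_true h

theorem blt_lt {a b : ℕ} (h : Nat.blt a b = true) : a < b := by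
  unfold Nat.blt at h
  exact Nat.le_of_ble_eq_true h

theorem Ty.blk_cases {c : Cd} (h : t.blk c = true) :
    (c.1 ∈ t.rs ∧ c.2 = 0) ∨ (c.1 < t.m ∧ c.2 < ln (t.kd c.1) ∧ c.2 < 2) := by
  unfold Ty.blk at h
  rw [Bool.or_eq_true, Bool.and_eq_true, Bool.and_eq_true, Bool.and_eq_true] at h
  rcases h with ⟨h1, h2⟩ | ⟨h1, h2, h3⟩
  · exact Or.inl ⟨by simpa using h2, beq0 h1⟩
  · exact Or.inr ⟨blt_lt h1, blt_lt h2, blt_lt h3⟩

theorem Ty.vl_cases {c : Cd} (h : t.vl c = true) :
    (c.1 ∈ t.rs ∧ c.2 = 0) ∨ (c.1 < t.m ∧ c.2 < ln (t.kd c.1) ∧ c.2 < 3) := by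
  unfold Ty.vl at h
  rw [Bool.or_eq_true, Bool.and_eq_true, Bool.and_eq_true, Bool.and_eq_true] at h
  rcases h with ⟨h1, h2⟩ | ⟨h1, h2, h3⟩
  · exact Or.inl ⟨by simpa using h2, beq0 h1⟩
  · exact Or.inr ⟨blt_lt h1, blt_lt h2, blt_lt h3⟩

/-- evaluation of codes -/
def evP (P : ℕ → ℕ → V) (c : Cd) : V := P c.1 c.2

theorem Cfg.good (hC : Cfg G X D t P l) {c : Cd}
    (h : (c.1 ∈ t.rs ∧ c.2 = 0) ∨ (c.1 < t.m ∧ c.2 < ln (t.kd c.1) ∧ c.2 < 3)) :
    Good G X (evP P) t.nb c := by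
  obtain ⟨j, u⟩ := c
  intro w hw
  unfold evP at *
  rcases h with ⟨h1, h2⟩ | ⟨h1, h2, h3⟩
  · simp only at h1 h2 hw
    subst h2
    obtain ⟨c', h4, h5⟩ := hC.rnb j h1 w hw
    refine ⟨c', ?_, h5⟩
    unfold Ty.nb
    rw [if_pos (hC.rs8 j h1)]
    exact h4
  · simp only at h1 h2 h3 hw
    have hj : ¬ 8 ≤ j := by have := hC.m4; omega
    have hul := hC.ln_le h1 h2
    unfold Ty.nb
    simp only [hj, if_false]
    rcases (hC.pth j h1).nb u hul w |>.mp hw with h4 | ⟨h4, h5⟩ | ⟨_, h5⟩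
    · refine ⟨_, List.mem_cons_self, ?_⟩
      cases u with
      | zero => exact h4
      | succ u => exact h4
    · refine ⟨(j, u + 1), List.mem_cons_of_mem _ ?_, h5⟩
      rw [if_pos (hC.le_ln h1 h4 (by omega))]
      exact List.mem_cons_self
    · exact h5.elim

section

variable (hcub : ∀ v, (univ.filter fun b => G.Adj v b).card = 3)

include hcub in
/-- a root has two own neighbours -/
theorem root_two (h : StA G X D) {r : V} (hr : D r) (v : V) : ∃ w, w ≠ v ∧ ownR G X r w := by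
  have h3 := hcub r
  obtain ⟨a, b, c, hab, hac, hbc, he⟩ := Finset.card_eq_three.mp h3
  have ha : G.Adj r a := by
    have : a ∈ univ.filter fun b => G.Adj r b := by rw [he]; simp
    exact (Finset.mem_filter.mp this).2
  have hb : G.Adj r b := by
    have : b ∈ univ.filter fun b => G.Adj r b := by rw [he]; simp
    exact (Finset.mem_filter.mp this).2
  by_cases hav : a = v
  · exact ⟨b, fun e => hab (hav.trans e.symm), hb, (h.k0 r b hr hb).symm⟩
  · exact ⟨a, hav, ha, (h.k0 r a hr ha).symm⟩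

theorem lk_root (h : StA G X D) {r : V} (hr : D r) : (lkS G X r).card = 0 := by
  unfold lkS
  rw [h.cr_root hr]
  simp

include hcub in
/-- the links of the vertices on a leg -/
theorem Cfg.lk3 (h : StA G X D) (hC : Cfg G X D t P l) {j u : ℕ} (hj : j < t.m) (hu : u < l j) :
    (u + 2 < l j → (lkS G X (P j u)).card = 0) ∧ (u + 2 = l j → (lkS G X (P j u)).card ≤ 1) ∧
      (lkS G X (P j u)).card ≤ 2 := by
  have hp := hC.pth j hj
  have hD := hp.nD u hu
  refine ⟨fun h1 => hp.lk0 hcub h (root_two hcub h (hC.rootD hj)) h1, fun h1 => ?_,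
    lk_le hcub h hD⟩
  exact lk_inner hcub h hD (hp.cc3 hcub hu (Or.inl (by omega)))

include hcub in
theorem Cfg.lk (h : StA G X D) (hC : Cfg G X D t P l) {c : Cd} (hb : t.blk c = true) :
    (lkS G X (evP P c)).card ≤ t.lk c := by
  obtain ⟨j, u⟩ := c
  unfold evP
  rcases Ty.blk_cases hb with ⟨h1, h2⟩ | ⟨h1, h2, h3⟩
  · simp only at h1 h2 ⊢
    subst h2
    rw [lk_root h (hC.rD j h1)]
    exact Nat.zero_le _
  · simp only at h1 h2 h3 ⊢
    have hul := hC.ln_le h1 h2
    obtain ⟨k0, k1, k2⟩ := hC.lk3 hcub h h1 hul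
    have hj : ¬ 8 ≤ j := by have := hC.m4; omega
    unfold Ty.lk
    simp only [hj, if_false]
    rcases hC.kd j h1 with ⟨e1, e2, e3⟩ | ⟨e1, e2⟩ | ⟨e1, e2, e3⟩
    · obtain rfl : u = 0 := by omega
      rw [e3]
      exact Nat.zero_le _
    · rw [k0 (by omega)]
      exact Nat.zero_le _
    · have e5 : t.kd j ≠ 5 := by omega
      rw [if_neg e5]
      by_cases e6 : t.kd j = 1
      · rw [if_pos e6]
        obtain rfl : u = 0 := by omega
        have hp := hC.pth j h1
        have ho := (hp.nb 0 hul (P (t.rtc j) 0)).mpr (Or.inl rfl)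
        refine lk_short hcub h (hC.rootD h1) (hp.nD 0 hul) ho.1.symm ?_
        intro w hw
        rcases (hp.nb 0 hul w).mp hw with h4 | ⟨h4, _⟩ | ⟨_, h4⟩
        · exact h4
        · omega
        · exact h4.elim
      · rw [if_neg e6]
        by_cases e7 : u + 1 = t.kd j
        · rw [if_pos e7]; exact k2
        · rw [if_neg e7]
          by_cases e8 : u + 2 = t.kd j
          · rw [if_pos e8]; exact k1 (by omega)
          · rw [if_neg e8, k0 (by omega)]

include hcub in
theorem Cfg.cap (h : StA G X D) (hC : Cfg G X D t P l) {c : Cd} (hb : t.blk c = true) :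
    t.cap c ≤ c3 G X D (evP P c) := by
  obtain ⟨j, u⟩ := c
  unfold evP Ty.cap
  rcases Ty.blk_cases hb with ⟨h1, h2⟩ | ⟨h1, h2, h3⟩
  · simp only at h1 h2 ⊢
    subst h2
    rw [if_pos (hC.rs8 j h1)]
    unfold c3
    rw [if_pos (hC.rD j h1)]
  · simp only at h1 h2 h3 ⊢
    have hul := hC.ln_le h1 h2
    have hj : ¬ 8 ≤ j := by have := hC.m4; omega
    rw [if_neg hj]
    unfold c3
    rw [if_neg ((hC.pth j h1).nD u hul)]
    split_ifs with h4
    · rw [(hC.pth j h1).cc3 hcub hul (Or.inl (hC.ln_le h1 h4))]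
    · rcases cc_cap (G := G) (X := X) (P j u) with h5 | h5 <;> omega

end

theorem Cfg.inCR (h : StA G X D) (hC : Cfg G X D t P l) {j : ℕ} (hj : j < t.m) :
    ∀ u < l j, CR G X D (P j u) := by
  intro u
  induction u with
  | zero =>
    intro hu
    have ho := ((hC.pth j hj).nb 0 hu (P (t.rtc j) 0)).mpr (Or.inl rfl)
    exact CR.closed (ownR_symm' ho) (CR.root (hC.rootD hj))
  | succ u ih =>
    intro hu
    have ho := ((hC.pth j hj).nb (u + 1) hu (P j u)).mpr (Or.inl rfl)
    exact CR.closed (ownR_symm' ho) (ih (by omega))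

/-- codes of the outer vertices -/
def wcd (m : ℕ) (l : ℕ → ℕ) : List Cd :=
  (List.range m).flatMap fun j => (List.range (l j - 2)).map fun u => (j, u + 2)

theorem mem_wcd {m : ℕ} {c : Cd} : c ∈ wcd m l ↔ c.1 < m ∧ 2 ≤ c.2 ∧ c.2 < l c.1 := by
  unfold wcd
  rw [List.mem_flatMap]
  constructor
  · rintro ⟨j, hj, hc⟩
    obtain ⟨u, hu, rfl⟩ := List.mem_map.mp hc
    rw [List.mem_range] at hj hu
    simp only
    omega
  · rintro ⟨h1, h2, h3⟩
    refine ⟨c.1, List.mem_range.mpr h1, List.mem_map.mpr ⟨c.2 - 2, List.mem_range.mpr (by omega),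
      ?_⟩⟩
    ext
    · rfl
    · simp only; omega

theorem wcd_nodup {m : ℕ} : (wcd m l).Nodup := by
  unfold wcd
  rw [List.nodup_flatMap]
  constructor
  · intro j _
    refine (List.nodup_range).map ?_
    intro a b h
    simp only [Prod.mk.injEq] at h
    omega
  · refine List.nodup_range.pairwise_of_forall_ne ?_
    intro a _ b _ hab c hc hc'
    obtain ⟨u, _, rfl⟩ := List.mem_map.mp hc
    obtain ⟨u', _, h⟩ := List.mem_map.mp hc'
    simp only [Prod.mk.injEq] at h
    exact hab h.1.symm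

/-- earlier outer vertices -/
theorem wcd_split {m j u : ℕ} (hj : j < m) (hu : 2 ≤ u) (hul : u < l j) :
    ∃ A B, wcd m l = A ++ (j, u) :: B ∧ ∀ v, 2 ≤ v → v < u → (j, v) ∈ A := by
  obtain ⟨s, t, hst⟩ := List.append_of_mem (List.mem_range.mpr hj)
  obtain ⟨s', t', hst'⟩ := List.append_of_mem (List.mem_range.mpr (by omega : u - 2 < l j - 2))
  refine ⟨(s.flatMap fun j => (List.range (l j - 2)).map fun u => (j, u + 2)) ++
    s'.map (fun u => (j, u + 2)), t'.map (fun u => (j, u + 2)) ++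
    (t.flatMap fun j => (List.range (l j - 2)).map fun u => (j, u + 2)), ?_, ?_⟩
  · unfold wcd
    rw [hst, List.flatMap_append, List.flatMap_cons, hst', List.map_append, List.map_cons]
    have : u - 2 + 2 = u := by omega
    rw [this]
    simp only [List.append_assoc, List.cons_append]
  · intro v hv hvu
    refine List.mem_append.mpr (Or.inr (List.mem_map.mpr ⟨v - 2, ?_, by
      have : v - 2 + 2 = v := by omega
      rw [this]⟩))
    have h1 : v - 2 ∈ List.range (l j - 2) := List.mem_range.mpr (by omega)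
    have h2 := List.pairwise_lt_range (n := l j - 2)
    rw [hst', List.pairwise_append, List.pairwise_cons] at h2
    rw [hst', List.mem_append, List.mem_cons] at h1
    rcases h1 with h1 | h1 | h1
    · exact h1
    · omega
    · have := h2.2.1.1 _ h1
      omega

theorem append_cons_unique {α : Type*} {l1 l2 L1 L2 : List α} {w : α}
    (hn : (L1 ++ w :: L2).Nodup) (he : L1 ++ w :: L2 = l1 ++ w :: l2) : l1 = L1 := by
  induction L1 generalizing l1 with
  | nil =>
    cases l1 with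
    | nil => rfl
    | cons a l1 =>
      exfalso
      simp only [List.nil_append, List.cons_append, List.cons.injEq] at he
      obtain ⟨rfl, he⟩ := he
      rw [List.nil_append, List.nodup_cons] at hn
      exact hn.1 (by rw [he]; simp)
  | cons b L1 ih =>
    cases l1 with
    | nil =>
      exfalso
      simp only [List.nil_append, List.cons_append, List.cons.injEq] at he
      obtain ⟨rfl, he⟩ := he
      rw [List.cons_append, List.nodup_cons] at hn
      exact hn.1 (by simp)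
    | cons a l1 =>
      simp only [List.cons_append, List.cons.injEq] at he
      obtain ⟨rfl, he⟩ := he
      rw [List.cons_append, List.nodup_cons] at hn
      rw [ih hn.2 he]

/-- **Components whose own paths have ends.** -/
theorem Cfg.atW (hcub : ∀ v, (univ.filter fun b => G.Adj v b).card = 3) (h : StA G X D)
    {s : Prop} (hside : ∀ v ∈ S', (X v ↔ s))
    (hE : ENetX (ownN G X (NC X s (CR G X D))) (cN G X (NC X s (CR G X D))) (c3 G X D)
      (QE G X S').val)
    (hC : Cfg G X D t P l) (cd : Fin n → Cd)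
    (E : List (Fin n × Fin n)) (cl sl : List ℕ) (T : List Bool) (hok : t.Ok cd E cl sl T)
    (h3 : Function.Injective (fun i => evP P (cd i)) →
      (∀ i : Fin n, cp cl i ≤ c3 G X D (evP P (cd i))) →
      ∀ N : Multiset (Sym2 V), (∀ i : Fin n, dg N (evP P (cd i)) ≤ sl.getD i 0) →
      Ctx (fun i => evP P (cd i)) (msk T) ((wcd t.m l).map (evP P)) N (c3 G X D) →
      AT (emb (fun i => evP P (cd i)) E + N) (c3 G X D)) : AT (QE G X S').val (c3 G X D) := by
  have hvl : ∀ c, ((c.1 ∈ t.rs ∧ c.2 = 0) ∨ (c.1 < t.m ∧ c.2 < l c.1)) → ∀ c',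
      ((c'.1 ∈ t.rs ∧ c'.2 = 0) ∨ (c'.1 < t.m ∧ c'.2 < l c'.1)) → evP P c = evP P c' →
      c = c' := by
    rintro ⟨j, u⟩ h1 ⟨j', u'⟩ h2 he
    unfold evP at he
    simp only at h1 h2 he
    rcases h1 with ⟨h1, rfl⟩ | ⟨h1, h3⟩ <;> rcases h2 with ⟨h2, rfl⟩ | ⟨h2, h4⟩
    · rw [hC.rinj j h1 j' h2 he]
    · exact absurd (he ▸ hC.rD j h1) ((hC.pth j' h2).nD u' h4)
    · exact absurd (he ▸ hC.rD j' h2) ((hC.pth j h1).nD u h3)
    · obtain ⟨rfl, rfl⟩ := hC.inj h1 h2 h3 h4 he
      rfl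
  have hcd : ∀ i, ((cd i).1 ∈ t.rs ∧ (cd i).2 = 0) ∨ ((cd i).1 < t.m ∧ (cd i).2 < l (cd i).1) := by
    intro i
    rcases Ty.blk_cases (hok.blk i) with h1 | ⟨h1, h2, _⟩
    · exact Or.inl h1
    · exact Or.inr ⟨h1, hC.ln_le h1 h2⟩
  have hW : ∀ {w}, w ∈ (wcd t.m l).map (evP P) ↔
      ∃ j u, j < t.m ∧ 2 ≤ u ∧ u < l j ∧ w = P j u := by
    intro w
    rw [List.mem_map]
    constructor
    · rintro ⟨c, hc, rfl⟩
      obtain ⟨h1, h2, h3⟩ := mem_wcd.mp hc
      exact ⟨c.1, c.2, h1, h2, h3, rfl⟩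
    · rintro ⟨j, u, h1, h2, h3, rfl⟩
      exact ⟨(j, u), mem_wcd.mpr ⟨h1, h2, h3⟩, rfl⟩
  have hWn : ((wcd t.m l).map (evP P)).Nodup := by
    refine List.Nodup.map_on ?_ wcd_nodup
    intro c hc c' hc' he
    obtain ⟨h1, h2, h3⟩ := mem_wcd.mp hc
    obtain ⟨h1', h2', h3'⟩ := mem_wcd.mp hc'
    exact hvl c (Or.inr ⟨h1, h3⟩) c' (Or.inr ⟨h1', h3'⟩) he
  have hblk : ∀ j u, j < t.m → u < l j → u < 2 → ∃ i, cd i = (j, u) := fun j u hj hu h2 =>
    hok.legs j hj u h2 (hC.le_ln hj hu (by omega))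
  have hinj : Function.Injective (fun i => evP P (cd i)) := fun i i' he =>
    hok.inj i i' (hvl _ (hcd i) _ (hcd i') he)
  have hcap : ∀ i : Fin n, cp cl i ≤ c3 G X D (evP P (cd i)) := fun i =>
    (hok.caps i).trans (hC.cap hcub h (hok.blk i))
  refine core_atW hcub h hside hE (evP P) t.nb t.lk cd E cl sl T ((wcd t.m l).map (evP P))
    hinj ?_ ?_ (fun i => hC.lk hcub h (hok.blk i)) hWn ?_ ?_ hok.loop
    hcap hok.slots ?_ (h3 hinj hcap)
  · intro i
    refine hC.good ?_
    rcases Ty.blk_cases (hok.blk i) with h1 | ⟨h1, h2, h4⟩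
    · exact Or.inl h1
    · exact Or.inr ⟨h1, h2, by omega⟩
  · intro i c hc
    exact hC.good (Ty.vl_cases (hok.nbv i c hc))
  · intro w hw i he
    obtain ⟨j, u, h1, h2, h4, rfl⟩ := hW.mp hw
    have h5 := hvl _ (hcd i) (j, u) (Or.inr ⟨h1, h4⟩) he
    rcases Ty.blk_cases (hok.blk i) with ⟨h6, h7⟩ | ⟨_, _, h7⟩
    · rw [h5] at h7; simp only at h7; omega
    · rw [h5] at h7; simp only at h7; omega
  · intro v
    constructor
    · intro hv
      have key : D v ∨ ∃ j u, j < t.m ∧ u < l j ∧ v = P j u := by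
        refine CR.sub (P := fun v => D v ∨ ∃ j u, j < t.m ∧ u < l j ∧ v = P j u)
          (fun d hd => Or.inl hd) ?_ hv
        intro u v huv hu
        rcases hu with hu | ⟨j, k, hj, hk, rfl⟩
        · obtain ⟨r, hr, rfl⟩ := hC.rall u hu
          obtain ⟨c, hc, rfl⟩ := hC.rnb r hr v huv
          obtain ⟨i, hi⟩ := hok.roots r hr
          have h1 : c ∈ t.nb (cd i) := by
            rw [hi]
            unfold Ty.nb
            rw [if_pos (hC.rs8 r hr)]
            exact hc
          rcases Ty.vl_cases (hok.nbv i c h1) with ⟨h2, h4⟩ | ⟨h2, h4, _⟩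
          · left
            rw [h4]
            exact hC.rD _ h2
          · exact Or.inr ⟨c.1, c.2, h2, hC.ln_le h2 h4, rfl⟩
        · rcases ((hC.pth j hj).nb k hk v).mp huv with h1 | ⟨h1, h2⟩ | ⟨_, h1⟩
          · cases k with
            | zero =>
              left
              rw [h1]
              exact hC.rootD hj
            | succ k => exact Or.inr ⟨j, k, hj, by omega, h1⟩
          · exact Or.inr ⟨j, k + 1, hj, h1, h2⟩
          · exact h1.elim
      rcases key with hd | ⟨j, u, hj, hu, rfl⟩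
      · left
        obtain ⟨r, hr, rfl⟩ := hC.rall v hd
        obtain ⟨i, hi⟩ := hok.roots r hr
        exact ⟨i, by rw [hi]; rfl⟩
      · by_cases h2 : u < 2
        · left
          obtain ⟨i, hi⟩ := hblk j u hj hu h2
          exact ⟨i, by rw [hi]; rfl⟩
        · exact Or.inr (hW.mpr ⟨j, u, hj, by omega, hu, rfl⟩)
    · rintro (⟨i, rfl⟩ | hw)
      · unfold evP
        rcases hcd i with ⟨h1, h2⟩ | ⟨h1, h2⟩
        · rw [h2]
          exact CR.root (hC.rD _ h1)
        · exact hC.inCR h h1 _ h2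
      · obtain ⟨j, u, h1, _, h4, rfl⟩ := hW.mp hw
        exact hC.inCR h h1 u h4
  · -- peeling
    intro l1 w l2 hw
    have hwW : w ∈ (wcd t.m l).map (evP P) := by rw [hw]; simp
    obtain ⟨j, u, hj, hu, hul, rfl⟩ := hW.mp hwW
    obtain ⟨A, B, hAB, hA⟩ := wcd_split (m := t.m) (l := l) hj hu hul
    have hl1 : l1 = A.map (evP P) := by
      have h1 : (A.map (evP P) ++ P j u :: B.map (evP P)).Nodup := by
        have : A.map (evP P) ++ P j u :: B.map (evP P) = (wcd t.m l).map (evP P) := by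
          rw [hAB, List.map_append, List.map_cons]; rfl
        rw [this]
        exact hWn
      refine append_cons_unique (L2 := B.map (evP P)) (l2 := l2) (w := P j u) h1 ?_
      rw [← hw, hAB, List.map_append, List.map_cons]
      rfl
    have hp := hC.pth j hj
    -- earlier vertices of the leg
    have hpre : ∀ v, v < u → P j v ∈ pre (fun i => evP P (cd i)) (msk T) l1 := by
      intro v hv
      rw [mem_pre]
      by_cases h2 : 2 ≤ v
      · left
        rw [hl1]
        exact List.mem_map.mpr ⟨(j, v), hA v h2 hv, rfl⟩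
      · right
        have h4 : 3 ≤ t.kd j ∧ t.kd j ≤ 4 := by
          rcases hC.kd j hj with ⟨e1, e2, _⟩ | ⟨e1, e2⟩ | ⟨e1, e2, e3⟩ <;> omega
        rcases hok.mask j hj v (by omega) with h5 | ⟨i, h5, h6⟩
        · exact absurd h4 h5
        · exact ⟨i, h6, by rw [h5]; rfl⟩
    obtain ⟨k0, k1, k2⟩ := hC.lk3 hcub h hj hul
    have own : ∀ z, z ≠ P j u → OTs G X (CR G X D) (P j u) z →
        z ∈ pre (fun i => evP P (cd i)) (msk T) l1 ∨ (u + 1 < l j ∧ z = P j (u + 1)) ∨
          (u + 2 < l j ∧ z = P j (u + 2)) := by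
      intro z hz hot
      obtain ⟨u, rfl⟩ : ∃ v, u = v + 2 := ⟨u - 2, by omega⟩
      rcases hot with h1 | ⟨x, h1, h2⟩
      · rcases (hp.nb _ hul z).mp h1.1 with h4 | ⟨h4, h5⟩ | ⟨_, h4⟩
        · left
          have : z = P j (u + 1) := h4
          rw [this]
          exact hpre _ (by omega)
        · exact Or.inr (Or.inl ⟨h4, h5⟩)
        · exact h4.elim
      · rcases (hp.nb _ hul x).mp h1.1 with h4 | ⟨h4, h5⟩ | ⟨_, h4⟩
        · have h6 : x = P j (u + 1) := h4
          subst h6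
          rcases (hp.nb _ (by omega) z).mp h2.1 with h7 | ⟨_, h7⟩ | ⟨_, h7⟩
          · left
            have : z = P j u := h7
            rw [this]
            exact hpre _ (by omega)
          · exact absurd h7 hz
          · exact h7.elim
        · subst h5
          rcases (hp.nb _ h4 z).mp h2.1 with h7 | ⟨h8, h7⟩ | ⟨_, h7⟩
          · exact absurd h7 hz
          · exact Or.inr (Or.inr ⟨h8, h7⟩)
          · exact h7.elim
        · exact h4.elim
    by_cases c1 : u + 2 < l j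
    · refine ⟨[P j (u + 1), P j (u + 2)], fun z hz hot => ?_, by rw [k0 c1]; simp⟩
      rcases own z hz hot with h1 | ⟨_, rfl⟩ | ⟨_, rfl⟩
      · exact Or.inl h1
      · exact Or.inr (by simp)
      · exact Or.inr (by simp)
    · by_cases c2 : u + 2 = l j
      · refine ⟨[P j (u + 1)], fun z hz hot => ?_, by
          have := k1 c2
          simp only [List.length_cons, List.length_nil]
          omega⟩
        rcases own z hz hot with h1 | ⟨_, rfl⟩ | ⟨h1, _⟩
        · exact Or.inl h1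
        · exact Or.inr (by simp)
        · omega
      · refine ⟨[], fun z hz hot => ?_, by simpa using k2⟩
        rcases own z hz hot with h1 | ⟨h1, _⟩ | ⟨h1, _⟩
        · exact Or.inl h1
        · omega
        · omega

/-- **Components whose own paths have ends.** -/
theorem Cfg.at (hcub : ∀ v, (univ.filter fun b => G.Adj v b).card = 3) (h : StA G X D)
    {s : Prop} (hside : ∀ v ∈ S', (X v ↔ s))
    (hE : ENetX (ownN G X (NC X s (CR G X D))) (cN G X (NC X s (CR G X D))) (c3 G X D)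
      (QE G X S').val)
    (hC : Cfg G X D t P l) (cd : Fin n → Cd)
    (E : List (Fin n × Fin n)) (cl sl : List ℕ) (T : List Bool) (hok : t.Ok cd E cl sl T)
    (h3 : SpecT V cl sl T E) : AT (QE G X S').val (c3 G X D) :=
  hC.atW hcub h hside hE cd E cl sl T hok fun hinj hcap N hN hctx =>
    h3 _ _ hinj hcap _ N hN hctx

/-- no outer vertices -/
theorem Cfg.at0 (hcub : ∀ v, (univ.filter fun b => G.Adj v b).card = 3) (h : StA G X D)
    {s : Prop} (hside : ∀ v ∈ S', (X v ↔ s))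
    (hE : ENetX (ownN G X (NC X s (CR G X D))) (cN G X (NC X s (CR G X D))) (c3 G X D)
      (QE G X S').val)
    (hC : Cfg G X D t P l) (cd : Fin n → Cd)
    (E : List (Fin n × Fin n)) (cl sl : List ℕ) (T : List Bool) (hok : t.Ok cd E cl sl T)
    (hl : ∀ j < t.m, l j ≤ 2)
    (h3 : SpecT0 V cl sl T E) : AT (QE G X S').val (c3 G X D) := by
  have hw : wcd t.m l = [] := by
    rw [List.eq_nil_iff_forall_not_mem]
    intro c hc
    obtain ⟨h1, h2, h4⟩ := mem_wcd.mp hc
    have := hl c.1 h1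
    omega
  refine hC.atW hcub h hside hE cd E cl sl T hok fun hinj hcap N hN hctx => ?_
  rw [hw] at hctx
  exact h3 _ _ hinj hcap N hN hctx

end Helper19.P
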