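import Pool.Agent.helper19.L9.SpanCheck

/-!
# Types of own components: codes and checks

A vertex of the component has the code `(j, t)`: position `t` on leg `j`, or root `j` (`8 ≤ j`,
`t = 0`).  Kinds of legs: `1` short, `2` long with an end, `3` own path with three vertices, `4`
longer own path, `5` short without links.
-/

namespace Helper19.P

open Helper19.Gadget

/-- codes -/
abbrev Cd := ℕ × ℕ

/-- conflicts off the table -/
def ext {n : ℕ} (nb : Cd → List Cd) (cd : Fin n → Cd) (E : List (Fin n × Fin n)) (i : Fin n) :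
    List Cd :=
  (nb (cd i) ++ (nb (cd i)).flatMap nb).filter fun c =>
    decide (c ≠ cd i ∧ ¬ ∃ j, cd j = c ∧ ((i, j) ∈ E ∨ (j, i) ∈ E))

theorem mem_ext {n : ℕ} {nb : Cd → List Cd} {cd : Fin n → Cd} {E : List (Fin n × Fin n)}
    {i : Fin n} {c : Cd} : c ∈ ext nb cd E i ↔ (c ∈ nb (cd i) ∨ ∃ c' ∈ nb (cd i), c ∈ nb c') ∧
      c ≠ cd i ∧ ¬ ∃ j, cd j = c ∧ ((i, j) ∈ E ∨ (j, i) ∈ E) := by
  unfold ext
  rw [List.mem_filter, List.mem_append, List.mem_flatMap, decide_eq_true_eq]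

/-- number of vertices with a code, at most four -/
def ln (k : ℕ) : ℕ := if k = 5 then 1 else k

/-- types of components -/
structure Ty where
  m : ℕ
  rs : List ℕ
  rnb : ℕ → List Cd
  rtc : ℕ → ℕ
  kd : ℕ → ℕ

/-- own neighbours -/
def Ty.nb (t : Ty) (c : Cd) : List Cd :=
  if 8 ≤ c.1 then t.rnb c.1
  else (if c.2 = 0 then (t.rtc c.1, 0) else (c.1, c.2 - 1)) ::
    (if c.2 + 1 < ln (t.kd c.1) then [(c.1, c.2 + 1)] else [])

/-- codes of the block -/
def Ty.blk (t : Ty) (c : Cd) : Bool :=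
  (Nat.beq c.2 0 && t.rs.contains c.1) ||
    (Nat.blt c.1 t.m && (Nat.blt c.2 (ln (t.kd c.1)) && Nat.blt c.2 2))

/-- codes whose neighbours are known -/
def Ty.vl (t : Ty) (c : Cd) : Bool :=
  (Nat.beq c.2 0 && t.rs.contains c.1) ||
    (Nat.blt c.1 t.m && (Nat.blt c.2 (ln (t.kd c.1)) && Nat.blt c.2 3))

/-- number of links -/
def Ty.lk (t : Ty) (c : Cd) : ℕ :=
  if 8 ≤ c.1 then 0
  else if t.kd c.1 = 5 then 0
  else if t.kd c.1 = 1 then 1
  else if c.2 + 1 = t.kd c.1 then 2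
  else if c.2 + 2 = t.kd c.1 then 1
  else 0

/-- caps -/
def Ty.cap (t : Ty) (c : Cd) : ℕ :=
  if 8 ≤ c.1 then 4
  else if c.2 + 1 < ln (t.kd c.1) then 3
  else 2

/-- the checks for a type -/
structure Ty.Ok (t : Ty) {n : ℕ} (cd : Fin n → Cd) (E : List (Fin n × Fin n)) (cl sl : List ℕ)
    (T : List Bool) : Prop where
  inj : ∀ i j, cd i = cd j → i = j
  blk : ∀ i, t.blk (cd i) = true
  nbv : ∀ i, ∀ c ∈ t.nb (cd i), t.vl c = true
  roots : ∀ r ∈ t.rs, ∃ i, cd i = (r, 0)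
  legs : ∀ j < t.m, ∀ u < 2, u < ln (t.kd j) → ∃ i, cd i = (j, u)
  mask : ∀ j < t.m, ∀ u < 2, ¬ (3 ≤ t.kd j ∧ t.kd j ≤ 4) ∨ ∃ i : Fin n, cd i = (j, u) ∧
    T.getD i false = true
  loop : ∀ p ∈ E, p.1 ≠ p.2
  caps : ∀ i : Fin n, cp cl i ≤ t.cap (cd i)
  slots : ∀ i : Fin n, (ext t.nb cd E i).length + t.lk (cd i) ≤ sl.getD i 0

/-- is a code present -/
def hasC {n : ℕ} (cd : Fin n → Cd) (c : Cd) : Bool := decide (∃ i, cd i = c)

/-- is a masked code present -/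
def hasM {n : ℕ} (cd : Fin n → Cd) (T : List Bool) (c : Cd) : Bool :=
  decide (∃ i : Fin n, cd i = c ∧ T.getD i false = true)

/-- the checks, Boolean -/
def Ty.ok (t : Ty) {n : ℕ} (cd : Fin n → Cd) (E : List (Fin n × Fin n)) (cl sl : List ℕ)
    (T : List Bool) : Bool :=
  decide (∀ i j, cd i = cd j → i = j) && (decide (∀ i, t.blk (cd i) = true) &&
  (decide (∀ i, (t.nb (cd i)).all t.vl = true) && (t.rs.all (fun r => hasC cd (r, 0)) &&
  ((List.range t.m).all (fun j => (List.range 2).all fun u =>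
    !(Nat.blt u (ln (t.kd j))) || hasC cd (j, u)) &&
  ((List.range t.m).all (fun j => (List.range 2).all fun u =>
    !(Nat.ble 3 (t.kd j) && Nat.ble (t.kd j) 4) || hasM cd T (j, u)) &&
  (decide (∀ p ∈ E, p.1 ≠ p.2) &&
  (decide (∀ i : Fin n, cp cl i ≤ t.cap (cd i)) &&
  decide (∀ i : Fin n, (ext t.nb cd E i).length + t.lk (cd i) ≤ sl.getD i 0))))))))

theorem Ty.Ok.of (t : Ty) {n : ℕ} {cd : Fin n → Cd} {E : List (Fin n × Fin n)} {cl sl : List ℕ}
    {T : List Bool} (h : t.ok cd E cl sl T = true) : t.Ok cd E cl sl T := by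
  unfold Ty.ok at h
  simp only [Bool.and_eq_true, decide_eq_true_eq, List.all_eq_true, List.mem_range,
    Bool.or_eq_true, Bool.not_eq_true', hasC, hasM] at h
  obtain ⟨h1, h2, h3, h4, h5, h6, h7, h8, h9⟩ := h
  refine ⟨h1, h2, h3, h4, ?_, ?_, h7, h8, h9⟩
  · intro j hj u hu hl
    rcases h5 j hj u hu with h | h
    · exfalso
      have : Nat.blt u (ln (t.kd j)) = true := by
        unfold Nat.blt; rw [Nat.ble_eq]; exact hl
      rw [this] at h
      exact Bool.noConfusion h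
    · exact h
  · intro j hj u hu
    rcases h6 j hj u hu with h | h
    · left
      rintro ⟨ha, hb⟩
      rw [Nat.ble_eq.mpr ha, Nat.ble_eq.mpr hb] at h
      exact Bool.noConfusion h
    · exact Or.inr h

/-- one root -/
def ty1 (k0 k1 k2 : ℕ) : Ty where
  m := 3
  rs := [8]
  rnb := fun _ => [(0, 0), (1, 0), (2, 0)]
  rtc := fun _ => 8
  kd := fun j => [k0, k1, k2].getD j 0

/-- two roots -/
def ty2 (k0 k1 k2 k3 : ℕ) : Ty where
  m := 4
  rs := [8, 9]
  rnb := fun r => if r = 8 then [(9, 0), (0, 0), (1, 0)] else [(8, 0), (2, 0), (3, 0)]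
  rtc := fun j => if j < 2 then 8 else 9
  kd := fun j => [k0, k1, k2, k3].getD j 0

/-! ### tables of the blocks -/

/-- codes from a list -/
def cdOf {n : ℕ} (l : List Cd) (i : Fin n) : Cd := l.getD i (0, 0)

example : (ty2 1 1 1 1).ok (cdOf [(8,0),(9,0),(0,0),(1,0),(2,0),(3,0)])
    [((0 : Fin 6), (1 : Fin 6)),(0,2),(0,3),(0,4),(0,5),(1,2),(1,3),(1,4),(1,5),(2,3),(4,5)]
    [4,4,2,2,2,2] [0,0,1,1,1,1] [] = true := by decide

end Helper19.P
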