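import Pool.Agent.helper19.L9.PSlot
import Pool.Agent.helper85.L9.BnMain

/-!
# Degrees of the own edges and of the links off a table
-/

set_option linter.unusedSimpArgs false
set_option linter.unusedSectionVars false

namespace Helper19.P

open Finset Classical Helper42.L9 Helper33.Off Helper97.L9
open Helper33.L9 (cc ownR ownR_ne StarAt QE mem_QE)

variable {V : Type*} [Fintype V] {G : SimpleGraph V} {X D C : V → Prop} {S' : Finset V}
  {K : Multiset (Sym2 V)}

theorem dg_nodup_le {F : Multiset (Sym2 V)} (hF : F.Nodup) {v : V} (L : List V)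
    (h : ∀ z, s(v, z) ∈ F → z ∈ L) : dg F v ≤ L.length := by
  have h1 : dg F v = (F.toFinset.filter fun e => v ∈ e).card := by
    rw [← dg_val' , Multiset.toFinset_val, Multiset.dedup_eq_self.mpr hF]
  rw [h1]
  have h2 : (F.toFinset.filter fun e => v ∈ e) ⊆ L.toFinset.image fun z => s(v, z) := by
    intro e he
    obtain ⟨h3, h4⟩ := Finset.mem_filter.mp he
    obtain ⟨z, rfl⟩ := Sym2.mem_iff_exists.mp h4
    exact Finset.mem_image.mpr ⟨z, List.mem_toFinset.mpr (h z (Multiset.mem_toFinset.mp h3)), rfl⟩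
  exact (Finset.card_le_card h2).trans (Finset.card_image_le.trans (List.toFinset_card_le L))
where
  dg_val' {E : Finset (Sym2 V)} {v : V} : dg E.val v = (E.filter fun e => v ∈ e).card :=
    Helper33.L9.dg_val E v

theorem OO_nodup : (OO G X C S' K).Nodup := by
  unfold OO
  exact Finset.nodup _

/-- own edges of `v` off the table, after the removal of `A` -/
theorem dg_outt_OO_le {A : Finset V} {v : V} (L : List V)
    (hL : ∀ z, z ≠ v → OTs G X C v z → s(v, z) ∈ K ∨ z ∈ A ∨ z ∈ L) :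
    dg (outt A (OO G X C S' K)) v ≤ L.length := by
  have hnd : (outt A (OO G X C S' K)).Nodup := Multiset.nodup_of_le (outt_le A _) OO_nodup
  refine dg_nodup_le hnd L ?_
  intro z hz
  obtain ⟨h1, h2⟩ := mem_outt.mp hz
  obtain ⟨h3, h4, h5⟩ := mem_OO.mp h1
  have hne : z ≠ v := fun e => (Helper33.L9.qadj_ne (mem_QE.mp h3).2.2) e.symm
  rcases hL z hne h5 with h6 | h6 | h6
  · exact absurd h6 h4
  · exact absurd h6 (h2 z (Sym2.mem_mk_right _ _))
  · exact h6

theorem dg_OO_le {v : V} (L : List V)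
    (hL : ∀ z, z ≠ v → OTs G X C v z → s(v, z) ∈ K ∨ z ∈ L) :
    dg (OO G X C S' K) v ≤ L.length := by
  refine dg_nodup_le OO_nodup L ?_
  intro z hz
  obtain ⟨h3, h4, h5⟩ := mem_OO.mp hz
  have hne : z ≠ v := fun e => (Helper33.L9.qadj_ne (mem_QE.mp h3).2.2) e.symm
  exact (hL z hne h5).resolve_left h4

/-- links of a vertex of the component -/
theorem dg_LL_lk (h : StA G X D) {v : V} (cv : CR G X D v) :
    dg (LL G X (CR G X D) S' K) v ≤ (lkS G X v).card := by
  obtain ⟨d, hd, _⟩ := id cv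
  unfold LL
  refine dg_LK_le (lkS G X v) ?_ ?_
  · intro y hy
    have h1 := mem_cr.mp (Finset.mem_filter.mp hy).1
    refine h.nm y fun hD => ?_
    exact h1.2 ((h.side hD hd).trans (CR.side h hd cv).symm)
  · intro hv z hz hq hn
    obtain ⟨y, h1, h2⟩ := LL_link (fun u v huv hu => CR.closed huv hu) cv hv hz hq hn
    refine ⟨y, Finset.mem_filter.mpr ⟨h1, ?_⟩, h1, h2⟩
    have h3 := mem_cr.mp h1
    have h4 := mem_cr.mp h2
    refine mem_pt.mpr ⟨h3.1, z, Helper33.L9.qadj_ne hq, h4.1.symm, ?_⟩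
    have h5 := h3.2
    have h6 := h4.2
    tauto

theorem dg_LK_le2 (h : StA G X D) {v : V} (cv : CR G X D v) (L : List V)
    (hL : ∀ z, z ≠ v → OTs G X (CR G X D) v z → s(v, z) ∈ K ∨ z ∈ L) :
    dg (LK G X S' K) v ≤ L.length + (lkS G X v).card := by
  rw [LK_split (N := CR G X D) K, dg_add, Nat.add_comm]
  exact Nat.add_le_add (dg_OO_le L hL) (dg_LL_lk h cv)

end Helper19.P
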