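import Pool.Agent.helper19.L9.PChk
import Pool.Agent.helper19.L9.PDeg
import Pool.Agent.helper33.L9.PlusBlk

/-!
# Root blocks from codes
-/

set_option linter.unusedSimpArgs false
set_option linter.unusedSectionVars false

namespace Helper19.P

open Finset Classical Helper42.L9 Helper33.Off Helper97.L9
open Helper33.L9 (cc ownR ownR_ne StarAt QE mem_QE)
open Helper85.Bn (Ctx pre mem_pre msk)
open Helper19.Gadget (cp)

variable {V : Type*} [Fintype V] {G : SimpleGraph V} {X D : V → Prop} {S' : Finset V} {n : ℕ}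

/-- the conclusion of a table of certificates -/
def SpecT (V : Type*) {n : ℕ} (cl sl : List ℕ) (T : List Bool) (E : List (Fin n × Fin n)) : Prop :=
  ∀ (g : Fin n → V) (c : V → ℕ), Function.Injective g → (∀ i : Fin n, cp cl i ≤ c (g i)) →
    ∀ (W : List V) (N : Multiset (Sym2 V)), (∀ i : Fin n, dg N (g i) ≤ sl.getD i 0) →
      Ctx g (msk T) W N c → AT (emb g E + N) c

/-- the conclusion of a table of certificates, no outer vertices -/
def SpecT0 (V : Type*) {n : ℕ} (cl sl : List ℕ) (T : List Bool) (E : List (Fin n × Fin n)) :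
    Prop :=
  ∀ (g : Fin n → V) (c : V → ℕ), Function.Injective g → (∀ i : Fin n, cp cl i ≤ c (g i)) →
    ∀ (N : Multiset (Sym2 V)), (∀ i : Fin n, dg N (g i) ≤ sl.getD i 0) →
      Ctx g (msk T) [] N c → AT (emb g E + N) c

/-- the own neighbours of the vertex with code `c` are known -/
def Good (G : SimpleGraph V) (X : V → Prop) (ev : Cd → V) (nb : Cd → List Cd) (c : Cd) : Prop :=
  ∀ w, ownR G X (ev c) w → ∃ c' ∈ nb c, w = ev c'

/-- **Root blocks from codes.** -/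
theorem core_atW (hcub : ∀ v, (univ.filter fun b => G.Adj v b).card = 3) (h : StA G X D)
    {s : Prop} (hside : ∀ v ∈ S', (X v ↔ s))
    (hE : ENetX (ownN G X (NC X s (CR G X D))) (cN G X (NC X s (CR G X D))) (c3 G X D)
      (QE G X S').val)
    (ev : Cd → V) (nb : Cd → List Cd) (lk : Cd → ℕ) (cd : Fin n → Cd)
    (E : List (Fin n × Fin n)) (cl sl : List ℕ) (T : List Bool) (W : List V)
    (hinj : Function.Injective fun i => ev (cd i))
    (hgood : ∀ i, Good G X ev nb (cd i)) (hgood2 : ∀ i, ∀ c ∈ nb (cd i), Good G X ev nb c)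
    (hlk : ∀ i, (lkS G X (ev (cd i))).card ≤ lk (cd i))
    (hWn : W.Nodup) (hWo : ∀ w ∈ W, ∀ i, ev (cd i) ≠ w)
    (hC : ∀ v, CR G X D v ↔ (∃ i, ev (cd i) = v) ∨ v ∈ W)
    (hloop : ∀ p ∈ E, p.1 ≠ p.2) (hcap : ∀ i : Fin n, cp cl i ≤ c3 G X D (ev (cd i)))
    (hslot : ∀ i : Fin n, (ext nb cd E i).length + lk (cd i) ≤ sl.getD i 0)
    (hpeel : ∀ l1 w l2, W = l1 ++ w :: l2 → ∃ L : List V,
      (∀ z, z ≠ w → OTs G X (CR G X D) w z → z ∈ pre (fun i => ev (cd i)) (msk T) l1 ∨ z ∈ L) ∧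
        L.length + (lkS G X w).card ≤ 2)
    (h3 : ∀ N : Multiset (Sym2 V), (∀ i : Fin n, dg N (ev (cd i)) ≤ sl.getD i 0) →
      Ctx (fun i => ev (cd i)) (msk T) W N (c3 G X D) →
      AT (emb (fun i => ev (cd i)) E + N) (c3 G X D)) : AT (QE G X S').val (c3 G X D) := by
  have hmem : ∀ i, CR G X D (ev (cd i)) := fun i => (hC _).mpr (Or.inl ⟨i, rfl⟩)
  refine plus_block (C := CR G X D) hcub h hside (fun i => ev (cd i)) (msk T) W hinj hWn hWo hC
    (fun u v huv hu => CR.closed huv hu) (fun v _ hv => CR.far h hv) E hloop sl ?_ ?_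
    h3 hE
  · intro i
    refine (dg_LK_le2 h (hmem i) ((ext nb cd E i).map ev) ?_).trans ?_
    · intro z hz hot
      have key : ∃ c, (c ∈ nb (cd i) ∨ ∃ c' ∈ nb (cd i), c ∈ nb c') ∧ z = ev c := by
        rcases hot with h1 | ⟨w, h1, h2⟩
        · obtain ⟨c, h4, h5⟩ := hgood i z h1.1
          exact ⟨c, Or.inl h4, h5⟩
        · obtain ⟨c, h4, h5⟩ := hgood i w h1.1
          subst h5
          obtain ⟨c', h6, h7⟩ := hgood2 i c h4 z h2.1
          exact ⟨c', Or.inr ⟨c, h4, h6⟩, h7⟩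
      obtain ⟨c, h4, rfl⟩ := key
      by_cases h5 : ∃ j, cd j = c ∧ ((i, j) ∈ E ∨ (j, i) ∈ E)
      · left
        obtain ⟨j, rfl, h6⟩ := h5
        exact mem_emb_pair (b := fun i => ev (cd i)) h6
      · right
        refine List.mem_map.mpr ⟨c, mem_ext.mpr ⟨h4, ?_, h5⟩, rfl⟩
        rintro rfl
        exact hz rfl
    · rw [List.length_map]
      exact (Nat.add_le_add_left (hlk i) _).trans (hslot i)
  · intro l1 w l2 hw
    obtain ⟨L, h4, h5⟩ := hpeel l1 w l2 hw
    have hwC : CR G X D w := (hC w).mpr (Or.inr (by rw [hw]; simp))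
    have h6 : dg (outt (pre (fun i => ev (cd i)) (msk T) l1)
        (OO G X (CR G X D) S' (emb (fun i => ev (cd i)) E))) w ≤ L.length :=
      dg_outt_OO_le L fun z hz hot => Or.inr (h4 z hz hot)
    have h7 := dg_LL_lk (S' := S') (K := emb (fun i => ev (cd i)) E) h hwC
    omega

/-- **Root blocks from codes.** -/
theorem core_at (hcub : ∀ v, (univ.filter fun b => G.Adj v b).card = 3) (h : StA G X D)
    {s : Prop} (hside : ∀ v ∈ S', (X v ↔ s))
    (hE : ENetX (ownN G X (NC X s (CR G X D))) (cN G X (NC X s (CR G X D))) (c3 G X D)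
      (QE G X S').val)
    (ev : Cd → V) (nb : Cd → List Cd) (lk : Cd → ℕ) (cd : Fin n → Cd)
    (E : List (Fin n × Fin n)) (cl sl : List ℕ) (T : List Bool) (W : List V)
    (hinj : Function.Injective fun i => ev (cd i))
    (hgood : ∀ i, Good G X ev nb (cd i)) (hgood2 : ∀ i, ∀ c ∈ nb (cd i), Good G X ev nb c)
    (hlk : ∀ i, (lkS G X (ev (cd i))).card ≤ lk (cd i))
    (hWn : W.Nodup) (hWo : ∀ w ∈ W, ∀ i, ev (cd i) ≠ w)
    (hC : ∀ v, CR G X D v ↔ (∃ i, ev (cd i) = v) ∨ v ∈ W)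
    (hloop : ∀ p ∈ E, p.1 ≠ p.2) (hcap : ∀ i : Fin n, cp cl i ≤ c3 G X D (ev (cd i)))
    (hslot : ∀ i : Fin n, (ext nb cd E i).length + lk (cd i) ≤ sl.getD i 0)
    (hpeel : ∀ l1 w l2, W = l1 ++ w :: l2 → ∃ L : List V,
      (∀ z, z ≠ w → OTs G X (CR G X D) w z → z ∈ pre (fun i => ev (cd i)) (msk T) l1 ∨ z ∈ L) ∧
        L.length + (lkS G X w).card ≤ 2)
    (h3 : SpecT V cl sl T E) : AT (QE G X S').val (c3 G X D) :=
  core_atW hcub h hside hE ev nb lk cd E cl sl T W hinj hgood hgood2 hlk hWn hWo hC hloop hcap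
    hslot hpeel fun N hN hctx => h3 _ _ hinj hcap W N hN hctx

end Helper19.P
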