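import Pool.Agent.helper19.L9.PPlus
import Pool.Agent.helper85.L9.BNet

/-!
# The side of the roots, complete
-/

set_option linter.unusedSimpArgs false
set_option linter.unusedSectionVars false

namespace Helper19.P

open Finset Helper42.L9 Helper33.Off Helper97.L9
open Helper85.Bn

theorem ok1 {t : Ty} {n : ℕ} {cd : Fin n → Cd} {E : List (Fin n × Fin n)} {cl sl : List ℕ}
    {T : List Bool} (h : t.ok cd E cl sl T = true) : t.Ok cd E cl sl T := Ty.Ok.of t h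

theorem specs1 (V : Type*) : Specs1 V where
  ess := ⟨5, cdOf [(8,0),(0,0),(0,1),(1,0),(2,0)], eESS, cESS, sESS, tESS, ok1 (by decide),
    fun _ _ hg hc _ _ hd C => at_ESS hg hc hd C⟩
  ees := ⟨6, cdOf [(8,0),(0,0),(0,1),(1,0),(1,1),(2,0)], eEES, cEES, sEES, tEES,
    ok1 (by decide), fun _ _ hg hc _ _ hd C => at_EES hg hc hd C⟩
  eee := ⟨7, cdOf [(8,0),(0,0),(0,1),(1,0),(1,1),(2,0),(2,1)], eEEE, cEEE, sEEE, [],
    ok1 (by decide), fun _ _ hg hc N hd C => at_EEE hg hc N hd C⟩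

theorem sp_ssss (V : Type*) : HasSpec V (ty2 1 1 1 1) :=
  ⟨6, cdOf [(8,0),(9,0),(0,0),(1,0),(2,0),(3,0)], eSSSS, cSSSS, sSSSS, tSSSS,
    ok1 (by decide), fun _ _ hg hc _ _ hd C => at_SSSS hg hc hd C⟩

theorem sp_esss (V : Type*) : HasSpec V (ty2 2 1 1 1) :=
  ⟨7, cdOf [(8,0),(9,0),(0,0),(0,1),(1,0),(2,0),(3,0)], eESSS, cESSS, sESSS, tESSS,
    ok1 (by decide), fun _ _ hg hc _ _ hd C => at_ESSS hg hc hd C⟩

theorem sp_eess (V : Type*) : HasSpec V (ty2 2 2 1 1) :=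
  ⟨8, cdOf [(8,0),(9,0),(0,0),(0,1),(1,0),(1,1),(2,0),(3,0)], eEESS, cEESS, sEESS, tEESS,
    ok1 (by decide), fun _ _ hg hc _ _ hd C => at_EESS hg hc hd C⟩

theorem sp_eses (V : Type*) : HasSpec V (ty2 2 1 2 1) :=
  ⟨8, cdOf [(8,0),(9,0),(0,0),(0,1),(1,0),(2,0),(2,1),(3,0)], eESES, cESES, sESES, tESES,
    ok1 (by decide), fun _ _ hg hc _ _ hd C => at_ESES hg hc hd C⟩

theorem sp_eeed (V : Type*) : HasSpec V (ty2 2 2 2 5) :=
  ⟨9, cdOf [(8,0),(9,0),(0,0),(0,1),(1,0),(1,1),(2,0),(2,1),(3,0)], eEEED, cEEED, sEEED, tEEED,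
    ok1 (by decide), fun _ _ hg hc _ _ hd C => at_EEED hg hc hd C⟩

theorem sp_tsss3 (V : Type*) : HasSpec V (ty2 3 1 1 1) :=
  ⟨7, cdOf [(8,0),(9,0),(0,0),(0,1),(1,0),(2,0),(3,0)], eTSSS, cTSSS, sTSSS, tTSSS,
    ok1 (by decide), fun _ _ hg hc _ _ hd C => at_TSSS hg hc hd C⟩

theorem sp_tsss4 (V : Type*) : HasSpec V (ty2 4 1 1 1) :=
  ⟨7, cdOf [(8,0),(9,0),(0,0),(0,1),(1,0),(2,0),(3,0)], eTSSS, cTSSS, sTSSS, tTSSS,
    ok1 (by decide), fun _ _ hg hc _ _ hd C => at_TSSS hg hc hd C⟩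

theorem sp_tses3 (V : Type*) : HasSpec V (ty2 3 1 2 1) :=
  ⟨8, cdOf [(8,0),(9,0),(0,0),(0,1),(1,0),(2,0),(2,1),(3,0)], eTSES, cTSES, sTSES, tTSES,
    ok1 (by decide), fun _ _ hg hc _ _ hd C => at_TSES hg hc hd C⟩

theorem sp_tses4 (V : Type*) : HasSpec V (ty2 4 1 2 1) :=
  ⟨8, cdOf [(8,0),(9,0),(0,0),(0,1),(1,0),(2,0),(2,1),(3,0)], eTSES, cTSES, sTSES, tTSES,
    ok1 (by decide), fun _ _ hg hc _ _ hd C => at_TSES hg hc hd C⟩

theorem sp_tsts33 (V : Type*) : HasSpec V (ty2 3 1 3 1) :=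
  ⟨8, cdOf [(8,0),(9,0),(0,0),(0,1),(1,0),(2,0),(2,1),(3,0)], eTSTS, cTSTS, sTSTS, tTSTS,
    ok1 (by decide), fun _ _ hg hc _ _ hd C => at_TSTS hg hc hd C⟩

theorem sp_tsts34 (V : Type*) : HasSpec V (ty2 3 1 4 1) :=
  ⟨8, cdOf [(8,0),(9,0),(0,0),(0,1),(1,0),(2,0),(2,1),(3,0)], eTSTS, cTSTS, sTSTS, tTSTS,
    ok1 (by decide), fun _ _ hg hc _ _ hd C => at_TSTS hg hc hd C⟩

theorem sp_tsts43 (V : Type*) : HasSpec V (ty2 4 1 3 1) :=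
  ⟨8, cdOf [(8,0),(9,0),(0,0),(0,1),(1,0),(2,0),(2,1),(3,0)], eTSTS, cTSTS, sTSTS, tTSTS,
    ok1 (by decide), fun _ _ hg hc _ _ hd C => at_TSTS hg hc hd C⟩

theorem sp_tsts44 (V : Type*) : HasSpec V (ty2 4 1 4 1) :=
  ⟨8, cdOf [(8,0),(9,0),(0,0),(0,1),(1,0),(2,0),(2,1),(3,0)], eTSTS, cTSTS, sTSTS, tTSTS,
    ok1 (by decide), fun _ _ hg hc _ _ hd C => at_TSTS hg hc hd C⟩

theorem sp_eetd3 (V : Type*) : HasSpec V (ty2 2 2 3 5) :=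
  ⟨9, cdOf [(8,0),(9,0),(0,0),(0,1),(1,0),(1,1),(2,0),(2,1),(3,0)], eEETD, cEETD, sEETD, tEETD,
    ok1 (by decide), fun _ _ hg hc _ _ hd C => at_EETD hg hc hd C⟩

theorem sp_eetd4 (V : Type*) : HasSpec V (ty2 2 2 4 5) :=
  ⟨9, cdOf [(8,0),(9,0),(0,0),(0,1),(1,0),(1,1),(2,0),(2,1),(3,0)], eEETD, cEETD, sEETD, tEETD,
    ok1 (by decide), fun _ _ hg hc _ _ hd C => at_EETD hg hc hd C⟩

theorem specs2 (V : Type*) : Specs2 V where
  ssss := sp_ssss V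
  esss := sp_esss V
  eess := sp_eess V
  eses := sp_eses V
  eeed := sp_eeed V
  tsss := fun k hk => by
    rcases hk with rfl | rfl
    · exact sp_tsss3 V
    · exact sp_tsss4 V
  tses := fun k hk => by
    rcases hk with rfl | rfl
    · exact sp_tses3 V
    · exact sp_tses4 V
  tsts := fun k m hk hm => by
    rcases hk with rfl | rfl <;> rcases hm with rfl | rfl
    · exact sp_tsts33 V
    · exact sp_tsts34 V
    · exact sp_tsts43 V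
    · exact sp_tsts44 V
  eetd := fun k hk => by
    rcases hk with rfl | rfl
    · exact sp_eetd3 V
    · exact sp_eetd4 V

theorem hasK0 (V : Type*) : HasK0 V :=
  ⟨eSSSS, cSSSS, sSSSS, tSSSS, by decide, by decide, by decide,
    fun _ _ hg hc _ _ hd C => at_SSSS hg hc hd C⟩

end Helper19.P
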