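import Pool.Agent.helper19.L9.PTwo

/-!
# Two roots with adjacent legs
-/

set_option linter.unusedSimpArgs false
set_option linter.unusedSectionVars false

namespace Helper19.P

open Finset Helper42.L9 Helper33.Off Helper97.L9
open Helper33.L9 (cc ownR ownR_ne StarAt QE mem_QE cc_cap)
open Helper85.Bn (Ctx pre mem_pre msk)
open Helper19.Gadget (cp)
open Helper42.PP (Two)

/-- own neighbours, legs `a`, `c` adjacent -/
def nb0 (c : Cd) : List Cd :=
  if c = (8, 0) then [(9, 0), (0, 0), (1, 0)]
  else if c = (9, 0) then [(8, 0), (2, 0), (3, 0)]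
  else if c = (0, 0) then [(8, 0), (2, 0)]
  else if c = (1, 0) then [(8, 0)]
  else if c = (2, 0) then [(9, 0), (0, 0)]
  else [(9, 0)]

/-- links -/
def lk0 (c : Cd) : ℕ := if c = (1, 0) ∨ c = (3, 0) then 1 else 0

/-- the codes -/
def L6 : List Cd := [(8, 0), (9, 0), (0, 0), (1, 0), (2, 0), (3, 0)]

/-- the codes -/
def cd0 : Fin 6 → Cd := cdOf L6

/-- there is a table of certificates -/
def HasK0 (V : Type*) : Prop :=
  ∃ (E : List (Fin 6 × Fin 6)) (cl sl : List ℕ) (T : List Bool), (∀ p ∈ E, p.1 ≠ p.2) ∧
    (∀ i : Fin 6, cp cl i ≤ [4, 4, 2, 2, 2, 2].getD i 0) ∧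
    (∀ i : Fin 6, (ext nb0 cd0 E i).length + lk0 (cd0 i) ≤ sl.getD i 0) ∧ SpecT V cl sl T E

theorem cd0_mem : ∀ i, cd0 i ∈ L6 := by decide

theorem nb0_mem : ∀ i, ∀ c ∈ nb0 (cd0 i), c ∈ L6 := by decide

theorem cd0_inj : ∀ i j, cd0 i = cd0 j → i = j := by decide

open Classical

variable {V : Type*} [Fintype V] {G : SimpleGraph V} {X D : V → Prop} {S' : Finset V} {n : ℕ}

/-- **Two roots with adjacent legs.** -/
theorem k0_at (hcub : ∀ v, (univ.filter fun b => G.Adj v b).card = 3) (h : StA G X D)
    {s : Prop} (hside : ∀ v ∈ S', (X v ↔ s))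
    (hE : ENetX (ownN G X (NC X s (CR G X D))) (cN G X (NC X s (CR G X D))) (c3 G X D)
      (QE G X S').val) (hS : HasK0 V) {x z a b c d : V} (hT : Two G X D x z a b c d)
    (hac : ownR G X a c) : AT (QE G X S').val (c3 G X D) := by
  obtain ⟨E, cl, sl, T, hloop, hcap, hslot, h3⟩ := hS
  have hd := two_disj h hT
  have oxa : ownR G X a x := ⟨hT.xa.symm, h.k0 x a hT.hx hT.xa⟩
  have oxb : ownR G X b x := ⟨hT.xb.symm, h.k0 x b hT.hx hT.xb⟩
  have ozc : ownR G X c z := ⟨hT.zc.symm, h.k0 z c hT.hz hT.zc⟩
  have ozd : ownR G X d z := ⟨hT.zd.symm, h.k0 z d hT.hz hT.zd⟩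
  have nza : z ≠ a := fun e => hT.na (e ▸ hT.hz)
  have nxc : x ≠ c := fun e => hT.nc (e ▸ hT.hx)
  have cb : cc G X b = 2 := h.tail2 x a c z b hT.hx hT.na hT.nc hT.xa hac.1 hac.2.symm hT.zc.symm
    ozc.2.symm nza hT.xb hT.nb hT.ab.symm hd.2.2.1
  have cd : cc G X d = 2 := h.tail2 z c a x d hT.hz hT.nc hT.na hT.zc hac.1.symm hac.2 hT.xa.symm
    oxa.2.symm nxc hT.zd hT.nd hT.cd.symm hd.2.1.symm
  have na : ∀ w, ownR G X a w → w = x ∨ w = c := by
    intro w hw
    rcases own_two (h.nm a hT.na) oxa hac hw with e | e | e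
    · exact absurd e nxc
    · exact Or.inl e.symm
    · exact Or.inr e.symm
  have nc : ∀ w, ownR G X c w → w = z ∨ w = a := by
    intro w hw
    rcases own_two (h.nm c hT.nc) ozc (ownR_symm' hac) hw with e | e | e
    · exact absurd e nza
    · exact Or.inl e.symm
    · exact Or.inr e.symm
  have nb : ∀ w, ownR G X b w → w = x := fun w hw => own_one hcub cb hw oxb
  have nd : ∀ w, ownR G X d w → w = z := fun w hw => own_one hcub cd hw ozd
  set P := P4f x z (fun _ => a) (fun _ => b) (fun _ => c) (fun _ => d) with hP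
  -- neighbours of the six vertices
  have good : ∀ c ∈ L6, Good G X (evP P) nb0 c := by
    intro e he
    simp only [L6, List.mem_cons, List.not_mem_nil, or_false] at he
    rcases he with rfl | rfl | rfl | rfl | rfl | rfl
    · intro w hw
      rcases hT.nx w hw.1 with e | e | e
      · exact ⟨(9, 0), by decide, e⟩
      · exact ⟨(0, 0), by decide, e⟩
      · exact ⟨(1, 0), by decide, e⟩
    · intro w hw
      rcases hT.nz w hw.1 with e | e | e
      · exact ⟨(8, 0), by decide, e⟩
      · exact ⟨(2, 0), by decide, e⟩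
      · exact ⟨(3, 0), by decide, e⟩
    · intro w hw
      rcases na w hw with e | e
      · exact ⟨(8, 0), by decide, e⟩
      · exact ⟨(2, 0), by decide, e⟩
    · intro w hw
      exact ⟨(8, 0), by decide, nb w hw⟩
    · intro w hw
      rcases nc w hw with e | e
      · exact ⟨(9, 0), by decide, e⟩
      · exact ⟨(0, 0), by decide, e⟩
    · intro w hw
      exact ⟨(9, 0), by decide, nd w hw⟩
  -- the six vertices are different
  have dis : ∀ e ∈ L6, ∀ e' ∈ L6, evP P e = evP P e' → e = e' := by
    have n1 := hT.xz.ne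
    have n2 := hT.xa.ne
    have n3 := hT.xb.ne
    have n4 := hT.zc.ne
    have n5 := hT.zd.ne
    have n6 := hT.ab
    have n7 := hT.cd
    obtain ⟨n8, n9, n10, n11⟩ := hd
    have n12 : z ≠ b := fun e => hT.nb (e ▸ hT.hz)
    have n13 : x ≠ d := fun e => hT.nd (e ▸ hT.hx)
    intro e he e' he' hh
    simp only [L6, List.mem_cons, List.not_mem_nil, or_false] at he he'
    rcases he with rfl | rfl | rfl | rfl | rfl | rfl <;>
      rcases he' with rfl | rfl | rfl | rfl | rfl | rfl <;>
      first
        | rfl
        | exact absurd hh n1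
        | exact absurd hh n1.symm
        | exact absurd hh n2
        | exact absurd hh n2.symm
        | exact absurd hh n3
        | exact absurd hh n3.symm
        | exact absurd hh n4
        | exact absurd hh n4.symm
        | exact absurd hh n5
        | exact absurd hh n5.symm
        | exact absurd hh n6
        | exact absurd hh n6.symm
        | exact absurd hh n7
        | exact absurd hh n7.symm
        | exact absurd hh n8
        | exact absurd hh n8.symm
        | exact absurd hh n9
        | exact absurd hh n9.symm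
        | exact absurd hh n10
        | exact absurd hh n10.symm
        | exact absurd hh n11
        | exact absurd hh n11.symm
        | exact absurd hh n12
        | exact absurd hh n12.symm
        | exact absurd hh n13
        | exact absurd hh n13.symm
        | exact absurd hh nza
        | exact absurd hh nza.symm
        | exact absurd hh nxc
        | exact absurd hh nxc.symm
  have oca : ownR G X c a := ownR_symm' hac
  refine core_at hcub h hside hE (evP P) nb0 lk0 cd0 E cl sl T [] ?_ (fun i => good _ (cd0_mem i))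
    (fun i e he => good e (nb0_mem i e he)) ?_ List.nodup_nil (by simp) ?_ hloop ?_ hslot ?_ h3
  · intro i j hij
    exact cd0_inj i j (dis _ (cd0_mem i) _ (cd0_mem j) hij)
  · -- links
    have key : ∀ e ∈ L6, (lkS G X (evP P e)).card ≤ lk0 e := by
      intro e he
      simp only [L6, List.mem_cons, List.not_mem_nil, or_false] at he
      rcases he with rfl | rfl | rfl | rfl | rfl | rfl
      · exact (lk_root h hT.hx).le
      · exact (lk_root h hT.hz).le
      · exact (lk_zero hcub h hT.na nxc oxa hac (ownR_symm' oxb) ozc hT.ab.symm nza).le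
      · exact lk_short hcub h hT.hx hT.nb hT.xb nb
      · exact (lk_zero hcub h hT.nc nza ozc oca (ownR_symm' ozd) oxa hT.cd.symm nxc).le
      · exact lk_short hcub h hT.hz hT.nd hT.zd nd
    exact fun i => key _ (cd0_mem i)
  · -- the component
    intro v
    constructor
    · intro hv
      left
      refine CR.sub (P := fun v => ∃ i, evP P (cd0 i) = v) ?_ ?_ hv
      · intro e he
        rcases hT.D2 e he with rfl | rfl
        · exact ⟨0, rfl⟩
        · exact ⟨1, rfl⟩
      · rintro u v huv ⟨i, rfl⟩
        obtain ⟨e, he, rfl⟩ := good _ (cd0_mem i) v huv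
        have h4 := nb0_mem i e he
        simp only [L6, List.mem_cons, List.not_mem_nil, or_false] at h4
        rcases h4 with rfl | rfl | rfl | rfl | rfl | rfl
        · exact ⟨0, rfl⟩
        · exact ⟨1, rfl⟩
        · exact ⟨2, rfl⟩
        · exact ⟨3, rfl⟩
        · exact ⟨4, rfl⟩
        · exact ⟨5, rfl⟩
    · rintro (⟨i, rfl⟩ | h4)
      · have key : ∀ e ∈ L6, CR G X D (evP P e) := by
          intro e he
          simp only [L6, List.mem_cons, List.not_mem_nil, or_false] at he
          rcases he with rfl | rfl | rfl | rfl | rfl | rfl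
          · exact CR.root hT.hx
          · exact CR.root hT.hz
          · exact CR.leg h hT.hx hT.xa
          · exact CR.leg h hT.hx hT.xb
          · exact CR.leg h hT.hz hT.zc
          · exact CR.leg h hT.hz hT.zd
        exact key _ (cd0_mem i)
      · simp at h4
  · -- caps
    intro i
    refine (hcap i).trans ?_
    have two : ∀ v, 2 ≤ c3 G X D v := fun v => c3_two v
    have rootx : c3 G X D x = 4 := by unfold c3; rw [if_pos hT.hx]
    have rootz : c3 G X D z = 4 := by unfold c3; rw [if_pos hT.hz]
    fin_cases i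
    · exact rootx.ge
    · exact rootz.ge
    · exact two a
    · exact two b
    · exact two c
    · exact two d
  · intro l1 w l2 hw
    have := congrArg List.length hw
    simp at this

end Helper19.P
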