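import Pool.Agent.helper19.L9.PCfg
import Pool.Agent.helper42.L9.PPeel

/-!
# One root with a long leg; two roots whose own paths have ends
-/

set_option linter.unusedSimpArgs false
set_option linter.unusedSectionVars false

namespace Helper19.P

open Finset Classical Helper42.L9 Helper33.Off Helper97.L9
open Helper33.L9 (cc ownR ownR_ne StarAt QE mem_QE cc_cap)
open Helper85.Bn (Ctx pre mem_pre msk)
open Helper19.Gadget (cp)
open Helper42.PP (Two)

variable {V : Type*} [Fintype V] {G : SimpleGraph V} {X D : V → Prop} {S' : Finset V} {n : ℕ}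

/-- there is a table of certificates for the type -/
def HasSpec (V : Type*) (t : Ty) : Prop :=
  ∃ (n : ℕ) (cd : Fin n → Cd) (E : List (Fin n × Fin n)) (cl sl : List ℕ) (T : List Bool),
    t.Ok cd E cl sl T ∧ SpecT V cl sl T E

/-- there is a table of certificates for the type, no outer vertices -/
def HasSpec0 (V : Type*) (t : Ty) : Prop :=
  ∃ (n : ℕ) (cd : Fin n → Cd) (E : List (Fin n × Fin n)) (cl sl : List ℕ) (T : List Bool),
    t.Ok cd E cl sl T ∧ SpecT0 V cl sl T E

/-- an own path with an end -/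
abbrev PthE (G : SimpleGraph V) (X D : V → Prop) (r : V) (p : ℕ → V) (l : ℕ) : Prop :=
  Pth G X D r p l (fun _ => False)

/-- kind and length -/
def KL (G : SimpleGraph V) (X : V → Prop) (k l : ℕ) (a : V) : Prop :=
  (k = 5 ∧ l = 1 ∧ (lkS G X a).card = 0) ∨ (k = 4 ∧ 4 ≤ l) ∨ (1 ≤ k ∧ k ≤ 3 ∧ l = k)

section

variable (hcub : ∀ v, (univ.filter fun b => G.Adj v b).card = 3)

/-- `at` from a configuration -/
theorem Cfg.at' (hcub : ∀ v, (univ.filter fun b => G.Adj v b).card = 3) (h : StA G X D)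
    {s : Prop} (hside : ∀ v ∈ S', (X v ↔ s))
    (hE : ENetX (ownN G X (NC X s (CR G X D))) (cN G X (NC X s (CR G X D))) (c3 G X D)
      (QE G X S').val) {t : Ty} {P : ℕ → ℕ → V} {l : ℕ → ℕ}
    (hC : Cfg G X D t P l) (hS : HasSpec V t) : AT (QE G X S').val (c3 G X D) := by
  obtain ⟨n, cd, E, cl, sl, T, hok, h3⟩ := hS
  exact hC.at hcub h hside hE cd E cl sl T hok h3

/-- `at` from a configuration, no outer vertices -/
theorem Cfg.at0' (hcub : ∀ v, (univ.filter fun b => G.Adj v b).card = 3) (h : StA G X D)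
    {s : Prop} (hside : ∀ v ∈ S', (X v ↔ s))
    (hE : ENetX (ownN G X (NC X s (CR G X D))) (cN G X (NC X s (CR G X D))) (c3 G X D)
      (QE G X S').val) {t : Ty} {P : ℕ → ℕ → V} {l : ℕ → ℕ}
    (hC : Cfg G X D t P l) (hl : ∀ j < t.m, l j ≤ 2) (hS : HasSpec0 V t) :
    AT (QE G X S').val (c3 G X D) := by
  obtain ⟨n, cd, E, cl, sl, T, hok, h3⟩ := hS
  exact hC.at0 hcub h hside hE cd E cl sl T hok hl h3

/-- four functions -/
def P4f (x z : V) (p0 p1 p2 p3 : ℕ → V) (j : ℕ) : ℕ → V :=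
  if j = 0 then p0 else if j = 1 then p1 else if j = 2 then p2 else if j = 3 then p3
  else if j = 8 then fun _ => x else fun _ => z

/-- four numbers -/
def L4f (l0 l1 l2 l3 : ℕ) (j : ℕ) : ℕ :=
  if j = 0 then l0 else if j = 1 then l1 else if j = 2 then l2 else l3

theorem lt3 {j : ℕ} (h : j < 3) : j = 0 ∨ j = 1 ∨ j = 2 := by omega

theorem lt4 {j : ℕ} (h : j < 4) : j = 0 ∨ j = 1 ∨ j = 2 ∨ j = 3 := by omega

/-- one root -/
theorem cfg1 {x : V} (hD : ∀ d, D d ↔ d = x) {p0 p1 p2 : ℕ → V} {l0 l1 l2 k0 k1 k2 : ℕ}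
    (h0 : PthE G X D x p0 l0) (h1 : PthE G X D x p1 l1) (h2 : PthE G X D x p2 l2)
    (n01 : p0 0 ≠ p1 0) (n02 : p0 0 ≠ p2 0) (n12 : p1 0 ≠ p2 0)
    (hnx : ∀ w, G.Adj x w → w = p0 0 ∨ w = p1 0 ∨ w = p2 0)
    (e0 : KL G X k0 l0 (p0 0)) (e1 : KL G X k1 l1 (p1 0)) (e2 : KL G X k2 l2 (p2 0)) :
    Cfg G X D (ty1 k0 k1 k2) (P4f x x p0 p1 p2 p2) (L4f l0 l1 l2 l2) where
  m4 := by simp [ty1]
  rs8 := by simp [ty1]
  rD := by
    intro r hr
    simp only [ty1, List.mem_singleton] at hr
    subst hr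
    exact (hD x).mpr rfl
  rall := by
    intro d hd
    refine ⟨8, by simp [ty1], ?_⟩
    rw [(hD d).mp hd]; rfl
  rinj := by
    intro r hr r' hr' _
    simp only [ty1, List.mem_singleton] at hr hr'
    rw [hr, hr']
  rnb := by
    intro r hr w hw
    simp only [ty1, List.mem_singleton] at hr
    subst hr
    rcases hnx w hw.1 with h | h | h
    · exact ⟨(0, 0), by simp [ty1], h⟩
    · exact ⟨(1, 0), by simp [ty1], h⟩
    · exact ⟨(2, 0), by simp [ty1], h⟩
  rtc := by
    intro j _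
    simp [ty1]
  pth := by
    intro j hj
    rcases lt3 hj with rfl | rfl | rfl
    · exact h0
    · exact h1
    · exact h2
  dist := by
    intro j hj j' hj' he
    rcases lt3 hj with rfl | rfl | rfl <;> rcases lt3 hj' with rfl | rfl | rfl
    · rfl
    · exact absurd he n01
    · exact absurd he n02
    · exact absurd he n01.symm
    · rfl
    · exact absurd he n12
    · exact absurd he n02.symm
    · exact absurd he n12.symm
    · rfl
  kd := by
    intro j hj
    rcases lt3 hj with rfl | rfl | rfl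
    · exact e0
    · exact e1
    · exact e2

/-- two roots -/
theorem cfg2 {x z a b c d : V} (hT : Two G X D x z a b c d) {p0 p1 p2 p3 : ℕ → V}
    {l0 l1 l2 l3 k0 k1 k2 k3 : ℕ}
    (h0 : PthE G X D x p0 l0) (h1 : PthE G X D x p1 l1) (h2 : PthE G X D z p2 l2)
    (h3 : PthE G X D z p3 l3) (a0 : p0 0 = a) (b0 : p1 0 = b) (c0 : p2 0 = c) (d0 : p3 0 = d)
    (hdisj : a ≠ c ∧ a ≠ d ∧ b ≠ c ∧ b ≠ d)
    (e0 : KL G X k0 l0 a) (e1 : KL G X k1 l1 b) (e2 : KL G X k2 l2 c) (e3 : KL G X k3 l3 d) :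
    Cfg G X D (ty2 k0 k1 k2 k3) (P4f x z p0 p1 p2 p3) (L4f l0 l1 l2 l3) where
  m4 := by simp [ty2]
  rs8 := by simp [ty2]
  rD := by
    intro r hr
    simp only [ty2, List.mem_cons, List.not_mem_nil, or_false] at hr
    rcases hr with rfl | rfl
    · exact hT.hx
    · exact hT.hz
  rall := by
    intro e he
    rcases hT.D2 e he with rfl | rfl
    · exact ⟨8, by simp [ty2], rfl⟩
    · exact ⟨9, by simp [ty2], rfl⟩
  rinj := by
    intro r hr r' hr' he
    simp only [ty2, List.mem_cons, List.not_mem_nil, or_false] at hr hr'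
    rcases hr with rfl | rfl <;> rcases hr' with rfl | rfl
    · rfl
    · exact absurd he hT.xz.ne
    · exact absurd he hT.xz.ne'
    · rfl
  rnb := by
    intro r hr w hw
    simp only [ty2, List.mem_cons, List.not_mem_nil, or_false] at hr
    rcases hr with rfl | rfl
    · rcases hT.nx w hw.1 with h | h | h
      · exact ⟨(9, 0), by simp [ty2], h⟩
      · exact ⟨(0, 0), by simp [ty2], h.trans a0.symm⟩
      · exact ⟨(1, 0), by simp [ty2], h.trans b0.symm⟩
    · rcases hT.nz w hw.1 with h | h | h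
      · exact ⟨(8, 0), by simp [ty2], h⟩
      · exact ⟨(2, 0), by simp [ty2], h.trans c0.symm⟩
      · exact ⟨(3, 0), by simp [ty2], h.trans d0.symm⟩
  rtc := by
    intro j _
    simp only [ty2]
    split_ifs <;> simp
  pth := by
    intro j hj
    rcases lt4 hj with rfl | rfl | rfl | rfl
    · exact h0
    · exact h1
    · exact h2
    · exact h3
  dist := by
    obtain ⟨n1, n2, n3, n4⟩ := hdisj
    have m1 := hT.ab
    have m2 := hT.cd
    intro j hj j' hj' he
    rw [← a0, ← b0] at m1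
    rw [← c0, ← d0] at m2
    rw [← a0, ← c0] at n1
    rw [← a0, ← d0] at n2
    rw [← b0, ← c0] at n3
    rw [← b0, ← d0] at n4
    rcases lt4 hj with rfl | rfl | rfl | rfl <;> rcases lt4 hj' with rfl | rfl | rfl | rfl <;>
      first
        | rfl
        | exact absurd he m1
        | exact absurd he m1.symm
        | exact absurd he m2
        | exact absurd he m2.symm
        | exact absurd he n1
        | exact absurd he n1.symm
        | exact absurd he n2
        | exact absurd he n2.symm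
        | exact absurd he n3
        | exact absurd he n3.symm
        | exact absurd he n4
        | exact absurd he n4.symm
  kd := by
    intro j hj
    rcases lt4 hj with rfl | rfl | rfl | rfl
    · rw [← a0] at e0; exact e0
    · rw [← b0] at e1; exact e1
    · rw [← c0] at e2; exact e2
    · rw [← d0] at e3; exact e3

/-- specifications for one root -/
structure Specs1 (V : Type*) : Prop where
  ess : HasSpec V (ty1 2 1 1)
  ees : HasSpec V (ty1 2 2 1)
  eee : HasSpec0 V (ty1 2 2 2)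

include hcub in
/-- one root: lengths are one or two -/
theorem len1 (h : StA G X D) {x a : V} (hD : ∀ d, D d ↔ d = x) (ha : G.Adj x a) :
    ∃ p l, p 0 = a ∧ PthE G X D x p l ∧ (l = 1 ∨ l = 2) := by
  have hone : ∀ d e, D d → D e → d = e := fun d e hd he => by
    rw [(hD d).mp hd, (hD e).mp he]
  have hDa : ¬ D a := fun hd => ha.ne ((hD a).mp hd).symm
  have hx : D x := (hD x).mpr rfl
  rcases exists_pth hcub h hx hDa ha with ⟨p, l, h0, hp⟩ | ⟨p, l, d, hl, hd, h0, hp⟩
  · refine ⟨p, l, h0, hp, ?_⟩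
    have hpos := hp.pos
    by_contra hcon
    have hl : 2 < l := by omega
    have o1 : ownR G X (p 0) (p 1) := (hp.nb 0 hpos _).mpr (Or.inr (Or.inl ⟨by omega, rfl⟩))
    have o2 : ownR G X (p 1) (p 2) := (hp.nb 1 (by omega) _).mpr (Or.inr (Or.inl ⟨hl, rfl⟩))
    exact hp.ne 1 hl (h.leg_end1 hone x (p 0) (p 1) (p 2) hx (hp.nD 0 hpos) (hp.nD 1 (by omega))
      (h0 ▸ ha) o1.1 o1.2.symm o2.1 o2.2.symm)
  · exfalso
    have hpos := hp.pos
    have o1 : ownR G X (p 0) (p 1) := (hp.nb 0 hpos _).mpr (Or.inr (Or.inl ⟨by omega, rfl⟩))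
    have key : ∃ w, ownR G X (p 1) w ∧ w ≠ p 0 := by
      by_cases h2 : 2 < l
      · exact ⟨p 2, (hp.nb 1 (by omega) _).mpr (Or.inr (Or.inl ⟨h2, rfl⟩)), hp.ne 1 h2⟩
      · exact ⟨d, (hp.nb 1 (by omega) _).mpr (Or.inr (Or.inr ⟨by omega, rfl⟩)),
          fun e => hp.nD 0 hpos (e ▸ hd)⟩
    obtain ⟨w, o2, hw⟩ := key
    exact hw (h.leg_end1 hone x (p 0) (p 1) w hx (hp.nD 0 hpos) (hp.nD 1 (by omega))
      (h0 ▸ ha) o1.1 o1.2.symm o2.1 o2.2.symm)

theorem kl_self {k : ℕ} {a : V} (h1 : 1 ≤ k) (h3 : k ≤ 3) : KL G X k k a :=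
  Or.inr (Or.inr ⟨h1, h3, rfl⟩)

include hcub in
/-- **One root, a long leg.** -/
theorem one_at (h : StA G X D) {s : Prop} (hside : ∀ v ∈ S', (X v ↔ s))
    (hE : ENetX (ownN G X (NC X s (CR G X D))) (cN G X (NC X s (CR G X D))) (c3 G X D)
      (QE G X S').val) (hS : Specs1 V) {x a : V} (hD : ∀ d, D d ↔ d = x) (ha : G.Adj x a)
    (hcc : cc G X a ≠ 2) : AT (QE G X S').val (c3 G X D) := by
  have h3 := hcub x
  -- the legs
  obtain ⟨b, c, hb, hc, hab, hac, hbc, hnb⟩ : ∃ b c, G.Adj x b ∧ G.Adj x c ∧ a ≠ b ∧ a ≠ c ∧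
      b ≠ c ∧ ∀ w, G.Adj x w → w = a ∨ w = b ∨ w = c := by
    have ham : a ∈ univ.filter fun b => G.Adj x b := Finset.mem_filter.mpr ⟨Finset.mem_univ _, ha⟩
    have h4 : ((univ.filter fun b => G.Adj x b).erase a).card = 2 := by
      rw [Finset.card_erase_of_mem ham]; omega
    obtain ⟨b, c, hbc, he⟩ := Finset.card_eq_two.mp h4
    have hb : b ∈ (univ.filter fun b => G.Adj x b).erase a := by rw [he]; simp
    have hc : c ∈ (univ.filter fun b => G.Adj x b).erase a := by rw [he]; simp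
    rw [Finset.mem_erase, Finset.mem_filter] at hb hc
    refine ⟨b, c, hb.2.2, hc.2.2, hb.1.symm, hc.1.symm, hbc, fun w hw => ?_⟩
    by_cases hwa : w = a
    · exact Or.inl hwa
    · right
      have : w ∈ (univ.filter fun b => G.Adj x b).erase a :=
        Finset.mem_erase.mpr ⟨hwa, Finset.mem_filter.mpr ⟨Finset.mem_univ _, hw⟩⟩
      rw [he, Finset.mem_insert, Finset.mem_singleton] at this
      exact this
  obtain ⟨p, l, rfl, hp, hl⟩ := len1 hcub h hD ha
  obtain ⟨q, m, rfl, hq, hm⟩ := len1 hcub h hD hb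
  obtain ⟨r, k, rfl, hr, hk⟩ := len1 hcub h hD hc
  have hl2 : l = 2 := by
    rcases hl with rfl | rfl
    · exfalso
      apply hcc
      rcases cc_cap (G := G) (X := X) (p 0) with h5 | h5
      · exact h5
      · exfalso
        obtain ⟨u, v, huv, _, hu, hv⟩ := inner_own_pair hcub (h.nm _ (hp.nD 0 (by omega))) h5
        have e1 : ∀ w, ownR G X (p 0) w → w = x := by
          intro w hw
          rcases (hp.nb 0 (by omega) w).mp hw with h6 | ⟨h6, _⟩ | ⟨_, h6⟩
          · exact h6
          · omega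
          · exact h6.elim
        exact huv ((e1 u hu).trans (e1 v hv).symm)
    · rfl
  subst hl2
  rcases hm with rfl | rfl <;> rcases hk with rfl | rfl
  · exact (cfg1 (k0 := 2) (k1 := 1) (k2 := 1) hD hp hq hr hab hac hbc hnb
      (kl_self (by omega) (by omega)) (kl_self (by omega) (by omega))
      (kl_self (by omega) (by omega))).at' hcub h hside hE hS.ess
  · exact (cfg1 (k0 := 2) (k1 := 2) (k2 := 1) hD hp hr hq hac hab hbc.symm
      (fun w hw => by rcases hnb w hw with h6 | h6 | h6 <;> tauto)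
      (kl_self (by omega) (by omega)) (kl_self (by omega) (by omega))
      (kl_self (by omega) (by omega))).at' hcub h hside hE hS.ees
  · exact (cfg1 (k0 := 2) (k1 := 2) (k2 := 1) hD hp hq hr hab hac hbc hnb
      (kl_self (by omega) (by omega)) (kl_self (by omega) (by omega))
      (kl_self (by omega) (by omega))).at' hcub h hside hE hS.ees
  · exact (cfg1 (k0 := 2) (k1 := 2) (k2 := 2) hD hp hq hr hab hac hbc hnb
      (kl_self (by omega) (by omega)) (kl_self (by omega) (by omega))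
      (kl_self (by omega) (by omega))).at0' hcub h hside hE (by
        intro j hj
        rcases lt3 hj with rfl | rfl | rfl <;> exact le_rfl) hS.eee

end

end Helper19.P
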