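import Pool.Agent.helper33.L9.Tab
import Pool.Agent.helper33.L9.E13
import Pool.Agent.helper97.L9.StA

/-!
# Own paths which start at a leg of a root

`Pth r p l E`: own path `p 0, ..., p (l - 1)` which starts at the leg `p 0` of the root `r`; the
own neighbours of the last vertex are its predecessor and the vertices of `E` (empty for an end,
a root for a cycle through the roots).
-/

set_option linter.unusedSimpArgs false
set_option linter.unusedSectionVars false

namespace Helper19.P

open Finset Classical Helper42.L9 Helper33.Off Helper97.L9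
open Helper33.L9 (cc ownR ownR_ne)

variable {V : Type*} [Fintype V] {G : SimpleGraph V} {X D : V → Prop}

/-- the predecessor -/
def prd (r : V) (p : ℕ → V) : ℕ → V
  | 0 => r
  | t + 1 => p t

/-- own path starting at a leg of `r` -/
structure Pth (G : SimpleGraph V) (X D : V → Prop) (r : V) (p : ℕ → V) (l : ℕ) (E : V → Prop) :
    Prop where
  pos : 0 < l
  nD : ∀ t < l, ¬ D (p t)
  far : ∀ t < l, 0 < t → t + 1 < l ∨ (∀ w, ¬ E w) → Far G D (p t)
  nb : ∀ t < l, ∀ w, ownR G X (p t) w ↔
    (w = prd r p t ∨ (t + 1 < l ∧ w = p (t + 1)) ∨ (t + 1 = l ∧ E w))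
  ne : ∀ t, t + 1 < l → p (t + 1) ≠ prd r p t

/-- own path which goes on -/
structure Opn (G : SimpleGraph V) (X D : V → Prop) (r : V) (p : ℕ → V) (n : ℕ) : Prop where
  nD : ∀ t ≤ n, ¬ D (p t)
  far : ∀ t < n, 0 < t → Far G D (p t)
  nb : ∀ t < n, ∀ w, ownR G X (p t) w ↔ (w = prd r p t ∨ w = p (t + 1))
  ne : ∀ t < n, p (t + 1) ≠ prd r p t

/-- one step -/
theorem step (hcub : ∀ v, (univ.filter fun b => G.Adj v b).card = 3) {v u : V}
    (hn : NM G X v) (hu : ownR G X v u) :
    (cc G X v = 2 ∧ ∀ w, ownR G X v w ↔ w = u) ∨
      ∃ n, n ≠ u ∧ cc G X v = 3 ∧ ∀ w, ownR G X v w ↔ (w = u ∨ w = n) := by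
  rcases Helper33.L9.cc_cap (G := G) (X := X) v with h | h
  · left
    refine ⟨h, fun w => ⟨fun hw => own_one hcub h hw hu, ?_⟩⟩
    rintro rfl; exact hu
  · right
    obtain ⟨a, b, hab, how, ha, hb⟩ := inner_own_pair hcub hn h
    rcases own_two hn ha hb hu with h1 | h1 | h1
    · exact absurd h1 hab
    · subst h1
      refine ⟨b, hab.symm, h, fun w => ⟨fun hw => ?_, ?_⟩⟩
      · rcases own_two hn ha hb hw with h2 | h2 | h2
        · exact absurd h2 hab
        · exact Or.inl h2.symm
        · exact Or.inr h2.symm
      · rintro (rfl | rfl)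
        · exact ha
        · exact hb
    · subst h1
      refine ⟨a, hab, h, fun w => ⟨fun hw => ?_, ?_⟩⟩
      · rcases own_two hn ha hb hw with h2 | h2 | h2
        · exact absurd h2 hab
        · exact Or.inr h2.symm
        · exact Or.inl h2.symm
      · rintro (rfl | rfl)
        · exact hb
        · exact ha

theorem prd_congr {r : V} {p q : ℕ → V} {t : ℕ} (h : ∀ s ≤ t, p s = q s) :
    prd r p t = prd r q t := by
  cases t with
  | zero => rfl
  | succ t => exact h t (Nat.le_succ t)

/-- an open path is injective -/
theorem Opn.inj {r : V} {p : ℕ → V} {n : ℕ} (hp : Opn G X D r p n) (hr : D r) :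
    ∀ t ≤ n, ∀ s < t, p s ≠ p t := by
  intro t
  induction t using Nat.strong_induction_on with
  | _ t ih =>
    intro ht s hs he
    obtain ⟨t, rfl⟩ : ∃ u, t = u + 1 := ⟨t - 1, by omega⟩
    have h1 : ownR G X (p t) (p (t + 1)) := (hp.nb t (by omega) _).mpr (Or.inr rfl)
    have h2 : ownR G X (p s) (p t) := by
      rw [he]; exact ⟨h1.1.symm, h1.2.symm⟩
    rcases (hp.nb s (by omega) _).mp h2 with h3 | h3
    · cases s with
      | zero =>
        exact hp.nD t (by omega) (h3 ▸ hr)
      | succ s =>
        exact ih t (by omega) (by omega) s (by omega) h3.symm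
    · by_cases h4 : s + 1 < t
      · exact ih t (by omega) (by omega) (s + 1) h4 h3.symm
      · by_cases h5 : s + 1 = t
        · subst h5
          exact hp.ne (s + 1) (by omega) he.symm
        · have h6 : s = t := by omega
          subst h6
          exact ownR_ne h1 he

theorem Pth.inj {r : V} {p : ℕ → V} {l : ℕ} {E : V → Prop} (hp : Pth G X D r p l E) (hr : D r) :
    ∀ t < l, ∀ s < t, p s ≠ p t := by
  have h1 : Opn G X D r p (l - 1) :=
    { nD := fun t ht => hp.nD t (by have := hp.pos; omega)
      far := fun t ht h0 => hp.far t (by omega) h0 (Or.inl (by omega))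
      nb := fun t ht w => by
        rw [hp.nb t (by omega) w]
        constructor
        · rintro (h | ⟨_, h⟩ | ⟨h, _⟩)
          · exact Or.inl h
          · exact Or.inr h
          · omega
        · rintro (h | h)
          · exact Or.inl h
          · exact Or.inr (Or.inl ⟨by omega, h⟩)
      ne := fun t ht => hp.ne t (by omega) }
  intro t ht
  exact h1.inj hr t (by omega)

theorem Pth.inj' {r : V} {p : ℕ → V} {l : ℕ} {E : V → Prop} (hp : Pth G X D r p l E) (hr : D r)
    {s t : ℕ} (hs : s < l) (ht : t < l) (h : p s = p t) : s = t := by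
  rcases lt_trichotomy s t with h1 | h1 | h1
  · exact absurd h (hp.inj hr t ht s h1)
  · exact h1
  · exact absurd h.symm (hp.inj hr s hs t h1)

section

variable (hcub : ∀ v, (univ.filter fun b => G.Adj v b).card = 3)

include hcub in
/-- walking along the own path of a leg -/
theorem walk (h : StA G X D) {r a : V} (hr : D r) (ha : ¬ D a) (hra : G.Adj r a) (n : ℕ) :
    (∃ p l, l ≤ n + 1 ∧ p 0 = a ∧ Pth G X D r p l (fun _ => False)) ∨
    (∃ p l d, l ≤ n + 1 ∧ 2 ≤ l ∧ D d ∧ p 0 = a ∧ Pth G X D r p l (fun w => w = d)) ∨
    ∃ p, p 0 = a ∧ Opn G X D r p (n + 1) := by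
  have oar : ownR G X a r := ⟨hra.symm, (h.k0 r a hr hra)⟩
  induction n with
  | zero =>
    rcases step hcub (h.nm a ha) oar with ⟨_, h1⟩ | ⟨v, h1, _, h2⟩
    · left
      refine ⟨fun _ => a, 1, by omega, rfl, ⟨by omega, fun _ _ => ha, fun t ht h0 => by omega,
        ?_, fun t ht => by omega⟩⟩
      intro t ht w
      obtain rfl : t = 0 := by omega
      rw [h1 w]
      simp [prd]
    · right; right
      refine ⟨fun t => if t = 0 then a else v, by simp, ⟨?_, fun t ht h0 => by omega, ?_, ?_⟩⟩
      · intro t ht
        by_cases h3 : t = 0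
        · simp [h3, ha]
        · simp only [h3, if_false]
          intro hDv
          have h4 : ownR G X a v := (h2 v).mpr (Or.inr rfl)
          exact h1 (h.disj v r a hDv hr ha h4.1.symm hra)
      · intro t ht w
        obtain rfl : t = 0 := by omega
        simp only [if_true, h2 w, prd]
        simp
      · intro t ht
        obtain rfl : t = 0 := by omega
        simpa [prd] using h1
  | succ n ih =>
    rcases ih with ⟨p, l, hl, h0, hp⟩ | ⟨p, l, d, hl, hl2, hd, h0, hp⟩ | ⟨p, h0, hp⟩
    · exact Or.inl ⟨p, l, by omega, h0, hp⟩
    · exact Or.inr (Or.inl ⟨p, l, d, by omega, hl2, hd, h0, hp⟩)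
    · have hDv := hp.nD (n + 1) le_rfl
      have hown : ownR G X (p (n + 1)) (p n) := by
        have h1 := (hp.nb n (by omega) (p (n + 1))).mpr (Or.inr rfl)
        exact ⟨h1.1.symm, h1.2.symm⟩
      by_cases hleg : ∃ d, D d ∧ G.Adj d (p (n + 1))
      · right; left
        obtain ⟨d, hd, hda⟩ := hleg
        refine ⟨p, n + 2, d, by omega, by omega, hd, h0, ⟨by omega, fun t ht => hp.nD t (by omega),
          ?_, ?_, fun t ht => hp.ne t (by omega)⟩⟩
        · rintro t ht ht0 (h1 | h1)
          · exact hp.far t (by omega) ht0
          · exact absurd rfl (h1 d)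
        · intro t ht w
          by_cases h1 : t < n + 1
          · rw [hp.nb t h1 w]
            constructor
            · rintro (h2 | h2)
              · exact Or.inl h2
              · exact Or.inr (Or.inl ⟨by omega, h2⟩)
            · rintro (h2 | ⟨_, h2⟩ | ⟨h2, _⟩)
              · exact Or.inl h2
              · exact Or.inr h2
              · omega
          · obtain rfl : t = n + 1 := by omega
            have od : ownR G X (p (n + 1)) d := ⟨hda.symm, h.k0 d _ hd hda⟩
            have hne : p n ≠ d := fun e => hp.nD n (by omega) (e ▸ hd)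
            constructor
            · intro hw
              rcases own_two (h.nm _ hDv) hown od hw with h2 | h2 | h2
              · exact absurd h2 hne
              · exact Or.inl h2.symm
              · exact Or.inr (Or.inr ⟨rfl, h2.symm⟩)
            · rintro (h2 | ⟨h2, _⟩ | ⟨_, h2⟩)
              · rw [h2]; exact hown
              · omega
              · rw [h2]; exact od
      · push Not at hleg
        have hfar : Far G D (p (n + 1)) := ⟨hDv, hleg⟩
        rcases step hcub (h.nm _ hDv) hown with ⟨_, h1⟩ | ⟨v, h1, _, h2⟩
        · left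
          refine ⟨p, n + 2, by omega, h0, ⟨by omega, fun t ht => hp.nD t (by omega), ?_, ?_,
            fun t ht => hp.ne t (by omega)⟩⟩
          · intro t ht ht0 _
            by_cases h3 : t < n + 1
            · exact hp.far t h3 ht0
            · obtain rfl : t = n + 1 := by omega
              exact hfar
          · intro t ht w
            by_cases h3 : t < n + 1
            · rw [hp.nb t h3 w]
              constructor
              · rintro (h4 | h4)
                · exact Or.inl h4
                · exact Or.inr (Or.inl ⟨by omega, h4⟩)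
              · rintro (h4 | ⟨_, h4⟩ | ⟨h4, _⟩)
                · exact Or.inl h4
                · exact Or.inr h4
                · omega
            · obtain rfl : t = n + 1 := by omega
              rw [h1 w]
              constructor
              · intro h4
                exact Or.inl h4
              · rintro (h4 | ⟨h4, _⟩ | ⟨_, h4⟩)
                · exact h4
                · omega
                · exact h4.elim
        · right; right
          have hup : ∀ s ≤ n + 1, Function.update p (n + 2) v s = p s := by
            intro s hs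
            rw [Function.update_of_ne (by omega)]
          have hlast : Function.update p (n + 2) v (n + 2) = v := Function.update_self _ _ _
          refine ⟨Function.update p (n + 2) v, by rw [hup 0 (by omega)]; exact h0, ⟨?_, ?_, ?_,
            ?_⟩⟩
          · intro t ht
            by_cases h3 : t = n + 2
            · rw [h3, hlast]
              intro hv
              exact hleg v hv ((h2 v).mpr (Or.inr rfl)).1.symm
            · rw [hup t (by omega)]
              exact hp.nD t (by omega)
          · intro t ht ht0
            rw [hup t (by omega)]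
            by_cases h3 : t < n + 1
            · exact hp.far t h3 ht0
            · obtain rfl : t = n + 1 := by omega
              exact hfar
          · intro t ht w
            rw [hup t (by omega), prd_congr (q := p) (fun s hs => hup s (by omega))]
            by_cases h3 : t < n + 1
            · rw [hup (t + 1) (by omega)]
              exact hp.nb t h3 w
            · obtain rfl : t = n + 1 := by omega
              rw [hlast]
              exact h2 w
          · intro t ht
            rw [prd_congr (q := p) (fun s hs => hup s (by omega))]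
            by_cases h3 : t < n + 1
            · rw [hup (t + 1) (by omega)]
              exact hp.ne t h3
            · obtain rfl : t = n + 1 := by omega
              rw [hlast]
              exact h1

include hcub in
/-- the own path of a leg -/
theorem exists_pth (h : StA G X D) {r a : V} (hr : D r) (ha : ¬ D a) (hra : G.Adj r a) :
    (∃ p l, p 0 = a ∧ Pth G X D r p l (fun _ => False)) ∨
    ∃ p l d, 2 ≤ l ∧ D d ∧ p 0 = a ∧ Pth G X D r p l (fun w => w = d) := by
  rcases walk hcub h hr ha hra (Fintype.card V) with ⟨p, l, _, h0, hp⟩ | ⟨p, l, d, _, h2, hd, h0, hp⟩ |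
    ⟨p, h0, hp⟩
  · exact Or.inl ⟨p, l, h0, hp⟩
  · exact Or.inr ⟨p, l, d, h2, hd, h0, hp⟩
  · exfalso
    have hinj : Function.Injective (fun i : Fin (Fintype.card V + 2) => p i) := by
      intro i j hij
      by_contra hne
      rcases lt_or_gt_of_ne (fun e => hne (Fin.ext e) : (i : ℕ) ≠ j) with h1 | h1
      · exact hp.inj hr j (by omega) i h1 hij
      · exact hp.inj hr i (by omega) j h1 hij.symm
    have := Fintype.card_le_of_injective _ hinj
    simp at this

end

/-- paths of different legs are disjoint -/
theorem Pth.disj {r r' : V} {p q : ℕ → V} {l l' : ℕ} {E E' : V → Prop} (hp : Pth G X D r p l E)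
    (hq : Pth G X D r' q l' E') (hr : D r) (hr' : D r') (hE : ∀ w, E w → D w)
    (h0 : q 0 ≠ p 0) (h1 : E r' → q 0 ≠ p (l - 1)) :
    ∀ t < l', ∀ s < l, p s ≠ q t := by
  intro t
  induction t with
  | zero =>
    intro _ s hs he
    have h2 : ownR G X (p s) r' := by
      rw [he]; exact (hq.nb 0 hq.pos r').mpr (Or.inl rfl)
    rcases (hp.nb s hs r').mp h2 with h3 | ⟨h3, h4⟩ | ⟨h3, h4⟩
    · cases s with
      | zero => exact h0 he.symm
      | succ s => exact hp.nD s (by omega) (by rw [← show r' = p s from h3]; exact hr')
    · exact hp.nD _ h3 (h4 ▸ hr')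
    · have : s = l - 1 := by omega
      subst this
      exact h1 h4 he.symm
  | succ t ih =>
    intro ht s hs he
    have h2 : ownR G X (p s) (q t) := by
      rw [he]; exact (hq.nb (t + 1) ht (q t)).mpr (Or.inl rfl)
    have hqt := hq.nD t (by omega)
    rcases (hp.nb s hs (q t)).mp h2 with h3 | ⟨h3, h4⟩ | ⟨h3, h4⟩
    · cases s with
      | zero => exact hqt (by rw [show q t = r from h3]; exact hr)
      | succ s => exact ih (by omega) s (by omega) h3.symm
    · exact ih (by omega) (s + 1) h3 h4.symm
    · exact hqt (hE _ h4)

/-! ### the own component of the roots -/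

/-- the own component of the roots -/
def CR (G : SimpleGraph V) (X D : V → Prop) (v : V) : Prop :=
  ∃ d, D d ∧ Relation.ReflTransGen (ownR G X) d v

omit [Fintype V] in
theorem CR.closed {u v : V} (huv : ownR G X u v) (h : CR G X D u) : CR G X D v := by
  obtain ⟨d, hd, h1⟩ := h
  exact ⟨d, hd, h1.tail huv⟩

omit [Fintype V] in
theorem CR.root {d : V} (hd : D d) : CR G X D d := ⟨d, hd, Relation.ReflTransGen.refl⟩

omit [Fintype V] in
/-- an own-closed set which contains the roots contains the component -/
theorem CR.sub {P : V → Prop} (hD : ∀ d, D d → P d) (hcl : ∀ u v, ownR G X u v → P u → P v) {v : V}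
    (h : CR G X D v) : P v := by
  obtain ⟨d, hd, h1⟩ := h
  induction h1 with
  | refl => exact hD d hd
  | tail _ h2 ih => exact hcl _ _ h2 ih

theorem CR.leg (h : StA G X D) {d a : V} (hd : D d) (hda : G.Adj d a) : CR G X D a :=
  CR.closed ⟨hda, (h.k0 d a hd hda).symm⟩ (CR.root hd)

/-- vertices of the side off the component are far -/
theorem CR.far (h : StA G X D) {v : V} (hv : ¬ CR G X D v) : Far G D v :=
  ⟨fun hD => hv (CR.root hD), fun _ hd hdv => hv (CR.leg h hd hdv)⟩

/-- the component lies on the side of the roots -/
theorem CR.side (h : StA G X D) {d v : V} (hd : D d) (hv : CR G X D v) : X v ↔ X d := by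
  obtain ⟨e, he, h1⟩ := hv
  have h2 : X v ↔ X e := by
    induction h1 with
    | refl => exact Iff.rfl
    | tail _ h2 ih => exact h2.2.symm.trans ih
  exact h2.trans (h.side he hd)

end Helper19.P
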