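import Pool.Agent.helper19.L9.PK0

/-!
# The side of the roots
-/

set_option linter.unusedSimpArgs false
set_option linter.unusedSectionVars false

namespace Helper19.P

open Finset Classical Helper42.L9 Helper33.Off Helper97.L9
open Helper33.L9 (cc ownR ownR_ne StarAt QE mem_QE cc_cap StuckZ)
open Helper42.PP (Two exists_two peel_tri)

variable {V : Type*} [Fintype V] {G : SimpleGraph V} {X D : V → Prop} {S' : Finset V} {n : ℕ}

/-- the case of an own path through both roots with an inner vertex which is no leg -/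
def CycHyp (G : SimpleGraph V) (X D : V → Prop) : Prop :=
  ∀ S' : Finset V, MinN G X (c3 G X D) S' → (∀ v ∈ S', ∃ d, D d ∧ (X v ↔ X d)) →
    (∀ N : V → Prop, (∀ v, N v → Far G D v ∧ ∃ d, D d ∧ (X v ↔ X d)) →
      (∀ u v, ownR G X u v → N u → N v) →
      ENetX (ownN G X N) (cN G X N) (c3 G X D) (QE G X S').val) →
    ∀ (x z : V) (p : ℕ → V) (l : ℕ), D x → D z → x ≠ z →
      Pth G X D x p l (fun w => w = z) → 3 ≤ l → False

section

variable (hcub : ∀ v, (univ.filter fun b => G.Adj v b).card = 3) (h : StA G X D)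

include hcub h

/-- a cycle of own edges through a leg of `x` -/
theorem cyc_case (hmin : MinN G X (c3 G X D) S') (hS : ∀ v ∈ S', ∃ d, D d ∧ (X v ↔ X d))
    (hE : ∀ N : V → Prop, (∀ v, N v → Far G D v ∧ ∃ d, D d ∧ (X v ↔ X d)) →
      (∀ u v, ownR G X u v → N u → N v) →
      ENetX (ownN G X N) (cN G X N) (c3 G X D) (QE G X S').val) (hcyc : CycHyp G X D)
    (hK0 : HasK0 V) {x z a b c d e : V} (hT : Two G X D x z a b c d) {p : ℕ → V} {l : ℕ}
    (hl : 2 ≤ l) (he : D e) (h0 : p 0 = a) (hp : Pth G X D x p l (fun w => w = e)) : False := by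
  have hs : ∀ v ∈ S', (X v ↔ X x) := by
    intro v hv
    obtain ⟨d', hd', hs⟩ := hS v hv
    exact hs.trans (h.side hd' hT.hx)
  have hEN := hE (NC X (X x) (CR G X D)) (fun v hv => ⟨CR.far h hv.2, x, hT.hx, hv.1⟩)
    (fun u v huv hu => NC.closed (fun u v huv hu => CR.closed huv hu) huv hu)
  have oe : ownR G X (p (l - 1)) e := (hp.nb (l - 1) (by omega) e).mpr
    (Or.inr (Or.inr ⟨by omega, rfl⟩))
  have hne0 : p (l - 1) ≠ p 0 := fun e1 => by
    have := hp.inj' hT.hx (s := l - 1) (t := 0) (by omega) hp.pos e1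
    omega
  rcases hT.D2 e he with rfl | rfl
  · -- the same root: the last vertex is the other leg
    have hb : p (l - 1) = b := by
      rcases hT.nx _ oe.1.symm with h1 | h1 | h1
      · exact absurd (h1 ▸ hT.hz) (hp.nD (l - 1) (by omega))
      · exact absurd (h1.trans h0.symm) hne0
      · exact h1
    by_cases h2 : l = 2
    · subst h2
      have o1 : ownR G X (p 0) (p 1) := (hp.nb 0 (by omega) _).mpr
        (Or.inr (Or.inl ⟨by omega, rfl⟩))
      have h1 : p 1 = b := hb
      rw [h0, h1] at o1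
      have hpe := peel_tri hcub h hmin hT.hx hT.na hT.nb hT.ab hT.xa hT.xb o1
      exact hmin.1 (plus_disj hcub h (fun u v huv hu => CR.closed huv hu)
        (fun v _ hv => CR.far h hv) hs (fun v hv hc => hpe v hc hv) hEN)
    · have o0 : ownR G X (p 0) (p 1) := (hp.nb 0 (by omega) _).mpr
        (Or.inr (Or.inl ⟨by omega, rfl⟩))
      have o1 : ownR G X (p 1) (p 2) := (hp.nb 1 (by omega) _).mpr
        (Or.inr (Or.inl ⟨by omega, rfl⟩))
      have oroot : ownR G X (p 0) e := (hp.nb 0 (by omega) _).mpr (Or.inl rfl)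
      have n1 : p (l - 1) ≠ p 1 := fun e1 => by
        have := hp.inj' hT.hx (s := l - 1) (t := 1) (by omega) (by omega) e1
        omega
      have h4 := h.tail2 e (p 0) (p 1) (p 2) (p (l - 1)) hT.hx (hp.nD 0 (by omega))
        (hp.nD 1 (by omega)) oroot.1.symm o0.1 o0.2.symm o1.1 o1.2.symm (hp.ne 1 (by omega))
        oe.1.symm (hp.nD (l - 1) (by omega)) hne0 n1
      have h5 := hp.cc3 hcub (t := l - 1) (by omega) (Or.inr ⟨e, rfl, by
        obtain ⟨m, rfl⟩ : ∃ m, l = m + 2 := ⟨l - 2, by omega⟩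
        exact fun e1 => hp.nD m (by omega) (by
          have : e = p m := e1
          rw [← this]; exact hT.hx)⟩)
      omega
  · -- the other root
    by_cases h2 : l = 2
    · subst h2
      have o1 : ownR G X (p 0) (p 1) := (hp.nb 0 (by omega) _).mpr
        (Or.inr (Or.inl ⟨by omega, rfl⟩))
      have oe' : ownR G X (p 1) e := oe
      rw [h0] at o1
      rcases hT.nz _ oe'.1.symm with h1 | h1 | h1
      · exact absurd (h1 ▸ hT.hx) (hp.nD 1 (by omega))
      · rw [h1] at o1
        exact hmin.1 (k0_at hcub h hs hEN hK0 hT o1)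
      · rw [h1] at o1
        exact hmin.1 (k0_at hcub h hs hEN hK0 hT.symm.swap.symm o1)
    · exact hcyc S' hmin hS hE x e p l hT.hx hT.hz hT.xz.ne hp (by omega)

/-- **The side of the roots.** -/
theorem plus_all (h1 : Specs1 V) (h2 : Specs2 V) (hK0 : HasK0 V) (hcyc : CycHyp G X D) :
    AtPlus G X D := by
  intro Z S S' _ _ hmin hS hE
  obtain ⟨x, w, hxw, hD⟩ := h.two
  have hx : D x := (hD x).mpr (Or.inl rfl)
  have hs : ∀ v ∈ S', (X v ↔ X x) := by
    intro v hv
    obtain ⟨d', hd', hs⟩ := hS v hv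
    exact hs.trans (h.side hd' hx)
  have hEN := hE (NC X (X x) (CR G X D)) (fun v hv => ⟨CR.far h hv.2, x, hx, hv.1⟩)
    (fun u v huv hu => NC.closed (fun u v huv hu => CR.closed huv hu) huv hu)
  by_cases hone : x = w
  · subst hone
    have hD' : ∀ d, D d ↔ d = x := fun d => (hD d).trans (by tauto)
    by_cases hall : ∀ d c, D d → G.Adj d c → cc G X c = 2
    · exact plus_zero hcub h hmin hS (fun d e hd he => by rw [(hD' d).mp hd, (hD' e).mp he])
        hall hE
    · push Not at hall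
      obtain ⟨d, a, hd, hda, hcc⟩ := hall
      rw [(hD' d).mp hd] at hda
      exact hmin.1 (one_at hcub h hs hEN h1 hD' hda hcc)
  · have hw : D w := (hD w).mpr (Or.inr rfl)
    -- a leg of `x`
    obtain ⟨a, hxa, haw⟩ : ∃ a, G.Adj x a ∧ a ≠ w := by
      have h3 := hcub x
      have h4 : 1 < (univ.filter fun b => G.Adj x b).card := by omega
      obtain ⟨a, ha, haw⟩ := Finset.exists_mem_ne h4 w
      exact ⟨a, (Finset.mem_filter.mp ha).2, haw⟩
    have hna : ¬ D a := by
      intro hda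
      rcases (hD a).mp hda with e | e
      · exact hxa.ne e.symm
      · exact haw e
    obtain ⟨b, c, d, hT⟩ := exists_two hcub h hx hw hone hxa hna
    rcases exists_pth hcub h hx hT.na hT.xa with ⟨p0, l0, a0, hp0⟩ | ⟨p, l, e, hl, he, e0, hp⟩
    swap
    · exact cyc_case hcub h hmin hS hE hcyc hK0 hT hl he e0 hp
    rcases exists_pth hcub h hx hT.nb hT.xb with ⟨p1, l1, b0, hp1⟩ | ⟨p, l, e, hl, he, e0, hp⟩
    swap
    · exact cyc_case hcub h hmin hS hE hcyc hK0 hT.swap hl he e0 hp
    rcases exists_pth hcub h hw hT.nc hT.zc with ⟨p2, l2, c0, hp2⟩ | ⟨p, l, e, hl, he, e0, hp⟩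
    swap
    · exact cyc_case hcub h hmin hS hE hcyc hK0 hT.symm hl he e0 hp
    rcases exists_pth hcub h hw hT.nd hT.zd with ⟨p3, l3, d0, hp3⟩ | ⟨p, l, e, hl, he, e0, hp⟩
    swap
    · exact cyc_case hcub h hmin hS hE hcyc hK0 hT.symm.swap hl he e0 hp
    exact hmin.1 (two_at hcub h hs hEN h2 hT hp0 hp1 hp2 hp3 a0 b0 c0 d0)

end

end Helper19.P
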