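import Pool.Agent.helper19.L9.PPath
import Pool.Agent.helper33.L9.PlusNet

/-!
# Links of the vertices of the own component of the roots
-/

set_option linter.unusedSimpArgs false
set_option linter.unusedSectionVars false

namespace Helper19.P

open Finset Classical Helper42.L9 Helper33.Off Helper97.L9
open Helper33.L9 (cc ownR ownR_ne StarAt QE)

variable {V : Type*} [Fintype V] {G : SimpleGraph V} {X D : V → Prop} {S' : Finset V}

/-- the cross neighbours which are links -/
noncomputable def lkS (G : SimpleGraph V) (X : V → Prop) (v : V) : Finset V :=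
  (cr G X v).filter fun y => y ∈ pt G X v

/-- the links of a vertex of the component -/
theorem dg_LK_np (h : StA G X D) {K : Multiset (Sym2 V)}
    (hKo : ∀ x y, CR G X D x → CR G X D y → x ≠ y →
      (ownR G X x y ∨ ∃ w, ownR G X x w ∧ ownR G X w y) → s(x, y) ∈ K) {v : V}
    (cv : CR G X D v) : dg (LK G X S' K) v ≤ (lkS G X v).card := by
  obtain ⟨d, hd, _⟩ := id cv
  refine dg_LK_C (C := CR G X D) (fun u v huv hu => CR.closed huv hu) hKo cv (lkS G X v) ?_ ?_
  · intro y hy
    have h1 := mem_cr.mp (Finset.mem_filter.mp hy).1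
    refine h.nm y fun hD => ?_
    exact h1.2 ((h.side hD hd).trans (CR.side h hd cv).symm)
  · intro y hy hyT z _ hzv hyz
    exfalso
    apply hyT
    refine Finset.mem_filter.mpr ⟨hy, ?_⟩
    have h1 := mem_cr.mp hy
    have h2 := mem_cr.mp hyz
    refine mem_pt.mpr ⟨h1.1, z, hzv, h2.1.symm, ?_⟩
    have h3 := h1.2
    have h4 := h2.2
    tauto

section

variable (hcub : ∀ v, (univ.filter fun b => G.Adj v b).card = 3)

include hcub in
theorem lk_le (h : StA G X D) {v : V} (hv : ¬ D v) : (lkS G X v).card ≤ 2 :=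
  (Finset.card_le_card (Finset.filter_subset _ _)).trans (cr_bounds hcub v (h.nm v hv)).2

include hcub in
theorem lk_inner (h : StA G X D) {v : V} (hv : ¬ D v) (h3 : cc G X v = 3) :
    (lkS G X v).card ≤ 1 := by
  refine (Finset.card_le_card (Finset.filter_subset _ _)).trans ?_
  rw [(cc_three hcub (h.nm v hv)).mp h3]

include hcub in
/-- both own neighbours have a further own neighbour -/
theorem lk_zero (h : StA G X D) {v a b a' b' : V} (hv : ¬ D v) (hab : a ≠ b)
    (ha : ownR G X v a) (hb : ownR G X v b) (ha' : ownR G X a a') (hb' : ownR G X b b')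
    (ha'v : a' ≠ v) (hb'v : b' ≠ v) : (lkS G X v).card = 0 := by
  rw [Finset.card_eq_zero, Finset.eq_empty_iff_forall_notMem]
  intro y hy
  obtain ⟨hy, hyp⟩ := Finset.mem_filter.mp hy
  have h3 : cc G X v = 3 := by
    rcases Helper33.L9.cc_cap (G := G) (X := X) v with h2 | h2
    · exact absurd (own_one hcub h2 ha hb) hab
    · exact h2
  have h1 := (cc_three hcub (h.nm v hv)).mp h3
  have h2 := Helper33.L9.cr_ow (X := X) hcub v
  have h4 := h.star v hv ?_
  · omega
  · intro w hw
    by_cases hs : X w ↔ X v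
    · rcases own_two (h.nm v hv) ha hb ⟨hw, hs.symm⟩ with h5 | h5 | h5
      · exact absurd h5 hab
      · subst h5
        exact mem_pt.mpr ⟨hw, a', ha'v, ha'.1, ha'.2.symm.trans hs⟩
      · subst h5
        exact mem_pt.mpr ⟨hw, b', hb'v, hb'.1, hb'.2.symm.trans hs⟩
    · have : w = y := inner_cr_unique hcub (h.nm v hv) h3 (mem_cr.mpr ⟨hw, hs⟩) hy
      rw [this]; exact hyp

include hcub in
/-- a short leg has at most one link -/
theorem lk_short (h : StA G X D) {r v : V} (hr : D r) (hv : ¬ D v) (hrv : G.Adj r v)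
    (h1 : ∀ w, ownR G X v w → w = r) : (lkS G X v).card ≤ 1 := by
  obtain ⟨w, hw, hvw, hwp⟩ := h.noflip r v hr hv hrv
  have hcw : w ∈ cr G X v := by
    refine mem_cr.mpr ⟨hvw, fun hs => ?_⟩
    have := h1 w ⟨hvw, hs.symm⟩
    subst this
    exact hw hr
  have h2 : lkS G X v ⊆ (cr G X v).erase w := by
    intro y hy
    obtain ⟨hy1, hy2⟩ := Finset.mem_filter.mp hy
    refine Finset.mem_erase.mpr ⟨fun e => hwp (e ▸ hy2), hy1⟩
  have h3 := Finset.card_le_card h2
  rw [Finset.card_erase_of_mem hcw] at h3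
  have h4 := (cr_bounds hcub v (h.nm v hv)).2
  omega

/-- no partner at all -/
theorem lk_dead {v : V} (h1 : ∀ g ∈ cr G X v, cr G X g = {v}) : (lkS G X v).card = 0 := by
  rw [Finset.card_eq_zero, Finset.eq_empty_iff_forall_notMem]
  intro y hy
  obtain ⟨hy1, hy2⟩ := Finset.mem_filter.mp hy
  obtain ⟨_, u, hu, hyu, hs⟩ := mem_pt.mp hy2
  have h2 := mem_cr.mp hy1
  have h3 : u ∈ cr G X y := by
    refine mem_cr.mpr ⟨hyu, fun h4 => h2.2 ?_⟩
    exact h4.symm.trans hs
  rw [h1 y hy1, Finset.mem_singleton] at h3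
  exact hu h3

variable {r : V} {p : ℕ → V} {l : ℕ} {E : V → Prop}

theorem ownR_symm' {u v : V} (h : ownR G X u v) : ownR G X v u := ⟨h.1.symm, h.2.symm⟩

include hcub in
/-- caps along a path -/
theorem Pth.cc3 (hp : Pth G X D r p l E) {t : ℕ}
    (ht : t < l) (hne : t + 1 < l ∨ ∃ w, E w ∧ w ≠ prd r p t) : cc G X (p t) = 3 := by
  rcases Helper33.L9.cc_cap (G := G) (X := X) (p t) with h2 | h2
  · exfalso
    have o1 : ownR G X (p t) (prd r p t) := (hp.nb t ht _).mpr (Or.inl rfl)
    rcases hne with h3 | ⟨w, h3, h4⟩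
    · have o2 : ownR G X (p t) (p (t + 1)) := (hp.nb t ht _).mpr (Or.inr (Or.inl ⟨h3, rfl⟩))
      exact hp.ne t h3 (own_one hcub h2 o2 o1)
    · by_cases h5 : t + 1 < l
      · have o2 : ownR G X (p t) (p (t + 1)) := (hp.nb t ht _).mpr (Or.inr (Or.inl ⟨h5, rfl⟩))
        exact hp.ne t h5 (own_one hcub h2 o2 o1)
      · have o2 : ownR G X (p t) w := (hp.nb t ht _).mpr (Or.inr (Or.inr ⟨by omega, h3⟩))
        exact h4 (own_one hcub h2 o2 o1)
  · exact h2

include hcub in
/-- no links before the vertex in front of the end -/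
theorem Pth.lk0 (h : StA G X D) (hp : Pth G X D r p l E)
    (hr2 : ∀ v, ∃ w, w ≠ v ∧ ownR G X r w) {t : ℕ}
    (ht : t + 2 < l) : (lkS G X (p t)).card = 0 := by
  have o1 : ownR G X (p t) (prd r p t) := (hp.nb t (by omega) _).mpr (Or.inl rfl)
  have o2 : ownR G X (p t) (p (t + 1)) := (hp.nb t (by omega) _).mpr
    (Or.inr (Or.inl ⟨by omega, rfl⟩))
  have o3 : ownR G X (p (t + 1)) (p (t + 2)) := (hp.nb (t + 1) (by omega) _).mpr
    (Or.inr (Or.inl ⟨by omega, rfl⟩))
  have h3 : p (t + 2) ≠ p t := hp.ne (t + 1) (by omega)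
  have h4 : ∃ w, w ≠ p t ∧ ownR G X (prd r p t) w := by
    cases t with
    | zero => exact hr2 (p 0)
    | succ t =>
      refine ⟨prd r p t, ?_, (hp.nb t (by omega) _).mpr (Or.inl rfl)⟩
      exact (hp.ne t (by omega)).symm
  obtain ⟨w, h5, h6⟩ := h4
  exact lk_zero hcub h (hp.nD t (by omega)) (hp.ne t (by omega)).symm o1 o2 h6 o3 h5 h3

end

end Helper19.P
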