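import Pool.Agent.helper19.L9.POne

/-!
# Two roots whose own paths have ends; two roots with adjacent legs
-/

set_option linter.unusedSimpArgs false
set_option linter.unusedSectionVars false

namespace Helper19.P

open Finset Classical Helper42.L9 Helper33.Off Helper97.L9
open Helper33.L9 (cc ownR ownR_ne StarAt QE mem_QE cc_cap)
open Helper85.Bn (Ctx pre mem_pre msk)
open Helper19.Gadget (cp)
open Helper42.PP (Two)

variable {V : Type*} [Fintype V] {G : SimpleGraph V} {X D : V → Prop} {S' : Finset V} {n : ℕ}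

/-- specifications for two roots, own paths with ends -/
structure Specs2 (V : Type*) : Prop where
  ssss : HasSpec V (ty2 1 1 1 1)
  esss : HasSpec V (ty2 2 1 1 1)
  eess : HasSpec V (ty2 2 2 1 1)
  eses : HasSpec V (ty2 2 1 2 1)
  eeed : HasSpec V (ty2 2 2 2 5)
  tsss : ∀ k, k = 3 ∨ k = 4 → HasSpec V (ty2 k 1 1 1)
  tses : ∀ k, k = 3 ∨ k = 4 → HasSpec V (ty2 k 1 2 1)
  tsts : ∀ k m, k = 3 ∨ k = 4 → m = 3 ∨ m = 4 → HasSpec V (ty2 k 1 m 1)
  eetd : ∀ k, k = 3 ∨ k = 4 → HasSpec V (ty2 2 2 k 5)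

/-- kind of a length -/
def kOf (l : ℕ) : ℕ := if l = 3 then 3 else 4

theorem kOf_cases (l : ℕ) : kOf l = 3 ∨ kOf l = 4 := by
  unfold kOf; split_ifs <;> simp

theorem kl_kOf {l : ℕ} {a : V} (h : 3 ≤ l) : KL G X (kOf l) l a := by
  unfold kOf KL
  split_ifs with h1
  · right; right; omega
  · right; left; omega

/-- legs of different roots are different -/
theorem two_disj (h : StA G X D) {x z a b c d : V} (hT : Two G X D x z a b c d) :
    a ≠ c ∧ a ≠ d ∧ b ≠ c ∧ b ≠ d := by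
  have key : ∀ {u w : V}, G.Adj x u → G.Adj z w → ¬ D u → u ≠ w := by
    intro u w hu hw hn e
    subst e
    exact hT.xz.ne (h.disj x z u hT.hx hT.hz hn hu hw)
  exact ⟨key hT.xa hT.zc hT.na, key hT.xa hT.zd hT.na, key hT.xb hT.zc hT.nb,
    key hT.xb hT.zd hT.nb⟩

/-- the other leg at a long path is short -/
theorem len_short (hcub : ∀ v, (univ.filter fun b => G.Adj v b).card = 3) (h : StA G X D)
    {r : V} {p q : ℕ → V} {l m : ℕ} {E E' : V → Prop} (hr : D r) (hE : ∀ w, E w → D w)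
    (hp : Pth G X D r p l E) (hq : Pth G X D r q m E') (h0 : q 0 ≠ p 0) (h1 : q 0 ≠ p 1)
    (hl : 2 < l ∨ (l = 2 ∧ ∃ w, E w)) : cc G X (q 0) = 2 := by
  have hpos := hp.pos
  have o0 : ownR G X (p 0) r := (hp.nb 0 hpos _).mpr (Or.inl rfl)
  have o1 : ownR G X (p 0) (p 1) := (hp.nb 0 hpos _).mpr (Or.inr (Or.inl ⟨by omega, rfl⟩))
  have oq : ownR G X (q 0) r := (hq.nb 0 hq.pos _).mpr (Or.inl rfl)
  obtain ⟨w, o2, hw⟩ : ∃ w, ownR G X (p 1) w ∧ w ≠ p 0 := by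
    rcases hl with h2 | ⟨h2, w, hw⟩
    · exact ⟨p 2, (hp.nb 1 (by omega) _).mpr (Or.inr (Or.inl ⟨h2, rfl⟩)), hp.ne 1 h2⟩
    · exact ⟨w, (hp.nb 1 (by omega) _).mpr (Or.inr (Or.inr ⟨by omega, hw⟩)),
        fun e => hp.nD 0 hpos (e ▸ hE w hw)⟩
  exact h.tail2 r (p 0) (p 1) w (q 0) hr (hp.nD 0 hpos) (hp.nD 1 (by omega)) o0.1.symm o1.1
    o1.2.symm o2.1 o2.2.symm hw oq.1.symm (hq.nD 0 hq.pos) h0 h1

section

variable (hcub : ∀ v, (univ.filter fun b => G.Adj v b).card = 3)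

include hcub in
/-- a short leg has length one -/
theorem len_one {r : V} {q : ℕ → V} {m : ℕ} {E : V → Prop} (hq : Pth G X D r q m E)
    (h2 : cc G X (q 0) = 2) : m = 1 := by
  have hpos := hq.pos
  by_contra hcon
  have := hq.cc3 hcub hpos (Or.inl (by omega))
  omega

include hcub in
/-- a long leg is inner -/
theorem cc_long {r : V} {q : ℕ → V} {m : ℕ} {E : V → Prop} (hq : Pth G X D r q m E)
    (h2 : 2 ≤ m) : cc G X (q 0) = 3 := hq.cc3 hcub hq.pos (Or.inl (by omega))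

include hcub in
/-- the fourth leg is dead -/
theorem dead4 (h : StA G X D) {x z a b c d : V} (hT : Two G X D x z a b c d)
    (h1 : cc G X a = 3) (h2 : cc G X b = 3) (h3 : cc G X c = 3) :
    cc G X d = 2 ∧ (lkS G X d).card = 0 := by
  obtain ⟨h4, h5⟩ := h.dead z x d hT.hz hT.hx hT.xz.ne' hT.nd hT.zd (by
    rintro w hw (hzw | hxw) hne
    · rcases hT.nz w hzw with rfl | rfl | rfl
      · exact absurd hT.hx hw
      · exact h3
      · exact absurd rfl hne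
    · rcases hT.nx w hxw with rfl | rfl | rfl
      · exact absurd hT.hz hw
      · exact h1
      · exact h2)
  exact ⟨h4, lk_dead h5⟩

include hcub in
/-- **Two roots, own paths with ends**, sorted. -/
theorem two_sorted (h : StA G X D) {s : Prop} (hside : ∀ v ∈ S', (X v ↔ s))
    (hE : ENetX (ownN G X (NC X s (CR G X D))) (cN G X (NC X s (CR G X D))) (c3 G X D)
      (QE G X S').val) (hS : Specs2 V) {x z a b c d : V} (hT : Two G X D x z a b c d)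
    {p0 p1 p2 p3 : ℕ → V} {l0 l1 l2 l3 : ℕ}
    (h0 : PthE G X D x p0 l0) (h1 : PthE G X D x p1 l1) (h2 : PthE G X D z p2 l2)
    (h3 : PthE G X D z p3 l3) (a0 : p0 0 = a) (b0 : p1 0 = b) (c0 : p2 0 = c) (d0 : p3 0 = d)
    (s1 : l1 ≤ l0) (s2 : l3 ≤ l2) : AT (QE G X S').val (c3 G X D) := by
  have hd := two_disj h hT
  have key : ∀ {r : V} {p q : ℕ → V} {l m : ℕ}, D r → PthE G X D r p l → PthE G X D r q m →
      p 0 ≠ q 0 → m ≤ l → (l = 1 ∧ m = 1) ∨ (l = 2 ∧ m = 1) ∨ (l = 2 ∧ m = 2) ∨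
        (3 ≤ l ∧ m = 1) := by
    intro r p q l m hr hp hq hne hm
    have hq0 := hq.pos
    by_cases hl : 2 < l
    · right; right; right
      refine ⟨hl, len_one hcub hq (len_short hcub h hr (fun w hw => hw.elim) hp hq hne.symm ?_
        (Or.inl hl))⟩
      intro e
      have hfar := hp.far 1 (by omega) (by omega) (Or.inl (by omega))
      have oq : ownR G X (q 0) r := (hq.nb 0 hq.pos _).mpr (Or.inl rfl)
      rw [e] at oq
      exact hfar.2 r hr oq.1.symm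
    · omega
  have hab : p0 0 ≠ p1 0 := by rw [a0, b0]; exact hT.ab
  have hcd : p2 0 ≠ p3 0 := by rw [c0, d0]; exact hT.cd
  have kx := key hT.hx h0 h1 hab s1
  have kz := key hT.hz h2 h3 hcd s2
  have hTs := hT.symm
  have hds : c ≠ a ∧ c ≠ b ∧ d ≠ a ∧ d ≠ b :=
    ⟨hd.1.symm, hd.2.2.1.symm, hd.2.1.symm, hd.2.2.2.symm⟩
  have K1 : ∀ {w : V}, KL G X 1 1 w := kl_self (by omega) (by omega)
  have K2 : ∀ {w : V}, KL G X 2 2 w := kl_self (by omega) (by omega)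
  have ca : 2 ≤ l0 → cc G X a = 3 := fun hl => by rw [← a0]; exact cc_long hcub h0 hl
  have cb : 2 ≤ l1 → cc G X b = 3 := fun hl => by rw [← b0]; exact cc_long hcub h1 hl
  have cc' : 2 ≤ l2 → cc G X c = 3 := fun hl => by rw [← c0]; exact cc_long hcub h2 hl
  have cd' : 2 ≤ l3 → cc G X d = 3 := fun hl => by rw [← d0]; exact cc_long hcub h3 hl
  rcases kx with ⟨rfl, rfl⟩ | ⟨rfl, rfl⟩ | ⟨rfl, rfl⟩ | ⟨hx3, rfl⟩ <;>
    rcases kz with ⟨rfl, rfl⟩ | ⟨rfl, rfl⟩ | ⟨rfl, rfl⟩ | ⟨hz3, rfl⟩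
  -- S S
  · exact (cfg2 hT h0 h1 h2 h3 a0 b0 c0 d0 hd K1 K1 K1 K1).at' hcub h hside hE hS.ssss
  · exact (cfg2 hTs h2 h3 h0 h1 c0 d0 a0 b0 hds K2 K1 K1 K1).at' hcub h hside hE hS.esss
  · exact (cfg2 hTs h2 h3 h0 h1 c0 d0 a0 b0 hds K2 K2 K1 K1).at' hcub h hside hE hS.eess
  · exact (cfg2 hTs h2 h3 h0 h1 c0 d0 a0 b0 hds (kl_kOf hz3) K1 K1 K1).at' hcub h hside hE
      (hS.tsss _ (kOf_cases _))
  -- E S
  · exact (cfg2 hT h0 h1 h2 h3 a0 b0 c0 d0 hd K2 K1 K1 K1).at' hcub h hside hE hS.esss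
  · exact (cfg2 hT h0 h1 h2 h3 a0 b0 c0 d0 hd K2 K1 K2 K1).at' hcub h hside hE hS.eses
  · obtain ⟨_, e1⟩ := dead4 hcub h hTs (cc' (by omega)) (cd' (by omega)) (ca (by omega))
    exact (cfg2 hTs h2 h3 h0 h1 c0 d0 a0 b0 hds K2 K2 K2 (Or.inl ⟨rfl, rfl, e1⟩)).at' hcub h
      hside hE hS.eeed
  · exact (cfg2 hTs h2 h3 h0 h1 c0 d0 a0 b0 hds (kl_kOf hz3) K1 K2 K1).at' hcub h hside hE
      (hS.tses _ (kOf_cases _))
  -- E E
  · exact (cfg2 hT h0 h1 h2 h3 a0 b0 c0 d0 hd K2 K2 K1 K1).at' hcub h hside hE hS.eess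
  · obtain ⟨_, e1⟩ := dead4 hcub h hT (ca (by omega)) (cb (by omega)) (cc' (by omega))
    exact (cfg2 hT h0 h1 h2 h3 a0 b0 c0 d0 hd K2 K2 K2 (Or.inl ⟨rfl, rfl, e1⟩)).at' hcub h
      hside hE hS.eeed
  · obtain ⟨e1, _⟩ := dead4 hcub h hT (ca (by omega)) (cb (by omega)) (cc' (by omega))
    have := cd' (by omega)
    omega
  · obtain ⟨_, e1⟩ := dead4 hcub h hT (ca (by omega)) (cb (by omega)) (cc' (by omega))
    exact (cfg2 hT h0 h1 h2 h3 a0 b0 c0 d0 hd K2 K2 (kl_kOf hz3) (Or.inl ⟨rfl, rfl, e1⟩)).at'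
      hcub h hside hE (hS.eetd _ (kOf_cases _))
  -- T S
  · exact (cfg2 hT h0 h1 h2 h3 a0 b0 c0 d0 hd (kl_kOf hx3) K1 K1 K1).at' hcub h hside hE
      (hS.tsss _ (kOf_cases _))
  · exact (cfg2 hT h0 h1 h2 h3 a0 b0 c0 d0 hd (kl_kOf hx3) K1 K2 K1).at' hcub h hside hE
      (hS.tses _ (kOf_cases _))
  · obtain ⟨_, e1⟩ := dead4 hcub h hTs (cc' (by omega)) (cd' (by omega)) (ca (by omega))
    exact (cfg2 hTs h2 h3 h0 h1 c0 d0 a0 b0 hds K2 K2 (kl_kOf hx3)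
      (Or.inl ⟨rfl, rfl, e1⟩)).at' hcub h hside hE (hS.eetd _ (kOf_cases _))
  · exact (cfg2 hT h0 h1 h2 h3 a0 b0 c0 d0 hd (kl_kOf hx3) K1 (kl_kOf hz3) K1).at' hcub h
      hside hE (hS.tsts _ _ (kOf_cases _) (kOf_cases _))

include hcub in
/-- **Two roots, own paths with ends.** -/
theorem two_at (h : StA G X D) {s : Prop} (hside : ∀ v ∈ S', (X v ↔ s))
    (hE : ENetX (ownN G X (NC X s (CR G X D))) (cN G X (NC X s (CR G X D))) (c3 G X D)
      (QE G X S').val) (hS : Specs2 V) {x z a b c d : V} (hT : Two G X D x z a b c d)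
    {p0 p1 p2 p3 : ℕ → V} {l0 l1 l2 l3 : ℕ}
    (h0 : PthE G X D x p0 l0) (h1 : PthE G X D x p1 l1) (h2 : PthE G X D z p2 l2)
    (h3 : PthE G X D z p3 l3) (a0 : p0 0 = a) (b0 : p1 0 = b) (c0 : p2 0 = c) (d0 : p3 0 = d) :
    AT (QE G X S').val (c3 G X D) := by
  rcases le_total l1 l0 with s1 | s1 <;> rcases le_total l3 l2 with s2 | s2
  · exact two_sorted hcub h hside hE hS hT h0 h1 h2 h3 a0 b0 c0 d0 s1 s2
  · exact two_sorted hcub h hside hE hS hT.symm.swap.symm h0 h1 h3 h2 a0 b0 d0 c0 s1 s2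
  · exact two_sorted hcub h hside hE hS hT.swap h1 h0 h2 h3 b0 a0 c0 d0 s1 s2
  · exact two_sorted hcub h hside hE hS hT.swap.symm.swap.symm h1 h0 h3 h2 b0 a0 d0 c0 s1 s2

end

end Helper19.P
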