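import Pool.Agent.helper19.L9.CN

/-!
# Alon-Tarsi orientations are paintable (Schauz), one move

If the coefficient of `X ^ t` in the graph polynomial of `E` is non-zero and `S` is the set of
presented vertices, then there is an independent `U ⊆ S` such that after removing `U` the graph
polynomial has a non-zero coefficient at some `k` with `k v < t v` for `v ∈ S \ U` and
`k v ≤ t v` for `v ∉ S`.
-/

namespace Helper19.L9

open MvPolynomial Finset

variable {V ι : Type*}

/-- weight of a monomial -/
noncomputable def wt (S U : Finset V) (t m : V →₀ ℕ) : ℤ := by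
  classical
  exact if (∀ v ∈ S, v ∉ U → m v < t v) ∧ ∀ v, v ∉ S → m v = t v then 1 else 0

/-- the functional `T_U` -/
noncomputable def func (S U : Finset V) (t : V →₀ ℕ) : MvPolynomial V ℤ →ₗ[ℤ] ℤ :=
  (MvPolynomial.basisMonomials V ℤ).constr ℤ (wt S U t)

theorem func_monomial (S U : Finset V) (t m : V →₀ ℕ) (a : ℤ) :
    func S U t (monomial m a) = a * wt S U t m := by
  have h : (monomial m a : MvPolynomial V ℤ) = a • (MvPolynomial.basisMonomials V ℤ) m := by
    rw [coe_basisMonomials, smul_monomial]; simp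
  rw [h, map_smul, func, Module.Basis.constr_basis, smul_eq_mul]

theorem func_eq_sum (S U : Finset V) (t : V →₀ ℕ) (P : MvPolynomial V ℤ) :
    func S U t P = ∑ m ∈ P.support, coeff m P * wt S U t m := by
  conv_lhs => rw [P.as_sum]
  rw [map_sum]
  exact Finset.sum_congr rfl fun m _ => func_monomial S U t m _

/-- substitution `x_v = 1` for `v ∈ U` -/
noncomputable def sub1 [DecidableEq V] (U : Finset V) : MvPolynomial V ℤ →ₐ[ℤ] MvPolynomial V ℤ :=
  aeval (fun v => if v ∈ U then 1 else X v)

theorem sub1_monomial [DecidableEq V] (U : Finset V) (m : V →₀ ℕ) (a : ℤ) :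
    sub1 U (monomial m a) = monomial (m.filter (· ∉ U)) a := by
  unfold sub1
  rw [aeval_monomial, monomial_eq]
  congr 1
  rw [Finsupp.prod, Finsupp.prod, Finsupp.support_filter, Finset.prod_filter]
  refine Finset.prod_congr rfl fun v _ => ?_
  by_cases hv : v ∈ U
  · simp [hv]
  · simp [hv, Finsupp.filter_apply_pos]

theorem wt_filter [DecidableEq V] (S U : Finset V) (hU : U ⊆ S) (t m : V →₀ ℕ) :
    wt S U t (m.filter (· ∉ U)) = wt S U t m := by
  unfold wt
  congr 1
  apply propext
  constructor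
  · rintro ⟨h1, h2⟩
    refine ⟨fun v hv hvU => ?_, fun v hv => ?_⟩
    · have := h1 v hv hvU
      rwa [Finsupp.filter_apply_pos (p := (· ∉ U)) m hvU] at this
    · have := h2 v hv
      rwa [Finsupp.filter_apply_pos (p := (· ∉ U)) m (fun h => hv (hU h))] at this
  · rintro ⟨h1, h2⟩
    refine ⟨fun v hv hvU => ?_, fun v hv => ?_⟩
    · rw [Finsupp.filter_apply_pos (p := (· ∉ U)) m hvU]; exact h1 v hv hvU
    · rw [Finsupp.filter_apply_pos (p := (· ∉ U)) m (fun h => hv (hU h))]; exact h2 v hv

theorem func_sub1 [DecidableEq V] (S U : Finset V) (hU : U ⊆ S) (t : V →₀ ℕ)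
    (P : MvPolynomial V ℤ) : func S U t (sub1 U P) = func S U t P := by
  induction P using MvPolynomial.induction_on' with
  | monomial m a => rw [sub1_monomial, func_monomial, func_monomial, wt_filter S U hU]
  | add p q hp hq => rw [map_add, map_add, map_add, hp, hq]

open Classical in
/-- inclusion-exclusion -/
theorem alt_sum_wt [DecidableEq V] (S : Finset V) (t m : V →₀ ℕ) :
    ∑ U ∈ S.powerset, (-1 : ℤ) ^ (S \ U).card * wt S U t m =
      if (∀ v ∈ S, t v ≤ m v) ∧ ∀ v, v ∉ S → m v = t v then 1 else 0 := by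
  by_cases h : ∀ v, v ∉ S → m v = t v
  · have e1 : ∀ U ∈ S.powerset, (-1 : ℤ) ^ (S \ U).card * wt S U t m =
        (∏ v ∈ U, (1 : ℤ)) * ∏ v ∈ S \ U, (-(if m v < t v then 1 else 0 : ℤ)) := by
      intro U hU
      rw [Finset.prod_const_one, one_mul]
      rw [Finset.prod_neg]
      congr 1
      unfold wt
      by_cases h2 : ∀ v ∈ S, v ∉ U → m v < t v
      · rw [if_pos ⟨h2, h⟩]
        symm
        apply Finset.prod_eq_one
        intro v hv
        rw [Finset.mem_sdiff] at hv
        rw [if_pos (h2 v hv.1 hv.2)]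
      · rw [if_neg (fun hh => h2 hh.1)]
        push Not at h2
        obtain ⟨v, hv, hvU, hlt⟩ := h2
        symm
        apply Finset.prod_eq_zero (i := v) (Finset.mem_sdiff.mpr ⟨hv, hvU⟩)
        rw [if_neg (by omega)]
    rw [Finset.sum_congr rfl e1, ← Finset.prod_add]
    split_ifs with h3
    · apply Finset.prod_eq_one
      intro v hv
      rw [if_neg (by have := h3.1 v hv; omega)]; simp
    · have : ∃ v ∈ S, m v < t v := by
        by_contra hcon
        push Not at hcon
        exact h3 ⟨hcon, h⟩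
      obtain ⟨v, hv, hlt⟩ := this
      apply Finset.prod_eq_zero hv
      rw [if_pos hlt]; simp
  · rw [if_neg (fun hh => h hh.2)]
    apply Finset.sum_eq_zero
    intro U _
    unfold wt
    rw [if_neg (fun hh => h hh.2), mul_zero]

theorem linPoly_homogeneous (u w : ι → V) (E : Finset ι) {m : V →₀ ℕ}
    (hm : coeff m (linPoly u w E) ≠ 0) : m.degree = E.card := by
  have h : (linPoly u w E).IsHomogeneous E.card := by
    have := IsHomogeneous.prod E (fun e => (X (u e) - X (w e) : MvPolynomial V ℤ)) (fun _ => 1)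
      (fun e _ => (isHomogeneous_X ℤ (u e)).sub (isHomogeneous_X ℤ (w e)))
    simpa [linPoly] using this
  have := h hm
  rw [Finsupp.degree_eq_weight_one]
  exact this

theorem alt_sum_func [DecidableEq V] (u w : ι → V) (E : Finset ι) (S : Finset V) (t : V →₀ ℕ)
    (hdeg : t.degree = E.card) :
    ∑ U ∈ S.powerset, (-1 : ℤ) ^ (S \ U).card * func S U t (linPoly u w E) =
      coeff t (linPoly u w E) := by
  simp_rw [func_eq_sum, Finset.mul_sum]
  rw [Finset.sum_comm]
  have e : ∀ m ∈ (linPoly u w E).support,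
      ∑ U ∈ S.powerset, (-1 : ℤ) ^ (S \ U).card * (coeff m (linPoly u w E) * wt S U t m) =
        if m = t then coeff m (linPoly u w E) else 0 := by
    intro m hm
    have e2 : ∀ U, (-1 : ℤ) ^ (S \ U).card * (coeff m (linPoly u w E) * wt S U t m) =
        coeff m (linPoly u w E) * ((-1 : ℤ) ^ (S \ U).card * wt S U t m) := by
      intro U; ring
    simp_rw [e2]
    rw [← Finset.mul_sum, alt_sum_wt]
    by_cases hmt : m = t
    · subst hmt
      simp
    · rw [if_neg hmt, if_neg, mul_zero]
      rintro ⟨h1, h2⟩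
      apply hmt
      have hle : t ≤ m := by
        intro v
        by_cases hv : v ∈ S
        · exact h1 v hv
        · exact (h2 v hv).ge
      have hd := linPoly_homogeneous u w E (mem_support_iff.mp hm)
      have h3 := congrArg Finsupp.degree (tsub_add_cancel_of_le hle)
      rw [map_add, hd, hdeg] at h3
      have h4 : (m - t).degree = 0 := by omega
      have h5 : m - t = 0 := (Finsupp.degree_eq_zero_iff _).mp h4
      have := tsub_add_cancel_of_le hle
      rw [h5, zero_add] at this
      exact this.symm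
  rw [Finset.sum_congr rfl e, Finset.sum_ite_eq']
  split_ifs with h
  · rfl
  · exact (notMem_support_iff.mp h).symm

/-- **One paint move.** -/
theorem paint_move [DecidableEq V] (u w : ι → V) (E : Finset ι) (t : V →₀ ℕ)
    (hcoeff : coeff t (linPoly u w E) ≠ 0) (S : Finset V) :
    ∃ U ⊆ S, (∀ e ∈ E, ¬ (u e ∈ U ∧ w e ∈ U)) ∧ ∃ k : V →₀ ℕ,
      (∀ v ∈ S, v ∉ U → k v < t v) ∧ (∀ v, v ∉ S → k v ≤ t v) ∧
      coeff k (linPoly u w (E.filter fun e => u e ∉ U ∧ w e ∉ U)) ≠ 0 := by
  have hdeg := linPoly_homogeneous u w E hcoeff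
  have hsum := alt_sum_func u w E S t hdeg
  have hne : ∃ U ∈ S.powerset, func S U t (linPoly u w E) ≠ 0 := by
    by_contra hcon
    push Not at hcon
    apply hcoeff
    rw [← hsum]
    apply Finset.sum_eq_zero
    intro U hU
    rw [hcon U hU, mul_zero]
  obtain ⟨U, hU, hf⟩ := hne
  rw [Finset.mem_powerset] at hU
  rw [← func_sub1 S U hU, func_eq_sum] at hf
  obtain ⟨m, hm, hm2⟩ := Finset.exists_ne_zero_of_sum_ne_zero hf
  have hw : wt S U t m ≠ 0 := right_ne_zero_of_mul hm2
  have hc : coeff m (sub1 U (linPoly u w E)) ≠ 0 := left_ne_zero_of_mul hm2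
  have hw2 : (∀ v ∈ S, v ∉ U → m v < t v) ∧ ∀ v, v ∉ S → m v = t v := by
    by_contra hcon
    apply hw
    unfold wt
    rw [if_neg hcon]
  have hprod : sub1 U (linPoly u w E) =
      ∏ e ∈ E, ((if u e ∈ U then 1 else X (u e)) - (if w e ∈ U then 1 else X (w e))) := by
    unfold linPoly sub1
    rw [map_prod]
    refine Finset.prod_congr rfl fun e _ => ?_
    rw [map_sub, aeval_X, aeval_X]
  refine ⟨U, hU, ?_, ?_⟩
  · rintro e he ⟨h1, h2⟩
    apply hc
    rw [hprod, Finset.prod_eq_zero he]
    · simp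
    · rw [if_pos h1, if_pos h2, sub_self]
  · rw [hprod, ← Finset.prod_filter_mul_prod_filter_not E (fun e => u e ∉ U ∧ w e ∉ U)] at hc
    have e3 : (∏ e ∈ E.filter (fun e => u e ∉ U ∧ w e ∉ U),
        ((if u e ∈ U then 1 else X (u e)) - (if w e ∈ U then 1 else X (w e)))
          : MvPolynomial V ℤ) = linPoly u w (E.filter fun e => u e ∉ U ∧ w e ∉ U) := by
      unfold linPoly
      refine Finset.prod_congr rfl fun e he => ?_
      rw [Finset.mem_filter] at he
      rw [if_neg he.2.1, if_neg he.2.2]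
    rw [e3, coeff_mul] at hc
    obtain ⟨⟨k, l⟩, hkl, hkl2⟩ := Finset.exists_ne_zero_of_sum_ne_zero hc
    rw [Finset.mem_antidiagonal] at hkl
    have hkm : ∀ v, k v ≤ m v := by
      intro v
      have := DFunLike.congr_fun hkl v
      simp only [Finsupp.add_apply] at this
      omega
    refine ⟨k, fun v hv hvU => lt_of_le_of_lt (hkm v) (hw2.1 v hv hvU),
      fun v hv => (hkm v).trans (hw2.2 v hv).le, left_ne_zero_of_mul hkl2⟩

end Helper19.L9
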