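import Mathlib.Combinatorics.SimpleGraph.Finite
import Mathlib.Tactic

/-!
# The four class parity scheme (helper50) for `L(2,1)`-labellings with labels `0..9`

`cls v` is `0` (`A`, label `0`), `1` (`B`, labels `2,4,6,8`), `2` (`C`, labels `1,3,5,7`) or
`3` (`D`, label `9`). `A` and `D` are `2`-packings. A vertex of `B` needs as many later `B`-vertices
at distance at most two as it has `B`-vertices at distance exactly two, minus its `A`-neighbours;
a vertex of `C` the same with `C` and `D`.
-/

namespace Helper19.L9

open Finset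

variable {V : Type*}

/-- distinct vertices at distance at most two -/
def Close (G : SimpleGraph V) (v w : V) : Prop :=
  v ≠ w ∧ (G.Adj v w ∨ ∃ x, G.Adj v x ∧ G.Adj x w)

/-- vertices at distance exactly two -/
def Two (G : SimpleGraph V) (v w : V) : Prop :=
  v ≠ w ∧ ¬ G.Adj v w ∧ ∃ x, G.Adj v x ∧ G.Adj x w

theorem Close.symm {G : SimpleGraph V} {v w : V} (h : Close G v w) : Close G w v := by
  obtain ⟨h1, h2⟩ := h
  refine ⟨h1.symm, ?_⟩
  rcases h2 with h | ⟨x, hx, hy⟩
  · exact Or.inl h.symm
  · exact Or.inr ⟨x, hy.symm, hx.symm⟩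

/-- kernel of an acyclic digraph -/
theorem exists_kernel [DecidableEq V] (J : V → V → Prop) (ord : V → ℕ)
    (hord : Function.Injective ord) :
    ∀ (n : ℕ) (U : Finset V), U.card = n →
      ∃ M ⊆ U, (∀ v ∈ M, ∀ w ∈ M, ord v < ord w → ¬ J v w) ∧
        ∀ v ∈ U, v ∉ M → ∃ w ∈ M, J w v ∧ ord w < ord v := by
  classical
  intro n
  induction n using Nat.strong_induction_on with
  | _ n ih =>
    intro U hU
    rcases U.eq_empty_or_nonempty with h0 | hne
    · subst h0
      exact ⟨∅, by simp, by simp, by simp⟩
    · obtain ⟨v0, hv0, hmin⟩ := exists_min_image U ord hne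
      set U' := (U.erase v0).filter (fun w => ¬ J v0 w) with hU'
      have hlt : U'.card < n := by
        rw [← hU]
        apply (card_le_card (filter_subset _ _)).trans_lt
        exact card_erase_lt_of_mem hv0
      obtain ⟨M, hM, hind, hker⟩ := ih _ hlt U' rfl
      have hsub : ∀ w ∈ M, w ∈ U ∧ w ≠ v0 ∧ ¬ J v0 w := by
        intro w hw
        have := hM hw
        rw [hU', mem_filter, mem_erase] at this
        exact ⟨this.1.2, this.1.1, this.2⟩
      refine ⟨insert v0 M, ?_, ?_, ?_⟩
      · intro w hw
        rcases mem_insert.mp hw with rfl | hw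
        · exact hv0
        · exact (hsub w hw).1
      · intro a ha b hb hab
        rcases mem_insert.mp ha with ha | ha
        · rcases mem_insert.mp hb with hb | hb
          · rw [ha, hb] at hab
            exact absurd hab (lt_irrefl _)
          · rw [ha]
            exact (hsub b hb).2.2
        · rcases mem_insert.mp hb with hb | hb
          · rw [hb] at hab
            exact absurd hab (not_lt.mpr (hmin a (hsub a ha).1))
          · exact hind a ha b hb hab
      · intro v hv hvM
        rw [mem_insert, not_or] at hvM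
        by_cases hJ : J v0 v
        · refine ⟨v0, mem_insert_self _ _, hJ, ?_⟩
          rcases lt_or_eq_of_le (hmin v hv) with h | h
          · exact h
          · exact absurd (hord h).symm hvM.1
        · have : v ∈ U' := by
            rw [hU', mem_filter, mem_erase]
            exact ⟨⟨hvM.1, hv⟩, hJ⟩
          obtain ⟨w, hw, h1, h2⟩ := hker v this hvM.2
          exact ⟨w, mem_insert_of_mem hw, h1, h2⟩

/-- the state of the online labelling after the labels `1, ..., l` -/
structure State (G : SimpleGraph V) (cls : V → Fin 4) (ord : V → ℕ) (l : ℕ) (f : V → ℕ) :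
    Prop where
  hA : ∀ v, cls v = 0 → f v = 0
  hD : ∀ v, cls v = 3 → f v = 9
  hB : ∀ v, cls v = 1 → f v = 20 ∨ (f v ≤ l ∧ 1 ≤ f v ∧ f v % 2 = 0)
  hC : ∀ v, cls v = 2 → f v = 20 ∨ (f v ≤ l ∧ 1 ≤ f v ∧ f v % 2 = 1)
  close : ∀ v w, Close G v w → f v = f w → f v = 20
  adj : ∀ v w, G.Adj v w → f w ≠ f v + 1
  full : ∀ v, f v = 20 → ∀ m, 1 ≤ m → m ≤ l → (cls v = 1 ∧ m % 2 = 0 ∨ cls v = 2 ∧ m % 2 = 1) →
    (∃ w, G.Adj v w ∧ f w + 1 = m) ∨ (m = 8 ∧ ∃ w, G.Adj v w ∧ f w = 9) ∨
      (∃ w, Close G v w ∧ f w = m ∧ ord w < ord v)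

theorem state_zero (G : SimpleGraph V) (cls : V → Fin 4) (ord : V → ℕ)
    (hA : ∀ v w, cls v = 0 → cls w = 0 → ¬ Close G v w)
    (hD : ∀ v w, cls v = 3 → cls w = 3 → ¬ Close G v w) :
    ∃ f, State G cls ord 0 f := by
  refine ⟨fun v => if cls v = 0 then 0 else if cls v = 3 then 9 else 20, ?_, ?_, ?_, ?_, ?_, ?_,
    ?_⟩
  · intro v h; simp [h]
  · intro v h; simp [h]
  · intro v h; left; simp [h]
  · intro v h; left; simp [h]
  · intro v w hvw h
    by_cases h0 : cls v = 0
    · by_cases h0' : cls w = 0
      · exact absurd hvw (hA v w h0 h0')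
      · by_cases h3' : cls w = 3
        · simp [h0, h3'] at h
        · simp [h0, h0', h3'] at h
    · by_cases h3 : cls v = 3
      · by_cases h0' : cls w = 0
        · simp [h3, h0'] at h
        · by_cases h3' : cls w = 3
          · exact absurd hvw (hD v w h3 h3')
          · simp [h3, h0', h3'] at h
      · simp [h0, h3]
  · intro v w _ h
    have : ∀ c : Fin 4, (if c = 0 then 0 else if c = 3 then 9 else 20) = 0 ∨
        (if c = 0 then 0 else if c = 3 then 9 else 20) = 9 ∨
        (if c = 0 then 0 else if c = 3 then 9 else 20) = 20 := by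
      intro c
      split_ifs <;> simp
    have h1 := this (cls v)
    have h2 := this (cls w)
    omega
  · intro v _ m h1 h2
    omega

theorem state_succ [Fintype V] [DecidableEq V] (G : SimpleGraph V) (cls : V → Fin 4)
    (ord : V → ℕ) (hord : Function.Injective ord) (l : ℕ) (hl : l < 8) (f : V → ℕ)
    (hf : State G cls ord l f) : ∃ g, State G cls ord (l + 1) g := by
  classical
  set m := l + 1 with hm
  set U : Finset V := univ.filter (fun v => f v = 20 ∧
    (cls v = 1 ∧ m % 2 = 0 ∨ cls v = 2 ∧ m % 2 = 1) ∧
    ¬ (∃ w, G.Adj v w ∧ f w + 1 = m) ∧ ¬ (∃ w, G.Adj v w ∧ f w = m + 1)) with hU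
  obtain ⟨M, hMU, hind, hker⟩ := exists_kernel (Close G) ord hord _ U rfl
  have hM : ∀ v ∈ M, f v = 20 ∧ (cls v = 1 ∧ m % 2 = 0 ∨ cls v = 2 ∧ m % 2 = 1) ∧
      ¬ (∃ w, G.Adj v w ∧ f w + 1 = m) ∧ ¬ (∃ w, G.Adj v w ∧ f w = m + 1) := by
    intro v hv
    have := hMU hv
    rw [hU, mem_filter] at this
    exact this.2
  -- old labels are never equal to `m`
  have hval : ∀ v, f v = 0 ∨ f v = 9 ∨ f v = 20 ∨ f v ≤ l := by
    intro v
    have h4 : cls v = 0 ∨ cls v = 1 ∨ cls v = 2 ∨ cls v = 3 := by
      generalize cls v = c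
      fin_cases c <;> simp
    rcases h4 with h | h | h | h
    · left; exact hf.hA v h
    · rcases hf.hB v h with h | h
      · right; right; left; exact h
      · right; right; right; exact h.1
    · rcases hf.hC v h with h | h
      · right; right; left; exact h
      · right; right; right; exact h.1
    · right; left; exact hf.hD v h
  have hnm : ∀ v, f v ≠ m := by
    intro v h
    rcases hval v with h' | h' | h' | h' <;> omega
  refine ⟨fun v => if v ∈ M then m else f v, ?_, ?_, ?_, ?_, ?_, ?_, ?_⟩
  · intro v h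
    have : v ∉ M := fun hv => by
      have := (hM v hv).2.1
      rw [h] at this
      rcases this with h | h <;> exact absurd h.1 (by decide)
    simp only [this, if_false]
    exact hf.hA v h
  · intro v h
    have : v ∉ M := fun hv => by
      have := (hM v hv).2.1
      rw [h] at this
      rcases this with h | h <;> exact absurd h.1 (by decide)
    simp only [this, if_false]
    exact hf.hD v h
  · intro v h
    by_cases hv : v ∈ M
    · simp only [hv, if_true]
      right
      rcases (hM v hv).2.1 with h' | h'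
      · exact ⟨le_refl _, by omega, h'.2⟩
      · rw [h] at h'; exact absurd h'.1 (by decide)
    · simp only [hv, if_false]
      rcases hf.hB v h with h' | h'
      · left; exact h'
      · right; exact ⟨by omega, h'.2⟩
  · intro v h
    by_cases hv : v ∈ M
    · simp only [hv, if_true]
      right
      rcases (hM v hv).2.1 with h' | h'
      · rw [h] at h'; exact absurd h'.1 (by decide)
      · exact ⟨le_refl _, by omega, h'.2⟩
    · simp only [hv, if_false]
      rcases hf.hC v h with h' | h'
      · left; exact h'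
      · right; exact ⟨by omega, h'.2⟩
  · intro v w hvw h
    by_cases hv : v ∈ M
    · by_cases hw : w ∈ M
      · exfalso
        rcases lt_trichotomy (ord v) (ord w) with h' | h' | h'
        · exact hind v hv w hw h' hvw
        · exact hvw.1 (hord h')
        · exact hind w hw v hv h' hvw.symm
      · simp only [hv, hw, if_true, if_false] at h
        exact absurd h.symm (hnm w)
    · by_cases hw : w ∈ M
      · simp only [hv, hw, if_true, if_false] at h
        exact absurd h (hnm v)
      · simp only [hv, hw, if_false] at h ⊢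
        exact hf.close v w hvw h
  · intro v w hvw h
    by_cases hv : v ∈ M
    · by_cases hw : w ∈ M
      · simp only [hv, hw, if_true] at h
        omega
      · simp only [hv, hw, if_true, if_false] at h
        exact (hM v hv).2.2.2 ⟨w, hvw, h⟩
    · by_cases hw : w ∈ M
      · simp only [hv, hw, if_true, if_false] at h
        exact (hM w hw).2.2.1 ⟨v, hvw.symm, h.symm⟩
      · simp only [hv, hw, if_false] at h
        exact hf.adj v w hvw h
  · intro v hv k hk1 hk2 hk
    have hvM : v ∉ M := by
      intro h
      simp only [h, if_true] at hv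
      omega
    simp only [hvM, if_false] at hv
    -- labels of witnesses are kept
    have keep : ∀ w, f w ≠ 20 → (if w ∈ M then m else f w) = f w := by
      intro w hw
      have : w ∉ M := fun h => hw (hM w h).1
      simp [this]
    rcases Nat.lt_or_ge k m with hlt | hge
    · rcases hf.full v hv k hk1 (by omega) hk with ⟨w, h1, h2⟩ | ⟨h0, w, h1, h2⟩ | ⟨w, h1, h2, h3⟩
      · left; exact ⟨w, h1, by rw [keep w (by omega)]; exact h2⟩
      · right; left; exact ⟨h0, w, h1, by rw [keep w (by omega)]; exact h2⟩
      · right; right; exact ⟨w, h1, by rw [keep w (by omega)]; exact h2, h3⟩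
    · have hkm : k = m := by omega
      subst hkm
      by_cases hvU : v ∈ U
      · obtain ⟨w, hw, h1, h2⟩ := hker v hvU hvM
        right; right
        exact ⟨w, h1.symm, by simp [hw], h2⟩
      · rw [hU, mem_filter] at hvU
        simp only [mem_univ, true_and, not_and, not_not] at hvU
        by_cases hb : ∃ w, G.Adj v w ∧ f w + 1 = m
        · obtain ⟨w, h1, h2⟩ := hb
          left; exact ⟨w, h1, by rw [keep w (by omega)]; exact h2⟩
        · obtain ⟨w, h1, h2⟩ := hvU hv hk hb
          right; left
          rcases hval w with h' | h' | h' | h'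
          · omega
          · exact ⟨by omega, w, h1, by rw [keep w (by omega)]; exact h'⟩
          · omega
          · omega

theorem exists_state [Fintype V] [DecidableEq V] (G : SimpleGraph V) (cls : V → Fin 4)
    (ord : V → ℕ) (hord : Function.Injective ord)
    (hA : ∀ v w, cls v = 0 → cls w = 0 → ¬ Close G v w)
    (hD : ∀ v w, cls v = 3 → cls w = 3 → ¬ Close G v w) :
    ∀ l ≤ 8, ∃ f, State G cls ord l f := by
  intro l
  induction l with
  | zero => intro _; exact state_zero G cls ord hA hD
  | succ l ih =>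
    intro hl
    obtain ⟨f, hf⟩ := ih (by omega)
    exact state_succ G cls ord hord l (by omega) f hf

open Classical in
/-- **Four class parity scheme.** -/
theorem labelling_of_order [Fintype V] [DecidableEq V] (G : SimpleGraph V)
    [DecidableRel G.Adj] (hdeg : ∀ v, G.degree v ≤ 3) (cls : V → Fin 4)
    (ord : V → ℕ) (hord : Function.Injective ord)
    (hA : ∀ v w, cls v = 0 → cls w = 0 → ¬ Close G v w)
    (hD : ∀ v w, cls v = 3 → cls w = 3 → ¬ Close G v w)
    (hB : ∀ v, cls v = 1 → (univ.filter fun w => cls w = 1 ∧ Two G v w).card ≤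
      (univ.filter fun w => cls w = 0 ∧ G.Adj v w).card +
        (univ.filter fun w => cls w = 1 ∧ Close G v w ∧ ord v < ord w).card)
    (hC : ∀ v, cls v = 2 → (univ.filter fun w => cls w = 2 ∧ Two G v w).card ≤
      (univ.filter fun w => cls w = 3 ∧ G.Adj v w).card +
        (univ.filter fun w => cls w = 2 ∧ Close G v w ∧ ord v < ord w).card) :
    ∃ f : V → ℕ, (∀ v, f v ≤ 9) ∧ (∀ u v, G.Adj u v → 2 ≤ |(f u : ℤ) - (f v : ℤ)|) ∧
      (∀ u v w, u ≠ v → G.Adj u w → G.Adj w v → f u ≠ f v) := by
  obtain ⟨f, hf⟩ := exists_state G cls ord hord hA hD 8 le_rfl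
  -- the four classes of neighbours
  have hsum : ∀ v, (univ.filter fun w => cls w = 0 ∧ G.Adj v w).card +
      (univ.filter fun w => cls w = 1 ∧ G.Adj v w).card +
      (univ.filter fun w => cls w = 2 ∧ G.Adj v w).card +
      (univ.filter fun w => cls w = 3 ∧ G.Adj v w).card ≤ 3 := by
    intro v
    refine le_trans (le_of_eq ?_) (hdeg v)
    rw [← SimpleGraph.card_neighborFinset_eq_degree]
    have : G.neighborFinset v = (univ : Finset (Fin 4)).biUnion
        (fun c => univ.filter fun w => cls w = c ∧ G.Adj v w) := by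
      ext w
      simp
    rw [this, card_biUnion]
    · simp only [Fin.sum_univ_four]
    · intro a _ b _ hab
      rw [Function.onFun, disjoint_left]
      intro w h1 h2
      rw [mem_filter] at h1 h2
      exact hab (h1.2.1.symm.trans h2.2.1)
  -- splitting the class neighbours at distance at most two
  have hsplit : ∀ (c : Fin 4) (v : V),
      (univ.filter fun w => cls w = c ∧ Close G v w ∧ ord w < ord v).card +
      (univ.filter fun w => cls w = c ∧ Close G v w ∧ ord v < ord w).card =
      (univ.filter fun w => cls w = c ∧ G.Adj v w).card +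
      (univ.filter fun w => cls w = c ∧ Two G v w).card := by
    intro c v
    rw [← card_union_of_disjoint, ← card_union_of_disjoint]
    · congr 1
      ext w
      simp only [mem_union, mem_filter, mem_univ, true_and]
      constructor
      · rintro (⟨h1, h2, h3⟩ | ⟨h1, h2, h3⟩)
        all_goals
          by_cases ha : G.Adj v w
          · left; exact ⟨h1, ha⟩
          · right
            rcases h2.2 with h | h
            · exact absurd h ha
            · exact ⟨h1, h2.1, ha, h⟩
      · rintro (⟨h1, h2⟩ | ⟨h1, h2⟩)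
        · have hne : v ≠ w := G.ne_of_adj h2
          rcases lt_trichotomy (ord v) (ord w) with h | h | h
          · right; exact ⟨h1, ⟨hne, Or.inl h2⟩, h⟩
          · exact absurd (hord h) hne
          · left; exact ⟨h1, ⟨hne, Or.inl h2⟩, h⟩
        · rcases lt_trichotomy (ord v) (ord w) with h | h | h
          · right; exact ⟨h1, ⟨h2.1, Or.inr h2.2.2⟩, h⟩
          · exact absurd (hord h) h2.1
          · left; exact ⟨h1, ⟨h2.1, Or.inr h2.2.2⟩, h⟩
    · rw [disjoint_left]
      intro w h1 h2
      rw [mem_filter] at h1 h2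
      exact h2.2.2.2.1 h1.2.2
    · rw [disjoint_left]
      intro w h1 h2
      rw [mem_filter] at h1 h2
      omega
  -- counting: no vertex stays unlabelled
  have key : ∀ (v : V) (c d : Fin 4) (p : ℕ), p ≤ 1 → c ≠ d →
      (c = 1 ∧ p = 0 ∧ d = 3 ∨ c = 2 ∧ p = 1 ∧ d = 0) → cls v = c → f v = 20 →
      4 ≤ (univ.filter fun w => cls w = 3 - c ∧ G.Adj v w).card +
        (univ.filter fun w => cls w = d ∧ G.Adj v w).card +
        (univ.filter fun w => cls w = c ∧ Close G v w ∧ ord w < ord v).card := by
    intro v c d p hp hcd hcp hv h20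
    have hcls : ∀ w k, f w = k → 1 ≤ k → k ≤ 8 → (k % 2 = 0 → cls w = 1) ∧
        (k % 2 = 1 → cls w = 2) := by
      intro w k hk h1 h8
      have h4 : cls w = 0 ∨ cls w = 1 ∨ cls w = 2 ∨ cls w = 3 := by
        generalize cls w = c
        fin_cases c <;> simp
      rcases h4 with h | h | h | h
      · have := hf.hA w h; omega
      · rcases hf.hB w h with h' | h'
        · omega
        · exact ⟨fun _ => h, fun _ => by omega⟩
      · rcases hf.hC w h with h' | h'
        · omega
        · exact ⟨fun _ => by omega, fun _ => h⟩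
      · have := hf.hD w h; omega
    have hzero : ∀ w, f w = 0 → cls w = 0 := by
      intro w hw
      have h4 : cls w = 0 ∨ cls w = 1 ∨ cls w = 2 ∨ cls w = 3 := by
        generalize cls w = c
        fin_cases c <;> simp
      rcases h4 with h | h | h | h
      · exact h
      · rcases hf.hB w h with h' | h' <;> omega
      · rcases hf.hC w h with h' | h' <;> omega
      · have := hf.hD w h; omega
    have hnine : ∀ w, f w = 9 → cls w = 3 := by
      intro w hw
      have h4 : cls w = 0 ∨ cls w = 1 ∨ cls w = 2 ∨ cls w = 3 := by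
        generalize cls w = c
        fin_cases c <;> simp
      rcases h4 with h | h | h | h
      · have := hf.hA w h; omega
      · rcases hf.hB w h with h' | h' <;> omega
      · rcases hf.hC w h with h' | h' <;> omega
      · exact h
    set T : Finset V := (univ.filter fun w => cls w = 3 - c ∧ G.Adj v w) ∪
      (univ.filter fun w => cls w = d ∧ G.Adj v w) ∪
      (univ.filter fun w => cls w = c ∧ Close G v w ∧ ord w < ord v) with hT
    have hex : ∀ i : Fin 4, ∃ w ∈ T, (f w + 1 = 2 * i.1 + 2 - p) ∨
        (2 * i.1 + 2 - p = 8 ∧ f w = 9) ∨ (f w = 2 * i.1 + 2 - p) := by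
      intro i
      have hi := i.2
      have hpar : (cls v = 1 ∧ (2 * i.1 + 2 - p) % 2 = 0 ∨
          cls v = 2 ∧ (2 * i.1 + 2 - p) % 2 = 1) := by
        rcases hcp with ⟨h1, h2, _⟩ | ⟨h1, h2, _⟩
        · left; exact ⟨hv.trans h1, by omega⟩
        · right; exact ⟨hv.trans h1, by omega⟩
      rcases hf.full v h20 (2 * i.1 + 2 - p) (by omega) (by omega) hpar with
        ⟨w, h1, h2⟩ | ⟨h0, w, h1, h2⟩ | ⟨w, h1, h2, h3⟩
      · refine ⟨w, ?_, Or.inl h2⟩
        rw [hT, mem_union, mem_union, mem_filter, mem_filter, mem_filter]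
        left
        rcases hcp with ⟨hc, hp', hd⟩ | ⟨hc, hp', hd⟩
        · left
          refine ⟨mem_univ _, ?_, h1⟩
          rw [hc, (hcls w (f w) rfl (by omega) (by omega)).2 (by omega)]
          rfl
        · rcases Nat.eq_zero_or_pos (f w) with h0 | h0
          · right
            exact ⟨mem_univ _, by rw [hzero w h0, hd], h1⟩
          · left
            refine ⟨mem_univ _, ?_, h1⟩
            rw [hc, (hcls w (f w) rfl (by omega) (by omega)).1 (by omega)]
            rfl
      · refine ⟨w, ?_, Or.inr (Or.inl ⟨h0, h2⟩)⟩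
        rw [hT, mem_union, mem_union, mem_filter, mem_filter, mem_filter]
        rcases hcp with ⟨hc, hp', hd⟩ | ⟨hc, hp', hd⟩
        · left; right
          exact ⟨mem_univ _, by rw [hnine w h2, hd], h1⟩
        · omega
      · refine ⟨w, ?_, Or.inr (Or.inr h2)⟩
        rw [hT, mem_union, mem_union, mem_filter, mem_filter, mem_filter]
        right
        refine ⟨mem_univ _, ?_, h1, h3⟩
        rcases hcp with ⟨hc, hp', hd⟩ | ⟨hc, hp', hd⟩
        · rw [hc, (hcls w (f w) rfl (by omega) (by omega)).1 (by omega)]
        · rw [hc, (hcls w (f w) rfl (by omega) (by omega)).2 (by omega)]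
    choose φ hφT hφ using hex
    have hinj : Function.Injective φ := by
      intro i j hij
      have h1 := hφ i
      have h2 := hφ j
      rw [hij] at h1
      have hi := i.2
      have hj := j.2
      have : i.1 = j.1 := by
        rcases hcp with ⟨hc, hp', hd⟩ | ⟨hc, hp', hd⟩
        · rcases h1 with h1 | h1 | h1 <;> rcases h2 with h2 | h2 | h2 <;> omega
        · rcases h1 with h1 | h1 | h1 <;> rcases h2 with h2 | h2 | h2 <;> omega
      exact Fin.ext this
    have hcard : 4 ≤ T.card := by
      have : (univ : Finset (Fin 4)).card ≤ T.card :=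
        card_le_card_of_injOn φ (fun i _ => hφT i) (hinj.injOn)
      simpa using this
    refine hcard.trans ?_
    rw [hT]
    refine (card_union_le _ _).trans ?_
    have := card_union_le (univ.filter fun w => cls w = 3 - c ∧ G.Adj v w)
      (univ.filter fun w => cls w = d ∧ G.Adj v w)
    omega
  have hlab : ∀ v, f v ≠ 20 := by
    intro v h20
    have h4 : cls v = 0 ∨ cls v = 1 ∨ cls v = 2 ∨ cls v = 3 := by
      generalize cls v = c
      fin_cases c <;> simp
    rcases h4 with h | h | h | h
    · have := hf.hA v h; omega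
    · have h1 := key v 1 3 0 (by omega) (by decide) (Or.inl ⟨rfl, rfl, rfl⟩) h h20
      have h2 := hB v h
      have h3 := hsplit 1 v
      have h4 := hsum v
      have h5 : (3 - 1 : Fin 4) = 2 := by decide
      rw [h5] at h1
      omega
    · have h1 := key v 2 0 1 (by omega) (by decide) (Or.inr ⟨rfl, rfl, rfl⟩) h h20
      have h2 := hC v h
      have h3 := hsplit 2 v
      have h4 := hsum v
      have h5 : (3 - 2 : Fin 4) = 1 := by decide
      rw [h5] at h1
      omega
    · have := hf.hD v h; omega
  refine ⟨f, ?_, ?_, ?_⟩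
  · intro v
    have h4 : cls v = 0 ∨ cls v = 1 ∨ cls v = 2 ∨ cls v = 3 := by
      generalize cls v = c
      fin_cases c <;> simp
    rcases h4 with h | h | h | h
    · have := hf.hA v h; omega
    · rcases hf.hB v h with h' | h'
      · exact absurd h' (hlab v)
      · omega
    · rcases hf.hC v h with h' | h'
      · exact absurd h' (hlab v)
      · omega
    · have := hf.hD v h; omega
  · intro u v huv
    have h1 : f u ≠ f v := fun h => hlab u (hf.close u v ⟨G.ne_of_adj huv, Or.inl huv⟩ h)
    have h2 := hf.adj u v huv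
    have h3 := hf.adj v u huv.symm
    rcases le_total (f u) (f v) with h | h
    · rw [abs_sub_comm, abs_of_nonneg (by omega)]
      omega
    · rw [abs_of_nonneg (by omega)]
      omega
  · intro u v w huv h1 h2 h
    exact hlab u (hf.close u v ⟨huv, Or.inr ⟨w, h1, h2⟩⟩ h)

/-- an injective order from a rank function: smaller rank is later -/
theorem exists_order [Fintype V] (rk : V → ℕ) :
    ∃ ord : V → ℕ, Function.Injective ord ∧ ∀ v w, rk w < rk v → ord v < ord w := by
  classical
  obtain ⟨N, hN⟩ : ∃ N, ∀ v, rk v ≤ N :=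
    ⟨univ.sup rk, fun v => le_sup (f := rk) (mem_univ v)⟩
  let e := Fintype.equivFin V
  refine ⟨fun v => (N - rk v) * Fintype.card V + (e v : ℕ), ?_, ?_⟩
  · intro v w h
    have hv := (e v).2
    have hw := (e w).2
    have h1 := congrArg (fun x => x % Fintype.card V) h
    simp only at h1
    rw [Nat.add_comm, Nat.add_mul_mod_self_right, Nat.add_comm ((N - rk w) * _),
      Nat.add_mul_mod_self_right, Nat.mod_eq_of_lt hv, Nat.mod_eq_of_lt hw] at h1
    exact e.injective (Fin.ext h1)
  · intro v w h
    have hv := (e v).2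
    have h1 : N - rk v + 1 ≤ N - rk w := by have := hN v; omega
    have h2 : (N - rk v + 1) * Fintype.card V ≤ (N - rk w) * Fintype.card V :=
      Nat.mul_le_mul_right _ h1
    dsimp only
    rw [Nat.add_mul] at h2
    omega

open Classical in
/-- the four class scheme when every need is at most one and vertices of need one have a
neighbour of smaller rank in their class -/
theorem labelling_of_rank [Fintype V] [DecidableEq V] (G : SimpleGraph V)
    [DecidableRel G.Adj] (hdeg : ∀ v, G.degree v ≤ 3) (cls : V → Fin 4)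
    (rk : V → ℕ)
    (hA : ∀ v w, cls v = 0 → cls w = 0 → ¬ Close G v w)
    (hD : ∀ v w, cls v = 3 → cls w = 3 → ¬ Close G v w)
    (hB : ∀ v, cls v = 1 → (univ.filter fun w => cls w = 1 ∧ Two G v w).card ≤
        (univ.filter fun w => cls w = 0 ∧ G.Adj v w).card ∨
      ((univ.filter fun w => cls w = 1 ∧ Two G v w).card ≤
        (univ.filter fun w => cls w = 0 ∧ G.Adj v w).card + 1 ∧
        ∃ w, cls w = 1 ∧ Close G v w ∧ rk w < rk v))
    (hC : ∀ v, cls v = 2 → (univ.filter fun w => cls w = 2 ∧ Two G v w).card ≤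
        (univ.filter fun w => cls w = 3 ∧ G.Adj v w).card ∨
      ((univ.filter fun w => cls w = 2 ∧ Two G v w).card ≤
        (univ.filter fun w => cls w = 3 ∧ G.Adj v w).card + 1 ∧
        ∃ w, cls w = 2 ∧ Close G v w ∧ rk w < rk v)) :
    ∃ f : V → ℕ, (∀ v, f v ≤ 9) ∧ (∀ u v, G.Adj u v → 2 ≤ |(f u : ℤ) - (f v : ℤ)|) ∧
      (∀ u v w, u ≠ v → G.Adj u w → G.Adj w v → f u ≠ f v) := by
  obtain ⟨ord, hinj, hord⟩ := exists_order rk
  refine labelling_of_order G hdeg cls ord hinj hA hD ?_ ?_
  · intro v hv
    rcases hB v hv with h | ⟨h, w, h1, h2, h3⟩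
    · omega
    · have : 0 < (univ.filter fun w => cls w = 1 ∧ Close G v w ∧ ord v < ord w).card :=
        card_pos.mpr ⟨w, by simp [h1, h2, hord v w h3]⟩
      omega
  · intro v hv
    rcases hC v hv with h | ⟨h, w, h1, h2, h3⟩
    · omega
    · have : 0 < (univ.filter fun w => cls w = 2 ∧ Close G v w ∧ ord v < ord w).card :=
        card_pos.mpr ⟨w, by simp [h1, h2, hord v w h3]⟩
      omega

/-- rank function towards a set of good vertices -/
theorem exists_rank (R : V → V → Prop) (good : V → Prop) :
    ∃ rk : V → ℕ, ∀ v, (∃ r, Relation.ReflTransGen R v r ∧ good r) →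
      good v ∨ ∃ w, R v w ∧ rk w < rk v := by
  classical
  let P : ℕ → V → Prop := fun n => Nat.rec (motive := fun _ => V → Prop) good
    (fun _ Q v => ∃ w, R v w ∧ Q w) n
  have hP : ∀ v, (∃ r, Relation.ReflTransGen R v r ∧ good r) → ∃ n, P n v := by
    rintro v ⟨r, hr, hg⟩
    induction hr using Relation.ReflTransGen.head_induction_on with
    | refl => exact ⟨0, hg⟩
    | head h _ ih =>
      obtain ⟨n, hn⟩ := ih
      exact ⟨n + 1, _, h, hn⟩
  refine ⟨fun v => if h : ∃ n, P n v then Nat.find h else 0, ?_⟩
  intro v hv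
  have h := hP v hv
  have hs := Nat.find_spec h
  rcases hn : Nat.find h with _ | n
  · left
    rw [hn] at hs
    exact hs
  · right
    rw [hn] at hs
    obtain ⟨w, hw, hq⟩ := hs
    refine ⟨w, hw, ?_⟩
    have hw' : ∃ n, P n w := ⟨n, hq⟩
    show (if h : ∃ n, P n w then Nat.find h else 0) < (if h : ∃ n, P n v then Nat.find h else 0)
    rw [dif_pos hw', dif_pos h, hn]
    exact Nat.lt_succ_of_le (Nat.find_min' hw' hq)

open Classical in
/-- **Four class scheme, component form**: every need is at most one and every class component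
(distance at most two inside `B`, inside `C`) contains a vertex of need at most zero. -/
theorem labelling_of_need [Fintype V] [DecidableEq V] (G : SimpleGraph V)
    [DecidableRel G.Adj] (hdeg : ∀ v, G.degree v ≤ 3) (cls : V → Fin 4)
    (hA : ∀ v w, cls v = 0 → cls w = 0 → ¬ Close G v w)
    (hD : ∀ v w, cls v = 3 → cls w = 3 → ¬ Close G v w)
    (hB : ∀ v, cls v = 1 → (univ.filter fun w => cls w = 1 ∧ Two G v w).card ≤
        (univ.filter fun w => cls w = 0 ∧ G.Adj v w).card + 1)
    (hC : ∀ v, cls v = 2 → (univ.filter fun w => cls w = 2 ∧ Two G v w).card ≤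
        (univ.filter fun w => cls w = 3 ∧ G.Adj v w).card + 1)
    (hroot : ∀ v, cls v = 1 ∨ cls v = 2 → ∃ r,
      Relation.ReflTransGen (fun x y => Close G x y ∧ cls y = cls x) v r ∧
      (cls r = 1 ∧ (univ.filter fun w => cls w = 1 ∧ Two G r w).card ≤
        (univ.filter fun w => cls w = 0 ∧ G.Adj r w).card ∨
       cls r = 2 ∧ (univ.filter fun w => cls w = 2 ∧ Two G r w).card ≤
        (univ.filter fun w => cls w = 3 ∧ G.Adj r w).card)) :
    ∃ f : V → ℕ, (∀ v, f v ≤ 9) ∧ (∀ u v, G.Adj u v → 2 ≤ |(f u : ℤ) - (f v : ℤ)|) ∧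
      (∀ u v w, u ≠ v → G.Adj u w → G.Adj w v → f u ≠ f v) := by
  obtain ⟨rk, hrk⟩ := exists_rank (fun x y => Close G x y ∧ cls y = cls x)
    (fun r => cls r = 1 ∧ (univ.filter fun w => cls w = 1 ∧ Two G r w).card ≤
        (univ.filter fun w => cls w = 0 ∧ G.Adj r w).card ∨
       cls r = 2 ∧ (univ.filter fun w => cls w = 2 ∧ Two G r w).card ≤
        (univ.filter fun w => cls w = 3 ∧ G.Adj r w).card)
  refine labelling_of_rank G hdeg cls rk hA hD ?_ ?_
  · intro v hv
    rcases hrk v (hroot v (Or.inl hv)) with (h | h) | ⟨w, ⟨h1, h2⟩, h3⟩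
    · left; exact h.2
    · rw [hv] at h; exact absurd h.1 (by decide)
    · right; exact ⟨hB v hv, w, h2.trans hv, h1, h3⟩
  · intro v hv
    rcases hrk v (hroot v (Or.inr hv)) with (h | h) | ⟨w, ⟨h1, h2⟩, h3⟩
    · rw [hv] at h; exact absurd h.1 (by decide)
    · left; exact h.2
    · right; exact ⟨hC v hv, w, h2.trans hv, h1, h3⟩

end Helper19.L9
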