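import Mathlib.LinearAlgebra.FiniteDimensional.Lemmas
import Mathlib.LinearAlgebra.Dimension.Constructions
import Mathlib.Combinatorics.SimpleGraph.Walk.Counting
import Mathlib.Combinatorics.SimpleGraph.Finite
import Mathlib.Combinatorics.Enumerative.DoubleCounting
import Mathlib.Algebra.Order.BigOperators.Ring.Finset

/-!
# Seymour's lemma: cuts without monochromatic neighbourhoods

`two_colour`: a hypergraph in which every non-empty set `Z'` of vertices contains fewer than
`|Z'|` edges is 2-colourable.  `exists_cut`: in a 3-regular graph, if `D` is a set such that every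
vertex has a walk of odd length to `D`, there is a 2-colouring of the vertices such that no
neighbourhood `N(v)`, `v ∉ D`, is monochromatic.
-/

namespace Helper19.L9

open Finset

theorem two_colour {V ι : Type*} [DecidableEq V] (N : ι → Finset V) (F : Finset ι)
    (hN : ∀ i ∈ F, (N i).Nonempty) :
    ∀ (n : ℕ) (Z : Finset V), Z.card ≤ n →
      (∀ Z' ⊆ Z, Z'.Nonempty → (F.filter (fun i => N i ⊆ Z')).card < Z'.card) →
      ∃ c : V → Bool, ∀ i ∈ F, N i ⊆ Z → ∃ a ∈ N i, ∃ b ∈ N i, c a ≠ c b := by
  intro n
  induction n with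
  | zero =>
    intro Z hZ _
    refine ⟨fun _ => true, fun i hi hsub => ?_⟩
    obtain ⟨a, ha⟩ := hN i hi
    have : Z = ∅ := Finset.card_eq_zero.mp (by omega)
    have h2 := hsub ha
    rw [this] at h2
    simp at h2
  | succ n ih =>
    intro Z hZ hcount
    by_cases hZe : Z = ∅
    · exact ih Z (by rw [hZe]; simp) hcount
    have hZne : Z.Nonempty := Finset.nonempty_iff_ne_empty.mpr hZe
    -- kernel vector
    set F' := F.filter (fun i => N i ⊆ Z) with hF'
    have hlt : F'.card < Z.card := hcount Z (Finset.Subset.refl _) hZne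
    let f : (Z → ℚ) →ₗ[ℚ] (F' → ℚ) :=
      { toFun := fun z i => ∑ v ∈ (N i).attach, if h : (v : V) ∈ Z then z ⟨v, h⟩ else 0
        map_add' := by
          intro z z'; funext i
          simp only [Pi.add_apply]
          rw [← Finset.sum_add_distrib]
          refine Finset.sum_congr rfl fun v _ => ?_
          split_ifs <;> simp
        map_smul' := by
          intro a z; funext i
          simp only [Pi.smul_apply, smul_eq_mul, RingHom.id_apply]
          rw [Finset.mul_sum]
          refine Finset.sum_congr rfl fun v _ => ?_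
          split_ifs <;> simp }
    have hker : LinearMap.ker f ≠ ⊥ := by
      apply LinearMap.ker_ne_bot_of_finrank_lt
      rw [Module.finrank_fintype_fun_eq_card, Module.finrank_fintype_fun_eq_card]
      simpa using hlt
    obtain ⟨z, hz, hz0⟩ := (Submodule.ne_bot_iff _).mp hker
    rw [LinearMap.mem_ker] at hz
    -- extend by zero
    let y : V → ℚ := fun v => if h : v ∈ Z then z ⟨v, h⟩ else 0
    have hy : ∀ i ∈ F, N i ⊆ Z → ∑ v ∈ N i, y v = 0 := by
      intro i hi hsub
      have h1 := congrFun hz ⟨i, by rw [hF', Finset.mem_filter]; exact ⟨hi, hsub⟩⟩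
      have h2 : f z ⟨i, by rw [hF', Finset.mem_filter]; exact ⟨hi, hsub⟩⟩ =
          ∑ v ∈ (N i).attach, y v := rfl
      rw [h2, Finset.sum_attach (N i) (fun v => y v)] at h1
      exact h1
    set Z0 := Z.filter (fun v => y v = 0) with hZ0
    have hZ0lt : Z0.card < Z.card := by
      apply Finset.card_lt_card
      rw [Finset.filter_ssubset]
      by_contra hcon
      push Not at hcon
      apply hz0
      funext v
      have := hcon v.1 v.2
      simp only [y, v.2, dite_true] at this
      exact this
    obtain ⟨c0, hc0⟩ := ih Z0 (by omega)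
      (fun Z' hZ' hne => hcount Z' (hZ'.trans (Finset.filter_subset _ _)) hne)
    refine ⟨fun v => if 0 < y v then true else if y v < 0 then false else c0 v, ?_⟩
    intro i hi hsub
    by_cases hin : N i ⊆ Z0
    · obtain ⟨a, ha, b, hb, hab⟩ := hc0 i hi hin
      refine ⟨a, ha, b, hb, ?_⟩
      have ha0 : y a = 0 := (Finset.mem_filter.mp (hin ha)).2
      have hb0 : y b = 0 := (Finset.mem_filter.mp (hin hb)).2
      simpa [ha0, hb0] using hab
    · have hex : ∃ a ∈ N i, y a ≠ 0 := by
        by_contra hcon
        push Not at hcon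
        exact hin fun a ha => Finset.mem_filter.mpr ⟨hsub ha, hcon a ha⟩
      have hsum := hy i hi hsub
      have hpos : ∃ a ∈ N i, 0 < y a := by
        by_contra hcon
        push Not at hcon
        obtain ⟨a, ha, hane⟩ := hex
        have := Finset.sum_lt_sum hcon ⟨a, ha, lt_of_le_of_ne (hcon a ha) hane⟩
        simp at this
        rw [hsum] at this
        exact lt_irrefl _ this
      have hneg : ∃ a ∈ N i, y a < 0 := by
        by_contra hcon
        push Not at hcon
        obtain ⟨a, ha, hane⟩ := hex
        have := Finset.sum_lt_sum hcon ⟨a, ha, lt_of_le_of_ne (hcon a ha) (Ne.symm hane)⟩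
        simp at this
        rw [hsum] at this
        exact lt_irrefl _ this
      obtain ⟨a, ha, ha1⟩ := hpos
      obtain ⟨b, hb, hb1⟩ := hneg
      refine ⟨a, ha, b, hb, ?_⟩
      simp [ha1, hb1, not_lt.mpr hb1.le]

variable {V : Type*} [Fintype V] [DecidableEq V]

theorem count_lt (G : SimpleGraph V) [DecidableRel G.Adj] (hreg : ∀ v, G.degree v = 3)
    (D : Finset V) (hD : ∀ u, ∃ d ∈ D, ∃ p : G.Walk u d, Odd p.length)
    (Z : Finset V) (hZ : Z.Nonempty) :
    ((univ \ D).filter (fun v => G.neighborFinset v ⊆ Z)).card < Z.card := by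
  set F := (univ \ D).filter (fun v => G.neighborFinset v ⊆ Z) with hF
  by_contra hcon
  push Not at hcon
  -- double counting
  have h1 : ∑ v ∈ F, (Z.filter (fun u => G.Adj v u)).card = ∑ v ∈ F, 3 := by
    refine Finset.sum_congr rfl fun v hv => ?_
    rw [hF, Finset.mem_filter] at hv
    have : Z.filter (fun u => G.Adj v u) = G.neighborFinset v := by
      ext u
      rw [Finset.mem_filter, SimpleGraph.mem_neighborFinset]
      exact ⟨fun h => h.2, fun h => ⟨hv.2 ((SimpleGraph.mem_neighborFinset _ _ _).mpr h), h⟩⟩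
    rw [this, SimpleGraph.card_neighborFinset_eq_degree, hreg]
  have h2 : ∑ v ∈ F, (Z.filter (fun u => G.Adj v u)).card =
      ∑ u ∈ Z, (F.filter (fun v => G.Adj v u)).card := by
    exact Finset.sum_card_bipartiteAbove_eq_sum_card_bipartiteBelow (r := fun v u => G.Adj v u)
  have h3 : ∀ u ∈ Z, (F.filter (fun v => G.Adj v u)).card ≤ 3 := by
    intro u _
    rw [← hreg u, ← SimpleGraph.card_neighborFinset_eq_degree]
    apply Finset.card_le_card
    intro v hv
    rw [SimpleGraph.mem_neighborFinset]
    exact (Finset.mem_filter.mp hv).2.symm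
  have h4 : ∀ u ∈ Z, (F.filter (fun v => G.Adj v u)).card = 3 := by
    have hle : ∑ u ∈ Z, (F.filter (fun v => G.Adj v u)).card ≤ ∑ u ∈ Z, 3 :=
      Finset.sum_le_sum h3
    have hge : ∑ u ∈ Z, 3 ≤ ∑ u ∈ Z, (F.filter (fun v => G.Adj v u)).card := by
      rw [← h2, h1]
      simp only [Finset.sum_const, smul_eq_mul]
      omega
    have heq := le_antisymm hle hge
    exact (Finset.sum_eq_sum_iff_of_le h3).mp heq
  have h5 : ∀ u ∈ Z, ∀ v, G.Adj u v → v ∈ F := by
    intro u hu v huv
    have hsub : F.filter (fun v => G.Adj v u) ⊆ G.neighborFinset u := by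
      intro v hv
      rw [SimpleGraph.mem_neighborFinset]
      exact (Finset.mem_filter.mp hv).2.symm
    have heq : F.filter (fun v => G.Adj v u) = G.neighborFinset u := by
      apply Finset.eq_of_subset_of_card_le hsub
      rw [SimpleGraph.card_neighborFinset_eq_degree, hreg, h4 u hu]
    have : v ∈ G.neighborFinset u := (SimpleGraph.mem_neighborFinset _ _ _).mpr huv
    rw [← heq] at this
    exact (Finset.mem_filter.mp this).1
  have h6 : ∀ v ∈ F, ∀ u, G.Adj v u → u ∈ Z := by
    intro v hv u hvu
    rw [hF, Finset.mem_filter] at hv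
    exact hv.2 ((SimpleGraph.mem_neighborFinset _ _ _).mpr hvu)
  have key : ∀ (a b : V) (p : G.Walk a b),
      (a ∈ Z → Odd p.length → b ∈ F) ∧ (a ∈ F → Even p.length → b ∈ F) := by
    intro a b p
    induction p with
    | nil =>
      refine ⟨fun _ h => ?_, fun h _ => h⟩
      simp at h
    | @cons a c b hac q ih =>
      refine ⟨fun ha hodd => ?_, fun ha heven => ?_⟩
      · rw [SimpleGraph.Walk.length_cons] at hodd
        have : Even q.length := by
          rcases Nat.even_or_odd q.length with h | h
          · exact h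
          · exact absurd hodd (by rw [Nat.not_odd_iff_even]; exact h.add_one)
        exact ih.2 (h5 a ha c hac) this
      · rw [SimpleGraph.Walk.length_cons] at heven
        have : Odd q.length := by
          rcases Nat.even_or_odd q.length with h | h
          · exact absurd heven (by rw [Nat.not_even_iff_odd]; exact h.add_one)
          · exact h
        exact ih.1 (h6 a ha c hac) this
  obtain ⟨u, hu⟩ := hZ
  obtain ⟨d, hd, p, hp⟩ := hD u
  have := (key u d p).1 hu hp
  rw [hF, Finset.mem_filter, Finset.mem_sdiff] at this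
  exact this.1.2 hd

/-- **Seymour's lemma for cubic graphs.** -/
theorem exists_cut (G : SimpleGraph V) [DecidableRel G.Adj] (hreg : ∀ v, G.degree v = 3)
    (D : Finset V) (hD : ∀ u, ∃ d ∈ D, ∃ p : G.Walk u d, Odd p.length) :
    ∃ c : V → Bool, ∀ v ∉ D, ∃ a b, G.Adj v a ∧ G.Adj v b ∧ c a ≠ c b := by
  have hN : ∀ v ∈ (univ \ D), (G.neighborFinset v).Nonempty := by
    intro v _
    rw [← Finset.card_pos, SimpleGraph.card_neighborFinset_eq_degree, hreg]
    norm_num
  obtain ⟨c, hc⟩ := two_colour (fun v => G.neighborFinset v) (univ \ D) hN _ univ le_rfl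
    (fun Z' _ hne => count_lt G hreg D hD Z' hne)
  refine ⟨c, fun v hv => ?_⟩
  obtain ⟨a, ha, b, hb, hab⟩ := hc v (by simp [hv]) (Finset.subset_univ _)
  exact ⟨a, b, (SimpleGraph.mem_neighborFinset _ _ _).mp ha,
    (SimpleGraph.mem_neighborFinset _ _ _).mp hb, hab⟩

end Helper19.L9
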