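import Pool.Agent.helper19.L9.FormCheck

/-!
# Kernel check of the span condition
-/

set_option linter.unusedSimpArgs false

namespace Helper19.Gadget

open MvPolynomial Finset Helper42.L9

variable {n k : ℕ}

/-- block edges and slot edges -/
def GE (own : Fin k → Fin n) (E : List (Fin n × Fin n)) : List (Fin (n + k) × Fin (n + k)) :=
  (List.finRange k).map (fun i => (Fin.castAdd k (own i), Fin.natAdd n i)) ++
    E.map fun e => (Fin.castAdd k e.1, Fin.castAdd k e.2)

/-- indicator of a set of slots -/
noncomputable def ind (n : ℕ) (T : Finset (Fin k)) : Fin (n + k) →₀ ℕ :=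
  ∑ i ∈ T, Finsupp.single (Fin.natAdd n i) 1

theorem ind_natAdd (T : Finset (Fin k)) (i : Fin k) :
    ind n T (Fin.natAdd n i) = @ite _ (i ∈ T) (Classical.dec _) 1 0 := by
  classical
  unfold ind
  rw [Finsupp.finsetSum_apply]
  simp only [Finsupp.single_apply, Fin.natAdd_inj]
  rw [Finset.sum_ite_eq' T i fun _ => 1]
  congr

theorem ind_castAdd (T : Finset (Fin k)) (i : Fin n) : ind n T (Fin.castAdd k i) = 0 := by
  classical
  unfold ind
  rw [Finsupp.finsetSum_apply]
  apply Finset.sum_eq_zero
  intro j _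
  rw [Finsupp.single_apply, if_neg]
  intro h
  have := congrArg Fin.val h
  simp at this
  omega

theorem ind_inj {T T' : Finset (Fin k)} (h : ind n T = ind n T') : T = T' := by
  classical
  ext i
  have := DFunLike.congr_fun h (Fin.natAdd n i)
  rw [ind_natAdd, ind_natAdd] at this
  by_cases h1 : i ∈ T <;> by_cases h2 : i ∈ T' <;> simp [h1, h2] at this ⊢

/-- links to the slot variables -/
def exL (n k : ℕ) : List (Lk k (Fin (n + k))) :=
  (List.finRange k).map fun i => Lk.ext i (Fin.natAdd n i)

theorem sls_exL : sls (exL n k) = List.finRange k := by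
  unfold exL
  generalize List.finRange k = l
  induction l with
  | nil => rfl
  | cons i l ih => rw [List.map_cons, sls_cons, ih]; rfl

theorem kap_exL (T : Finset (Fin k)) : kap (exL n k) T = monomial (ind n T) 1 := by
  classical
  unfold kap exL
  rw [List.map_map]
  have : (List.map (Lk.kp T ∘ fun i => Lk.ext i (Fin.natAdd n i)) (List.finRange k)).prod =
      ∏ i : Fin k, if i ∈ T then (X (Fin.natAdd n i) : MvPolynomial (Fin (n + k)) ℤ) else 1 := by
    rw [Fin.prod_univ_def]
    congr 1
  rw [this, Finset.prod_ite_mem, Finset.univ_inter, ind, monomial_sum_one]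
  refine Finset.prod_congr rfl fun i _ => rfl

theorem coeff_GE (own : Fin k → Fin n) (E : List (Fin n × Fin n)) (μ : Fin n →₀ ℕ)
    (T : Finset (Fin k)) :
    coeff (Finsupp.mapDomain (Fin.castAdd k) μ + ind n T) (ep (GE own E)) = Fc own E μ T := by
  classical
  have hb : Function.Injective (Fin.castAdd k : Fin n → Fin (n + k)) := Fin.castAdd_injective n k
  have hoff : Off (Fin.castAdd k) (exL n k) := by
    intro i o h s hs
    obtain ⟨j, _, hj⟩ := List.mem_map.mp h
    simp only [Lk.ext.injEq] at hj
    rw [← hj.2] at hs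
    have := congrArg Fin.val hs
    simp at this
    omega
  have h1 := coeff_block hb own E (L := exL n k) (by rw [sls_exL]; exact List.nodup_finRange k)
    (fun i => by rw [sls_exL]; exact List.mem_finRange i) hoff (Q := 1)
    (fun i => fr_one _) μ (t := ind n T) (fun i => ind_castAdd T i)
  have e1 : ep (GE own E) = rename (Fin.castAdd k) (ep E) *
      (lp (fun i => X (Fin.castAdd k (own i))) (exL n k) * 1) := by
    unfold ep GE lp exL
    rw [List.map_append, List.prod_append, List.map_map, List.map_map, List.map_map, mul_one,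
      map_list_prod, List.map_map, mul_comm]
    congr 1
    · congr 1
      refine List.map_congr_left fun e _ => ?_
      simp
  rw [e1, h1, mul_one, ev, coeff_sum, Finset.sum_eq_single T]
  · rw [coeff_C_mul, kap_exL, coeff_monomial, if_pos rfl, mul_one]
  · intro T' _ hT'
    rw [coeff_C_mul, kap_exL, coeff_monomial, if_neg, mul_zero]
    intro h; exact hT' (ind_inj h)
  · intro h; exact absurd (Finset.mem_univ T) h

/-! ### the checker -/

/-- caps: block vertices from a list, slots 1 -/
def cp (cl : List ℕ) (i : ℕ) : ℕ := cl.getD i 1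

/-- code of a set of slots -/
noncomputable def tc (T : Finset (Fin k)) : ℕ := ∑ i ∈ T, 8 ^ (i : ℕ)

theorem enc_joint (μ : Fin n →₀ ℕ) (T : Finset (Fin k)) :
    enc (Finsupp.mapDomain (Fin.castAdd k) μ + ind n T) = enc μ + 8 ^ n * tc T := by
  classical
  unfold enc
  rw [Fin.sum_univ_add]
  congr 1
  · refine Finset.sum_congr rfl fun i _ => ?_
    rw [Finsupp.add_apply, ind_castAdd, Finsupp.mapDomain_apply (Fin.castAdd_injective n k)]
    simp
  · unfold tc
    rw [Finset.mul_sum, ← Finset.sum_subset (Finset.subset_univ T)]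
    · refine Finset.sum_congr rfl fun i hi => ?_
      rw [Finsupp.add_apply, ind_natAdd, if_pos hi, Finsupp.mapDomain_of_notMem_range]
      · simp only [zero_add, one_mul, Fin.val_natAdd, pow_add]
      · rintro ⟨j, hj⟩
        have := congrArg Fin.val hj
        simp at this
        omega
    · intro i _ hi
      rw [Finsupp.add_apply, ind_natAdd, if_neg hi, Finsupp.mapDomain_of_notMem_range]
      · simp
      · rintro ⟨j, hj⟩
        have := congrArg Fin.val hj
        simp at this
        omega

theorem enc_lt (μ : Fin n →₀ ℕ) (h : ∀ i, μ i ≤ 7) : enc μ < 8 ^ n := by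
  induction n with
  | zero => simp [enc]
  | succ N ih =>
    have e1 : enc μ = μ 0 + 8 * enc (Finsupp.equivFunOnFinite.symm fun j : Fin N => μ j.succ) := by
      unfold enc
      rw [Fin.sum_univ_succ, Finset.mul_sum]
      congr 1
      · simp
      · refine Finset.sum_congr rfl fun j _ => ?_
        simp only [Fin.val_succ, pow_succ, Finsupp.equivFunOnFinite_symm_apply_apply]
        ring
    have h1 := ih (Finsupp.equivFunOnFinite.symm fun j : Fin N => μ j.succ) (fun j => h j.succ)
    have h2 := h 0
    rw [e1, pow_succ]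
    omega

/-- decode -/
noncomputable def dec (n m : ℕ) : Fin n →₀ ℕ :=
  Finsupp.equivFunOnFinite.symm fun i => m / 8 ^ (i : ℕ) % 8

theorem enc_dec (n m : ℕ) (h : m < 8 ^ n) : enc (dec n m) = m := by
  induction n generalizing m with
  | zero => simp at h; subst h; simp [enc]
  | succ N ih =>
    have e1 : enc (dec (N + 1) m) = m % 8 + 8 * enc (dec N (m / 8)) := by
      unfold enc
      rw [Fin.sum_univ_succ, Finset.mul_sum]
      congr 1
      · simp [dec]
      · refine Finset.sum_congr rfl fun j _ => ?_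
        simp only [Fin.val_succ, pow_succ, dec, Finsupp.equivFunOnFinite_symm_apply_apply]
        rw [mul_comm (8 ^ (j : ℕ)) 8, Nat.div_div_eq_div_mul]
        ring
    rw [e1, ih (m / 8)]
    · omega
    · rw [pow_succ] at h
      omega

theorem dec_enc (μ : Fin n →₀ ℕ) (h : ∀ i, μ i ≤ 7) : dec n (enc μ) = μ := by
  ext i
  rw [dec, Finsupp.equivFunOnFinite_symm_apply_apply, enc_div μ h]

/-- the part with block code `m` -/
def exm (B m : ℕ) : PL → PL
  | [] => []
  | p :: P => if p.1 % B = m then (p.1 / B, p.2) :: exm B m P else exm B m P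

theorem cfL_exm {B m : ℕ} (hm : m < B) (t : ℕ) (P : PL) :
    cfL t (exm B m P) = cfL (m + B * t) P := by
  have hB : 0 < B := by omega
  induction P with
  | nil => rfl
  | cons p P ih =>
    rw [exm]
    split_ifs with h
    · simp only [cfL, ih]
      congr 1
      by_cases ht : p.1 / B = t
      · rw [if_pos ht, if_pos]
        rw [← Nat.mod_add_div p.1 B, h, ht]
      · rw [if_neg ht, if_neg]
        rintro h2
        apply ht
        rw [h2, Nat.add_mul_div_left _ _ hB, Nat.div_eq_of_lt hm, zero_add]
    · simp only [cfL, ih]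
      rw [if_neg, zero_add]
      rintro h2
      apply h
      rw [h2, Nat.add_mul_mod_self_left, Nat.mod_eq_of_lt hm]

/-- scale -/
def scl (s : ℤ) : PL → PL
  | [] => []
  | p :: P => (p.1, s * p.2) :: scl s P

theorem cfL_scl (s : ℤ) (a : ℕ) (P : PL) : cfL a (scl s P) = s * cfL a P := by
  induction P with
  | nil => simp [scl, cfL]
  | cons p P ih => simp only [scl, cfL, ih]; split_ifs <;> ring

/-- combination of forms -/
def comb (B : ℕ) (G : PL) : List (ℕ × ℤ) → PL
  | [] => []
  | q :: Q => mrg (2 * G.length) (scl q.2 (exm B q.1 G)) (comb B G Q)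

theorem cfL_comb {B : ℕ} (G : PL) (t : ℕ) (Q : List (ℕ × ℤ)) (hQ : ∀ q ∈ Q, q.1 < B) :
    cfL t (comb B G Q) = (Q.map fun q => q.2 * cfL (q.1 + B * t) G).sum := by
  induction Q with
  | nil => rfl
  | cons q Q ih =>
    rw [comb, cfL_mrg, cfL_scl, cfL_exm (hQ q List.mem_cons_self),
      ih fun q hq => hQ q (List.mem_cons_of_mem _ hq)]
    simp

theorem cfL_all_zero (P : PL) (h : ∀ p ∈ P, p.2 = 0) (a : ℕ) : cfL a P = 0 := by
  induction P with
  | nil => rfl
  | cons p P ih =>
    rw [cfL, ih fun q hq => h q (List.mem_cons_of_mem _ hq), h p List.mem_cons_self]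
    simp

theorem cfL_none (P : PL) (a : ℕ) (h : ∀ p ∈ P, p.1 ≠ a) : cfL a P = 0 := by
  induction P with
  | nil => rfl
  | cons p P ih =>
    rw [cfL, ih fun q hq => h q (List.mem_cons_of_mem _ hq), if_neg (h p List.mem_cons_self)]
    rfl

/-- digits of `m` are at most the caps -/
def okc (cl : List ℕ) : ℕ → ℕ → Bool
  | 0, _ => true
  | n + 1, m => (m / 8 ^ n % 8 ≤ cp cl n) && okc cl n m

theorem okc_spec {cl : List ℕ} {n m : ℕ} (h : okc cl n m = true) (i : ℕ) (hi : i < n) :
    m / 8 ^ i % 8 ≤ cp cl i := by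
  induction n with
  | zero => omega
  | succ n ih =>
    rw [okc, Bool.and_eq_true, decide_eq_true_eq] at h
    by_cases h2 : i = n
    · subst h2; exact h.1
    · exact ih h.2 (by omega)

/-- check one gadget form -/
def chk1 (cl : List ℕ) (n n' : ℕ) (G G' : PL) (c : ℕ × ℤ × List (ℕ × ℤ)) : Bool :=
  decide (c.2.1 ≠ 0) && decide (c.1 < 8 ^ n') &&
  c.2.2.all (fun q => decide (q.1 < 8 ^ n) && okc cl n q.1) &&
  (mrg (2 * G.length + 2 * G'.length) (scl c.2.1 (exm (8 ^ n') c.1 G'))
    (scl (-1) (comb (8 ^ n) G c.2.2))).all (fun p => decide (p.2 = 0))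

/-- check all gadget forms -/
def chkG (cl : List ℕ) (n n' : ℕ) (G G' : PL) (cert : List (ℕ × ℤ × List (ℕ × ℤ))) : Bool :=
  G'.all (fun p => (cert.map Prod.fst).contains (p.1 % 8 ^ n')) && cert.all (chk1 cl n n' G G')

theorem spans_of_chkG {n' : ℕ} (own : Fin k → Fin n) (E : List (Fin n × Fin n))
    (own' : Fin k → Fin n') (E' : List (Fin n' × Fin n')) (cl cl' : List ℕ)
    (hl : cl.length = n) (hl' : cl'.length = n')
    (h7 : cl.all (· ≤ 7) = true) (h7' : cl'.all (· ≤ 7) = true)
    (cert : List (ℕ × ℤ × List (ℕ × ℤ)))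
    (h : chkG cl n n' (fst (cp cl) ((GE own E).map fun e => ((e.1 : ℕ), (e.2 : ℕ))))
      (fst (cp cl') ((GE own' E').map fun e => ((e.1 : ℕ), (e.2 : ℕ)))) cert = true) :
    Spans own E (fun i => cp cl i) own' E' (fun i => cp cl' i) := by
  classical
  set G := fst (cp cl) ((GE own E).map fun e => ((e.1 : ℕ), (e.2 : ℕ))) with hG
  set G' := fst (cp cl') ((GE own' E').map fun e => ((e.1 : ℕ), (e.2 : ℕ))) with hG'
  have c7 : ∀ (cl : List ℕ), cl.all (· ≤ 7) = true → ∀ i, cp cl i ≤ 7 := by
    intro cl h i
    unfold cp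
    rw [List.getD_eq_getElem?_getD]
    rcases hi : cl[i]? with _ | x
    · simp
    · rw [List.all_eq_true] at h
      have := h x (List.mem_of_getElem? hi)
      simpa using this
  have c1 : ∀ (cl : List ℕ) (i : ℕ), cl.length ≤ i → cp cl i = 1 := by
    intro cl i hi
    unfold cp
    rw [List.getD_eq_getElem?_getD, List.getElem?_eq_none hi]; rfl
  -- forms as coefficients of the lists
  have form : ∀ {m : ℕ} (ow : Fin k → Fin m) (F : List (Fin m × Fin m)) (dl : List ℕ),
      dl.length = m → dl.all (· ≤ 7) = true → ∀ (μ : Fin m →₀ ℕ), (∀ i : Fin m, μ i ≤ cp dl i) →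
      ∀ T : Finset (Fin k), cfL (enc μ + 8 ^ m * tc T)
        (fst (cp dl) ((GE ow F).map fun e => ((e.1 : ℕ), (e.2 : ℕ)))) = Fc ow F μ T := by
    intro m ow F dl hdl h7 μ hμ T
    rw [← enc_joint, cfL_fst (cp dl) (c7 dl h7), coeff_GE]
    intro i
    refine Fin.addCases (fun j => ?_) (fun j => ?_) i
    · rw [Finsupp.add_apply, ind_castAdd, Finsupp.mapDomain_apply (Fin.castAdd_injective m k)]
      simpa using hμ j
    · rw [Finsupp.add_apply, Finsupp.mapDomain_of_notMem_range, ind_natAdd,
        c1 dl _ (by simp [hdl])]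
      · split_ifs <;> simp
      · rintro ⟨l, hl⟩
        have := congrArg Fin.val hl
        simp at this
        omega
  rw [chkG, Bool.and_eq_true, List.all_eq_true, List.all_eq_true] at h
  obtain ⟨hcov, hall⟩ := h
  intro ν hν
  have hν7 : ∀ i : Fin n', ν i ≤ 7 := fun i => (hν i).trans (c7 cl' h7' i)
  by_cases hin : enc ν ∈ cert.map Prod.fst
  · obtain ⟨c, hc, hcν⟩ := List.mem_map.mp hin
    have h1 := hall c hc
    rw [chk1, Bool.and_eq_true, Bool.and_eq_true, Bool.and_eq_true, decide_eq_true_eq,
      decide_eq_true_eq, List.all_eq_true, List.all_eq_true] at h1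
    obtain ⟨⟨⟨hD, hlt⟩, hq⟩, hz⟩ := h1
    have hq1 : ∀ q ∈ c.2.2, q.1 < 8 ^ n := fun q hh => by
      have := hq q hh
      rw [Bool.and_eq_true, decide_eq_true_eq] at this
      exact this.1
    have hq2 : ∀ q ∈ c.2.2, ∀ i : Fin n, dec n q.1 i ≤ cp cl i := fun q hh i => by
      have := hq q hh
      rw [Bool.and_eq_true, decide_eq_true_eq] at this
      rw [dec, Finsupp.equivFunOnFinite_symm_apply_apply]
      exact okc_spec this.2 i i.2
    -- key identity with a list sum
    have key : ∀ T : Finset (Fin k), c.2.1 * Fc own' E' ν T =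
        (c.2.2.map fun q => q.2 * Fc own E (dec n q.1) T).sum := by
      intro T
      have h2 := cfL_all_zero _ (fun p hp => by simpa using hz p hp) (tc T)
      rw [cfL_mrg, cfL_scl, cfL_scl, cfL_exm hlt, cfL_comb G _ _ hq1, hcν,
        form own' E' cl' hl' h7' ν hν T] at h2
      have h3 : (c.2.2.map fun q => q.2 * cfL (q.1 + 8 ^ n * tc T) G).sum =
          (c.2.2.map fun q => q.2 * Fc own E (dec n q.1) T).sum := by
        congr 1
        refine List.map_congr_left fun q hh => ?_
        have h4 := form own E cl hl h7 (dec n q.1) (hq2 q hh) T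
        rw [enc_dec n q.1 (hq1 q hh)] at h4
        rw [hG, h4]
      rw [h3] at h2
      linarith
    -- turn the list sum into a finset sum
    refine ⟨(c.2.2.map fun q => dec n q.1).toFinset,
      fun μ => (c.2.2.map fun q => if dec n q.1 = μ then q.2 else 0).sum, c.2.1, hD, ?_, ?_⟩
    · intro μ hμ i
      rw [List.mem_toFinset, List.mem_map] at hμ
      obtain ⟨q, hq', rfl⟩ := hμ
      exact hq2 q hq' i
    · intro T
      rw [key T]
      have gen : ∀ (l : List (ℕ × ℤ)) (S : Finset (Fin n →₀ ℕ)),
          (∀ q ∈ l, dec n q.1 ∈ S) →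
          (l.map fun q => q.2 * Fc own E (dec n q.1) T).sum =
          ∑ μ ∈ S, (l.map fun q => if dec n q.1 = μ then q.2 else 0).sum * Fc own E μ T := by
        intro l S
        induction l with
        | nil => intro _; simp
        | cons q l ih =>
          intro hS
          rw [List.map_cons, List.sum_cons, ih fun q hq => hS q (List.mem_cons_of_mem _ hq)]
          simp only [List.map_cons, List.sum_cons, add_mul, Finset.sum_add_distrib]
          congr 1
          rw [Finset.sum_eq_single (dec n q.1)]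
          · rw [if_pos rfl]
          · intro μ _ hμ
            rw [if_neg (Ne.symm hμ), zero_mul]
          · intro h; exact absurd (hS q List.mem_cons_self) h
      refine gen _ _ fun q hq => ?_
      rw [List.mem_toFinset, List.mem_map]
      exact ⟨q, hq, rfl⟩
  · refine ⟨∅, fun _ => 0, 1, one_ne_zero, by simp, fun T => ?_⟩
    rw [Finset.sum_empty, one_mul, ← form own' E' cl' hl' h7' ν hν T]
    apply cfL_none
    intro p hp hpe
    apply hin
    have h1 := hcov p hp
    rw [List.contains_iff_mem, hpe, Nat.add_mul_mod_self_left,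
      Nat.mod_eq_of_lt (enc_lt ν hν7)] at h1
    exact h1

end Helper19.Gadget
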