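import Pool.Agent.helper19.L9.SpanCheck

/-!
# Forced evaluation of the span check
-/

set_option linter.unusedSimpArgs false

namespace Helper19.Gadget

/-- force a natural number -/
def frcN (a : ℕ) (f : ℕ → Bool) : Bool :=
  match a with
  | 0 => f 0
  | m + 1 => f (m + 1)

theorem frcN_eq (a : ℕ) (f : ℕ → Bool) : frcN a f = f a := by
  cases a <;> rfl

/-- force an integer -/
def frcZ (z : ℤ) (f : ℤ → Bool) : Bool :=
  match z with
  | .ofNat m => frcN m fun m => f (.ofNat m)
  | .negSucc m => frcN m fun m => f (.negSucc m)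

theorem frcZ_eq (z : ℤ) (f : ℤ → Bool) : frcZ z f = f z := by
  cases z <;> simp [frcZ, frcN_eq]

/-- force a list, the result is reversed -/
def frcR : PL → PL → (PL → Bool) → Bool
  | [], acc, f => f acc
  | p :: P, acc, f => frcN p.1 fun a => frcZ p.2 fun z => frcR P ((a, z) :: acc) f

theorem frcR_eq (P acc : PL) (f : PL → Bool) : frcR P acc f = f (P.reverse ++ acc) := by
  induction P generalizing acc with
  | nil => rfl
  | cons p P ih => simp [frcR, frcN_eq, frcZ_eq, ih]

/-- force a list -/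
def frcL (P : PL) (f : PL → Bool) : Bool :=
  frcR P [] fun Q => frcR Q [] f

theorem frcL_eq (P : PL) (f : PL → Bool) : frcL P f = f P := by
  simp [frcL, frcR_eq]

/-- forced product -/
def fstC (caps : ℕ → ℕ) : List (ℕ × ℕ) → (PL → Bool) → Bool
  | [], f => f [(0, 1)]
  | e :: E, f => fstC caps E fun P => frcL (stp caps e P) f

theorem fstC_eq (caps : ℕ → ℕ) (E : List (ℕ × ℕ)) (f : PL → Bool) :
    fstC caps E f = f (fst caps E) := by
  induction E generalizing f with
  | nil => rfl
  | cons e E ih => simp [fstC, ih, frcL_eq, fst]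

/-- numeric form of the block -/
def gn (n : ℕ) (own : List ℕ) (E : List (ℕ × ℕ)) : List (ℕ × ℕ) :=
  (own.zipIdx.map fun p => (p.1, n + p.2)) ++ E

/-- forced check -/
def chkC (n n' : ℕ) (cl cl' : List ℕ) (g g' : List (ℕ × ℕ))
    (cert : List (ℕ × ℤ × List (ℕ × ℤ))) : Bool :=
  fstC (cp cl) g fun G => fstC (cp cl') g' fun G' => chkG cl n n' G G' cert

theorem spans_of_chkC {n n' k : ℕ} (own : Fin k → Fin n) (E : List (Fin n × Fin n))
    (own' : Fin k → Fin n') (E' : List (Fin n' × Fin n')) (cl cl' : List ℕ)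
    (hl : cl.length = n) (hl' : cl'.length = n')
    (h7 : cl.all (· ≤ 7) = true) (h7' : cl'.all (· ≤ 7) = true)
    (g g' : List (ℕ × ℕ)) (hg : (GE own E).map (fun e => ((e.1 : ℕ), (e.2 : ℕ))) = g)
    (hg' : (GE own' E').map (fun e => ((e.1 : ℕ), (e.2 : ℕ))) = g')
    (cert : List (ℕ × ℤ × List (ℕ × ℤ)))
    (h : chkC n n' cl cl' g g' cert = true) :
    Spans own E (fun i => cp cl i) own' E' (fun i => cp cl' i) := by
  rw [chkC, fstC_eq, fstC_eq] at h
  exact spans_of_chkG own E own' E' cl cl' hl hl' h7 h7' cert (by rw [hg, hg']; exact h)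

end Helper19.Gadget
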