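import Pool.Agent.helper19.L9.KillQ
import Pool.Agent.helper19.L9.NetStep

/-!
# Killer blocks `P5 - P4`

`v1 v2 v3 v4 v5 p u v q` = `0, ..., 8`, the link `v4 u` and the link `v5 p`.
-/

set_option linter.unusedSimpArgs false

namespace Helper19.Twin

open Finset Helper42.L9 Helper33.L9 Helper19.Kill Helper19.Gadget Helper19.DN

variable {V : Type*} {c : V → ℕ} {N : Multiset (Sym2 V)} {k : ℕ}

/-- the edges of the twin block -/
def TW : List (Fin 9 × Fin 9) :=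
  [(0, 1), (1, 2), (2, 3), (3, 4), (0, 2), (1, 3), (2, 4), (5, 6), (6, 7), (7, 8), (5, 7), (6, 8),
    (3, 6), (4, 5)]

/-- the same edges in another order -/
def TW' : List (Fin 9 × Fin 9) := [(0, 1), (0, 2), (1, 2), (1, 3), (2, 3), (2, 4), (3, 4), (3, 6), (4, 5), (5, 6), (5, 7), (6, 7), (6, 8), (7, 8)]

/-- with the links `v2 v5` and `v v1` -/
def TX' : List (Fin 9 × Fin 9) := [(0, 7), (0, 1), (0, 2), (1, 4), (1, 2), (1, 3), (2, 3), (2, 4), (3, 4), (3, 6), (4, 5), (5, 6), (5, 7), (6, 7), (6, 8), (7, 8)]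

/-- slots of the twin block -/
def slT : Fin 9 → ℕ := ![2, 1, 0, 0, 1, 1, 0, 1, 2]

/-- slots if `v2 v5` and `v` is linked on -/
def slX : Fin 9 → ℕ := ![1, 0, 0, 0, 0, 1, 0, 0, 2]

/-- caps -/
def cT : Fin 9 → ℕ := ![2, 3, 3, 3, 2, 2, 3, 3, 2]

def gT : List ((ℕ × ℕ) × Bool × Bool) :=
  [((0, 1), false, false), ((0, 2), true, false), ((1, 2), false, false),
   ((1, 3), true, false), ((2, 3), false, false), ((2, 4), true, false),
   ((3, 4), false, false), ((3, 6), true, false), ((4, 5), true, false),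
   ((5, 6), false, false), ((5, 7), true, false), ((6, 7), false, false),
   ((6, 8), true, false), ((7, 8), true, true)]

def gX : List ((ℕ × ℕ) × Bool × Bool) :=
  [((0, 7), false, false), ((0, 1), false, false), ((0, 2), true, false),
   ((1, 4), false, false), ((1, 2), false, false), ((1, 3), true, false),
   ((2, 3), false, false), ((2, 4), true, false), ((3, 4), false, false),
   ((3, 6), true, false), ((4, 5), true, false), ((5, 6), false, false),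
   ((5, 7), true, false), ((6, 7), false, false), ((6, 8), true, false),
   ((7, 8), true, true)]

def psT : List (ℕ × ℕ) := [(0, 1), (0, 4), (0, 5), (1, 5), (4, 5), (0, 7), (1, 7), (4, 7), (5, 7), (0, 8), (1, 8), (4, 8), (5, 8), (7, 8)]

def psX : List (ℕ × ℕ) := [(0, 5), (0, 8), (5, 8)]

set_option maxRecDepth 100000

def tT : CT :=
  .nd (.nd (.nd (.nd (.nd (.nd (.nd (.nd (.nd (.nd (.nd (.nd (.nd (.nd (.lf 5019280) (.sk (.lf
  23893640))) (.sk (.nd (.lf 5052048) (.sk (.lf 40638152))))) (.sk (.nd (.nd (.lf 21800584)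
  (.sk (.lf 40666824))) (.sk (.sk (.lf 5056144)))))) (.sk (.nd (.nd (.nd (.lf 21796440) (.sk
  (.lf 40670856))) (.sk (.sk (.lf 38540952)))) (.sk (.sk (.sk (.lf 38569624))))))) (.nd (.nd
  (.nd (.nd (.nd (.lf 21796496) (.sk (.lf 40670856))) (.sk (.sk (.lf 5052049)))) (.sk (.sk (.sk
  (.lf 38577800))))) (.sk (.sk (.sk (.sk (.lf 38573656)))))) (.sk (.sk (.sk (.sk (.sk (.lf
  38573712)))))))) (.sk (.nd (.nd (.nd (.sk (.sk (.lf 7149192))) (.sk (.sk (.sk (.lf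
  7153288))))) (.sk (.nd (.sk (.sk (.lf 7149200))) (.sk (.sk (.sk (.lf 7153240))))))) (.nd (.nd
  (.nd (.sk (.sk (.lf 23926408))) (.sk (.sk (.sk (.lf 7153233))))) (.sk (.sk (.sk (.sk (.lf
  7149145)))))) (.sk (.sk (.sk (.sk (.sk (.lf 7149138)))))))))) (.sk (.sk (.nd (.nd (.sk (.nd
  (.sk (.lf 7120520)) (.sk (.sk (.lf 7153288))))) (.sk (.sk (.nd (.sk (.lf 23889560)) (.sk (.sk
  (.lf 7153296))))))) (.nd (.nd (.sk (.nd (.sk (.lf 23897736)) (.sk (.sk (.lf 7153289))))) (.sk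
  (.sk (.sk (.sk (.lf 7120529)))))) (.sk (.sk (.sk (.sk (.sk (.lf 7120522))))))))))) (.sk (.sk
  (.sk (.nd (.sk (.nd (.nd (.sk (.lf 7116376)) (.sk (.sk (.lf 7149144)))) (.sk (.nd (.sk (.lf
  7120472)) (.sk (.sk (.lf 7153240))))))) (.nd (.sk (.nd (.nd (.sk (.lf 23893592)) (.sk (.sk
  (.lf 7149145)))) (.sk (.sk (.sk (.lf 23897688)))))) (.sk (.sk (.sk (.sk (.sk (.lf
  40670808)))))))))))) (.sk (.sk (.sk (.sk (.nd (.nd (.nd (.nd (.sk (.lf 7116432)) (.sk (.sk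
  (.lf 7149200)))) (.sk (.nd (.sk (.lf 23897736)) (.sk (.sk (.lf 7153296)))))) (.sk (.nd (.nd
  (.sk (.lf 23893592)) (.sk (.sk (.lf 40638104)))) (.sk (.sk (.sk (.lf 40666776))))))) (.sk
  (.nd (.nd (.nd (.sk (.lf 23893648)) (.sk (.sk (.lf 7149201)))) (.sk (.sk (.sk (.lf
  40674952))))) (.sk (.sk (.sk (.sk (.lf 40670808))))))))))))) (.sk (.nd (.nd (.sk (.sk (.nd
  (.nd (.sk (.sk (.nd (.lf 5056136) (.sk (.lf 23922376))))) (.sk (.sk (.sk (.nd (.lf 21825176)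
  (.sk (.lf 40699592))))))) (.nd (.nd (.sk (.sk (.nd (.lf 21833352) (.sk (.lf 40699592)))))
  (.sk (.sk (.sk (.sk (.lf 38602392)))))) (.sk (.sk (.sk (.sk (.sk (.lf 38610568)))))))))) (.sk
  (.sk (.sk (.nd (.sk (.sk (.sk (.sk (.lf 7145112))))) (.nd (.sk (.sk (.sk (.sk (.lf
  7145113))))) (.sk (.sk (.sk (.sk (.sk (.lf 40642200)))))))))))) (.sk (.sk (.sk (.sk (.nd (.nd
  (.sk (.sk (.sk (.lf 7153288)))) (.sk (.sk (.sk (.sk (.lf 23922328)))))) (.sk (.nd (.sk (.sk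
  (.sk (.lf 23930504)))) (.sk (.sk (.sk (.sk (.lf 7153241))))))))))))))) (.sk (.sk (.nd (.sk
  (.nd (.sk (.nd (.sk (.nd (.sk (.nd (.lf 5051992) (.sk (.lf 23926408)))) (.sk (.sk (.nd (.lf
  5056088) (.sk (.lf 7153240))))))) (.nd (.sk (.nd (.sk (.nd (.lf 21829208) (.sk (.lf
  40703624)))) (.sk (.sk (.sk (.lf 5056089)))))) (.sk (.sk (.sk (.sk (.sk (.lf 5051994)))))))))
  (.sk (.sk (.nd (.sk (.sk (.sk (.sk (.lf 7145112))))) (.nd (.sk (.sk (.sk (.sk (.lf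
  23922328))))) (.sk (.sk (.sk (.sk (.sk (.lf 7153290)))))))))))) (.sk (.sk (.sk (.sk (.nd (.sk
  (.nd (.sk (.sk (.lf 7149144))) (.sk (.sk (.sk (.lf 7153240)))))) (.sk (.sk (.nd (.sk (.sk
  (.lf 23926360))) (.sk (.sk (.sk (.lf 23930456)))))))))))))))) (.sk (.sk (.sk (.nd (.nd (.nd
  (.sk (.nd (.nd (.nd (.sk (.nd (.lf 5052048) (.sk (.lf 23926408)))) (.sk (.sk (.nd (.lf
  21833352) (.sk (.lf 40699592)))))) (.sk (.nd (.sk (.nd (.lf 21829208) (.sk (.lf 40703617))))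
  (.sk (.sk (.sk (.lf 38602392))))))) (.sk (.nd (.nd (.sk (.nd (.lf 21829264) (.sk (.lf
  40703624)))) (.sk (.sk (.sk (.lf 38610568))))) (.sk (.sk (.sk (.sk (.lf 38606424)))))))))
  (.sk (.sk (.nd (.nd (.sk (.sk (.sk (.lf 7153288)))) (.sk (.sk (.sk (.sk (.lf 7153296))))))
  (.sk (.nd (.sk (.sk (.sk (.lf 7153289)))) (.sk (.sk (.sk (.sk (.lf 23930456))))))))))) (.sk
  (.sk (.sk (.nd (.sk (.nd (.sk (.sk (.lf 7149144))) (.sk (.sk (.sk (.lf 7153240)))))) (.sk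
  (.sk (.nd (.sk (.sk (.lf 23926360))) (.sk (.sk (.sk (.lf 7153178)))))))))))) (.sk (.sk (.sk
  (.sk (.sk (.nd (.nd (.sk (.sk (.lf 7149200))) (.sk (.sk (.sk (.lf 23930504))))) (.sk (.nd
  (.sk (.sk (.lf 23926360))) (.sk (.sk (.sk (.lf 40707720))))))))))))))))) (.sk (.nd (.nd (.sk
  (.nd (.nd (.sk (.nd (.nd (.nd (.sk (.nd (.nd (.lf 5023376) (.sk (.lf 23897736))) (.sk (.nd
  (.lf 5056144) (.sk (.lf 40642248)))))) (.sk (.sk (.nd (.nd (.lf 21800536) (.sk (.lf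
  40674945))) (.sk (.sk (.lf 38545048))))))) (.sk (.nd (.sk (.nd (.nd (.lf 21800592) (.sk (.lf
  40674896))) (.sk (.sk (.lf 5056145))))) (.sk (.sk (.sk (.sk (.lf 38577752)))))))) (.sk (.nd
  (.nd (.sk (.sk (.sk (.lf 7153288)))) (.sk (.sk (.sk (.sk (.lf 7153240)))))) (.sk (.nd (.sk
  (.sk (.sk (.lf 23930504)))) (.sk (.sk (.sk (.sk (.lf 7153241))))))))))) (.sk (.sk (.sk (.nd
  (.sk (.sk (.nd (.sk (.lf 7120472)) (.sk (.sk (.lf 7153240)))))) (.sk (.sk (.sk (.nd (.sk (.lf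
  23897688)) (.sk (.sk (.lf 23930456)))))))))))) (.sk (.sk (.sk (.sk (.sk (.nd (.sk (.nd (.sk
  (.lf 7120528)) (.sk (.sk (.lf 7153296))))) (.sk (.sk (.nd (.sk (.lf 23897688)) (.sk (.sk (.lf
  40642200)))))))))))))) (.sk (.sk (.nd (.sk (.sk (.sk (.nd (.sk (.sk (.sk (.nd (.lf 5056088)
  (.sk (.lf 7153240)))))) (.sk (.sk (.sk (.sk (.nd (.lf 5056089) (.sk (.lf 23930456)))))))))))
  (.sk (.sk (.sk (.sk (.sk (.sk (.sk (.sk (.sk (.lf 7153240)))))))))))))) (.sk (.sk (.sk (.sk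
  (.nd (.sk (.sk (.sk (.nd (.sk (.sk (.nd (.lf 5056144) (.sk (.lf 23930504))))) (.sk (.sk (.sk
  (.nd (.lf 21833304) (.sk (.lf 40703688)))))))))) (.sk (.sk (.sk (.sk (.sk (.sk (.sk (.sk (.lf
  7153240))))))))))))))))) (.sk (.nd (.nd (.sk (.nd (.nd (.sk (.nd (.nd (.nd (.sk (.nd (.nd
  (.nd (.lf 5019288) (.sk (.lf 23893648))) (.sk (.nd (.lf 5052056) (.sk (.lf 40638160))))) (.sk
  (.nd (.nd (.lf 21800592) (.sk (.lf 40666832))) (.sk (.sk (.lf 5056152))))))) (.sk (.sk (.nd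
  (.nd (.nd (.lf 21796504) (.sk (.lf 40670864))) (.sk (.sk (.lf 5052057)))) (.sk (.sk (.sk (.lf
  38577808)))))))) (.sk (.nd (.sk (.nd (.sk (.sk (.lf 7149200))) (.sk (.sk (.sk (.lf
  7153240)))))) (.sk (.sk (.nd (.sk (.sk (.lf 23926416))) (.sk (.sk (.sk (.lf
  23930456)))))))))) (.sk (.sk (.nd (.sk (.sk (.nd (.sk (.lf 7120528)) (.sk (.sk (.lf
  7153296)))))) (.sk (.sk (.sk (.nd (.sk (.lf 23897744)) (.sk (.sk (.lf 7153297))))))))))))
  (.sk (.sk (.sk (.sk (.sk (.sk (.nd (.nd (.sk (.lf 7116314)) (.sk (.sk (.lf 7149082)))) (.sk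
  (.nd (.sk (.lf 23897744)) (.sk (.sk (.lf 7153304))))))))))))) (.sk (.nd (.sk (.sk (.sk (.nd
  (.sk (.sk (.sk (.nd (.lf 5056144) (.sk (.lf 23922384)))))) (.sk (.sk (.sk (.sk (.nd (.lf
  21833360) (.sk (.lf 40642256))))))))))) (.sk (.sk (.sk (.sk (.sk (.sk (.sk (.sk (.sk (.lf
  7153296)))))))))))))) (.sk (.sk (.sk (.sk (.sk (.nd (.sk (.sk (.sk (.nd (.sk (.nd (.lf
  5052056) (.sk (.lf 23926416)))) (.sk (.sk (.nd (.lf 21833360) (.sk (.lf 40699600)))))))))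
  (.sk (.sk (.sk (.sk (.sk (.sk (.sk (.lf 7153296))))))))))))))) (.sk (.sk (.sk (.sk (.sk (.sk
  (.sk (.nd (.sk (.sk (.sk (.nd (.nd (.lf 5023384) (.sk (.lf 23897744))) (.sk (.nd (.lf
  5056152) (.sk (.lf 40642256)))))))) (.sk (.sk (.sk (.sk (.sk (.sk (.lf
  7153296)))))))))))))))))

def tX : CT :=
  .nd (.nd (.nd (.lf 5023433) (.sk (.lf 5056201))) (.sk (.nd (.lf 23897730) (.sk (.lf
  23930498))))) (.sk (.sk (.sk (.lf 7153282))))

theorem chk_T : chkW 9 [2, 3, 3, 3, 2, 2, 3, 3, 2] tT psT gT [2, 1, 0, 0, 1, 1, 0, 1, 2] = true := by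
  decide +kernel

theorem chk_X : chkW 9 [2, 3, 3, 3, 2, 2, 3, 3, 2] tX psX gX [1, 0, 0, 0, 0, 1, 0, 0, 2] = true := by
  decide +kernel

end Helper19.Twin
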