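import Pool.Agent.helper19.L9.TwinCert

/-!
# Killer blocks `P5 - P4`: statements
-/

set_option linter.unusedSimpArgs false

namespace Helper19.Twin

open Finset Helper42.L9 Helper33.L9 Helper19.Kill Helper19.Gadget Helper19.DN

variable {V : Type*} {c : V → ℕ} {N : Multiset (Sym2 V)} {k n : ℕ}

theorem emb_perm {f : Fin n → V} {E E' : List (Fin n × Fin n)} (h : E.Perm E') :
    emb f E = emb f E' := by
  unfold emb
  exact Multiset.coe_eq_coe.mpr (h.map _)

theorem cp_cT (i : Fin 9) : cp [2, 3, 3, 3, 2, 2, 3, 3, 2] i = cT i := by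
  revert i; decide

/-- an inner edge uses slots -/
theorem dg_of_mem {b : Fin n → V} {i j : Fin n} (h : s(b i, b j) ∈ N) :
    dg N (b i) ≠ 0 ∧ dg N (b j) ≠ 0 :=
  ⟨fun h0 => notMem_of_dg h0 _ h (Sym2.mem_mk_left _ _),
    fun h0 => notMem_of_dg h0 _ h (Sym2.mem_mk_right _ _)⟩

/-- **(a)** the twin block, `v2` and `v5` not linked -/
theorem twin_a {b : Fin 9 → V} (hb : Function.Injective b) (hc : ∀ i, cT i ≤ c (b i))
    (hl : ∀ e ∈ N, ¬ e.IsDiag) (hs : ∀ i, dg N (b i) ≤ slT i) (h14 : s(b 1, b 4) ∉ N)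
    (h : AT (outt (img b) N) c) : AT (emb b TW + N) c := by
  rw [emb_perm (show TW.Perm TW' by decide)]
  refine kill_of_chkW b hb [2, 3, 3, 3, 2, 2, 3, 3, 2] (by decide)
    (fun i => by rw [cp_cT]; exact hc i) [2, 1, 0, 0, 1, 1, 0, 1, 2] TW' gT (by decide) N ?_ hl
    psT ?_ tT chk_T h
  · intro i
    refine (hs i).trans ?_
    revert i; decide
  · intro i j hij hm
    have h1 := dg_of_mem hm
    have h2 : slT i ≠ 0 := fun h0 => h1.1 (Nat.le_zero.mp (h0 ▸ hs i))
    have h3 : slT j ≠ 0 := fun h0 => h1.2 (Nat.le_zero.mp (h0 ▸ hs j))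
    have h4 : ¬ (i = 1 ∧ j = 4) := by
      rintro ⟨rfl, rfl⟩
      exact h14 hm
    clear hm h1
    revert i j
    decide

/-- **(b)** the twin block, `v2` and `v5` linked, `v` and `v1` linked -/
theorem twin_b {b : Fin 9 → V} (hb : Function.Injective b) (hc : ∀ i, cT i ≤ c (b i))
    (hl : ∀ e ∈ N, ¬ e.IsDiag) (hs : ∀ i, dg N (b i) ≤ slX i)
    (h : AT (outt (img b) N) c) : AT (emb b ((1, 4) :: (0, 7) :: TW) + N) c := by
  rw [emb_perm (show ((1, 4) :: (0, 7) :: TW).Perm TX' by decide)]
  refine kill_of_chkW b hb [2, 3, 3, 3, 2, 2, 3, 3, 2] (by decide)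
    (fun i => by rw [cp_cT]; exact hc i) [1, 0, 0, 0, 0, 1, 0, 0, 2] TX' gX (by decide) N ?_ hl
    psX ?_ tX chk_X h
  · intro i
    refine (hs i).trans ?_
    revert i; decide
  · intro i j hij hm
    have h1 := dg_of_mem hm
    have h2 : slX i ≠ 0 := fun h0 => h1.1 (Nat.le_zero.mp (h0 ▸ hs i))
    have h3 : slX j ≠ 0 := fun h0 => h1.2 (Nat.le_zero.mp (h0 ▸ hs j))
    clear hm h1
    revert i j
    decide

/-! ### chains of units -/

/-- the vertex before unit `k` : `x` or the `v` of unit `k - 1` -/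
def lst (x : V) (U : ℕ → Fin 4 → V) : ℕ → V
  | 0 => x
  | k + 1 => U k 2

/-- `k` units (`p u v q` = `0 1 2 3`), each `u` is linked to the vertex before the unit -/
noncomputable def chn (x : V) (U : ℕ → Fin 4 → V) : ℕ → Multiset (Sym2 V)
  | 0 => 0
  | k + 1 => chn x U k + (emb (U k) EZ + {s(lst x U k, U k 1)})

/-- **chain elimination**: the whole chain from `x` to `a` is replaced by the edge `x a` -/
theorem chn_elim {x a : V} {U : ℕ → Fin 4 → V} :
    ∀ (k : ℕ), (∀ i < k, ∀ j < k, ∀ s t, U i s = U j t → i = j ∧ s = t) →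
      (∀ i < k, 3 ≤ c (U i 1) ∧ 3 ≤ c (U i 2)) →
      (∀ i < k, x ≠ U i 1 ∧ x ≠ U i 2 ∧ a ≠ U i 1 ∧ a ≠ U i 2) →
      (∀ i < k, dg N (U i 1) = 0 ∧ dg N (U i 2) = 0) →
      AT (s(x, a) ::ₘ N) c → AT (chn x U k + (s(lst x U k, a) ::ₘ N)) c := by
  classical
  intro k
  induction k with
  | zero =>
    intro _ _ _ _ h
    rw [chn, zero_add]
    exact h
  | succ k ih =>
    intro hU hc hx hN h
    have hlt : ∀ i < k, i < k + 1 := fun i hi => by omega
    have hk : k < k + 1 := by omega
    have IH := ih (fun i hi j hj => hU i (hlt i hi) j (hlt j hj)) (fun i hi => hc i (hlt i hi))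
      (fun i hi => hx i (hlt i hi)) (fun i hi => hN i (hlt i hi)) h
    have hz : Function.Injective (U k) := fun s t hst => (hU k hk k hk s t hst).2
    have hlne : ∀ t, t = 1 ∨ t = 2 → lst x U k ≠ U k t := by
      intro t ht
      rcases k with _ | k
      · rcases ht with rfl | rfl
        · exact (hx 0 hk).1
        · exact (hx 0 hk).2.1
      · intro hh
        have := (hU k (by omega) (k + 1) hk 2 t hh).1
        omega
    have hdl : ∀ (m : ℕ), m ≤ k → ∀ t, t = 1 ∨ t = 2 → dg (chn x U m) (U k t) = 0 := by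
      intro m
      induction m with
      | zero => intro _ t _; rw [chn]; exact dg_zero (by simp)
      | succ m ihm =>
        intro hm t ht
        rw [chn, dg_add, dg_add, ihm (by omega) t ht, dg_emb_out]
        · rw [zero_add, zero_add]
          refine dg_zero ?_
          intro e he
          rw [Multiset.mem_singleton] at he
          subst he
          rw [Sym2.mem_iff]
          rintro (h1 | h1)
          · rcases m with _ | m
            · rcases ht with rfl | rfl
              · exact (hx k hk).1 h1.symm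
              · exact (hx k hk).2.1 h1.symm
            · have := (hU k hk m (by omega) t 2 h1).1
              omega
          · have := (hU k hk m (by omega) t 1 h1).1
            omega
        · intro i hi
          have := (hU m (by omega) k hk i t hi).1
          omega
    have e1 : chn x U (k + 1) + (s(lst x U (k + 1), a) ::ₘ N) =
        emb (U k) EZ + (s(U k 1, lst x U k) ::ₘ s(U k 2, a) ::ₘ (chn x U k + N)) := by
      rw [chn, lst, Sym2.eq_swap (a := lst x U k) (b := U k 1)]
      simp only [← Multiset.singleton_add]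
      abel
    rw [e1]
    have hN0 : ∀ t, t = 1 ∨ t = 2 → ∀ e ∈ chn x U k + N, U k t ∉ e := by
      intro t ht
      refine notMem_of_dg ?_
      rw [dg_add, hdl k le_rfl t ht]
      rcases ht with rfl | rfl
      · rw [(hN k hk).1]
      · rw [(hN k hk).2]
    refine lemZ hz (hlne 1 (Or.inl rfl)) (hlne 2 (Or.inr rfl)) (hx k hk).2.2.1 (hx k hk).2.2.2
      (hN0 1 (Or.inl rfl)) (hN0 2 (Or.inr rfl)) (hc k hk).1 (hc k hk).2 ?_
    have e2 : s(lst x U k, a) ::ₘ (chn x U k + N) = chn x U k + (s(lst x U k, a) ::ₘ N) := by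
      simp only [← Multiset.singleton_add]
      abel
    rw [e2]
    exact IH

/-- vertices of degree at most the cap can be removed -/
theorem peel_set (A : Finset V) (hl : ∀ e ∈ N, ¬ e.IsDiag) :
    ∀ B : Finset V, (∀ v ∈ B, dg N v ≤ c v) →
      AT (outt (@Union.union _ (@Finset.instUnion V (Classical.decEq V)) A B) N) c →
      AT (outt A N) c := by
  classical
  intro B
  induction B using Finset.induction_on with
  | empty =>
    intro _ h
    convert h using 2
    ext v; simp
  | insert v B _ ih =>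
    intro hB h
    refine ih (fun w hw => hB w (Finset.mem_insert_of_mem hw)) ?_
    refine AT.peel v _ c (fun e he => hl e (Multiset.mem_of_le (Helper19.Kill.outt_le' _ _) he))
      ((dg_le_of_le (Helper19.Kill.outt_le' _ _) v).trans (hB v (Finset.mem_insert_self _ _))) ?_
    rw [outt_outt]
    convert h using 2
    ext w
    simp only [Finset.mem_union, Finset.mem_singleton, Finset.mem_insert]
    tauto

/-- **(c)** the twin block, `v2` and `v5` linked, a chain of `k` units from `v` to `v1`.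
(`k = 0` : `v` and `v1` are linked.) -/
theorem twin_c {b : Fin 9 → V} (hb : Function.Injective b) (hc : ∀ i, cT i ≤ c (b i))
    {U : ℕ → Fin 4 → V} (k : ℕ)
    (hU : ∀ i < k, ∀ j < k, ∀ s t, U i s = U j t → i = j ∧ s = t)
    (hbU : ∀ i < k, ∀ s t, b s ≠ U i t)
    (hcU : ∀ i < k, 3 ≤ c (U i 1) ∧ 3 ≤ c (U i 2))
    (hl : ∀ e ∈ N, ¬ e.IsDiag) (hs : ∀ i, dg N (b i) ≤ slX i)
    (hN : ∀ i < k, dg N (U i 1) = 0 ∧ dg N (U i 2) = 0)
    (A : Finset V) (hA : ∀ i, b i ∈ A) (hA2 : ∀ v ∈ A, (∀ i, b i ≠ v) → dg N v ≤ c v)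
    (h : AT (outt A N) c) :
    AT (emb b ((1, 4) :: TW) + (chn (b 7) U k + {s(lst (b 7) U k, b 0)}) + N) c := by
  classical
  have e1 : emb b ((1, 4) :: TW) + (chn (b 7) U k + {s(lst (b 7) U k, b 0)}) + N =
      chn (b 7) U k + (s(lst (b 7) U k, b 0) ::ₘ (emb b ((1, 4) :: TW) + N)) := by
    simp only [← Multiset.singleton_add]
    abel
  rw [e1]
  refine chn_elim k hU hcU (fun i hi => ⟨hbU i hi 7 1, hbU i hi 7 2, hbU i hi 0 1, hbU i hi 0 2⟩)
    ?_ ?_
  · intro i hi
    rw [dg_add, dg_add, dg_emb_out fun s => hbU i hi s 1, dg_emb_out fun s => hbU i hi s 2,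
      (hN i hi).1, (hN i hi).2]
    exact ⟨rfl, rfl⟩
  · have e2 : s(b 7, b 0) ::ₘ (emb b ((1, 4) :: TW) + N) =
        emb b ((1, 4) :: (0, 7) :: TW) + N := by
      have h1 : emb b ((1, 4) :: (0, 7) :: TW) = s(b 1, b 4) ::ₘ s(b 0, b 7) ::ₘ emb b TW := rfl
      have h2 : emb b ((1, 4) :: TW) = s(b 1, b 4) ::ₘ emb b TW := rfl
      rw [h1, h2, Sym2.eq_swap (a := b 7) (b := b 0)]
      simp only [← Multiset.singleton_add]
      abel
    rw [e2]
    refine twin_b hb hc hl hs ?_
    refine peel_set (img b) hl (A.filter fun v => ∀ i, b i ≠ v) ?_ ?_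
    · intro v hv
      rw [Finset.mem_filter] at hv
      exact hA2 v hv.1 hv.2
    · convert h using 2
      ext v
      rw [Finset.mem_union, Helper19.DN.mem_img, Finset.mem_filter]
      constructor
      · rintro (⟨i, rfl⟩ | ⟨h1, _⟩)
        · exact hA i
        · exact h1
      · intro h1
        by_cases h2 : ∃ i, b i = v
        · exact Or.inl h2
        · push Not at h2
          exact Or.inr ⟨h1, h2⟩

end Helper19.Twin
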